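import Mathlib
import Pool.Agent.R421.NR.Tur

/-!
# Project EK: moments of additive functions of pairs of integers and of the independent model
-/

set_option autoImplicit false
set_option linter.all false

namespace Pool.Agent.R421.EK

open Finset

open Pool.Agent.R421.NR (cls_sum cnt_cls)

/-- the sum over the pairs of classes -/
noncomputable def SS {R : Type} [AddCommMonoid R] (p : ℕ) (φ : ZMod p → ZMod p → R) : R :=
  ∑ᶠ x, ∑ᶠ y, φ x y

lemma SS_eq {R : Type} [AddCommMonoid R] (p : ℕ) [NeZero p] (φ : ZMod p → ZMod p → R) :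
    SS p φ = ∑ x, ∑ y, φ x y := by
  unfold SS
  rw [finsum_eq_sum_of_fintype]
  exact sum_congr rfl fun x _ => finsum_eq_sum_of_fintype _

/-- pairs of classes modulo the primes of `P` -/
abbrev Om (P : Finset ℕ) : Type := (p : P) → ZMod (p : ℕ) × ZMod (p : ℕ)

/-- the expectation in the model -/
noncomputable def EP (P : Finset ℕ) [∀ p : P, NeZero (p : ℕ)] {R : Type} [Field R]
    (G : Om P → R) : R := (∑ ω, G ω) / ∏ p : P, (((p : ℕ) : R)) ^ 2

section Model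

variable {R : Type} [Field R]

lemma model_prod (P : Finset ℕ) [∀ p : P, NeZero (p : ℕ)]
    (φ : ∀ p : ℕ, ZMod p → ZMod p → R) :
    EP P (fun ω => ∏ p : P, φ p (ω p).1 (ω p).2) = ∏ p : P, (SS p (φ p) / ((p : ℕ) : R) ^ 2) := by
  classical
  unfold EP
  rw [prod_div_distrib]
  congr 1
  have h := Finset.prod_univ_sum (R := R) (fun p : P => (univ : Finset (ZMod (p : ℕ) × ZMod (p : ℕ))))
    (fun (p : P) (v : ZMod (p : ℕ) × ZMod (p : ℕ)) => φ p v.1 v.2)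
  rw [Fintype.piFinset_univ] at h
  rw [← h]
  refine prod_congr rfl fun p _ => ?_
  rw [SS_eq, Fintype.sum_prod_type]

end Model

lemma cop_on (Q : Finset ℕ) (hQ : ∀ p ∈ Q, p.Prime) :
    Pairwise (Function.onFun Nat.Coprime (fun p : Q => (p : ℕ))) := by
  intro p q hpq
  exact (Nat.coprime_primes (hQ p p.2) (hQ q q.2)).2 fun h => hpq (Subtype.ext h)

/-- the average of a product over a box -/
theorem box_prod (Q : Finset ℕ) (hQ : ∀ p ∈ Q, p.Prime) (φ : ∀ p : ℕ, ZMod p → ZMod p → ℝ)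
    (B : ℝ) (hB : ∀ x y : ∀ p : ℕ, ZMod p, |∏ p ∈ Q, φ p (x p) (y p)| ≤ B)
    (a b : ℤ) (K L : ℕ) :
    |∑ t ∈ Ioc a (a + K) ×ˢ Ioc b (b + L), ∏ p ∈ Q, φ p (t.1 : ZMod p) (t.2 : ZMod p) -
      (K : ℝ) * L * ∏ p ∈ Q, (SS p (φ p) / (p : ℝ) ^ 2)| ≤
      B * ((∏ p ∈ Q, (p : ℝ)) * (K + L + ∏ p ∈ Q, (p : ℝ))) := by
  classical
  haveI : ∀ p : Q, NeZero (p : ℕ) := fun p => ⟨(hQ p p.2).ne_zero⟩
  obtain ⟨N, hN⟩ : ∃ N : ℕ, N = ∏ p : Q, (p : ℕ) := ⟨_, rfl⟩
  have hN0 : 0 < N := by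
    rw [hN]
    exact prod_pos fun p _ => (hQ p p.2).pos
  haveI : NeZero N := ⟨hN0.ne'⟩
  have hNr : (0 : ℝ) < N := by exact_mod_cast hN0
  have hNe : ∏ p ∈ Q, (p : ℝ) = N := by
    rw [hN]
    push_cast
    exact (prod_coe_sort Q (fun p : ℕ => (p : ℝ))).symm
  have hdvd : ∀ p ∈ Q, p ∣ N := by
    intro p hp
    rw [hN]
    exact dvd_prod_of_mem (fun p : Q => (p : ℕ)) (mem_univ ⟨p, hp⟩)
  obtain ⟨g, hg⟩ : ∃ g : ZMod N → ZMod N → ℝ, g = fun x y =>
    ∏ p ∈ Q, φ p (x.cast : ZMod p) (y.cast : ZMod p) := ⟨_, rfl⟩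
  have h1 := cls_sum (Ioc a (a + K)) (Ioc b (b + L)) (fun m : ℤ => (m : ZMod N))
    ((K : ℝ) / N) ((L : ℝ) / N) (by positivity) (cnt_cls N hN0 a K) (cnt_cls N hN0 b L) g
  have e1 : ∀ t : ℤ × ℤ, g (t.1 : ZMod N) (t.2 : ZMod N) =
      ∏ p ∈ Q, φ p (t.1 : ZMod p) (t.2 : ZMod p) := by
    intro t
    rw [hg]
    refine prod_congr rfl fun p hp => ?_
    rw [ZMod.cast_intCast (hdvd p hp), ZMod.cast_intCast (hdvd p hp)]
  have e2 : ∑ x, ∑ y, g x y = ∏ p ∈ Q, SS p (φ p) := by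
    subst hN
    have hc := cop_on Q hQ
    obtain ⟨e, he⟩ : ∃ e, e = ZMod.prodEquivPi (fun p : Q => (p : ℕ)) hc := ⟨_, rfl⟩
    have k1 : ∀ x y, g x y = ∏ p : Q, φ p (e x p) (e y p) := by
      intro x y
      rw [hg]
      change ∏ p ∈ Q, φ p (x.cast : ZMod p) (y.cast : ZMod p) = _
      rw [← prod_coe_sort Q (fun p : ℕ => φ p (x.cast : ZMod p) (y.cast : ZMod p))]
      refine prod_congr rfl fun p _ => ?_
      rw [he, ZMod.prodEquivPi_apply, ZMod.prodEquivPi_apply, ZMod.castHom_apply,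
        ZMod.castHom_apply]
    simp_rw [k1]
    refine (Equiv.sum_comp e.toEquiv (fun x' : (p : Q) → ZMod (p : ℕ) =>
      ∑ y, ∏ p : Q, φ p (x' p) (e y p))).trans ?_
    have k2 : ∀ x' : (p : Q) → ZMod (p : ℕ), ∑ y, ∏ p : Q, φ p (x' p) (e y p) =
        ∏ p : Q, ∑ y : ZMod (p : ℕ), φ p (x' p) y := by
      intro x'
      refine (Equiv.sum_comp e.toEquiv (fun y' : (p : Q) → ZMod (p : ℕ) =>
        ∏ p : Q, φ p (x' p) (y' p))).trans ?_
      have h := Finset.prod_univ_sum (R := ℝ) (fun p : Q => (univ : Finset (ZMod (p : ℕ))))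
        (fun (p : Q) (v : ZMod (p : ℕ)) => φ p (x' p) v)
      rw [Fintype.piFinset_univ] at h
      exact h.symm
    simp_rw [k2]
    have h := Finset.prod_univ_sum (R := ℝ) (fun p : Q => (univ : Finset (ZMod (p : ℕ))))
        (fun (p : Q) (v : ZMod (p : ℕ)) => ∑ y : ZMod (p : ℕ), φ p v y)
    rw [Fintype.piFinset_univ] at h
    rw [← h, ← prod_coe_sort Q (fun p : ℕ => SS p (φ p))]
    refine prod_congr rfl fun p _ => ?_
    rw [SS_eq]
  have e3 : ∑ x, ∑ y, |g x y| ≤ B * (N : ℝ) ^ 2 := by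
    have k1 : ∀ x y, |g x y| ≤ B := by
      intro x y
      rw [hg]
      exact hB (fun p => (x.cast : ZMod p)) (fun p => (y.cast : ZMod p))
    calc ∑ x, ∑ y, |g x y| ≤ ∑ x : ZMod N, ∑ y : ZMod N, B :=
          sum_le_sum fun x _ => sum_le_sum fun y _ => k1 x y
      _ = B * (N : ℝ) ^ 2 := by
        rw [sum_const, sum_const, card_univ, ZMod.card, nsmul_eq_mul, nsmul_eq_mul]
        ring
  rw [e2] at h1
  have e4 : ∏ p ∈ Q, (SS p (φ p) / (p : ℝ) ^ 2) = (∏ p ∈ Q, SS p (φ p)) / (N : ℝ) ^ 2 := by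
    rw [prod_div_distrib, prod_pow, hNe]
  rw [hNe, e4]
  have e5 : (K : ℝ) / N * (L / N) * ∏ p ∈ Q, SS p (φ p) =
      K * L * ((∏ p ∈ Q, SS p (φ p)) / (N : ℝ) ^ 2) := by
    field_simp
  rw [e5] at h1
  simp_rw [e1] at h1
  refine h1.trans ?_
  calc (∑ x, ∑ y, |g x y|) * ((K : ℝ) / N + L / N + 1) ≤
        (B * (N : ℝ) ^ 2) * ((K : ℝ) / N + L / N + 1) :=
        mul_le_mul_of_nonneg_right e3 (by positivity)
    _ = B * (N * (K + L + N)) := by
      field_simp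

/-- **the moments** -/
theorem mom (P : Finset ℕ) [∀ p : P, NeZero (p : ℕ)] (hP : ∀ p ∈ P, p.Prime)
    (g : ∀ p : ℕ, ZMod p → ZMod p → ℝ) (c : ℝ) (hc : 1 ≤ c) (hg : ∀ p x y, |g p x y| ≤ c)
    (y : ℕ) (hy : ∀ p ∈ P, p ≤ y) (hy1 : 1 ≤ y) (a b : ℤ) (K L k : ℕ) :
    |∑ t ∈ Ioc a (a + K) ×ˢ Ioc b (b + L),
        (∑ p : P, g p (t.1 : ZMod (p : ℕ)) (t.2 : ZMod (p : ℕ))) ^ k -
      (K : ℝ) * L * EP P (fun ω => (∑ p : P, g p (ω p).1 (ω p).2) ^ k)| ≤
      (c * (y : ℝ) ^ 2) ^ k * (K + L + (y : ℝ) ^ k) := by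
  classical
  have hy1r : (1 : ℝ) ≤ y := by exact_mod_cast hy1
  -- expansion
  have hexp : ∀ u : P → ℝ, (∑ p : P, u p) ^ k = ∑ f : Fin k → P, ∏ i, u (f i) := by
    intro u
    have h := Finset.prod_univ_sum (R := ℝ) (fun _ : Fin k => (univ : Finset P))
      (fun (_ : Fin k) (p : P) => u p)
    rw [Fintype.piFinset_univ, prod_const, card_univ, Fintype.card_fin] at h
    exact h
  obtain ⟨m, hm⟩ : ∃ m : (Fin k → P) → ℕ → ℕ, m = fun f p =>
    (univ.filter (fun i => ((f i : P) : ℕ) = p)).card := ⟨_, rfl⟩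
  obtain ⟨Q, hQ⟩ : ∃ Q : (Fin k → P) → Finset ℕ, Q = fun f =>
    univ.image (fun i => ((f i : P) : ℕ)) := ⟨_, rfl⟩
  have hQP : ∀ f, Q f ⊆ P := by
    intro f p hp
    rw [hQ] at hp
    obtain ⟨i, -, rfl⟩ := mem_image.1 hp
    exact (f i).2
  have hcomp : ∀ (f : Fin k → P) (u : ℕ → ℝ), ∏ i, u ((f i : P) : ℕ) = ∏ p ∈ Q f, u p ^ m f p := by
    intro f u
    rw [hQ, hm]
    exact prod_comp u (fun i => ((f i : P) : ℕ))
  have hm0 : ∀ f p, p ∉ Q f → m f p = 0 := by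
    intro f p hp
    rw [hm]
    change (univ.filter (fun i => ((f i : P) : ℕ) = p)).card = 0
    rw [card_eq_zero, filter_eq_empty_iff]
    intro i _ h
    apply hp
    rw [hQ]
    exact mem_image.2 ⟨i, mem_univ i, h⟩
  have hsm : ∀ f, ∑ p ∈ Q f, m f p = k := by
    intro f
    rw [hQ, hm]
    have := card_eq_sum_card_image (fun i => ((f i : P) : ℕ)) (univ : Finset (Fin k))
    rw [card_univ, Fintype.card_fin] at this
    exact this.symm
  have hcard : ∀ f, (Q f).card ≤ k := by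
    intro f
    rw [hQ]
    refine card_image_le.trans (le_of_eq ?_)
    rw [card_univ, Fintype.card_fin]
  have hprodN : ∀ f, ∏ p ∈ Q f, (p : ℝ) ≤ (y : ℝ) ^ k := by
    intro f
    calc ∏ p ∈ Q f, (p : ℝ) ≤ ∏ p ∈ Q f, (y : ℝ) :=
          prod_le_prod (fun p _ => Nat.cast_nonneg p) fun p hp => by
            exact_mod_cast hy p (hQP f hp)
      _ = (y : ℝ) ^ (Q f).card := prod_const _
      _ ≤ _ := pow_le_pow_right₀ hy1r (hcard f)
  -- one function
  have hone : ∀ f : Fin k → P, |∑ t ∈ Ioc a (a + K) ×ˢ Ioc b (b + L),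
      ∏ i, g (f i) (t.1 : ZMod ((f i : P) : ℕ)) (t.2 : ZMod ((f i : P) : ℕ)) -
      (K : ℝ) * L * EP P (fun ω => ∏ i, g (f i) (ω (f i)).1 (ω (f i)).2)| ≤
      c ^ k * ((y : ℝ) ^ k * (K + L + (y : ℝ) ^ k)) := by
    intro f
    obtain ⟨φ, hφ⟩ : ∃ φ : ∀ p : ℕ, ZMod p → ZMod p → ℝ, φ = fun p x y => g p x y ^ m f p :=
      ⟨_, rfl⟩
    have h1 := box_prod (Q f) (fun p hp => hP p (hQP f hp)) φ (c ^ k) (by
      intro x y
      rw [abs_prod]
      calc ∏ p ∈ Q f, |φ p (x p) (y p)| ≤ ∏ p ∈ Q f, c ^ m f p :=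
            prod_le_prod (fun p _ => abs_nonneg _) fun p _ => by
              rw [hφ]
              change |g p (x p) (y p) ^ m f p| ≤ _
              rw [abs_pow]
              exact pow_le_pow_left₀ (abs_nonneg _) (hg p _ _) _
        _ = c ^ k := by rw [prod_pow_eq_pow_sum, hsm]) a b K L
    have e1 : ∀ t : ℤ × ℤ, ∏ i, g (f i) (t.1 : ZMod ((f i : P) : ℕ)) (t.2 : ZMod ((f i : P) : ℕ)) =
        ∏ p ∈ Q f, φ p (t.1 : ZMod p) (t.2 : ZMod p) := by
      intro t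
      rw [hφ]
      exact hcomp f (fun p => g p (t.1 : ZMod p) (t.2 : ZMod p))
    have e2 : EP P (fun ω => ∏ i, g (f i) (ω (f i)).1 (ω (f i)).2) =
        ∏ p ∈ Q f, (SS p (φ p) / (p : ℝ) ^ 2) := by
      have k1 : ∀ ω : Om P, ∏ i, g (f i) (ω (f i)).1 (ω (f i)).2 =
          ∏ p : P, φ p (ω p).1 (ω p).2 := by
        intro ω
        have k2 := prod_comp (s := (univ : Finset (Fin k)))
          (fun p : P => g p (ω p).1 (ω p).2) f
        rw [k2, hφ]
        rw [← prod_subset (subset_univ (univ.image f))]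
        · refine prod_congr rfl fun p _ => ?_
          rw [hm]
          change g p (ω p).1 (ω p).2 ^ _ = g p (ω p).1 (ω p).2 ^ _
          congr 2
          ext i
          simp only [mem_filter, mem_univ, true_and]
          exact Subtype.ext_iff
        · intro p _ hp
          have : m f (p : ℕ) = 0 := by
            apply hm0
            intro h'
            rw [hQ] at h'
            obtain ⟨i, -, hi⟩ := mem_image.1 h'
            exact hp (mem_image.2 ⟨i, mem_univ i, Subtype.ext hi⟩)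
          change g p (ω p).1 (ω p).2 ^ m f (p : ℕ) = 1
          rw [this, pow_zero]
      simp_rw [k1]
      rw [model_prod, prod_coe_sort P (fun p : ℕ => SS p (φ p) / (p : ℝ) ^ 2)]
      refine (prod_subset (hQP f) fun p hp hn => ?_).symm
      haveI : NeZero p := ⟨(hP p hp).ne_zero⟩
      have hp0 : (p : ℝ) ≠ 0 := by exact_mod_cast (hP p hp).ne_zero
      have : SS p (φ p) = (p : ℝ) ^ 2 := by
        rw [SS_eq, hφ]
        simp only [hm0 f p hn, pow_zero, sum_const, card_univ, ZMod.card, nsmul_eq_mul]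
        ring
      rw [this]
      exact div_self (pow_ne_zero 2 hp0)
    simp_rw [e1]
    rw [e2]
    refine h1.trans (mul_le_mul_of_nonneg_left ?_ (by positivity))
    have h2 := hprodN f
    have h3 : (0 : ℝ) ≤ ∏ p ∈ Q f, (p : ℝ) := prod_nonneg fun p _ => Nat.cast_nonneg p
    exact mul_le_mul h2 (by linarith) (by positivity) (by positivity)
  have hL : ∑ t ∈ Ioc a (a + K) ×ˢ Ioc b (b + L),
        (∑ p : P, g p (t.1 : ZMod (p : ℕ)) (t.2 : ZMod (p : ℕ))) ^ k =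
      ∑ f : Fin k → P, ∑ t ∈ Ioc a (a + K) ×ˢ Ioc b (b + L),
      ∏ i, g (f i) (t.1 : ZMod ((f i : P) : ℕ)) (t.2 : ZMod ((f i : P) : ℕ)) := by
    rw [sum_comm]
    exact sum_congr rfl fun t _ => hexp _
  have hR : EP P (fun ω => (∑ p : P, g p (ω p).1 (ω p).2) ^ k) =
      ∑ f : Fin k → P, EP P (fun ω => ∏ i, g (f i) (ω (f i)).1 (ω (f i)).2) := by
    unfold EP
    rw [← sum_div, sum_comm]
    congr 1
    exact sum_congr rfl fun ω _ => hexp (fun p : P => g p (ω p).1 (ω p).2)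
  rw [hL, hR, mul_sum, ← sum_sub_distrib]
  refine (abs_sum_le_sum_abs _ _).trans ((sum_le_sum fun f _ => hone f).trans ?_)
  rw [sum_const, card_univ, Fintype.card_fun, Fintype.card_fin, Fintype.card_coe, nsmul_eq_mul]
  have hPc : (P.card : ℝ) ≤ y := by
    have h1 : P ⊆ Icc 1 y := by
      intro p hp
      rw [mem_Icc]
      exact ⟨(hP p hp).one_lt.le, hy p hp⟩
    have h2 := card_le_card h1
    rw [Nat.card_Icc, Nat.add_sub_cancel] at h2
    exact_mod_cast h2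
  push_cast
  have h1 : (P.card : ℝ) ^ k ≤ (y : ℝ) ^ k := pow_le_pow_left₀ (Nat.cast_nonneg _) hPc k
  calc (P.card : ℝ) ^ k * (c ^ k * ((y : ℝ) ^ k * (K + L + (y : ℝ) ^ k))) ≤
        (y : ℝ) ^ k * (c ^ k * ((y : ℝ) ^ k * (K + L + (y : ℝ) ^ k))) :=
        mul_le_mul_of_nonneg_right h1 (by positivity)
    _ = (c * (y : ℝ) ^ 2) ^ k * (K + L + (y : ℝ) ^ k) := by
      rw [mul_pow, ← pow_mul, pow_mul', pow_two]
      ring

end Pool.Agent.R421.EK
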