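import Mathlib
import Pool.Agent.R421.EK.Mom

/-!
# Project EK: the exponential function and moments
-/

set_option autoImplicit false
set_option linter.all false

namespace Pool.Agent.R421.EK

open Finset Complex

/-- the remainder -/
noncomputable def Rm (n : ℕ) (x : ℝ) : ℂ := cexp (x * I) - ∑ m ∈ range n, ((x : ℂ) * I) ^ m / (m.factorial : ℂ)

lemma Rm_deriv (n : ℕ) (x : ℝ) : HasDerivAt (Rm (n + 1)) (I * Rm n x) x := by
  have h0 : HasDerivAt (fun y : ℝ => (y : ℂ) * I) I x := by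
    have := (Complex.ofRealCLM.hasDerivAt (x := x)).mul_const I
    simpa using this
  have h1 : HasDerivAt (fun y : ℝ => cexp ((y : ℂ) * I)) (cexp ((x : ℂ) * I) * I) x := h0.cexp
  have h2 : HasDerivAt (fun y : ℝ => ∑ m ∈ range (n + 1), ((y : ℂ) * I) ^ m / (m.factorial : ℂ))
      (∑ m ∈ range (n + 1), ((m : ℂ) * ((x : ℂ) * I) ^ (m - 1) * I) / (m.factorial : ℂ)) x := by
    have h3 : ∀ m ∈ range (n + 1), HasDerivAt
        (fun y : ℝ => ((y : ℂ) * I) ^ m / (m.factorial : ℂ))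
        (((m : ℂ) * ((x : ℂ) * I) ^ (m - 1) * I) / (m.factorial : ℂ)) x := by
      intro m _
      exact (h0.pow m).div_const _
    exact HasDerivAt.fun_sum h3
  have h4 := h1.sub h2
  refine h4.congr_deriv ?_
  unfold Rm
  rw [sum_range_succ']
  have e : ∀ m ∈ range n, (((m + 1 : ℕ) : ℂ) * ((x : ℂ) * I) ^ (m + 1 - 1) * I) /
      ((m + 1).factorial : ℂ) = I * (((x : ℂ) * I) ^ m / (m.factorial : ℂ)) := by
    intro m _
    rw [Nat.add_sub_cancel, Nat.factorial_succ]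
    have h5 : ((m + 1 : ℕ) : ℂ) ≠ 0 := by exact_mod_cast Nat.succ_ne_zero m
    have h6 : (m.factorial : ℂ) ≠ 0 := by exact_mod_cast m.factorial_ne_zero
    push_cast at h5 ⊢
    field_simp
  rw [sum_congr rfl e, ← mul_sum]
  simp only [Nat.cast_zero, zero_mul, zero_div, add_zero]
  ring

lemma Rm_zero (n : ℕ) : Rm (n + 1) 0 = 0 := by
  unfold Rm
  rw [sum_range_succ']
  simp

lemma Rm_nonneg (n : ℕ) : ∀ x : ℝ, 0 ≤ x → ‖Rm n x‖ ≤ x ^ n / n.factorial := by
  induction n with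
  | zero =>
    intro x hx
    unfold Rm
    rw [range_zero, sum_empty, sub_zero, Complex.norm_exp_ofReal_mul_I]
    simp
  | succ n ih =>
    intro x hx
    have hB : ∀ y : ℝ, HasDerivAt (fun y : ℝ => y ^ (n + 1) / ((n + 1).factorial : ℝ))
        (y ^ n / (n.factorial : ℝ)) y := by
      intro y
      have h1 := (hasDerivAt_pow (n + 1) y).div_const ((n + 1).factorial : ℝ)
      refine h1.congr_deriv ?_
      rw [Nat.add_sub_cancel, Nat.factorial_succ]
      have h5 : ((n + 1 : ℕ) : ℝ) ≠ 0 := by exact_mod_cast Nat.succ_ne_zero n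
      have h6 : (n.factorial : ℝ) ≠ 0 := by exact_mod_cast n.factorial_ne_zero
      push_cast at h5 ⊢
      field_simp
    refine image_norm_le_of_norm_deriv_right_le_deriv_boundary (a := 0) (b := x)
      (f := Rm (n + 1)) (f' := fun y => I * Rm n y) ?_ ?_
      (B := fun y : ℝ => y ^ (n + 1) / ((n + 1).factorial : ℝ))
      (B' := fun y : ℝ => y ^ n / (n.factorial : ℝ)) ?_ hB ?_ ?_
    · exact fun y _ => (Rm_deriv n y).continuousAt.continuousWithinAt
    · exact fun y _ => (Rm_deriv n y).hasDerivWithinAt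
    · rw [Rm_zero, norm_zero]
      positivity
    · intro y hy
      rw [norm_mul, Complex.norm_I, one_mul]
      exact ih y hy.1
    · exact ⟨hx, le_rfl⟩

lemma Rm_neg (n : ℕ) (x : ℝ) : ‖Rm n (-x)‖ = ‖Rm n x‖ := by
  have h : Rm n (-x) = (starRingEnd ℂ) (Rm n x) := by
    unfold Rm
    rw [map_sub, map_sum, ← Complex.exp_conj]
    congr 1
    · congr 1
      rw [map_mul, Complex.conj_ofReal, Complex.conj_I]
      push_cast
      ring
    · refine sum_congr rfl fun m _ => ?_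
      rw [map_div₀, map_pow, map_mul, Complex.conj_ofReal, Complex.conj_I, Complex.conj_natCast]
      congr 2
      push_cast
      ring
  rw [h]
  exact RCLike.norm_conj _

theorem tay (n : ℕ) (x : ℝ) : ‖Rm n x‖ ≤ |x| ^ n / n.factorial := by
  rcases le_total 0 x with hx | hx
  · rw [abs_of_nonneg hx]
    exact Rm_nonneg n x hx
  · rw [abs_of_nonpos hx, ← Rm_neg]
    exact Rm_nonneg n (-x) (by linarith)

lemma exp_eq_Rm (n : ℕ) (x : ℝ) :
    cexp (x * I) = ∑ m ∈ range n, (x : ℂ) ^ m * (I ^ m / (m.factorial : ℂ)) + Rm n x := by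
  unfold Rm
  have : ∑ m ∈ range n, (x : ℂ) ^ m * (I ^ m / (m.factorial : ℂ)) =
      ∑ m ∈ range n, ((x : ℂ) * I) ^ m / (m.factorial : ℂ) :=
    sum_congr rfl fun m _ => by rw [mul_pow]; ring
  rw [this]
  ring

/-- one side -/
lemma cf_one {α : Type} (s : Finset α) (u : α → ℝ) (W : ℝ) (hW : 0 < W) (N : ℕ) (hN : Even N) :
    ‖(∑ t ∈ s, cexp (u t * I)) / W -
      ∑ m ∈ range N, (((∑ t ∈ s, u t ^ m) / W : ℝ) : ℂ) * (I ^ m / (m.factorial : ℂ))‖ ≤
      (∑ t ∈ s, u t ^ N) / W / N.factorial := by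
  have hWc : (W : ℂ) ≠ 0 := by exact_mod_cast hW.ne'
  have e1 : (∑ t ∈ s, cexp (u t * I)) / W -
      ∑ m ∈ range N, (((∑ t ∈ s, u t ^ m) / W : ℝ) : ℂ) * (I ^ m / (m.factorial : ℂ)) =
      (∑ t ∈ s, Rm N (u t)) / W := by
    have e2 : ∑ t ∈ s, cexp (u t * I) =
        ∑ m ∈ range N, ((∑ t ∈ s, u t ^ m : ℝ) : ℂ) * (I ^ m / (m.factorial : ℂ)) +
        ∑ t ∈ s, Rm N (u t) := by
      rw [sum_congr rfl fun t _ => exp_eq_Rm N (u t), sum_add_distrib, sum_comm]
      congr 1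
      refine sum_congr rfl fun m _ => ?_
      push_cast
      rw [sum_mul]
    rw [e2, add_div, sum_div]
    have e3 : ∀ m ∈ range N, ((∑ t ∈ s, u t ^ m : ℝ) : ℂ) * (I ^ m / (m.factorial : ℂ)) / W =
        (((∑ t ∈ s, u t ^ m) / W : ℝ) : ℂ) * (I ^ m / (m.factorial : ℂ)) := by
      intro m _
      push_cast
      ring
    rw [sum_congr rfl e3]
    ring
  rw [e1, norm_div, Complex.norm_real, Real.norm_eq_abs, abs_of_pos hW, div_right_comm]
  refine div_le_div_of_nonneg_right ?_ hW.le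
  refine (norm_sum_le _ _).trans ?_
  rw [sum_div]
  refine sum_le_sum fun t _ => (tay N (u t)).trans (le_of_eq ?_)
  rw [hN.pow_abs]

/-- comparison of two averages of `exp (i u)` with the help of the moments -/
theorem cf_cmp {α β : Type} (s : Finset α) (t : Finset β) (u : α → ℝ) (v : β → ℝ) (W V : ℝ)
    (hW : 0 < W) (hV : 0 < V) (N : ℕ) (hN : Even N) (η : ℝ) (hη : 0 ≤ η)
    (h : ∀ m ≤ N, |(∑ x ∈ s, u x ^ m) / W - (∑ x ∈ t, v x ^ m) / V| ≤ η) :
    ‖(∑ x ∈ s, cexp (u x * I)) / W - (∑ x ∈ t, cexp (v x * I)) / V‖ ≤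
      (N + 1) * η + 2 * ((∑ x ∈ t, v x ^ N) / V / N.factorial) := by
  have h1 := cf_one s u W hW N hN
  have h2 := cf_one t v V hV N hN
  obtain ⟨A, hA⟩ : ∃ A, A = (∑ x ∈ s, cexp (u x * I)) / W := ⟨_, rfl⟩
  obtain ⟨B, hB⟩ : ∃ B, B = (∑ x ∈ t, cexp (v x * I)) / V := ⟨_, rfl⟩
  rw [← hA] at h1 ⊢
  rw [← hB] at h2 ⊢
  obtain ⟨P, hP⟩ : ∃ P, P = ∑ m ∈ range N, (((∑ x ∈ s, u x ^ m) / W : ℝ) : ℂ) *
    (I ^ m / (m.factorial : ℂ)) := ⟨_, rfl⟩
  obtain ⟨Q, hQ⟩ : ∃ Q, Q = ∑ m ∈ range N, (((∑ x ∈ t, v x ^ m) / V : ℝ) : ℂ) *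
    (I ^ m / (m.factorial : ℂ)) := ⟨_, rfl⟩
  rw [← hP] at h1
  rw [← hQ] at h2
  have h3 : ‖P - Q‖ ≤ N * η := by
    rw [hP, hQ, ← sum_sub_distrib]
    refine (norm_sum_le _ _).trans ?_
    have : ∀ m ∈ range N, ‖(((∑ x ∈ s, u x ^ m) / W : ℝ) : ℂ) * (I ^ m / (m.factorial : ℂ)) -
        (((∑ x ∈ t, v x ^ m) / V : ℝ) : ℂ) * (I ^ m / (m.factorial : ℂ))‖ ≤ η := by
      intro m hm
      rw [← sub_mul, ← Complex.ofReal_sub, norm_mul, Complex.norm_real, norm_div, norm_pow,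
        Complex.norm_I, one_pow, Complex.norm_natCast, Real.norm_eq_abs]
      have g1 := h m (mem_range.1 hm).le
      have g2 : (1 : ℝ) / m.factorial ≤ 1 := by
        rw [div_le_one (by exact_mod_cast m.factorial_pos)]
        exact_mod_cast m.factorial_pos
      have g3 : (0 : ℝ) ≤ 1 / m.factorial := by positivity
      calc _ ≤ η * 1 := mul_le_mul g1 g2 g3 hη
        _ = η := mul_one η
    refine (sum_le_sum this).trans (le_of_eq ?_)
    rw [sum_const, card_range, nsmul_eq_mul]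
  have h4 : (∑ x ∈ s, u x ^ N) / W / N.factorial ≤
      η + (∑ x ∈ t, v x ^ N) / V / N.factorial := by
    have g1 := (abs_le.1 (h N le_rfl)).2
    have g2 : (∑ x ∈ s, u x ^ N) / W ≤ η + (∑ x ∈ t, v x ^ N) / V := by linarith
    have g4 : (1 : ℝ) ≤ N.factorial := by exact_mod_cast N.factorial_pos
    have g3 : (∑ x ∈ s, u x ^ N) / W / N.factorial ≤
        (η + (∑ x ∈ t, v x ^ N) / V) / N.factorial :=
      div_le_div_of_nonneg_right g2 (by positivity)
    rw [add_div] at g3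
    have g5 : η / N.factorial ≤ η := div_le_self hη g4
    linarith
  have e : A - B = (A - P) + (P - Q) - (B - Q) := by ring
  rw [e]
  refine (norm_sub_le _ _).trans ?_
  have h5 := norm_add_le (A - P) (P - Q)
  linarith

end Pool.Agent.R421.EK
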