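import Mathlib
import Pool.Agent.R421.EK.Tay

/-!
# Project EK: the independent model
-/

set_option autoImplicit false
set_option linter.all false

namespace Pool.Agent.R421.EK

open Finset Complex

lemma SS_zero_sub {R : Type} [Ring R] (p : ℕ) [NeZero p] (φ ψ : ZMod p → ZMod p → R) :
    SS p (fun x y => φ x y - ψ x y) = SS p φ - SS p ψ := by
  rw [SS_eq, SS_eq, SS_eq, ← sum_sub_distrib]
  exact sum_congr rfl fun x _ => sum_sub_distrib _ _

lemma SS_const {R : Type} [Ring R] (p : ℕ) [NeZero p] (r : R) :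
    SS p (fun _ _ => r) = (p : R) ^ 2 * r := by
  rw [SS_eq]
  simp only [sum_const, card_univ, ZMod.card, nsmul_eq_mul]
  rw [pow_two, mul_assoc]

/-- one prime -/
lemma one_cf (p : ℕ) [NeZero p] (g : ZMod p → ZMod p → ℝ) (c : ℝ) (hc : 0 ≤ c)
    (hg : ∀ x y, |g x y| ≤ c) (h0 : SS p g = 0) (V : ℝ)
    (hV : V = SS p (fun x y => g x y ^ 2) / (p : ℝ) ^ 2) (σ : ℝ) (hσ : 0 < σ)
    (h1 : V / (2 * σ ^ 2) ≤ 1) :
    ‖SS p (fun x y => cexp (((g x y / σ : ℝ) : ℂ) * I)) / (p : ℂ) ^ 2 -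
      ((Real.exp (-(V / (2 * σ ^ 2))) : ℝ) : ℂ)‖ ≤ c * V / σ ^ 3 + (V / σ ^ 2) ^ 2 := by
  have hp : (0 : ℝ) < p := by
    have := NeZero.pos p
    exact_mod_cast this
  have hpc : (p : ℂ) ≠ 0 := by exact_mod_cast hp.ne'
  have hV0 : 0 ≤ V := by
    rw [hV, SS_eq]
    exact div_nonneg (sum_nonneg fun x _ => sum_nonneg fun y _ => sq_nonneg _) (by positivity)
  have hSV : SS p (fun x y => g x y ^ 2) = V * (p : ℝ) ^ 2 := by
    rw [hV]
    field_simp
  rw [SS_eq] at h0 hSV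
  -- the decomposition
  have e1 : SS p (fun x y => cexp (((g x y / σ : ℝ) : ℂ) * I)) =
      (p : ℂ) ^ 2 * (((1 - V / (2 * σ ^ 2) : ℝ)) : ℂ) + ∑ x, ∑ y, Rm 3 (g x y / σ) := by
    rw [SS_eq]
    have e2 : ∀ x y, cexp (((g x y / σ : ℝ) : ℂ) * I) =
        (((1 - g x y ^ 2 / (2 * σ ^ 2) : ℝ)) : ℂ) + ((g x y : ℝ) : ℂ) * (I / σ) +
          Rm 3 (g x y / σ) := by
      intro x y
      unfold Rm
      have hs : (σ : ℂ) ≠ 0 := by exact_mod_cast hσ.ne'
      simp only [sum_range_succ, range_zero, sum_empty, Nat.factorial]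
      push_cast
      have hI := Complex.I_sq
      field_simp
      ring_nf
      rw [hI]
      ring
    simp_rw [e2, sum_add_distrib]
    congr 1
    have e3 : ∑ x : ZMod p, ∑ y : ZMod p, ((g x y : ℝ) : ℂ) * (I / σ) = 0 := by
      have : ∑ x : ZMod p, ∑ y : ZMod p, ((g x y : ℝ) : ℂ) * (I / σ) =
          ((∑ x : ZMod p, ∑ y : ZMod p, g x y : ℝ) : ℂ) * (I / σ) := by
        push_cast
        simp only [sum_mul]
      rw [this, h0]
      simp
    rw [e3, add_zero]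
    have e4 : ∑ x : ZMod p, ∑ y : ZMod p, (((1 - g x y ^ 2 / (2 * σ ^ 2) : ℝ)) : ℂ) =
        ((∑ x : ZMod p, ∑ y : ZMod p, (1 - g x y ^ 2 / (2 * σ ^ 2)) : ℝ) : ℂ) := by
      push_cast
      rfl
    have e5 : ∑ x : ZMod p, ∑ y : ZMod p, (1 - g x y ^ 2 / (2 * σ ^ 2)) =
        (p : ℝ) ^ 2 * (1 - V / (2 * σ ^ 2)) := by
      simp only [sum_sub_distrib, sum_const, card_univ, ZMod.card, nsmul_eq_mul, mul_one,
        ← sum_div]
      rw [hSV]
      ring
    rw [e4, e5]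
    push_cast
    ring
  have e6 : SS p (fun x y => cexp (((g x y / σ : ℝ) : ℂ) * I)) / (p : ℂ) ^ 2 -
      ((Real.exp (-(V / (2 * σ ^ 2))) : ℝ) : ℂ) =
      (∑ x, ∑ y, Rm 3 (g x y / σ)) / (p : ℂ) ^ 2 -
      (((Real.exp (-(V / (2 * σ ^ 2))) - 1 - (-(V / (2 * σ ^ 2))) : ℝ)) : ℂ) := by
    rw [e1]
    push_cast
    field_simp
    ring
  rw [e6]
  refine (norm_sub_le _ _).trans (add_le_add ?_ ?_)
  · rw [norm_div, norm_pow, Complex.norm_natCast, div_le_iff₀ (by positivity)]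
    refine (norm_sum_le _ _).trans ?_
    calc ∑ x : ZMod p, ‖∑ y : ZMod p, Rm 3 (g x y / σ)‖ ≤
          ∑ x : ZMod p, ∑ y : ZMod p, c * g x y ^ 2 / σ ^ 3 := by
          refine sum_le_sum fun x _ => (norm_sum_le _ _).trans (sum_le_sum fun y _ => ?_)
          refine (tay 3 _).trans ?_
          have k1 : |g x y / σ| ^ 3 = |g x y| * g x y ^ 2 / σ ^ 3 := by
            rw [abs_div, abs_of_pos hσ, div_pow, ← sq_abs (g x y)]
            ring
          rw [k1]
          have k2 : (0 : ℝ) ≤ |g x y| * g x y ^ 2 / σ ^ 3 := by positivity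
          have k3 : |g x y| * g x y ^ 2 / σ ^ 3 / (Nat.factorial 3 : ℝ) ≤
              |g x y| * g x y ^ 2 / σ ^ 3 := by
            apply div_le_self k2
            norm_num [Nat.factorial]
          refine k3.trans ?_
          apply div_le_div_of_nonneg_right _ (by positivity)
          exact mul_le_mul_of_nonneg_right (hg x y) (sq_nonneg _)
      _ = c * V / σ ^ 3 * (p : ℝ) ^ 2 := by
        simp only [← sum_div, ← mul_sum]
        rw [hSV]
        ring
  · rw [Complex.norm_real, Real.norm_eq_abs]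
    have k1 : |(-(V / (2 * σ ^ 2)))| ≤ 1 := by
      rw [abs_neg, abs_of_nonneg (by positivity)]
      exact h1
    refine (Real.abs_exp_sub_one_sub_id_le k1).trans ?_
    rw [neg_sq]
    apply pow_le_pow_left₀ (by positivity)
    apply div_le_div_of_nonneg_left hV0 (by positivity)
    nlinarith [sq_nonneg σ]

/-- comparison of products -/
lemma prod_cmp {ι : Type} (s : Finset ι) (a b : ι → ℂ) (ha : ∀ i ∈ s, ‖a i‖ ≤ 1)
    (hb : ∀ i ∈ s, ‖b i‖ ≤ 1) : ‖∏ i ∈ s, a i - ∏ i ∈ s, b i‖ ≤ ∑ i ∈ s, ‖a i - b i‖ := by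
  classical
  induction s using Finset.induction_on with
  | empty => simp
  | insert i s hi ih =>
    rw [prod_insert hi, prod_insert hi, sum_insert hi]
    have h1 := ih (fun j hj => ha j (mem_insert_of_mem hj)) (fun j hj => hb j (mem_insert_of_mem hj))
    have e : a i * ∏ j ∈ s, a j - b i * ∏ j ∈ s, b j =
        (a i - b i) * ∏ j ∈ s, a j + b i * (∏ j ∈ s, a j - ∏ j ∈ s, b j) := by ring
    rw [e]
    refine (norm_add_le _ _).trans ?_
    rw [norm_mul, norm_mul]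
    have h2 : ‖∏ j ∈ s, a j‖ ≤ 1 := by
      rw [norm_prod]
      exact prod_le_one (fun j _ => norm_nonneg _) fun j hj => ha j (mem_insert_of_mem hj)
    have h3 := hb i (mem_insert_self i s)
    have h4 := norm_nonneg (a i - b i)
    have h5 := norm_nonneg (∏ j ∈ s, a j - ∏ j ∈ s, b j)
    nlinarith

/-- one prime: the exponential moment -/
lemma one_exp (p : ℕ) [NeZero p] (g : ZMod p → ZMod p → ℝ) (c : ℝ)
    (hg : ∀ x y, |g x y| ≤ c) (h0 : SS p g = 0) (V : ℝ)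
    (hV : V = SS p (fun x y => g x y ^ 2) / (p : ℝ) ^ 2) (l : ℝ) (hl : |l| * c ≤ 1) :
    SS p (fun x y => Real.exp (l * g x y)) / (p : ℝ) ^ 2 ≤ Real.exp (l ^ 2 * V) := by
  have hp : (0 : ℝ) < p := by
    have := NeZero.pos p
    exact_mod_cast this
  have hSV : SS p (fun x y => g x y ^ 2) = V * (p : ℝ) ^ 2 := by
    rw [hV]
    field_simp
  rw [SS_eq] at h0 hSV
  have h1 : SS p (fun x y => Real.exp (l * g x y)) ≤ (p : ℝ) ^ 2 * (1 + l ^ 2 * V) := by
    rw [SS_eq]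
    calc ∑ x : ZMod p, ∑ y : ZMod p, Real.exp (l * g x y) ≤
          ∑ x : ZMod p, ∑ y : ZMod p, (1 + l * g x y + l ^ 2 * g x y ^ 2) := by
          refine sum_le_sum fun x _ => sum_le_sum fun y _ => ?_
          have k1 : |l * g x y| ≤ 1 := by
            rw [abs_mul]
            exact (mul_le_mul_of_nonneg_left (hg x y) (abs_nonneg l)).trans hl
          have k2 := (abs_le.1 (Real.abs_exp_sub_one_sub_id_le k1)).2
          rw [mul_pow] at k2
          linarith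
      _ = (p : ℝ) ^ 2 * (1 + l ^ 2 * V) := by
        simp only [sum_add_distrib, ← mul_sum, sum_const, card_univ, ZMod.card, nsmul_eq_mul,
          mul_one]
        rw [h0, hSV]
        ring
  have h2 : SS p (fun x y => Real.exp (l * g x y)) / (p : ℝ) ^ 2 ≤ 1 + l ^ 2 * V := by
    rw [div_le_iff₀ (by positivity)]
    linarith
  refine h2.trans ?_
  have := Real.add_one_le_exp (l ^ 2 * V)
  linarith

section

variable (P : Finset ℕ) [∀ p : P, NeZero (p : ℕ)] (g : ∀ p : ℕ, ZMod p → ZMod p → ℝ)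

/-- the additive function of the model -/
noncomputable def Fm (ω : Om P) : ℝ := ∑ p : P, g p (ω p).1 (ω p).2

/-- the number of elements of the model -/
noncomputable def Vm : ℝ := ∏ p : P, ((p : ℕ) : ℝ) ^ 2

lemma Vm_pos : 0 < Vm P := prod_pos fun p _ => by
  have h := NeZero.pos (p : ℕ)
  have : (0 : ℝ) < ((p : ℕ) : ℝ) := by exact_mod_cast h
  positivity

theorem mdl_cf (c : ℝ) (hc : 0 ≤ c) (hg : ∀ p x y, |g p x y| ≤ c) (h0 : ∀ p ∈ P, SS p (g p) = 0)
    (V : ℕ → ℝ) (hV : ∀ p ∈ P, V p = SS p (fun x y => g p x y ^ 2) / (p : ℝ) ^ 2)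
    (σ : ℝ) (hσ : 0 < σ) (h1 : ∀ p ∈ P, V p / (2 * σ ^ 2) ≤ 1) :
    ‖(∑ ω : Om P, cexp (((Fm P g ω / σ : ℝ) : ℂ) * I)) / Vm P -
      ((Real.exp (-((∑ p ∈ P, V p) / (2 * σ ^ 2))) : ℝ) : ℂ)‖ ≤
      ∑ p ∈ P, (c * V p / σ ^ 3 + (V p / σ ^ 2) ^ 2) := by
  classical
  have e1 : (∑ ω : Om P, cexp (((Fm P g ω / σ : ℝ) : ℂ) * I)) / Vm P =
      ∏ p : P, (SS p (fun x y => cexp (((g p x y / σ : ℝ) : ℂ) * I)) / ((p : ℕ) : ℂ) ^ 2) := by
    rw [← model_prod P (fun p x y => cexp (((g p x y / σ : ℝ) : ℂ) * I))]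
    unfold EP Vm
    push_cast
    congr 1
    refine sum_congr rfl fun ω _ => ?_
    rw [← Complex.exp_sum]
    congr 1
    unfold Fm
    push_cast
    rw [sum_div, sum_mul]
  have e2 : ((Real.exp (-((∑ p ∈ P, V p) / (2 * σ ^ 2))) : ℝ) : ℂ) =
      ∏ p : P, ((Real.exp (-(V p / (2 * σ ^ 2))) : ℝ) : ℂ) := by
    rw [← Complex.ofReal_prod, ← Real.exp_sum]
    congr 2
    rw [sum_neg_distrib, ← sum_div, sum_coe_sort P V]
  rw [e1, e2]
  refine (prod_cmp univ _ _ ?_ ?_).trans ?_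
  · intro p _
    have h := NeZero.pos (p : ℕ)
    have hp : (0 : ℝ) < ((p : ℕ) : ℝ) := by exact_mod_cast h
    rw [norm_div, norm_pow, Complex.norm_natCast, div_le_one (by positivity), SS_eq]
    refine (norm_sum_le _ _).trans ((sum_le_sum fun x _ => (norm_sum_le _ _).trans
      (sum_le_sum fun y _ => (Complex.norm_exp_ofReal_mul_I _).le)).trans (le_of_eq ?_))
    simp only [sum_const, card_univ, ZMod.card, nsmul_eq_mul, mul_one]
    ring
  · intro p _
    rw [Complex.norm_real, Real.norm_eq_abs, abs_of_pos (Real.exp_pos _), Real.exp_le_one_iff]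
    have hVp : 0 ≤ V p := by
      rw [hV p p.2, SS_eq]
      exact div_nonneg (sum_nonneg fun x _ => sum_nonneg fun y _ => sq_nonneg _) (by positivity)
    have : 0 ≤ V p / (2 * σ ^ 2) := by positivity
    linarith
  · rw [← sum_coe_sort P (fun p => c * V p / σ ^ 3 + (V p / σ ^ 2) ^ 2)]
    exact sum_le_sum fun p _ => one_cf p (g p) c hc (hg p) (h0 p p.2) (V p) (hV p p.2) σ hσ
      (h1 p p.2)

theorem mdl_exp (c : ℝ) (hg : ∀ p x y, |g p x y| ≤ c) (h0 : ∀ p ∈ P, SS p (g p) = 0)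
    (V : ℕ → ℝ) (hV : ∀ p ∈ P, V p = SS p (fun x y => g p x y ^ 2) / (p : ℝ) ^ 2)
    (l : ℝ) (hl : |l| * c ≤ 1) :
    (∑ ω : Om P, Real.exp (l * Fm P g ω)) / Vm P ≤ Real.exp (l ^ 2 * ∑ p ∈ P, V p) := by
  classical
  have e1 : (∑ ω : Om P, Real.exp (l * Fm P g ω)) / Vm P =
      ∏ p : P, (SS p (fun x y => Real.exp (l * g p x y)) / ((p : ℕ) : ℝ) ^ 2) := by
    rw [← model_prod P (fun p x y => Real.exp (l * g p x y))]
    unfold EP Vm
    congr 1
    refine sum_congr rfl fun ω _ => ?_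
    beta_reduce
    rw [← Real.exp_sum]
    congr 1
    unfold Fm
    rw [mul_sum]
  have e2 : Real.exp (l ^ 2 * ∑ p ∈ P, V p) = ∏ p : P, Real.exp (l ^ 2 * V p) := by
    rw [← Real.exp_sum]
    congr 1
    rw [← mul_sum, sum_coe_sort P V]
  rw [e1, e2]
  refine prod_le_prod (fun p _ => ?_) fun p _ => one_exp p (g p) c (hg p) (h0 p p.2) (V p)
    (hV p p.2) l hl
  rw [SS_eq]
  exact div_nonneg (sum_nonneg fun x _ => sum_nonneg fun y _ => (Real.exp_pos _).le)
    (by positivity)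

/-- the even moments of the model -/
theorem mdl_mom (c : ℝ) (hg : ∀ p x y, |g p x y| ≤ c) (h0 : ∀ p ∈ P, SS p (g p) = 0)
    (V : ℕ → ℝ) (hV : ∀ p ∈ P, V p = SS p (fun x y => g p x y ^ 2) / (p : ℝ) ^ 2)
    (σ : ℝ) (hσ : 0 < σ) (hl : 2 * c ≤ σ) (N : ℕ) (hN : Even N) :
    (∑ ω : Om P, (Fm P g ω / σ) ^ N) / Vm P / N.factorial ≤
      2 * (1 / 2) ^ N * Real.exp (4 * (∑ p ∈ P, V p) / σ ^ 2) := by
  classical
  have hVm := Vm_pos P
  have h1 := mdl_exp P g c hg h0 V hV (2 / σ) (by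
    rw [abs_of_pos (by positivity), div_mul_eq_mul_div, div_le_one hσ]
    exact hl)
  have h2 := mdl_exp P g c hg h0 V hV (-(2 / σ)) (by
    rw [abs_neg, abs_of_pos (by positivity), div_mul_eq_mul_div, div_le_one hσ]
    exact hl)
  have e1 : (2 / σ) ^ 2 * ∑ p ∈ P, V p = 4 * (∑ p ∈ P, V p) / σ ^ 2 := by
    rw [div_pow]
    ring
  rw [neg_sq] at h2
  rw [e1] at h1 h2
  have h3 : ∀ x : ℝ, x ^ N / N.factorial ≤
      (1 / 2) ^ N * (Real.exp (2 * x) + Real.exp (-(2 * x))) := by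
    intro x
    have k1 := Real.pow_div_factorial_le_exp (x := |2 * x|) (abs_nonneg _) N
    rw [hN.pow_abs, mul_pow] at k1
    have k2 : Real.exp |2 * x| ≤ Real.exp (2 * x) + Real.exp (-(2 * x)) := by
      rcases abs_cases (2 * x) with ⟨h, _⟩ | ⟨h, _⟩
      · rw [h]
        have := Real.exp_pos (-(2 * x))
        linarith
      · rw [h]
        have := Real.exp_pos (2 * x)
        linarith
    have k3 : x ^ N / N.factorial = (1 / 2) ^ N * (2 ^ N * x ^ N / N.factorial) := by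
      rw [← mul_div_assoc, ← mul_assoc, ← mul_pow]
      norm_num
    rw [k3]
    exact mul_le_mul_of_nonneg_left (k1.trans k2) (by positivity)
  have h4 : (∑ ω : Om P, (Fm P g ω / σ) ^ N) / Vm P / N.factorial ≤
      (1 / 2) ^ N * ((∑ ω : Om P, Real.exp (2 / σ * Fm P g ω)) / Vm P +
        (∑ ω : Om P, Real.exp (-(2 / σ) * Fm P g ω)) / Vm P) := by
    rw [div_right_comm, sum_div, ← add_div, ← sum_add_distrib, ← mul_div_assoc, mul_sum]
    refine div_le_div_of_nonneg_right (sum_le_sum fun ω _ => ?_) hVm.le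
    refine (h3 _).trans (le_of_eq ?_)
    congr 2
    · congr 1
      ring
    · congr 1
      ring
  refine h4.trans ?_
  have h5 : (0 : ℝ) ≤ (1 / 2) ^ N := by positivity
  nlinarith

end

end Pool.Agent.R421.EK
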