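import Mathlib
import Pool.Agent.R421.EK.Mdl
import Pool.Agent.R421.NR.Dens

/-!
# Project EK: the characteristic function of an additive function in boxes
-/

set_option autoImplicit false
set_option linter.all false

namespace Pool.Agent.R421.EK

open Finset Complex

open Pool.Agent.W262.RK (PS)

open Pool.Agent.R421.NR (yT yT_pow loglog_yT yT_large big_ll turan sum_inv_sq)

lemma iter_ok (n z : ℕ) : ∃ T0 : ℕ, ∀ T, T0 ≤ T → z < yT^[n] T ∧ (yT^[n] T) ^ (4 ^ n) ≤ T ∧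
    Real.log (Real.log (yT^[n] T : ℕ)) ≤ Real.log (Real.log T) ∧
    Real.log (Real.log T) ≤ Real.log (Real.log (yT^[n] T : ℕ)) + 3 * n := by
  induction n with
  | zero =>
    refine ⟨z + 1, fun T hT => ⟨?_, ?_, ?_, ?_⟩⟩
    · simp only [Function.iterate_zero, id]
      omega
    · simp
    · simp
    · simp
  | succ n ih =>
    obtain ⟨T0, h⟩ := ih
    refine ⟨(T0 + 1) ^ 4 + 81, fun T hT => ?_⟩
    have h1 : T0 < yT T := yT_large T0 (by omega)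
    obtain ⟨a1, a2, a3, a4⟩ := h (yT T) h1.le
    obtain ⟨b1, b2⟩ := loglog_yT (T := T) (by omega)
    rw [Function.iterate_succ_apply]
    refine ⟨a1, ?_, a3.trans b1, ?_⟩
    · rw [pow_succ, pow_mul]
      exact (Nat.pow_le_pow_left a2 4).trans (yT_pow T)
    · push_cast
      linarith

/-- the mean -/
noncomputable def mu (m : ℝ) (p : ℕ) : ℝ := m * ((p : ℝ) - 1) / (p : ℝ) ^ 2

/-- the centred function -/
noncomputable def gc (h : ∀ p : ℕ, ZMod p → ZMod p → ℝ) (m : ℝ) : ∀ p : ℕ, ZMod p → ZMod p → ℝ :=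
  fun p x y => h p x y - mu m p

/-- the variance -/
noncomputable def VV (v m : ℝ) (p : ℕ) : ℝ := v * ((p : ℝ) - 1) / (p : ℝ) ^ 2 - mu m p ^ 2

lemma mu_abs (m : ℝ) (p : ℕ) : |mu m p| ≤ |m| := by
  unfold mu
  rcases Nat.eq_zero_or_pos p with rfl | hp
  · simp
  · have hp1 : (1 : ℝ) ≤ p := by exact_mod_cast hp
    rw [mul_div_assoc, abs_mul]
    refine mul_le_of_le_one_right (abs_nonneg m) ?_
    rw [abs_of_nonneg (div_nonneg (by linarith) (by positivity)), div_le_one (by positivity)]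
    nlinarith

section

variable (h : ∀ p : ℕ, ZMod p → ZMod p → ℝ) (m v : ℝ)

lemma gc_abs {c : ℝ} (hb : ∀ p x y, |h p x y| ≤ c) (hm : |m| ≤ c) (p : ℕ) (x y : ZMod p) :
    |gc h m p x y| ≤ 2 * c := by
  unfold gc
  have h1 := hb p x y
  have h2 := (mu_abs m p).trans hm
  have h3 := abs_sub (h p x y) (mu m p)
  linarith

lemma gc_zero {p : ℕ} (hp : p.Prime) (hS : SS p (h p) = m * ((p : ℝ) - 1)) :
    SS p (gc h m p) = 0 := by
  haveI : NeZero p := ⟨hp.ne_zero⟩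
  have hp0 : (p : ℝ) ≠ 0 := by exact_mod_cast hp.ne_zero
  unfold gc
  rw [SS_zero_sub, SS_const, hS]
  unfold mu
  field_simp
  ring

lemma gc_sq {p : ℕ} (hp : p.Prime) (hS : SS p (h p) = m * ((p : ℝ) - 1))
    (hS2 : SS p (fun x y => h p x y ^ 2) = v * ((p : ℝ) - 1)) :
    VV v m p = SS p (fun x y => gc h m p x y ^ 2) / (p : ℝ) ^ 2 := by
  haveI : NeZero p := ⟨hp.ne_zero⟩
  have hp0 : (p : ℝ) ≠ 0 := by exact_mod_cast hp.ne_zero
  rw [SS_eq] at hS hS2 ⊢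
  have e : ∑ x : ZMod p, ∑ y : ZMod p, gc h m p x y ^ 2 =
      v * ((p : ℝ) - 1) - 2 * mu m p * (m * ((p : ℝ) - 1)) + (p : ℝ) ^ 2 * mu m p ^ 2 := by
    rw [← hS, ← hS2]
    have e1 : ∀ x y : ZMod p, gc h m p x y ^ 2 =
        h p x y ^ 2 - 2 * mu m p * h p x y + mu m p ^ 2 := by
      intro x y
      unfold gc
      ring
    simp only [e1, sum_add_distrib, sum_sub_distrib, ← mul_sum, sum_const, card_univ, ZMod.card,
      nsmul_eq_mul]
    ring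
  rw [e]
  unfold VV mu
  field_simp
  ring

lemma VV_le {p : ℕ} (hp : p.Prime) (hv : 0 ≤ v) : VV v m p ≤ v / p ∧ VV v m p ≤ v := by
  have hp1 : (1 : ℝ) ≤ p := by exact_mod_cast hp.one_lt.le
  have h1 : VV v m p ≤ v / p := by
    unfold VV
    have h2 : v * ((p : ℝ) - 1) / (p : ℝ) ^ 2 ≤ v / p := by
      rw [div_le_div_iff₀ (by positivity) (by positivity)]
      nlinarith [mul_nonneg hv (by linarith : (0 : ℝ) ≤ p)]
    have h3 := sq_nonneg (mu m p)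
    linarith
  exact ⟨h1, h1.trans (div_le_self hv hp1)⟩

lemma VV_err {p : ℕ} (hp : p.Prime) (hv : 0 ≤ v) :
    |VV v m p - v * (1 / (p : ℝ))| ≤ (v + m ^ 2) * (1 / (p : ℝ) ^ 2) := by
  have hp1 : (1 : ℝ) ≤ p := by exact_mod_cast hp.one_lt.le
  have hp0 : (p : ℝ) ≠ 0 := by linarith
  have e : VV v m p - v * (1 / (p : ℝ)) =
      -(v * (1 / (p : ℝ) ^ 2) + m ^ 2 * (((p : ℝ) - 1) ^ 2 / (p : ℝ) ^ 4)) := by
    unfold VV mu
    field_simp
    ring
  rw [e, abs_neg, abs_of_nonneg (by positivity), add_mul]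
  have h1 : ((p : ℝ) - 1) ^ 2 / (p : ℝ) ^ 4 ≤ 1 / (p : ℝ) ^ 2 := by
    rw [div_le_div_iff₀ (by positivity) (by positivity)]
    have : ((p : ℝ) - 1) ^ 2 ≤ (p : ℝ) ^ 2 := pow_le_pow_left₀ (by linarith) (by linarith) 2
    nlinarith [sq_nonneg (p : ℝ)]
  have := mul_le_mul_of_nonneg_left h1 (sq_nonneg m)
  linarith

end

lemma exp_neg_lip {a b : ℝ} (ha : 0 ≤ a) (hb : 0 ≤ b) :
    |Real.exp (-a) - Real.exp (-b)| ≤ |a - b| := by
  wlog hab : a ≤ b generalizing a b with H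
  · rw [abs_sub_comm, abs_sub_comm a b]
    exact H hb ha (le_of_not_ge hab)
  have h1 : Real.exp (-b) ≤ Real.exp (-a) := Real.exp_le_exp.2 (by linarith)
  rw [abs_of_nonneg (by linarith), abs_sub_comm, abs_of_nonneg (by linarith)]
  have h2 : Real.exp (-b) = Real.exp (-a) * Real.exp (-(b - a)) := by
    rw [← Real.exp_add]
    congr 1
    ring
  have h3 : 1 - (b - a) ≤ Real.exp (-(b - a)) := by
    have := Real.add_one_le_exp (-(b - a))
    linarith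
  have h4 : Real.exp (-a) ≤ 1 := Real.exp_le_one_iff.2 (by linarith)
  have h5 := Real.exp_pos (-a)
  rw [h2]
  nlinarith

lemma exp_I_lip (x y : ℝ) : ‖cexp ((x : ℂ) * I) - cexp ((y : ℂ) * I)‖ ≤ |x - y| := by
  have h := tay 1 (x - y)
  unfold Rm at h
  rw [sum_range_one, pow_zero, Nat.factorial_zero, Nat.cast_one, div_one, pow_one,
    Nat.factorial_one, Nat.cast_one, div_one] at h
  have e : cexp ((x : ℂ) * I) - cexp ((y : ℂ) * I) =
      cexp ((y : ℂ) * I) * (cexp (((x - y : ℝ) : ℂ) * I) - 1) := by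
    rw [mul_sub, ← Complex.exp_add, mul_one]
    congr 2
    push_cast
    ring
  rw [e, norm_mul, Complex.norm_exp_ofReal_mul_I, one_mul]
  exact h

/-- the moments of the box and of the model -/
theorem mom_cmp (h : ∀ p : ℕ, ZMod p → ZMod p → ℝ) (P : Finset ℕ) [∀ p : P, NeZero (p : ℕ)]
    (hP : ∀ p ∈ P, p.Prime) (c : ℝ) (hc : 1 ≤ c) (hb : ∀ p x y, |h p x y| ≤ c)
    (σ : ℝ) (hσ : 1 ≤ σ) (y N T : ℕ) (hN : 1 ≤ N) (hy : ∀ p ∈ P, p ≤ y) (hy1 : 1 ≤ y)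
    (hyT : y ^ (4 * N) ≤ T) (hT : σ ^ 2 ≤ T)
    (a b : ℤ) (K L : ℕ) (hK : T ≤ K) (hL : T ≤ L) (k : ℕ) (hk : k ≤ N) :
    |(∑ t ∈ Ioc a (a + K) ×ˢ Ioc b (b + L),
        ((∑ p ∈ P, h p (t.1 : ZMod p) (t.2 : ZMod p)) / σ) ^ k) / ((K : ℝ) * L) -
      (∑ ω : Om P, (Fm P h ω / σ) ^ k) / Vm P| ≤ 3 * c ^ N / σ := by
  classical
  have hy1r : (1 : ℝ) ≤ y := by exact_mod_cast hy1
  have hT1 : (1 : ℝ) ≤ T := by nlinarith
  have hKr : (T : ℝ) ≤ K := by exact_mod_cast hK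
  have hLr : (T : ℝ) ≤ L := by exact_mod_cast hL
  have hyTr : (y : ℝ) ^ (4 * N) ≤ T := by exact_mod_cast hyT
  have hσ0 : 0 < σ := by linarith
  have h1 := mom P hP h c hc hb y hy hy1 a b K L k
  have e0 : ∀ t : ℤ × ℤ, ∑ p : P, h p (t.1 : ZMod (p : ℕ)) (t.2 : ZMod (p : ℕ)) =
      ∑ p ∈ P, h p (t.1 : ZMod p) (t.2 : ZMod p) := fun t =>
    sum_coe_sort P (fun p : ℕ => h p (t.1 : ZMod p) (t.2 : ZMod p))
  simp_rw [e0] at h1
  have e1 : (∑ t ∈ Ioc a (a + K) ×ˢ Ioc b (b + L),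
        ((∑ p ∈ P, h p (t.1 : ZMod p) (t.2 : ZMod p)) / σ) ^ k) / ((K : ℝ) * L) -
      (∑ ω : Om P, (Fm P h ω / σ) ^ k) / Vm P =
      (∑ t ∈ Ioc a (a + K) ×ˢ Ioc b (b + L),
        (∑ p ∈ P, h p (t.1 : ZMod p) (t.2 : ZMod p)) ^ k -
      (K : ℝ) * L * EP P (fun ω => (∑ p : P, h p (ω p).1 (ω p).2) ^ k)) /
        (σ ^ k * ((K : ℝ) * L)) := by
    have hKL : (K : ℝ) * L ≠ 0 := by
      have : (0 : ℝ) < K := by linarith
      have : (0 : ℝ) < L := by linarith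
      positivity
    have hσk : σ ^ k ≠ 0 := by positivity
    unfold EP
    have e2 : ∑ ω : Om P, (Fm P h ω / σ) ^ k =
        (∑ ω : Om P, (∑ p : P, h p (ω p).1 (ω p).2) ^ k) / σ ^ k := by
      rw [sum_div]
      exact sum_congr rfl fun ω _ => div_pow _ _ _
    have e3 : ∑ t ∈ Ioc a (a + K) ×ˢ Ioc b (b + L),
        ((∑ p ∈ P, h p (t.1 : ZMod p) (t.2 : ZMod p)) / σ) ^ k =
        (∑ t ∈ Ioc a (a + K) ×ˢ Ioc b (b + L),
        (∑ p ∈ P, h p (t.1 : ZMod p) (t.2 : ZMod p)) ^ k) / σ ^ k := by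
      rw [sum_div]
      exact sum_congr rfl fun ω _ => div_pow _ _ _
    rw [e2, e3]
    have hV := (Vm_pos P).ne'
    unfold Vm at hV ⊢
    have hK0' := left_ne_zero_of_mul hKL
    have hL0' := right_ne_zero_of_mul hKL
    generalize ∑ t ∈ Ioc a (a + K) ×ˢ Ioc b (b + L),
        (∑ p ∈ P, h p (t.1 : ZMod p) (t.2 : ZMod p)) ^ k = X1
    generalize ∑ ω : Om P, (∑ p : P, h p (ω p).1 (ω p).2) ^ k = X2
    field_simp
  have hK0 : (0 : ℝ) < K := by linarith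
  have hL0 : (0 : ℝ) < L := by linarith
  rw [e1, abs_div, abs_of_pos (show (0 : ℝ) < σ ^ k * ((K : ℝ) * L) by positivity),
    div_le_iff₀ (by positivity)]
  refine h1.trans ?_
  -- the numbers
  have k1 : (c * (y : ℝ) ^ 2) ^ k ≤ c ^ N * (y : ℝ) ^ (2 * N) := by
    rw [mul_pow, ← pow_mul]
    exact mul_le_mul (pow_le_pow_right₀ hc hk) (pow_le_pow_right₀ hy1r (by omega))
      (by positivity) (by positivity)
  have k2 : (y : ℝ) ^ k ≤ T := (pow_le_pow_right₀ hy1r (by omega)).trans hyTr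
  have k3 : (y : ℝ) ^ (2 * N) * σ ≤ T := by
    have k4 : ((y : ℝ) ^ (2 * N)) ^ 2 ≤ T := by
      rw [← pow_mul]
      have : 2 * N * 2 = 4 * N := by ring
      rw [this]
      exact hyTr
    have k5 : (0 : ℝ) ≤ (y : ℝ) ^ (2 * N) := by positivity
    nlinarith [sq_nonneg ((y : ℝ) ^ (2 * N) - σ)]
  have k6 : (1 : ℝ) ≤ σ ^ k := one_le_pow₀ hσ
  have k7 : (K : ℝ) + L + (y : ℝ) ^ k ≤ 3 * ((K : ℝ) * L) / T := by
    rw [le_div_iff₀ (by linarith)]
    nlinarith [mul_nonneg hK0.le (sub_nonneg.2 hLr), mul_nonneg hL0.le (sub_nonneg.2 hKr)]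
  have k8 : 3 * c ^ N / σ * (σ ^ k * ((K : ℝ) * L)) ≥ 3 * c ^ N / σ * ((K : ℝ) * L) := by
    have : (0 : ℝ) ≤ 3 * c ^ N / σ * ((K : ℝ) * L) := by positivity
    nlinarith
  refine le_trans ?_ k8
  calc (c * (y : ℝ) ^ 2) ^ k * ((K : ℝ) + L + (y : ℝ) ^ k) ≤
        (c ^ N * (y : ℝ) ^ (2 * N)) * (3 * ((K : ℝ) * L) / T) :=
        mul_le_mul k1 k7 (by positivity) (by positivity)
    _ = (3 * c ^ N / σ * ((K : ℝ) * L)) * ((y : ℝ) ^ (2 * N) * σ / T) := by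
      field_simp
    _ ≤ (3 * c ^ N / σ * ((K : ℝ) * L)) * 1 := by
      apply mul_le_mul_of_nonneg_left _ (by positivity)
      rw [div_le_one (by linarith)]
      exact k3
    _ = _ := mul_one _

end Pool.Agent.R421.EK
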