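import Mathlib

/-!
# Project EK: from characteristic functions to joint distribution functions
-/

set_option autoImplicit false
set_option linter.all false

namespace Pool.Agent.R421.EK

open Finset Complex MeasureTheory ProbabilityTheory Filter Topology

open scoped ENNReal RealInnerProductSpace

variable {ι : Type} [Fintype ι] [DecidableEq ι] {Ω : Type}

/-- the distribution of a vector -/
noncomputable def lw (s : Finset Ω) (V : Ω → ι → ℝ) : Measure (EuclideanSpace ℝ ι) :=
  ((s.card : ℝ≥0∞))⁻¹ • ∑ t ∈ s, Measure.dirac (WithLp.toLp 2 (V t))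

lemma lw_prob (s : Finset Ω) (hs : s.Nonempty) (V : Ω → ι → ℝ) : IsProbabilityMeasure (lw s V) := by
  constructor
  unfold lw
  rw [Measure.smul_apply, Measure.finset_sum_apply]
  simp only [measure_univ, sum_const, nsmul_eq_mul, mul_one, smul_eq_mul]
  apply ENNReal.inv_mul_cancel
  · exact_mod_cast hs.card_pos.ne'
  · exact ENNReal.natCast_ne_top _

lemma lw_charFun (s : Finset Ω) (V : Ω → ι → ℝ) (θ : EuclideanSpace ℝ ι) :
    charFun (lw s V) θ = (∑ t ∈ s, cexp (((∑ i, θ i * V t i : ℝ) : ℂ) * I)) / (s.card : ℂ) := by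
  rw [charFun_apply]
  unfold lw
  rw [integral_smul_measure, integral_finset_sum_measure]
  · rw [ENNReal.toReal_inv, ENNReal.toReal_natCast, div_eq_inv_mul]
    rw [Complex.real_smul]
    push_cast
    congr 1
    refine sum_congr rfl fun t _ => ?_
    rw [integral_dirac]
    congr 2
    rw [PiLp.inner_apply]
    push_cast
    refine sum_congr rfl fun i _ => ?_
    simp
  · intro t _
    apply integrable_dirac
    exact ENNReal.coe_lt_top

lemma lw_set (s : Finset Ω) (V : Ω → ι → ℝ) (x : ι → ℝ) :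
    (lw s V {w | ∀ i, w i ≤ x i}).toReal =
      ((s.filter (fun t => ∀ i, V t i ≤ x i)).card : ℝ) / s.card := by
  classical
  unfold lw
  rw [Measure.smul_apply, Measure.finset_sum_apply]
  have hm : MeasurableSet {w : EuclideanSpace ℝ ι | ∀ i, w i ≤ x i} := by
    have : {w : EuclideanSpace ℝ ι | ∀ i, w i ≤ x i} = ⋂ i, {w | w i ≤ x i} := by
      ext w
      simp
    rw [this]
    refine MeasurableSet.iInter fun i => ?_
    exact (isClosed_le (by fun_prop) continuous_const).measurableSet
  have h1 : ∀ t ∈ s, Measure.dirac (WithLp.toLp 2 (V t)) {w : EuclideanSpace ℝ ι | ∀ i, w i ≤ x i} =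
      if ∀ i, V t i ≤ x i then 1 else 0 := by
    intro t _
    rw [Measure.dirac_apply' _ hm, Set.indicator_apply]
    rfl
  rw [sum_congr rfl h1, sum_boole, smul_eq_mul, ENNReal.toReal_mul, ENNReal.toReal_inv,
    ENNReal.toReal_natCast, ENNReal.toReal_natCast, div_eq_inv_mul]

lemma std_set (x : ι → ℝ) : (stdGaussian (EuclideanSpace ℝ ι) {w | ∀ i, w i ≤ x i}).toReal =
    ∏ i, (gaussianReal 0 1).real (Set.Iic (x i)) := by
  rw [← map_pi_eq_stdGaussian]
  have hm : MeasurableSet {w : EuclideanSpace ℝ ι | ∀ i, w i ≤ x i} := by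
    have : {w : EuclideanSpace ℝ ι | ∀ i, w i ≤ x i} = ⋂ i, {w | w i ≤ x i} := by
      ext w
      simp
    rw [this]
    refine MeasurableSet.iInter fun i => ?_
    exact (isClosed_le (by fun_prop) continuous_const).measurableSet
  rw [Measure.map_apply (by fun_prop) hm]
  have : (WithLp.toLp 2 : (ι → ℝ) → EuclideanSpace ℝ ι) ⁻¹' {w | ∀ i, w i ≤ x i} =
      Set.pi Set.univ (fun i => Set.Iic (x i)) := by
    ext w
    rw [Set.mem_univ_pi]
    rfl
  rw [this, Measure.pi_pi, ENNReal.toReal_prod]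
  rfl

lemma std_front (x : ι → ℝ) :
    stdGaussian (EuclideanSpace ℝ ι) (frontier {w | ∀ i, w i ≤ x i}) = 0 := by
  have hsub : frontier {w : EuclideanSpace ℝ ι | ∀ i, w i ≤ x i} ⊆ ⋃ i, {w | w i = x i} := by
    have hc : IsClosed {w : EuclideanSpace ℝ ι | ∀ i, w i ≤ x i} := by
      have : {w : EuclideanSpace ℝ ι | ∀ i, w i ≤ x i} = ⋂ i, {w | w i ≤ x i} := by
        ext w
        simp
      rw [this]
      exact isClosed_iInter fun i => isClosed_le (by fun_prop) continuous_const
    have ho : IsOpen {w : EuclideanSpace ℝ ι | ∀ i, w i < x i} := by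
      have : {w : EuclideanSpace ℝ ι | ∀ i, w i < x i} = ⋂ i, {w | w i < x i} := by
        ext w
        simp
      rw [this]
      exact isOpen_iInter_of_finite fun i => isOpen_lt (by fun_prop) continuous_const
    intro w hw
    rw [hc.frontier_eq] at hw
    obtain ⟨h1, h2⟩ := hw
    by_contra hcon
    apply h2
    have h3 : w ∈ {w : EuclideanSpace ℝ ι | ∀ i, w i < x i} := by
      intro i
      rcases lt_or_eq_of_le (h1 i) with h | h
      · exact h
      · exact absurd (Set.mem_iUnion.2 ⟨i, h⟩) hcon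
    exact interior_maximal (fun w' hw' i => (hw' i).le) ho h3
  refine measure_mono_null hsub ?_
  rw [measure_iUnion_null_iff]
  intro i
  rw [← map_pi_eq_stdGaussian, Measure.map_apply (by fun_prop)
    (isClosed_eq (by fun_prop) continuous_const).measurableSet]
  have e : (WithLp.toLp 2 : (ι → ℝ) → EuclideanSpace ℝ ι) ⁻¹' {w | w i = x i} =
      (fun w : ι → ℝ => w i) ⁻¹' ({x i} : Set ℝ) := by
    ext w
    rfl
  rw [e, (measurePreserving_eval (fun _ : ι => gaussianReal 0 1) i).measure_preimage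
    (measurableSet_singleton _).nullMeasurableSet]
  rw [gaussianReal_of_var_ne_zero _ one_ne_zero]
  exact withDensity_absolutelyContinuous _ _ Real.volume_singleton

/-- **joint distribution functions** -/
theorem law_of (s : ℕ → Finset Ω) (hs : ∀ n, (s n).Nonempty) (V : ℕ → Ω → ι → ℝ)
    (h : ∀ θ : ι → ℝ, Tendsto (fun n => (∑ t ∈ s n, cexp (((∑ i, θ i * V n t i : ℝ) : ℂ) * I)) /
      ((s n).card : ℂ)) atTop (𝓝 (((Real.exp (-(∑ i, θ i ^ 2) / 2) : ℝ) : ℂ)))) (x : ι → ℝ) :
    Tendsto (fun n => (((s n).filter (fun t => ∀ i, V n t i ≤ x i)).card : ℝ) / (s n).card)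
      atTop (𝓝 (∏ i, (gaussianReal 0 1).real (Set.Iic (x i)))) := by
  have h1 : ∀ θ : EuclideanSpace ℝ ι, Tendsto (fun n => charFun
      ((⟨lw (s n) (V n), lw_prob (s n) (hs n) (V n)⟩ : ProbabilityMeasure (EuclideanSpace ℝ ι)) :
        Measure (EuclideanSpace ℝ ι)) θ) atTop
      (𝓝 (charFun ((⟨stdGaussian (EuclideanSpace ℝ ι), inferInstance⟩ :
        ProbabilityMeasure (EuclideanSpace ℝ ι)) : Measure (EuclideanSpace ℝ ι)) θ)) := by
    intro θ
    simp only [ProbabilityMeasure.coe_mk]
    rw [charFun_stdGaussian]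
    have h2 := h (fun i => θ i)
    have e : (((Real.exp (-(∑ i, θ i ^ 2) / 2) : ℝ) : ℂ)) = cexp (-(‖θ‖ : ℂ) ^ 2 / 2) := by
      rw [Complex.ofReal_exp]
      congr 1
      rw [← Complex.ofReal_pow, EuclideanSpace.real_norm_sq_eq]
      push_cast
      rfl
    rw [e] at h2
    refine h2.congr fun n => ?_
    exact (lw_charFun (s n) (V n) θ).symm
  have h2 := ProbabilityMeasure.tendsto_of_tendsto_charFun h1
  have h3 := ProbabilityMeasure.tendsto_measure_of_null_frontier_of_tendsto' h2 (std_front x)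
  have h4 := (ENNReal.tendsto_toReal (measure_ne_top _ _)).comp h3
  simp only [ProbabilityMeasure.coe_mk] at h4
  rw [std_set] at h4
  refine h4.congr fun n => ?_
  exact lw_set (s n) (V n) x

end Pool.Agent.R421.EK
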