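import Mathlib
import Pool.Agent.R421.EK.Cfm
import Pool.Agent.R421.EK.Law
import Pool.Agent.R421.NR.Hm

/-!
# Project EK: the three additive functions and their joint law
-/

set_option autoImplicit false
set_option linter.all false

namespace Pool.Agent.R421.EK

open Finset

open Pool.Agent.W262.RK (PS)

open Pool.Agent.R421.NR (yT yT_pow loglog_yT yT_large big_ll sum_ne_zero sq_cnt)

open Classical in
/-- indicator of a nonzero class -/
noncomputable def u1 (p : ℕ) (x : ZMod p) : ℝ := if x ≠ 0 then 1 else 0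

open Classical in
/-- indicator of a nonzero square -/
noncomputable def q1 (p : ℕ) (x : ZMod p) : ℝ := if x ≠ 0 ∧ IsSquare x then 1 else 0

open Classical in
/-- a function supported on three lines -/
noncomputable def l3 (p : ℕ) (A B C : ZMod p → ℝ) (x y : ZMod p) : ℝ :=
  (if x = 0 then A y else 0) + (if y = 0 then B x else 0) + (if x = y then C x else 0)

/-- the function of the direction zero -/
noncomputable def hh (p : ℕ) (x y : ZMod p) : ℝ := l3 p (u1 p) (u1 p) (fun x => -q1 p x) x y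

lemma u1_abs (p : ℕ) (x : ZMod p) : 0 ≤ u1 p x ∧ u1 p x ≤ 1 := by
  unfold u1
  split_ifs <;> norm_num

lemma q1_abs (p : ℕ) (x : ZMod p) : 0 ≤ q1 p x ∧ q1 p x ≤ u1 p x := by
  unfold q1 u1
  by_cases h : x ≠ 0 ∧ IsSquare x
  · rw [if_pos h, if_pos h.1]
    norm_num
  · rw [if_neg h]
    split_ifs <;> norm_num

lemma u1_zero (p : ℕ) : u1 p 0 = 0 := by
  unfold u1
  rw [if_neg]
  exact fun h => h rfl

lemma q1_zero (p : ℕ) : q1 p 0 = 0 := by
  unfold q1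
  rw [if_neg]
  exact fun h => h.1 rfl

lemma u1_neg (p : ℕ) (x : ZMod p) : u1 p (-x) = u1 p x := by
  unfold u1
  simp only [ne_eq, neg_eq_zero]

lemma u1_sq (p : ℕ) (x : ZMod p) : u1 p x ^ 2 = u1 p x := by
  unfold u1
  split_ifs <;> norm_num

lemma q1_sq (p : ℕ) (x : ZMod p) : q1 p x ^ 2 = q1 p x := by
  unfold q1
  split_ifs <;> norm_num

lemma u1_q1 (p : ℕ) (x : ZMod p) : u1 p x * q1 p x = q1 p x := by
  unfold q1 u1
  by_cases h : x ≠ 0 ∧ IsSquare x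
  · rw [if_pos h, if_pos h.1]
    norm_num
  · rw [if_neg h, mul_zero]

section

variable {p : ℕ}

lemma l3_sq (A B C : ZMod p → ℝ) (hA : A 0 = 0) (hB : B 0 = 0) (hC : C 0 = 0) (x y : ZMod p) :
    l3 p A B C x y ^ 2 = l3 p (fun z => A z ^ 2) (fun z => B z ^ 2) (fun z => C z ^ 2) x y := by
  unfold l3
  by_cases h1 : x = 0
  · subst h1
    by_cases h2 : y = 0
    · subst h2
      simp [hA, hB, hC]
    · have h3 : ¬ (0 : ZMod p) = y := fun h => h2 h.symm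
      simp [h2, h3]
  · by_cases h2 : y = 0
    · subst h2
      simp [h1]
    · by_cases h3 : x = y
      · subst h3
        simp [h1]
      · simp [h1, h2, h3]

lemma l3_abs (A B C : ZMod p → ℝ) (hA : A 0 = 0) (hB : B 0 = 0) (hC : C 0 = 0) (x y : ZMod p) :
    |l3 p A B C x y| = l3 p (fun z => |A z|) (fun z => |B z|) (fun z => |C z|) x y := by
  unfold l3
  by_cases h1 : x = 0
  · subst h1
    by_cases h2 : y = 0
    · subst h2
      simp [hA, hB, hC]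
    · have h3 : ¬ (0 : ZMod p) = y := fun h => h2 h.symm
      simp [h2, h3]
  · by_cases h2 : y = 0
    · subst h2
      simp [h1]
    · by_cases h3 : x = y
      · subst h3
        simp [h1]
      · simp [h1, h2, h3]

lemma l3_le (A B C : ZMod p → ℝ) (hA : A 0 = 0) (hB : B 0 = 0) (hC : C 0 = 0) (c : ℝ)
    (hc : 0 ≤ c) (hAc : ∀ z, |A z| ≤ c) (hBc : ∀ z, |B z| ≤ c) (hCc : ∀ z, |C z| ≤ c)
    (x y : ZMod p) : |l3 p A B C x y| ≤ c := by
  unfold l3
  by_cases h1 : x = 0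
  · subst h1
    by_cases h2 : y = 0
    · subst h2
      simp [hA, hB, hC, hc]
    · have h3 : ¬ (0 : ZMod p) = y := fun h => h2 h.symm
      simp [h2, h3, hAc y]
  · by_cases h2 : y = 0
    · subst h2
      simp [h1, hBc x]
    · by_cases h3 : x = y
      · subst h3
        simp [h1, hCc x]
      · simp [h1, h2, h3, hc]

lemma l3_sum [NeZero p] (A B C : ZMod p → ℝ) :
    SS p (l3 p A B C) = ∑ z, A z + ∑ z, B z + ∑ z, C z := by
  classical
  rw [SS_eq]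
  unfold l3
  simp only [sum_add_distrib]
  congr 1
  · congr 1
    · rw [sum_eq_single (0 : ZMod p)]
      · simp
      · intro x _ hx
        simp [hx]
      · intro h
        exact absurd (mem_univ _) h
    · refine sum_congr rfl fun x _ => ?_
      rw [sum_ite_eq' univ (0 : ZMod p)]
      simp
  · refine sum_congr rfl fun x _ => ?_
    rw [sum_ite_eq univ x]
    simp

end

/-- the three functions -/
noncomputable def h3 (i : Fin 3) (p : ℕ) (x y : ZMod p) : ℝ :=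
  ![hh p x y, hh p (-x) (y - x), hh p (-y) (x - y)] i

/-- the linear combination -/
noncomputable def ff (θ : Fin 3 → ℝ) (p : ℕ) (x y : ZMod p) : ℝ := ∑ i, θ i * h3 i p x y

/-- the function on a line -/
noncomputable def ln (a b : ℝ) (p : ℕ) (e : ZMod p → ZMod p) (x : ZMod p) : ℝ :=
  a * u1 p x - b * q1 p (e x)

lemma ff_eq (θ : Fin 3 → ℝ) (p : ℕ) (x y : ZMod p) : ff θ p x y =
    l3 p (ln (θ 0 + θ 1) (θ 2) p (fun x => -x)) (ln (θ 0 + θ 2) (θ 1) p (fun x => -x))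
      (ln (θ 1 + θ 2) (θ 0) p (fun x => x)) x y := by
  have e : ff θ p x y = θ 0 * hh p x y + θ 1 * hh p (-x) (y - x) + θ 2 * hh p (-y) (x - y) := by
    unfold ff
    rw [Fin.sum_univ_three]
    rfl
  rw [e]
  unfold hh l3 ln
  have u0 := u1_zero p
  have q0 := q1_zero p
  by_cases h1 : x = 0
  · subst h1
    by_cases h2 : y = 0
    · subst h2
      simp [u0, q0]
    · have h3 : ¬ (0 : ZMod p) = y := fun h => h2 h.symm
      simp [h2, h3, u0, q0, u1_neg]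
      ring
  · by_cases h2 : y = 0
    · subst h2
      have h4 : ¬ (0 : ZMod p) = x := fun h => h1 h.symm
      simp [h1, h4, u0, q0, u1_neg]
      ring
    · by_cases h3 : x = y
      · subst h3
        simp [h1, u0, q0, u1_neg]
        ring
      · have h4 : ¬ y = x := fun h => h3 h.symm
        have h5 : ¬ y - x = 0 := fun h => h4 (sub_eq_zero.1 h)
        have h6 : ¬ x - y = 0 := fun h => h3 (sub_eq_zero.1 h)
        have h7 : ¬ -x = y - x := fun h => h2 (by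
          have := congrArg (fun w => w + x) h
          simpa using this.symm)
        have h8 : ¬ -y = x - y := fun h => h1 (by
          have := congrArg (fun w => w + y) h
          simpa using this.symm)
        simp [h1, h2, h3, h5, h6, h7, h8]

section

variable {p : ℕ} [hp : Fact p.Prime]

lemma u1_sum : ∑ x : ZMod p, u1 p x = (p : ℝ) - 1 := by
  classical
  have := sum_ne_zero (u1 p) 1 (u1_zero p) (fun x hx => by unfold u1; rw [if_pos hx])
  rw [this, mul_one]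

lemma q1_sum (h2 : p ≠ 2) : ∑ x : ZMod p, q1 p x = ((p : ℝ) - 1) / 2 := by
  classical
  rw [← sq_cnt h2]
  exact sum_congr rfl fun x _ => by unfold q1; congr

lemma ln_sum (h2 : p ≠ 2) (a b : ℝ) (e : ZMod p ≃ ZMod p) :
    ∑ x, ln a b p e x = (a - b / 2) * ((p : ℝ) - 1) := by
  unfold ln
  rw [sum_sub_distrib, ← mul_sum, ← mul_sum, u1_sum, Equiv.sum_comp e (q1 p), q1_sum h2]
  ring

lemma ln_sq (h2 : p ≠ 2) (a b : ℝ) (e : ZMod p ≃ ZMod p) (he : ∀ x, u1 p (e x) = u1 p x) :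
    ∑ x, ln a b p e x ^ 2 = (a ^ 2 - a * b + b ^ 2 / 2) * ((p : ℝ) - 1) := by
  have h1 : ∀ x : ZMod p, ln a b p e x ^ 2 = a ^ 2 * u1 p x + (b ^ 2 - 2 * a * b) * q1 p (e x) := by
    intro x
    unfold ln
    have e1 := u1_sq p x
    have e2 := q1_sq p (e x)
    have e3 : u1 p x * q1 p (e x) = q1 p (e x) := by
      rw [← he x]
      exact u1_q1 p (e x)
    calc (a * u1 p x - b * q1 p (e x)) ^ 2 =
          a ^ 2 * u1 p x ^ 2 - 2 * a * b * (u1 p x * q1 p (e x)) + b ^ 2 * q1 p (e x) ^ 2 := by ring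
      _ = _ := by rw [e1, e2, e3]; ring
  rw [sum_congr rfl fun x _ => h1 x, sum_add_distrib, ← mul_sum, ← mul_sum, u1_sum,
    Equiv.sum_comp e (q1 p), q1_sum h2]
  ring

end

lemma ln_zero (a b : ℝ) (p : ℕ) (e : ZMod p → ZMod p) (he : e 0 = 0) : ln a b p e 0 = 0 := by
  unfold ln
  rw [he, u1_zero, q1_zero]
  ring

lemma ln_abs (a b : ℝ) (p : ℕ) (e : ZMod p → ZMod p) (he : ∀ x, u1 p (e x) = u1 p x)
    (x : ZMod p) : |ln a b p e x| ≤ (|a| + |b|) * u1 p x := by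
  unfold ln
  refine (abs_sub _ _).trans ?_
  rw [abs_mul, abs_mul, abs_of_nonneg (u1_abs p x).1, abs_of_nonneg (q1_abs p (e x)).1, add_mul]
  refine add_le_add le_rfl (mul_le_mul_of_nonneg_left ?_ (abs_nonneg b))
  rw [← he x]
  exact (q1_abs p (e x)).2

section

variable (θ : Fin 3 → ℝ)

/-- the sum of the absolute values -/
noncomputable def sθ : ℝ := |θ 0| + |θ 1| + |θ 2|

lemma ln_bd (p : ℕ) (a b : ℝ) (e : ZMod p → ZMod p) (he : ∀ x, u1 p (e x) = u1 p x)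
    (h : |a| + |b| ≤ sθ θ) (x : ZMod p) : |ln a b p e x| ≤ sθ θ * u1 p x :=
  (ln_abs a b p e he x).trans (mul_le_mul_of_nonneg_right h (u1_abs p x).1)

lemma sθ_nonneg : 0 ≤ sθ θ := by unfold sθ; positivity

lemma sθ0 : |θ 0 + θ 1| + |θ 2| ≤ sθ θ ∧ |θ 0 + θ 2| + |θ 1| ≤ sθ θ ∧
    |θ 1 + θ 2| + |θ 0| ≤ sθ θ := by
  unfold sθ
  have h1 := abs_add_le (θ 0) (θ 1)
  have h2 := abs_add_le (θ 0) (θ 2)
  have h3 := abs_add_le (θ 1) (θ 2)
  refine ⟨?_, ?_, ?_⟩ <;> linarith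

lemma ff_bd (p : ℕ) (x y : ZMod p) : |ff θ p x y| ≤ sθ θ := by
  obtain ⟨s1, s2, s3⟩ := sθ0 θ
  have hs := sθ_nonneg θ
  rw [ff_eq]
  have h1 : ∀ a b e (he : ∀ x, u1 p (e x) = u1 p x), |a| + |b| ≤ sθ θ → ∀ x,
      |ln a b p e x| ≤ sθ θ := by
    intro a b e he h x
    refine (ln_bd θ p a b e he h x).trans ?_
    exact mul_le_of_le_one_right hs (u1_abs p x).2
  exact l3_le _ _ _ (ln_zero _ _ _ _ neg_zero) (ln_zero _ _ _ _ neg_zero) (ln_zero _ _ _ _ rfl)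
    _ hs (h1 _ _ _ (u1_neg p) s1) (h1 _ _ _ (u1_neg p) s2) (h1 _ _ _ (fun _ => rfl) s3) x y

lemma ff_sum {p : ℕ} (hp : p.Prime) (h2 : p ≠ 2) :
    SS p (ff θ p) = (3 / 2 * ∑ i, θ i) * ((p : ℝ) - 1) := by
  haveI : Fact p.Prime := ⟨hp⟩
  haveI : NeZero p := ⟨hp.ne_zero⟩
  have e : ff θ p = l3 p (ln (θ 0 + θ 1) (θ 2) p (fun x => -x))
      (ln (θ 0 + θ 2) (θ 1) p (fun x => -x)) (ln (θ 1 + θ 2) (θ 0) p (fun x => x)) := by
    funext x y
    exact ff_eq θ p x y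
  rw [e, l3_sum]
  have e1 := ln_sum (p := p) h2 (θ 0 + θ 1) (θ 2) (Equiv.neg (ZMod p))
  have e2 := ln_sum (p := p) h2 (θ 0 + θ 2) (θ 1) (Equiv.neg (ZMod p))
  have e3 := ln_sum (p := p) h2 (θ 1 + θ 2) (θ 0) (Equiv.refl (ZMod p))
  have f1 : ∑ z, ln (θ 0 + θ 1) (θ 2) p (fun x => -x) z = _ := e1
  have f2 : ∑ z, ln (θ 0 + θ 2) (θ 1) p (fun x => -x) z = _ := e2
  have f3 : ∑ z, ln (θ 1 + θ 2) (θ 0) p (fun x => x) z = _ := e3
  rw [f1, f2, f3, Fin.sum_univ_three]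
  ring

lemma ff_sumsq {p : ℕ} (hp : p.Prime) (h2 : p ≠ 2) :
    SS p (fun x y => ff θ p x y ^ 2) = (5 / 2 * ∑ i, θ i ^ 2) * ((p : ℝ) - 1) := by
  haveI : Fact p.Prime := ⟨hp⟩
  haveI : NeZero p := ⟨hp.ne_zero⟩
  have e : (fun x y => ff θ p x y ^ 2) =
      l3 p (fun z => ln (θ 0 + θ 1) (θ 2) p (fun x => -x) z ^ 2)
      (fun z => ln (θ 0 + θ 2) (θ 1) p (fun x => -x) z ^ 2)
      (fun z => ln (θ 1 + θ 2) (θ 0) p (fun x => x) z ^ 2) := by
    funext x y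
    rw [ff_eq, l3_sq _ _ _ (ln_zero _ _ _ _ neg_zero) (ln_zero _ _ _ _ neg_zero)
      (ln_zero _ _ _ _ rfl)]
  rw [e, l3_sum]
  have e1 := ln_sq (p := p) h2 (θ 0 + θ 1) (θ 2) (Equiv.neg (ZMod p)) (u1_neg p)
  have e2 := ln_sq (p := p) h2 (θ 0 + θ 2) (θ 1) (Equiv.neg (ZMod p)) (u1_neg p)
  have e3 := ln_sq (p := p) h2 (θ 1 + θ 2) (θ 0) (Equiv.refl (ZMod p)) (fun _ => rfl)
  have f1 : ∑ z, ln (θ 0 + θ 1) (θ 2) p (fun x => -x) z ^ 2 = _ := e1
  have f2 : ∑ z, ln (θ 0 + θ 2) (θ 1) p (fun x => -x) z ^ 2 = _ := e2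
  have f3 : ∑ z, ln (θ 1 + θ 2) (θ 0) p (fun x => x) z ^ 2 = _ := e3
  rw [f1, f2, f3, Fin.sum_univ_three]
  ring

lemma ff_sumabs {p : ℕ} (hp : p.Prime) :
    SS p (fun x y => |ff θ p x y|) ≤ (3 * sθ θ + 1) * p := by
  haveI : Fact p.Prime := ⟨hp⟩
  haveI : NeZero p := ⟨hp.ne_zero⟩
  obtain ⟨s1, s2, s3⟩ := sθ0 θ
  have hs := sθ_nonneg θ
  have e : (fun x y => |ff θ p x y|) =
      l3 p (fun z => |ln (θ 0 + θ 1) (θ 2) p (fun x => -x) z|)
      (fun z => |ln (θ 0 + θ 2) (θ 1) p (fun x => -x) z|)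
      (fun z => |ln (θ 1 + θ 2) (θ 0) p (fun x => x) z|) := by
    funext x y
    rw [ff_eq, l3_abs _ _ _ (ln_zero _ _ _ _ neg_zero) (ln_zero _ _ _ _ neg_zero)
      (ln_zero _ _ _ _ rfl)]
  rw [e, l3_sum]
  have h1 : ∀ a b e (he : ∀ x, u1 p (e x) = u1 p x), |a| + |b| ≤ sθ θ →
      ∑ x, |ln a b p e x| ≤ sθ θ * p := by
    intro a b e he h
    refine (sum_le_sum fun x _ => ln_bd θ p a b e he h x).trans ?_
    rw [← mul_sum, u1_sum]
    exact mul_le_mul_of_nonneg_left (by linarith) hs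
  have g1 := h1 (θ 0 + θ 1) (θ 2) (fun x => -x) (u1_neg p) s1
  have g2 := h1 (θ 0 + θ 2) (θ 1) (fun x => -x) (u1_neg p) s2
  have g3 := h1 (θ 1 + θ 2) (θ 0) (fun x => x) (fun _ => rfl) s3
  have hp0 : (0 : ℝ) ≤ p := Nat.cast_nonneg p
  nlinarith

end

end Pool.Agent.R421.EK
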