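import Mathlib
import Pool.Agent.R421.EK.Hh

/-!
# Project EK: the joint law of the three truncated additive functions in boxes
-/

set_option autoImplicit false
set_option linter.all false

namespace Pool.Agent.R421.EK

open Finset Filter Topology

open Pool.Agent.W262.RK (PS)

open Pool.Agent.R421.NR (yT yT_pow loglog_yT yT_large big_ll)

/-- the three truncated sums -/
noncomputable def S3s (i : Fin 3) (T : ℕ) (t : ℤ × ℤ) : ℝ :=
  ∑ p ∈ PS 10 (yT T), h3 i p (t.1 : ZMod p) (t.2 : ZMod p)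

/-- the normalised vector -/
noncomputable def Vn (T : ℕ) (t : ℤ × ℤ) (i : Fin 3) : ℝ :=
  (S3s i T t - 3 / 2 * Real.log (Real.log T)) / √(5 / 2 * Real.log (Real.log T))

/-- the box -/
noncomputable def Bx (a b : ℤ) (K L : ℕ) : Finset (ℤ × ℤ) := Ioc a (a + K) ×ˢ Ioc b (b + L)

lemma Bx_card (a b : ℤ) (K L : ℕ) : ((Bx a b K L).card : ℝ) = (K : ℝ) * L := by
  unfold Bx
  rw [card_product, Int.card_Ioc, Int.card_Ioc]
  push_cast
  congr 1
  · have : (a + K - a).toNat = K := by omega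
    rw [this]
  · have : (b + L - b).toNat = L := by omega
    rw [this]

theorem joint_cf (θ : Fin 3 → ℝ) (ε : ℝ) (hε : 0 < ε) : ∃ T0 : ℕ, ∀ T : ℕ, T0 ≤ T →
    ∀ (a b : ℤ) (K L : ℕ), T ≤ K → T ≤ L →
      ‖(∑ t ∈ Bx a b K L, Complex.exp (((∑ i, θ i * Vn T t i : ℝ) : ℂ) * Complex.I)) /
        ((Bx a b K L).card : ℂ) - ((Real.exp (-(∑ i, θ i ^ 2) / 2) : ℝ) : ℂ)‖ ≤ ε := by
  obtain ⟨w, hw⟩ : ∃ w : ℝ, w = √(5 / 2) := ⟨_, rfl⟩
  have hw0 : 0 < w := by rw [hw]; positivity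
  have hw2 : w ^ 2 = 5 / 2 := by rw [hw]; exact Real.sq_sqrt (by norm_num)
  obtain ⟨φ, hφ⟩ : ∃ φ : Fin 3 → ℝ, φ = fun i => θ i / w := ⟨_, rfl⟩
  have hs := sθ_nonneg φ
  have hm : |3 / 2 * ∑ i, φ i| ≤ 3 * sθ φ + 1 := by
    rw [abs_mul, abs_of_pos (by norm_num : (0 : ℝ) < 3 / 2), Fin.sum_univ_three]
    have h1 : |φ 0 + φ 1 + φ 2| ≤ sθ φ := by
      unfold sθ
      have h1 := abs_add_le (φ 0 + φ 1) (φ 2)
      have h2 := abs_add_le (φ 0) (φ 1)
      linarith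
    linarith
  obtain ⟨T0, hT0⟩ := cfm (ff φ) 10 le_rfl (3 * sθ φ + 1) (3 / 2 * ∑ i, φ i)
    (5 / 2 * ∑ i, φ i ^ 2) (by linarith) (by positivity) hm
    (fun p x y => (ff_bd φ p x y).trans (by linarith))
    (fun p hp hz => ff_sum φ hp (by omega)) (fun p hp hz => ff_sumsq φ hp (by omega))
    (fun p hp hz => ff_sumabs φ hp) ε hε
  refine ⟨T0, fun T hT a b K L hK hL => ?_⟩
  have h := hT0 T hT a b K L hK hL
  have e1 : ∀ t : ℤ × ℤ, ((∑ p ∈ PS 10 (yT T), ff φ p (t.1 : ZMod p) (t.2 : ZMod p)) -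
      3 / 2 * (∑ i, φ i) * Real.log (Real.log T)) / √(Real.log (Real.log T)) =
      ∑ i, θ i * Vn T t i := by
    intro t
    obtain ⟨ℓ, hℓ⟩ : ∃ ℓ, ℓ = Real.log (Real.log T) := ⟨_, rfl⟩
    unfold Vn
    rw [← hℓ]
    have e2 : ∑ p ∈ PS 10 (yT T), ff φ p (t.1 : ZMod p) (t.2 : ZMod p) =
        ∑ i, φ i * S3s i T t := by
      unfold ff S3s
      rw [sum_comm]
      exact sum_congr rfl fun i _ => (mul_sum _ _ _).symm
    have e3 : √(5 / 2 * ℓ) = w * √ℓ := by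
      rw [hw]
      exact Real.sqrt_mul (by norm_num) ℓ
    rw [e2, e3]
    have e4 : ∀ i, θ i * ((S3s i T t - 3 / 2 * ℓ) / (w * √ℓ)) =
        (φ i * S3s i T t - 3 / 2 * φ i * ℓ) / √ℓ := by
      intro i
      rw [hφ]
      change θ i * ((S3s i T t - 3 / 2 * ℓ) / (w * √ℓ)) =
        (θ i / w * S3s i T t - 3 / 2 * (θ i / w) * ℓ) / √ℓ
      by_cases h0 : √ℓ = 0
      · rw [h0]
        simp
      · field_simp
    rw [sum_congr rfl fun i _ => e4 i, ← sum_div, sum_sub_distrib]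
    congr 2
    rw [mul_sum, sum_mul]
  have e2 : -(5 / 2 * ∑ i, φ i ^ 2 / 2) = -(∑ i, θ i ^ 2) / 2 := by
    have : ∀ i, φ i ^ 2 = θ i ^ 2 / (5 / 2) := by
      intro i
      rw [hφ]
      change (θ i / w) ^ 2 = _
      rw [div_pow, hw2]
    simp_rw [this]
    rw [← sum_div, ← sum_div]
    ring
  have e3 : -((5 / 2 * ∑ i, φ i ^ 2) / 2) = -(∑ i, θ i ^ 2) / 2 := by
    rw [← e2, ← sum_div]
    ring
  simp_rw [e1] at h
  rw [e3] at h
  have e4 : (((Bx a b K L).card : ℕ) : ℂ) = (((K : ℝ) * L : ℝ) : ℂ) := by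
    rw [← Bx_card a b K L]
    push_cast
    rfl
  rw [e4]
  exact h

/-- **the joint law in boxes** -/
theorem joint_box (x : Fin 3 → ℝ) (ε : ℝ) (hε : 0 < ε) : ∃ T0 : ℕ, ∀ T : ℕ, T0 ≤ T →
    ∀ (a b : ℤ) (K L : ℕ), T ≤ K → T ≤ L →
      |(((Bx a b K L).filter (fun t => ∀ i, Vn T t i ≤ x i)).card : ℝ) / ((K : ℝ) * L) -
        ∏ i, (ProbabilityTheory.gaussianReal 0 1).real (Set.Iic (x i))| ≤ ε := by
  by_contra hcon
  push Not at hcon
  choose! T hT a b K L hK hL hbad using fun n : ℕ => hcon (n + 1)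
  obtain ⟨s, hs⟩ : ∃ s : ℕ → Finset (ℤ × ℤ), s = fun n => Bx (a n) (b n) (K n) (L n) := ⟨_, rfl⟩
  have hcard : ∀ n, ((s n).card : ℝ) = (K n : ℝ) * L n := by
    intro n
    rw [hs]
    exact Bx_card _ _ _ _
  have hne : ∀ n, (s n).Nonempty := by
    intro n
    rw [← card_pos]
    have h1 : 0 < K n := by have := hT n; have := hK n; omega
    have h2 : 0 < L n := by have := hT n; have := hL n; omega
    have h3 : (0 : ℝ) < (s n).card := by
      rw [hcard]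
      positivity
    exact_mod_cast h3
  have hlaw := law_of s hne (fun n t i => Vn (T n) t i) (fun θ => by
    rw [Metric.tendsto_atTop]
    intro δ hδ
    obtain ⟨T0, hT0⟩ := joint_cf θ (δ / 2) (by positivity)
    refine ⟨T0, fun n hn => ?_⟩
    rw [dist_eq_norm]
    have := hT0 (T n) (by have := hT n; omega) (a n) (b n) (K n) (L n) (hK n) (hL n)
    rw [hs]
    linarith) x
  rw [Metric.tendsto_atTop] at hlaw
  obtain ⟨n, hn⟩ := hlaw ε hε
  have h1 := hn n le_rfl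
  have h2 := hbad n
  rw [Real.dist_eq, hcard n] at h1
  have e9 : s n = Bx (a n) (b n) (K n) (L n) := by rw [hs]
  rw [e9] at h1
  refine lt_irrefl ε (h2.trans (lt_of_eq_of_lt ?_ h1))
  congr!

end Pool.Agent.R421.EK
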