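import Mathlib
import Pool.Agent.R421.EK.Cfm

/-!
# Project EK: the characteristic function of an additive function in boxes, general variances
-/

set_option autoImplicit false
set_option linter.all false

namespace Pool.Agent.R421.EK

open Finset Complex

open Pool.Agent.W262.RK (PS)

open Pool.Agent.R421.NR (yT yT_pow loglog_yT yT_large big_ll turan sum_inv_sq)

/-- **characteristic functions**, with a variance depending on the prime -/
theorem cfv (h : ∀ p : ℕ, ZMod p → ZMod p → ℝ) (z : ℕ) (hz : 10 ≤ z) (c m v : ℝ) (w : ℕ → ℝ)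
    (V C3 : ℝ) (hc : 1 ≤ c)
    (hv : 0 ≤ v) (hw0 : ∀ p, 0 ≤ w p) (hwV : ∀ p, w p ≤ V) (hC3 : 0 ≤ C3)
    (hwC : ∀ y : ℕ, z < y → |∑ p ∈ PS z y, w p * (1 / (p : ℝ)) - v * ∑ p ∈ PS z y, 1 / (p : ℝ)| ≤ C3)
    (hm : |m| ≤ c) (hb : ∀ p x y, |h p x y| ≤ c)
    (hS : ∀ p, p.Prime → z < p → SS p (h p) = m * ((p : ℝ) - 1))
    (hS2 : ∀ p, p.Prime → z < p → SS p (fun x y => h p x y ^ 2) = w p * ((p : ℝ) - 1))
    (hA : ∀ p, p.Prime → z < p → SS p (fun x y => |h p x y|) ≤ c * p)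
    (ε : ℝ) (hε : 0 < ε) :
    ∃ T0 : ℕ, ∀ T : ℕ, T0 ≤ T → ∀ (a b : ℤ) (K L : ℕ), T ≤ K → T ≤ L →
      ‖(∑ t ∈ Ioc a (a + K) ×ˢ Ioc b (b + L),
        cexp (((((∑ p ∈ PS z (yT T), h p (t.1 : ZMod p) (t.2 : ZMod p)) -
          m * Real.log (Real.log T)) / √(Real.log (Real.log T)) : ℝ) : ℂ) * I)) /
          (((K : ℝ) * L : ℝ) : ℂ) - ((Real.exp (-(v / 2)) : ℝ) : ℂ)‖ ≤ ε := by
  classical
  obtain ⟨C2', hC2'⟩ := Pool.Agent.Y776.Z8.mert z hz
  obtain ⟨C2, hC2d⟩ : ∃ C2, C2 = |C2'| := ⟨_, rfl⟩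
  have hC20 : 0 ≤ C2 := by rw [hC2d]; exact abs_nonneg _
  have hC2 : ∀ y : ℕ, z < y → |∑ p ∈ PS z y, (1 : ℝ) / (p : ℝ) - Real.log (Real.log y)| ≤ C2 :=
    fun y hy => (hC2' y hy).trans (by rw [hC2d]; exact le_abs_self _)
  have hc0 : (0 : ℝ) < c := by linarith
  have hV : 0 ≤ V := (hw0 0).trans (hwV 0)
  -- the number of moments
  obtain ⟨N, hNe, hN1, hNε⟩ : ∃ N : ℕ, Even N ∧ 1 ≤ N ∧
      4 * (1 / 2 : ℝ) ^ N * Real.exp (4 * (v + 1)) ≤ ε / 2 := by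
    obtain ⟨n, hn⟩ := exists_pow_lt_of_lt_one
      (show (0 : ℝ) < ε / 2 / (4 * Real.exp (4 * (v + 1))) by positivity)
      (by norm_num : (1 / 2 : ℝ) < 1)
    refine ⟨2 * (n + 1), even_two_mul _, by omega, ?_⟩
    have h1 : (1 / 2 : ℝ) ^ (2 * (n + 1)) ≤ (1 / 2) ^ n :=
      pow_le_pow_of_le_one (by norm_num) (by norm_num) (by omega)
    have h2 := h1.trans hn.le
    rw [le_div_iff₀ (by positivity)] at h2
    linarith
  have hNr : (1 : ℝ) ≤ N := by exact_mod_cast hN1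
  obtain ⟨D, hD⟩ : ∃ D : ℝ, D = 3 * N + C2 + 3 := ⟨_, rfl⟩
  have hD0 : 0 ≤ D := by rw [hD]; positivity
  obtain ⟨E1, hE1⟩ : ∃ E1 : ℝ, E1 = v * D + (V + m ^ 2) + C3 := ⟨_, rfl⟩
  have hE10 : 0 ≤ E1 := by rw [hE1]; positivity
  obtain ⟨C', hC'⟩ : ∃ C' : ℝ, C' = (2 * c + V) * (v + 1) + E1 +
    (√(16 * c ^ 2 * (1 + 2 * D)) + |m| * (D + 1)) + (N + 1) * (3 * (2 * c) ^ N) := ⟨_, rfl⟩
  have hC'0 : 0 ≤ C' := by rw [hC']; positivity
  obtain ⟨T1, hT1⟩ := iter_ok N z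
  obtain ⟨T2, hT2⟩ := big_ll ((2 * C' / ε) ^ 2 + E1 + 16 * c ^ 2 + V + 1)
  refine ⟨T1 + T2 + (z + 1) ^ 4 + 81, fun T hT a b K L hK hL => ?_⟩
  obtain ⟨i1, i2, i3, i4⟩ := hT1 T (by omega)
  have hℓ1 := hT2 T (by omega)
  obtain ⟨j1, j2⟩ := loglog_yT (T := T) (by omega)
  have j3 : z < yT T := yT_large z (by omega)
  obtain ⟨y, hy⟩ : ∃ y, y = yT^[N] T := ⟨_, rfl⟩
  rw [← hy] at i1 i2 i3 i4
  have hyy : y ≤ yT T := by
    obtain ⟨n, rfl⟩ : ∃ n, N = n + 1 := ⟨N - 1, by omega⟩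
    rw [hy, Function.iterate_succ_apply]
    exact iter_le n _
  obtain ⟨ℓ, hℓ⟩ : ∃ ℓ, ℓ = Real.log (Real.log T) := ⟨_, rfl⟩
  rw [← hℓ] at i3 i4 hℓ1 j1 j2 ⊢
  obtain ⟨σ, hσ⟩ : ∃ σ, σ = √ℓ := ⟨_, rfl⟩
  rw [← hσ]
  have q1 : 0 ≤ (2 * C' / ε) ^ 2 := sq_nonneg _
  have q2 : 0 ≤ 16 * c ^ 2 := by positivity
  have hℓ0 : 0 ≤ ℓ := by linarith
  have hσ2 : σ ^ 2 = ℓ := by rw [hσ]; exact Real.sq_sqrt hℓ0
  have hσ1 : 1 ≤ σ := by
    rw [hσ, Real.one_le_sqrt]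
    linarith
  have hσ0 : 0 < σ := by linarith
  have hσc : 2 * (2 * c) ≤ σ := by
    rw [hσ]
    apply Real.le_sqrt_of_sq_le
    have : (2 * (2 * c)) ^ 2 = 16 * c ^ 2 := by ring
    linarith
  have hσε : 2 * C' / ε ≤ σ := by
    rw [hσ]
    apply Real.le_sqrt_of_sq_le
    linarith
  have hTr : (81 : ℝ) ≤ T := by
    have : 81 ≤ T := by omega
    exact_mod_cast this
  have hσT : σ ^ 2 ≤ T := by
    rw [hσ2, hℓ]
    have l1 : 0 < Real.log T := Real.log_pos (by linarith)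
    have l2 := Real.log_le_sub_one_of_pos l1
    have l3 := Real.log_le_sub_one_of_pos (show (0 : ℝ) < T by linarith)
    linarith
  have hKr : (T : ℝ) ≤ K := by exact_mod_cast hK
  have hLr : (T : ℝ) ≤ L := by exact_mod_cast hL
  have hKL : (0 : ℝ) < (K : ℝ) * L := mul_pos (by linarith) (by linarith)
  -- the primes
  obtain ⟨P, hP⟩ : ∃ P, P = PS z y := ⟨_, rfl⟩
  have hPm : ∀ p ∈ P, z < p ∧ p ≤ y ∧ p.Prime := fun p hp => mem_PS' (by rw [← hP]; exact hp)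
  haveI : ∀ p : P, NeZero (p : ℕ) := fun p => ⟨(hPm p p.2).2.2.ne_zero⟩
  obtain ⟨g, hg⟩ : ∃ g, g = gc h m := ⟨_, rfl⟩
  have hgb : ∀ p x y, |g p x y| ≤ 2 * c := by
    rw [hg]
    exact gc_abs h m hb hm
  have hg0 : ∀ p ∈ P, SS p (g p) = 0 := by
    rw [hg]
    exact fun p hp => gc_zero h m (hPm p hp).2.2 (hS p (hPm p hp).2.2 (hPm p hp).1)
  have hgV : ∀ p ∈ P, VV (w p) m p = SS p (fun x y => g p x y ^ 2) / (p : ℝ) ^ 2 := by
    rw [hg]
    exact fun p hp => gc_sq h m (w p) (hPm p hp).2.2 (hS p (hPm p hp).2.2 (hPm p hp).1)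
      (hS2 p (hPm p hp).2.2 (hPm p hp).1)
  have hV0 : ∀ p ∈ P, 0 ≤ VV (w p) m p := by
    intro p hp
    haveI : NeZero p := ⟨(hPm p hp).2.2.ne_zero⟩
    rw [hgV p hp, SS_eq]
    exact div_nonneg (sum_nonneg fun x _ => sum_nonneg fun y _ => sq_nonneg _) (by positivity)
  -- the sum of the variances
  obtain ⟨SV, hSV⟩ : ∃ SV, SV = ∑ p ∈ P, VV (w p) m p := ⟨_, rfl⟩
  have hSV0 : 0 ≤ SV := by rw [hSV]; exact sum_nonneg hV0
  have hSVe : |SV - v * ℓ| ≤ E1 := by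
    have h1 : |SV - ∑ p ∈ P, w p * (1 / (p : ℝ))| ≤ V + m ^ 2 := by
      rw [hSV, ← sum_sub_distrib]
      refine (abs_sum_le_sum_abs _ _).trans ((sum_le_sum fun p hp => (VV_err m (w p)
        (hPm p hp).2.2 (hw0 p)).trans (mul_le_mul_of_nonneg_right
          (add_le_add (hwV p) le_rfl) (by positivity))).trans ?_)
      rw [← mul_sum, hP]
      refine mul_le_of_le_one_right (by positivity) (sum_inv_sq z y (by omega))
    have h1' := hwC y i1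
    rw [← hP] at h1'
    have h2 := hC2 y i1
    rw [← hP] at h2
    have h3 : |∑ p ∈ P, 1 / (p : ℝ) - ℓ| ≤ D := by
      have := abs_le.1 h2
      rw [abs_le, hD]
      constructor <;> linarith
    have h4 : SV - v * ℓ = (SV - ∑ p ∈ P, w p * (1 / (p : ℝ))) +
        (∑ p ∈ P, w p * (1 / (p : ℝ)) - v * ∑ p ∈ P, 1 / (p : ℝ)) +
        v * (∑ p ∈ P, 1 / (p : ℝ) - ℓ) := by
      ring
    rw [h4, hE1]
    refine (abs_add_le _ _).trans ?_
    rw [abs_mul, abs_of_nonneg hv]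
    have h6 := abs_add_le (SV - ∑ p ∈ P, w p * (1 / (p : ℝ)))
      (∑ p ∈ P, w p * (1 / (p : ℝ)) - v * ∑ p ∈ P, 1 / (p : ℝ))
    have := mul_le_mul_of_nonneg_left h3 hv
    linarith
  have hSV1 : SV ≤ (v + 1) * σ ^ 2 := by
    rw [hσ2]
    have := (abs_le.1 hSVe).2
    linarith
  -- step a
  obtain ⟨A, hA'⟩ : ∃ A, A = (∑ t ∈ Ioc a (a + K) ×ˢ Ioc b (b + L),
    cexp ((((∑ p ∈ P, g p (t.1 : ZMod p) (t.2 : ZMod p)) / σ : ℝ) : ℂ) * I)) /
      (((K : ℝ) * L : ℝ) : ℂ) := ⟨_, rfl⟩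
  obtain ⟨B, hB⟩ : ∃ B, B = (∑ ω : Om P, cexp (((Fm P g ω / σ : ℝ) : ℂ) * I)) /
    ((Vm P : ℝ) : ℂ) := ⟨_, rfl⟩
  have hyN : y ^ (4 * N) ≤ T := (Nat.pow_le_pow_right (by omega) (four_le N hN1)).trans i2
  have hAB : ‖A - B‖ ≤ (N + 1) * (3 * (2 * c) ^ N / σ) +
      2 * (2 * (1 / 2) ^ N * Real.exp (4 * (v + 1))) := by
    have h1 := cf_cmp (Ioc a (a + K) ×ˢ Ioc b (b + L)) (univ : Finset (Om P))
      (fun t => (∑ p ∈ P, g p (t.1 : ZMod p) (t.2 : ZMod p)) / σ) (fun ω => Fm P g ω / σ)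
      ((K : ℝ) * L) (Vm P) hKL (Vm_pos P) N hNe (3 * (2 * c) ^ N / σ) (by positivity)
      (fun k hk => mom_cmp g P (fun p hp => (hPm p hp).2.2) (2 * c) (by linarith) hgb σ hσ1 y N T
        hN1 (fun p hp => (hPm p hp).2.1) (by omega) hyN hσT a b K L hK hL k hk)
    rw [← hA', ← hB] at h1
    refine h1.trans ?_
    have h2 := mdl_mom P g (2 * c) hgb hg0 (fun p => VV (w p) m p) hgV σ hσ0 hσc N hNe
    rw [← hSV] at h2
    have h3 : Real.exp (4 * SV / σ ^ 2) ≤ Real.exp (4 * (v + 1)) := by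
      apply Real.exp_le_exp.2
      rw [div_le_iff₀ (by positivity)]
      linarith
    have h4 : (0 : ℝ) ≤ 2 * (1 / 2) ^ N := by positivity
    have h5 := mul_le_mul_of_nonneg_left h3 h4
    linarith
  -- step b
  have hB1 : ‖B - ((Real.exp (-(SV / (2 * σ ^ 2))) : ℝ) : ℂ)‖ ≤ (2 * c + V) * (v + 1) / σ := by
    have h1 := mdl_cf P g (2 * c) (by linarith) hgb hg0 (fun p => VV (w p) m p) hgV σ hσ0 (fun p hp => by
      rw [div_le_one (by positivity), hσ2]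
      have := (VV_le m (w p) (hPm p hp).2.2 (hw0 p)).2
      have := hwV p
      linarith)
    rw [← hB, ← hSV] at h1
    refine h1.trans ?_
    have h2 : ∀ p ∈ P, 2 * c * VV (w p) m p / σ ^ 3 + (VV (w p) m p / σ ^ 2) ^ 2 ≤
        (2 * c + V) / σ ^ 3 * VV (w p) m p := by
      intro p hp
      have k1 := hV0 p hp
      have k2 := ((VV_le m (w p) (hPm p hp).2.2 (hw0 p)).2).trans (hwV p)
      have k3 : (VV (w p) m p / σ ^ 2) ^ 2 ≤ V / σ ^ 3 * VV (w p) m p := by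
        have e : (VV (w p) m p / σ ^ 2) ^ 2 = VV (w p) m p / σ ^ 4 * VV (w p) m p := by
          field_simp
        rw [e]
        apply mul_le_mul_of_nonneg_right _ k1
        exact div_le_div₀ hV k2 (by positivity) (pow_le_pow_right₀ hσ1 (by norm_num))
      have e2 : (2 * c + V) / σ ^ 3 * VV (w p) m p = 2 * c * VV (w p) m p / σ ^ 3 +
          V / σ ^ 3 * VV (w p) m p := by ring
      rw [e2]
      linarith
    refine (sum_le_sum h2).trans ?_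
    rw [← mul_sum, ← hSV]
    calc (2 * c + V) / σ ^ 3 * SV ≤ (2 * c + V) / σ ^ 3 * ((v + 1) * σ ^ 2) :=
          mul_le_mul_of_nonneg_left hSV1 (by positivity)
      _ = _ := by field_simp
  -- step c
  have hE : ‖((Real.exp (-(SV / (2 * σ ^ 2))) : ℝ) : ℂ) - ((Real.exp (-(v / 2)) : ℝ) : ℂ)‖ ≤
      E1 / σ := by
    rw [← Complex.ofReal_sub, Complex.norm_real, Real.norm_eq_abs]
    refine (exp_neg_lip (by positivity) (by positivity)).trans ?_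
    have e : SV / (2 * σ ^ 2) - v / 2 = (SV - v * ℓ) / (2 * σ ^ 2) := by
      rw [← hσ2]
      field_simp
    rw [e, abs_div, abs_of_pos (show (0 : ℝ) < 2 * σ ^ 2 by positivity)]
    calc |SV - v * ℓ| / (2 * σ ^ 2) ≤ E1 / (2 * σ ^ 2) :=
          div_le_div_of_nonneg_right hSVe (by positivity)
      _ ≤ E1 / σ := by
        apply div_le_div_of_nonneg_left hE10 hσ0
        nlinarith
  -- step d
  obtain ⟨A0, hA0⟩ : ∃ A0, A0 = (∑ t ∈ Ioc a (a + K) ×ˢ Ioc b (b + L),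
        cexp (((((∑ p ∈ PS z (yT T), h p (t.1 : ZMod p) (t.2 : ZMod p)) -
          m * ℓ) / σ : ℝ) : ℂ) * I)) /
          (((K : ℝ) * L : ℝ) : ℂ) := ⟨_, rfl⟩
  rw [← hA0]
  have hAA : ‖A0 - A‖ ≤ (√(16 * c ^ 2 * (1 + 2 * D)) + |m| * (D + 1)) / σ := by
    obtain ⟨Gt, hGt⟩ : ∃ Gt : ℤ × ℤ → ℝ, Gt = fun t =>
      ∑ p ∈ PS y (yT T), h p (t.1 : ZMod p) (t.2 : ZMod p) -
        ∑ p ∈ PS y (yT T), mu m p := ⟨_, rfl⟩
    have hm' : |∑ p ∈ PS z (yT T), mu m p - m * ℓ| ≤ |m| * (D + 1) := by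
      have e : ∑ p ∈ PS z (yT T), mu m p = m * (∑ p ∈ PS z (yT T), 1 / (p : ℝ) -
          ∑ p ∈ PS z (yT T), 1 / (p : ℝ) ^ 2) := by
        rw [← sum_sub_distrib, mul_sum]
        refine sum_congr rfl fun p hp => ?_
        have hp0 : (p : ℝ) ≠ 0 := by exact_mod_cast (mem_PS' hp).2.2.ne_zero
        unfold mu
        field_simp
      have k1 := abs_le.1 (hC2 (yT T) j3)
      have k2 := sum_inv_sq z (yT T) (by omega)
      have k3 : 0 ≤ ∑ p ∈ PS z (yT T), 1 / (p : ℝ) ^ 2 := sum_nonneg fun p _ => by positivity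
      rw [e, ← mul_sub, abs_mul]
      apply mul_le_mul_of_nonneg_left _ (abs_nonneg m)
      rw [abs_le, hD]
      constructor <;> nlinarith [k1.1, k1.2]
    have hinv : ∑ p ∈ PS y (yT T), 1 / (p : ℝ) ≤ 2 * D := by
      have k1 := abs_le.1 (hC2 (yT T) j3)
      have k2 := abs_le.1 (hC2 y i1)
      have k3 := PS_split i1.le hyy (fun p => 1 / (p : ℝ))
      rw [hD]
      nlinarith [k1.1, k1.2, k2.1, k2.2]
    have ht := turan h (PS y (yT T)) (fun p hp => (mem_PS' hp).2.2) c hc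
      (fun p => m * ((p : ℝ) - 1))
      (fun p hp => by
        intro _
        rw [← hS p (mem_PS' hp).2.2 (i1.trans (mem_PS' hp).1), SS_eq])
      (fun p hp => by
        intro _
        have := hA p (mem_PS' hp).2.2 (i1.trans (mem_PS' hp).1)
        rwa [SS_eq] at this) hb (yT T)
      (fun p hp => (mem_PS' hp).2.1) (by omega) a b K L ((yT_pow T).trans hK)
      ((yT_pow T).trans hL)
    have ht' : ∑ t ∈ Ioc a (a + K) ×ˢ Ioc b (b + L), Gt t ^ 2 ≤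
        16 * c ^ 2 * ((K : ℝ) * L) * (1 + 2 * D) := by
      rw [hGt]
      refine ht.trans ?_
      apply mul_le_mul_of_nonneg_left _ (by positivity)
      linarith
    have hcard : ((Ioc a (a + K) ×ˢ Ioc b (b + L)).card : ℝ) = (K : ℝ) * L := by
      rw [card_product, Int.card_Ioc, Int.card_Ioc]
      push_cast
      congr 1
      · have : (a + K - a).toNat = K := by omega
        rw [this]
      · have : (b + L - b).toNat = L := by omega
        rw [this]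
    have hsum : ∑ t ∈ Ioc a (a + K) ×ˢ Ioc b (b + L), |Gt t| ≤
        √(16 * c ^ 2 * (1 + 2 * D)) * ((K : ℝ) * L) := by
      have k1 := sq_sum_le_card_mul_sum_sq (s := Ioc a (a + K) ×ˢ Ioc b (b + L))
        (f := fun t => |Gt t|)
      simp only [sq_abs] at k1
      rw [hcard] at k1
      have k2 : (∑ t ∈ Ioc a (a + K) ×ˢ Ioc b (b + L), |Gt t|) ^ 2 ≤
          (√(16 * c ^ 2 * (1 + 2 * D)) * ((K : ℝ) * L)) ^ 2 := by
        rw [mul_pow, Real.sq_sqrt (by positivity)]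
        refine k1.trans ?_
        have := mul_le_mul_of_nonneg_left ht' hKL.le
        refine this.trans (le_of_eq ?_)
        ring
      exact le_of_sq_le_sq k2 (by positivity)
    rw [hA0, hA', ← sub_div, norm_div, Complex.norm_real, Real.norm_eq_abs, abs_of_pos hKL,
      div_le_iff₀ hKL, ← sum_sub_distrib]
    refine (norm_sum_le _ _).trans ?_
    have hpt : ∀ t ∈ Ioc a (a + K) ×ˢ Ioc b (b + L),
        ‖cexp (((((∑ p ∈ PS z (yT T), h p (t.1 : ZMod p) (t.2 : ZMod p)) -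
          m * ℓ) / σ : ℝ) : ℂ) * I) -
          cexp ((((∑ p ∈ P, g p (t.1 : ZMod p) (t.2 : ZMod p)) / σ : ℝ) : ℂ) * I)‖ ≤
          |Gt t| / σ + |m| * (D + 1) / σ := by
      intro t _
      refine (exp_I_lip _ _).trans ?_
      have e : ((∑ p ∈ PS z (yT T), h p (t.1 : ZMod p) (t.2 : ZMod p)) - m * ℓ) / σ -
          (∑ p ∈ P, g p (t.1 : ZMod p) (t.2 : ZMod p)) / σ =
          Gt t / σ + (∑ p ∈ PS z (yT T), mu m p - m * ℓ) / σ := by
        have k1 := PS_split i1.le hyy (fun p => h p (t.1 : ZMod p) (t.2 : ZMod p))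
        have k2 := PS_split i1.le hyy (fun p => mu m p)
        have k3 : ∑ p ∈ P, g p (t.1 : ZMod p) (t.2 : ZMod p) =
            ∑ p ∈ PS z y, h p (t.1 : ZMod p) (t.2 : ZMod p) - ∑ p ∈ PS z y, mu m p := by
          rw [hg, hP, ← sum_sub_distrib]
          rfl
        rw [k3, k1, k2, hGt]
        ring
      rw [e]
      refine (abs_add_le _ _).trans ?_
      rw [abs_div, abs_div, abs_of_pos hσ0]
      exact add_le_add le_rfl (div_le_div_of_nonneg_right hm' hσ0.le)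
    refine (sum_le_sum hpt).trans ?_
    rw [sum_add_distrib, ← sum_div, sum_const, nsmul_eq_mul, hcard, add_div, add_mul]
    refine add_le_add ?_ (le_of_eq (by ring))
    rw [div_mul_eq_mul_div]
    exact div_le_div_of_nonneg_right hsum hσ0.le
  -- the end
  have hfin : ‖A0 - ((Real.exp (-(v / 2)) : ℝ) : ℂ)‖ ≤ C' / σ + ε / 2 := by
    have e : A0 - ((Real.exp (-(v / 2)) : ℝ) : ℂ) = (A0 - A) + (A - B) +
        (B - ((Real.exp (-(SV / (2 * σ ^ 2))) : ℝ) : ℂ)) +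
        (((Real.exp (-(SV / (2 * σ ^ 2))) : ℝ) : ℂ) - ((Real.exp (-(v / 2)) : ℝ) : ℂ)) := by
      ring
    rw [e]
    have g1 := norm_add_le ((A0 - A) + (A - B) +
        (B - ((Real.exp (-(SV / (2 * σ ^ 2))) : ℝ) : ℂ)))
        (((Real.exp (-(SV / (2 * σ ^ 2))) : ℝ) : ℂ) - ((Real.exp (-(v / 2)) : ℝ) : ℂ))
    have g2 := norm_add_le ((A0 - A) + (A - B)) (B - ((Real.exp (-(SV / (2 * σ ^ 2))) : ℝ) : ℂ))
    have g3 := norm_add_le (A0 - A) (A - B)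
    have g4 : C' / σ = (√(16 * c ^ 2 * (1 + 2 * D)) + |m| * (D + 1)) / σ +
        (N + 1) * (3 * (2 * c) ^ N / σ) + (2 * c + V) * (v + 1) / σ + E1 / σ := by
      rw [hC']
      ring
    rw [g4]
    linarith
  refine hfin.trans ?_
  have g5 : C' / σ ≤ ε / 2 := by
    rw [div_le_iff₀ hε] at hσε
    rw [div_le_iff₀ hσ0]
    linarith
  linarith

end Pool.Agent.R421.EK
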