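import Mathlib
import Pool.Agent.R421.NR.Val
import Pool.Agent.R421.NR.Cop
import Pool.Agent.R421.EK.Hh
import Pool.Agent.TH841.LS.Locd
import Pool.Agent.R421.NR.Par
import Pool.Agent.Y676.IS.Cnt

/-!
# Project EK: one curve, with unramified classes at the primes of nonsplit reduction
-/

set_option autoImplicit false
set_option linter.all false

namespace Pool.Agent.R421.EK

open Finset

open Pool.Agent.TH841.LS (LocI LOCA LOCB LOCC LOCE LIN dd dd_ne dd_pos dvd_dd sq_dd locI_swap SHL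
  shl_of WI)

open Pool.Agent.TH841.NO (SQ QUL LWA LWB LWC PRA PRB LIN2 S2 C1g C2g fo sq_finite)

open Pool.Agent.W307.SE (Loc Sel SN sel_fin SN_nonneg)

open Pool.Agent.TH841.SH.D

open Pool.Agent.TH841.PT (EQ bd_EQ)

open Pool.Agent.R431.NO (OkS)

open Pool.Agent.W262.RK (PS)

open Pool.Agent.R421.NR (locf S3 NS ub3 tshl rk_le Gc val_one nd_mul)

/-- a large space of everywhere locally trivial classes: `G` consists of primes where all the
ramified classes are trivial, `C` contains the primes dividing `A - B` -/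
theorem lb4 (hLA : LOCA) (hLB : LOCB) (hLC : LOCC) (hLE : LOCE) (hL : LIN)
    (A B : ℤ) (h : A ≠ B) (hA : A ≠ 0) (hB : B ≠ 0) (G C : Finset ℕ)
    (hG : ∀ p ∈ G, p.Prime ∧ 11 ≤ p ∧ ¬ (p : ℤ) ∣ A - B ∧
      (Odd (padicValInt p A) ∨ Odd (padicValInt p B) ∨
        ((p : ℤ) ^ 2 ∣ A ∧ jacobiSym (-B) p = 1) ∨ ((p : ℤ) ^ 2 ∣ B ∧ jacobiSym (-A) p = 1)))
    (hC : ∀ p ∈ C, p.Prime ∧ 11 ≤ p ∧ p ∉ G)
    (hCA : ∀ p : ℕ, p.Prime → 11 ≤ p → (p : ℤ) ∣ A - B → p ∈ C ∨ jacobiSym A p = -1) :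
    ∃ V : Submodule (ZMod 2) (G → ZMod 2),
      (∀ ε ∈ V, (∀ (p : ℕ) [Fact p.Prime], LocI ℚ_[p] A B (dd G ε)) ∧ LocI ℝ A B (dd G ε)) ∧
      G.card ≤ Module.finrank (ZMod 2) V + C.card + 5 := by
  classical
  have hGp : ∀ p ∈ G, p.Prime := fun p hp => (hG p hp).1
  obtain ⟨V, hV1, hV2⟩ := hL A G (C ∪ {3, 5, 7}) ∅
    (fun p hp => ⟨hGp p hp, fun h2 => by have := (hG p hp).2.1; omega⟩)
    (by
      intro p hp
      rcases mem_union.1 hp with hp | hp
      · obtain ⟨h1, h2, h3⟩ := hC p hp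
        exact ⟨h1, by omega, h3⟩
      · simp only [mem_insert, mem_singleton] at hp
        rcases hp with rfl | rfl | rfl
        · exact ⟨by norm_num, by norm_num, fun h5 => by have := (hG _ h5).2.1; omega⟩
        · exact ⟨by norm_num, by norm_num, fun h5 => by have := (hG _ h5).2.1; omega⟩
        · exact ⟨by norm_num, by norm_num, fun h5 => by have := (hG _ h5).2.1; omega⟩)
    (fun p hp => absurd hp (notMem_empty p))
  refine ⟨V, fun ε hε => ?_, ?_⟩
  · obtain ⟨k1, _⟩ := hV2 ε hε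
    have hd0 : dd G ε ≠ 0 := dd_ne hGp ε
    obtain ⟨l1, l2⟩ := hLC A B (dd G ε) hA hB h hd0
    refine ⟨fun p hp => ?_, l2 (dd_pos hGp ε)⟩
    have hpp : p.Prime := hp.out
    by_cases hp2 : p = 2
    · exact l1 p (Or.inl (k1 p (Or.inr hp2)))
    by_cases hp11 : 11 ≤ p
    · by_cases hpd : (p : ℤ) ∣ A - B
      · rcases hCA p hpp hp11 hpd with hc | hj
        · exact l1 p (Or.inl (k1 p (Or.inl (mem_union_left _ hc))))
        · exact hLE p A B _ hp2 hA hB h hd0
            (fun hdd => (hG p (dvd_dd hGp ε hpp hdd)).2.2.1 hpd) hj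
      · by_cases hdd : (p : ℤ) ∣ dd G ε
        · obtain ⟨_, _, _, ho⟩ := hG p (dvd_dd hGp ε hpp hdd)
          have hodd : ∀ x : ℤ, Odd (padicValInt p x) → (p : ℤ) ∣ x := by
            intro x hx
            by_contra hn
            rw [padicValInt.eq_zero_of_not_dvd hn] at hx
            exact (by decide : ¬ Odd 0) hx
          rcases ho with ho | ho | ho | ho
          · exact hLB p A B _ hp11 hA hB hd0 (fun hB' => hpd (dvd_sub (hodd A ho) hB')) ho hdd
              (sq_dd hGp ε hpp)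
          · exact locI_swap (hLB p B A _ hp11 hB hA hd0
              (fun hA' => hpd (dvd_sub hA' (hodd B ho))) ho hdd (sq_dd hGp ε hpp))
          · exact locf A B _ hp2 ho.1 ho.2 hdd (sq_dd hGp ε hpp)
          · exact locI_swap (locf B A _ hp2 ho.1 ho.2 hdd (sq_dd hGp ε hpp))
        · exact hLA p A B _ hp11 hA hB hpd hdd
    · have h357 : p = 3 ∨ p = 5 ∨ p = 7 := by
        have h1 : p < 11 := by omega
        have h2 := hpp.two_le
        interval_cases p
        · exact absurd rfl hp2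
        · exact Or.inl rfl
        · exact absurd hpp (by decide)
        · exact Or.inr (Or.inl rfl)
        · exact absurd hpp (by decide)
        · exact Or.inr (Or.inr rfl)
        · exact absurd hpp (by decide)
        · exact absurd hpp (by decide)
        · exact absurd hpp (by decide)
      refine l1 p (Or.inl (k1 p (Or.inl (mem_union_right _ ?_))))
      simp only [mem_insert, mem_singleton]
      exact h357
  · have h2 : (C ∪ {3, 5, 7}).card ≤ C.card + 3 :=
      (card_union_le _ _).trans (Nat.add_le_add_left (by decide) _)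
    have h3 : (∅ : Finset ℕ).card = 0 := card_empty
    omega

/-- **one curve** -/
theorem one_ok4 {A B : ℤ} (hA : A ≠ 0) (hB : B ≠ 0) (hAB : A ≠ B) {R : ℕ} (hS : SN A B ≤ 2 ^ R)
    {lo hi : ℝ} (G C : Finset ℕ)
    (hG : ∀ p ∈ G, p.Prime ∧ 11 ≤ p ∧ ¬ (p : ℤ) ∣ A - B ∧
      (Odd (padicValInt p A) ∨ Odd (padicValInt p B) ∨
        ((p : ℤ) ^ 2 ∣ A ∧ jacobiSym (-B) p = 1) ∨ ((p : ℤ) ^ 2 ∣ B ∧ jacobiSym (-A) p = 1)))
    (hC : ∀ p ∈ C, p.Prime ∧ 11 ≤ p ∧ p ∉ G)
    (hCA : ∀ p : ℕ, p.Prime → 11 ≤ p → (p : ℤ) ∣ A - B → p ∈ C ∨ jacobiSym A p = -1)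
    (hlo : lo + C.card + R + 7 ≤ G.card)
    (hhi : ((S3 A B).card : ℝ) + R + 10 ≤ (C1g A B).card + hi) : OkS lo hi R (A, B) := by
  have hbd := bd_EQ hA hB hAB
  refine ⟨hA, hB, hAB, fun j hj => Pool.Agent.R421.NR.conv (fun j => hbd.fin j)
    (fun j hj => (hbd.wt_le hj).trans hS) j hj, ?_, ?_⟩
  · change (fo (-(A + B)) (A * B) : ℝ) ≤ hi
    have h1 := ub3 Pool.Agent.TH841.NO.QULf.qul Pool.Agent.TH841.NO.LWAf.lwa
      Pool.Agent.TH841.NO.LWBf.lwb Pool.Agent.TH841.NO.LWBf.lwc Pool.Agent.TH841.NO.PRf.pra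
      Pool.Agent.TH841.NO.PRf.prb Pool.Agent.TH841.NO.LIN2f.lin2 hA hB hAB
    have h2 : (Sel A B).ncard ≤ 2 ^ R := by
      have h3 : SN A B = ((Sel A B).ncard : ℝ) := rfl
      rw [h3] at hS
      exact_mod_cast hS
    have h3 : (SQ (-(A + B)) (A * B)).ncard * 2 ^ (C1g A B).card ≤
        2 ^ (10 + (S3 A B).card + R) := by
      have h4 : (SQ (-(A + B)) (A * B)).ncard * 2 ^ (C1g A B).card ≤
          (SQ (-(A + B)) (A * B)).ncard * 2 ^ ((C1g A B).card + (C2g A B).card) :=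
        Nat.mul_le_mul_left _ (Nat.pow_le_pow_right two_pos (by omega))
      refine h4.trans (h1.trans ?_)
      rw [pow_add, pow_add]
      exact Nat.mul_le_mul_left _ h2
    have h4 : fo (-(A + B)) (A * B) + (C1g A B).card ≤ 10 + (S3 A B).card + R := by
      by_cases h0 : (SQ (-(A + B)) (A * B)).ncard = 0
      · exfalso
        have h5 : (1 : ℤ) ∈ SQ (-(A + B)) (A * B) := by
          refine ⟨squarefree_one, one_dvd _, ⟨1, 1, 0, Or.inl one_ne_zero, ?_⟩, fun p _ =>
            ⟨1, 1, 0, Or.inl one_ne_zero, ?_⟩⟩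
          · push_cast
            ring
          · push_cast
            ring
        have h6 := Pool.Agent.TH841.NO.sq_finite (a := -(A + B)) (mul_ne_zero hA hB)
        rw [Set.ncard_eq_zero h6] at h0
        rw [h0] at h5
        exact h5
      · have h5 : 2 ^ fo (-(A + B)) (A * B) ≤ (SQ (-(A + B)) (A * B)).ncard :=
          Nat.pow_log_le_self 2 h0
        have h6 : 2 ^ (fo (-(A + B)) (A * B) + (C1g A B).card) ≤
            2 ^ (10 + (S3 A B).card + R) := by
          rw [pow_add]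
          exact (Nat.mul_le_mul_right _ h5).trans h3
        exact (Nat.pow_le_pow_iff_right (by norm_num)).1 h6
    have h5 : (fo (-(A + B)) (A * B) : ℝ) + (C1g A B).card ≤ 10 + (S3 A B).card + R := by
      exact_mod_cast h4
    linarith
  · obtain ⟨V, hV, hc⟩ := lb4 Pool.Agent.TH841.LS.LOCAf.loca Pool.Agent.TH841.LS.LOCBf.locb
      Pool.Agent.TH841.LS.LOCBf.locc Pool.Agent.TH841.LS.LOCDf.loce Pool.Agent.TH841.LS.LINf.lin A B hAB hA hB G C hG hC hCA
    obtain ⟨k, hk, hφ⟩ := tshl A B hAB hA hB G (fun p hp => (hG p hp).1) V hV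
    refine ⟨k, ?_, hφ⟩
    have h1 := rk_le hA hB hAB hS
    have h2 : G.card ≤ k + R + 2 + C.card + 5 := by omega
    have h3 : (G.card : ℝ) ≤ k + R + 2 + C.card + 5 := by exact_mod_cast h2
    linarith

/-- the value at `p` -/
def FV4 (A B : ℤ) (p : ℕ) (v : ℝ) : Prop :=
  (v = 1 ∧ Gc A B p) ∨
  (v = 0 ∧ ¬ (p : ℤ) ∣ A - B ∧ (¬ (p : ℤ) ∣ A * B ∨ NS A B p ∨ NS B A p)) ∨
  (v = 0 ∧ (p : ℤ) ∣ A - B ∧ ¬ (p : ℤ) ∣ A ∧ jacobiSym A p = -1) ∨
  (v = -1 ∧ (p : ℤ) ∣ A - B ∧ ¬ (p : ℤ) ∣ A ∧ jacobiSym A p = 1)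

/-- **one curve** -/
theorem val_ok4 {A B : ℤ} (hA : A ≠ 0) (hB : B ≠ 0) (hAB : A ≠ B) {R : ℕ} (hS : SN A B ≤ 2 ^ R)
    (z y : ℕ) (hz : 10 ≤ z) (h : ℕ → ℝ) (c : ℝ) (hc0 : 0 ≤ c) (X W : Finset ℕ)
    (hX : ∀ p ∈ PS z y, p ∉ X → FV4 A B p (h p)) (hh : ∀ p, |h p| ≤ c)
    (hW : ∀ p : ℕ, p.Prime → y < p → (p : ℤ) ∣ A * B * (A - B) → p ∈ W) {lo hi : ℝ}
    (hlo : lo + ((c + 1) * X.card + z + W.card + R + 10) ≤ ∑ p ∈ PS z y, h p)
    (hhi : ∑ p ∈ PS z y, h p + ((c + 1) * X.card + z + W.card + R + 10) ≤ hi) :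
    OkS lo hi R (A, B) := by
  classical
  have hAB0 : A * B ≠ 0 := mul_ne_zero hA hB
  have hd0 : A - B ≠ 0 := sub_ne_zero.2 hAB
  obtain ⟨P0, hP0⟩ : ∃ P0, P0 = (PS z y).filter (fun p => p ∉ X) := ⟨_, rfl⟩
  obtain ⟨G, hG⟩ : ∃ G, G = P0.filter (fun p => h p = 1) := ⟨_, rfl⟩
  obtain ⟨N1, hN1⟩ : ∃ N1, N1 = P0.filter (fun p => h p = -1) := ⟨_, rfl⟩
  obtain ⟨C, hC⟩ : ∃ C, C = (A - B).natAbs.primeFactors.filter (fun p => 11 ≤ p ∧
    ¬ jacobiSym A p = -1) := ⟨_, rfl⟩
  have mP : ∀ p ∈ PS z y, p.Prime ∧ 11 ≤ p ∧ z < p ∧ p ≤ y := by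
    intro p hp
    unfold PS at hp
    rw [mem_filter, mem_Ioc] at hp
    exact ⟨hp.2, by omega, hp.1.1, hp.1.2⟩
  have mP0 : ∀ p ∈ P0, p ∈ PS z y ∧ FV4 A B p (h p) := by
    intro p hp
    rw [hP0, mem_filter] at hp
    exact ⟨hp.1, hX p hp.1 hp.2⟩
  have mC : ∀ p : ℕ, p ∈ C ↔ p.Prime ∧ 11 ≤ p ∧ (p : ℤ) ∣ A - B ∧ ¬ jacobiSym A p = -1 := by
    intro p
    rw [hC, mem_filter, Nat.mem_primeFactors]
    constructor
    · rintro ⟨⟨h1, h2, _⟩, h3, h4⟩
      exact ⟨h1, h3, Int.natCast_dvd.2 h2, h4⟩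
    · rintro ⟨h1, h3, h2, h4⟩
      exact ⟨⟨h1, Int.natCast_dvd.1 h2, Int.natAbs_ne_zero.2 hd0⟩, h3, h4⟩
  have mG : ∀ p ∈ G, p ∈ PS z y ∧ Gc A B p := by
    intro p hp
    rw [hG, mem_filter] at hp
    obtain ⟨h1, h2⟩ := mP0 p hp.1
    refine ⟨h1, ?_⟩
    rcases h2 with h2 | h2 | h2 | h2
    · exact h2.2
    · exfalso
      rw [hp.2] at h2
      norm_num at h2
    · exfalso
      rw [hp.2] at h2
      norm_num at h2
    · exfalso
      rw [hp.2] at h2
      norm_num at h2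
  -- the sum
  have hsum0 : ∑ p ∈ P0, h p = (G.card : ℝ) - N1.card := by
    have e1 : ∀ p ∈ P0, h p = (if h p = 1 then (1 : ℝ) else 0) - (if h p = -1 then 1 else 0) := by
      intro p hp
      rcases (mP0 p hp).2 with h2 | h2 | h2 | h2
      · rw [h2.1]
        norm_num
      · rw [h2.1]
        norm_num
      · rw [h2.1]
        norm_num
      · rw [h2.1]
        norm_num
    rw [sum_congr rfl e1, sum_sub_distrib, sum_boole, sum_boole, hG, hN1]
  have hsum : |∑ p ∈ PS z y, h p - ((G.card : ℝ) - N1.card)| ≤ c * X.card := by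
    rw [← hsum0, ← sum_filter_add_sum_filter_not (PS z y) (fun p => p ∉ X) h, hP0,
      add_sub_cancel_left]
    refine (abs_sum_le_sum_abs _ _).trans ?_
    refine (sum_le_sum fun p _ => hh p).trans ?_
    rw [sum_const, nsmul_eq_mul, mul_comm]
    refine mul_le_mul_of_nonneg_left ?_ hc0
    exact_mod_cast card_le_card (fun p hp => by
      rw [mem_filter] at hp
      exact not_not.1 hp.2)
  have hs := abs_le.1 hsum
  -- the cardinalities
  have cC : (C.card : ℝ) ≤ N1.card + X.card + z + W.card := by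
    have h1 : C ⊆ N1 ∪ X ∪ Icc 1 z ∪ W := by
      intro p hp
      obtain ⟨p1, p2, p3, p4⟩ := (mC p).1 hp
      by_cases hpz : p ≤ z
      · exact mem_union_left _ (mem_union_right _ (mem_Icc.2 ⟨by omega, hpz⟩))
      by_cases hpy : p ≤ y
      · have hPS : p ∈ PS z y := by
          unfold PS
          rw [mem_filter, mem_Ioc]
          exact ⟨⟨by omega, hpy⟩, p1⟩
        by_cases hpX : p ∈ X
        · exact mem_union_left _ (mem_union_left _ (mem_union_right _ hpX))
        · refine mem_union_left _ (mem_union_left _ (mem_union_left _ ?_))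
          rw [hN1, mem_filter, hP0, mem_filter]
          refine ⟨⟨hPS, hpX⟩, ?_⟩
          rcases hX p hPS hpX with h2 | h2 | h2 | h2
          · exact absurd p3 h2.2.1
          · exact absurd p3 h2.2.1
          · exact absurd h2.2.2.2 p4
          · exact h2.1
      · exact mem_union_right _ (hW p p1 (by omega) (p3.mul_left _))
    have h2 := card_le_card h1
    have h3 := card_union_le (N1 ∪ X ∪ Icc 1 z) W
    have h4 := card_union_le (N1 ∪ X) (Icc 1 z)
    have h5 := card_union_le N1 X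
    have h6 : (Icc 1 z).card = z := by simp
    have h7 : C.card ≤ N1.card + X.card + z + W.card := by omega
    exact_mod_cast h7
  have cS : ((S3 A B).card : ℝ) ≤ G.card + X.card + z + W.card := by
    have h1 : S3 A B ⊆ G ∪ X ∪ Icc 1 z ∪ W := by
      intro p hp
      unfold S3 S2 at hp
      rw [mem_filter, mem_filter, Nat.mem_primeFactors] at hp
      obtain ⟨⟨⟨p1, p2, _⟩, p4⟩, p5, p6⟩ := hp
      have p3 : (p : ℤ) ∣ A * B := Int.natCast_dvd.2 p2
      by_cases hpz : p ≤ z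
      · exact mem_union_left _ (mem_union_right _ (mem_Icc.2 ⟨by omega, hpz⟩))
      by_cases hpy : p ≤ y
      · have hPS : p ∈ PS z y := by
          unfold PS
          rw [mem_filter, mem_Ioc]
          exact ⟨⟨by omega, hpy⟩, p1⟩
        by_cases hpX : p ∈ X
        · exact mem_union_left _ (mem_union_left _ (mem_union_right _ hpX))
        · refine mem_union_left _ (mem_union_left _ (mem_union_left _ ?_))
          rw [hG, mem_filter, hP0, mem_filter]
          refine ⟨⟨hPS, hpX⟩, ?_⟩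
          rcases hX p hPS hpX with h2 | h2 | h2 | h2
          · exact h2.1
          · exfalso
            rcases h2.2.2 with h3 | h3 | h3
            · exact h3 p3
            · exact p5 h3
            · exact p6 h3
          · exfalso
            obtain ⟨_, q1, q2, _⟩ := h2
            rcases (Nat.prime_iff_prime_int.1 p1).dvd_or_dvd p3 with q3 | q3
            · exact q2 q3
            · exact q2 (by have := dvd_add q1 q3; simpa using this)
          · exfalso
            obtain ⟨_, q1, q2, _⟩ := h2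
            rcases (Nat.prime_iff_prime_int.1 p1).dvd_or_dvd p3 with q3 | q3
            · exact q2 q3
            · exact q2 (by have := dvd_add q1 q3; simpa using this)
      · exact mem_union_right _ (hW p p1 (by omega) (p3.mul_right _))
    have h2 := card_le_card h1
    have h3 := card_union_le (G ∪ X ∪ Icc 1 z) W
    have h4 := card_union_le (G ∪ X) (Icc 1 z)
    have h5 := card_union_le G X
    have h6 : (Icc 1 z).card = z := by simp
    have h7 : (S3 A B).card ≤ G.card + X.card + z + W.card := by omega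
    exact_mod_cast h7
  have cN : (N1.card : ℝ) ≤ (C1g A B).card := by
    have h1 : N1 ⊆ C1g A B := by
      intro p hp
      rw [hN1, mem_filter] at hp
      obtain ⟨h1, h2⟩ := mP0 p hp.1
      obtain ⟨p1, p2, _⟩ := mP p h1
      have h3 : (p : ℤ) ∣ A - B ∧ ¬ (p : ℤ) ∣ A ∧ jacobiSym A p = 1 := by
        rcases h2 with h2 | h2 | h2 | h2
        · exfalso
          rw [hp.2] at h2
          norm_num at h2
        · exfalso
          rw [hp.2] at h2
          norm_num at h2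
        · exfalso
          rw [hp.2] at h2
          norm_num at h2
        · exact h2.2
      unfold C1g
      rw [mem_filter, Nat.mem_primeFactors]
      exact ⟨⟨p1, Int.natCast_dvd.1 h3.1, Int.natAbs_ne_zero.2 hd0⟩, p2, h3.2⟩
    exact_mod_cast card_le_card h1
  refine one_ok4 hA hB hAB hS G C (fun p hp => ?_) (fun p hp => ?_) (fun p p1 p2 p3 => by
    by_cases hj : jacobiSym A p = -1
    · exact Or.inr hj
    · exact Or.inl ((mC p).2 ⟨p1, p2, p3, hj⟩)) ?_ ?_
  · obtain ⟨h1, h2⟩ := mG p hp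
    obtain ⟨p1, p2, _⟩ := mP p h1
    exact ⟨p1, p2, h2⟩
  · obtain ⟨p1, p2, p3⟩ := (mC p).1 hp
    exact ⟨p1, p2, fun hG' => (mG p hG').2.1 p3.1⟩
  · nlinarith [hs.1, hs.2]
  · nlinarith [hs.1, hs.2]


end Pool.Agent.R421.EK
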