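import Mathlib
import Pool.Agent.R421.EK.Str
import Pool.Agent.R421.EK.Spl
import Pool.Agent.R421.EK.Box

/-!
# Project EK: the three isogenous curves of almost all pairs
-/

set_option autoImplicit false
set_option linter.all false

namespace Pool.Agent.R421.EK

open Finset

open Pool.Agent.W307.SE (SN SN_nonneg)

open Pool.Agent.R431.NO (OkS)

open Pool.Agent.W262.RK (PS)

open Pool.Agent.R421.NR (Gc val_one nd_mul cls_le sum_inv_sq SN_sw large_card yT yT_pow le_yT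
  yT_large)

open Pool.Agent.Y676.IS (tri)

/-! ### The local data -/

lemma hh_abs {p : ℕ} (x y : ZMod p) : |hh p x y| ≤ 1 := by
  unfold hh
  refine l3_le _ _ _ (u1_zero p) (u1_zero p) (by rw [q1_zero]; simp) 1 zero_le_one ?_ ?_ ?_ x y
  · intro z
    obtain ⟨h1, h2⟩ := u1_abs p z
    rw [abs_of_nonneg h1]
    exact h2
  · intro z
    obtain ⟨h1, h2⟩ := u1_abs p z
    rw [abs_of_nonneg h1]
    exact h2
  · intro z
    obtain ⟨h1, h2⟩ := u1_abs p z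
    obtain ⟨h3, h4⟩ := q1_abs p z
    rw [abs_neg, abs_of_nonneg h3]
    exact h4.trans h2

lemma fv_hh {p : ℕ} (hp : p.Prime) {a b : ℤ} (h1 : ¬ ((p : ℤ) ∣ a ∧ (p : ℤ) ∣ b))
    (h2 : ¬ (p : ℤ) ^ 2 ∣ a) (h3 : ¬ (p : ℤ) ^ 2 ∣ b) :
    FV4 a b p (hh p (a : ZMod p) (b : ZMod p)) := by
  haveI : Fact p.Prime := ⟨hp⟩
  have hz : ∀ x : ℤ, (x : ZMod p) = 0 ↔ (p : ℤ) ∣ x := fun x =>
    ZMod.intCast_zmod_eq_zero_iff_dvd _ _
  have hxy : ((a : ZMod p) = (b : ZMod p)) ↔ (p : ℤ) ∣ a - b := by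
    rw [← hz]
    push_cast
    rw [sub_eq_zero]
  by_cases ha : (p : ℤ) ∣ a
  · have hb : ¬ (p : ℤ) ∣ b := fun h => h1 ⟨ha, h⟩
    have haz := (hz a).2 ha
    have hbz : (b : ZMod p) ≠ 0 := fun h => hb ((hz b).1 h)
    have hd : ¬ (p : ℤ) ∣ a - b := fun h => hb (by have := dvd_sub ha h; simpa using this)
    refine Or.inl ⟨?_, hd, Or.inl ?_⟩
    · unfold hh l3 u1
      rw [if_pos haz, if_neg hbz, if_neg (fun h => hd (hxy.1 h)), if_pos hbz]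
      norm_num
    · rw [val_one ha h2]
      decide
  · have haz : (a : ZMod p) ≠ 0 := fun h => ha ((hz a).1 h)
    by_cases hb : (p : ℤ) ∣ b
    · have hbz := (hz b).2 hb
      have hd : ¬ (p : ℤ) ∣ a - b := fun h => ha (by have := dvd_add h hb; simpa using this)
      refine Or.inl ⟨?_, hd, Or.inr (Or.inl ?_)⟩
      · unfold hh l3 u1
        rw [if_neg haz, if_pos hbz, if_neg (fun h => hd (hxy.1 h)), if_pos haz]
        norm_num
      · rw [val_one hb h3]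
        decide
    · have hbz : (b : ZMod p) ≠ 0 := fun h => hb ((hz b).1 h)
      by_cases hd : (p : ℤ) ∣ a - b
      · by_cases hq : IsSquare (a : ZMod p)
        · refine Or.inr (Or.inr (Or.inr ⟨?_, hd, ha, ?_⟩))
          · unfold hh l3 q1
            rw [if_neg haz, if_neg hbz, if_pos (hxy.2 hd)]
            beta_reduce
            rw [if_pos ⟨haz, hq⟩]
            norm_num
          · rw [← jacobiSym.legendreSym.to_jacobiSym]
            exact (legendreSym.eq_one_iff p haz).2 hq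
        · refine Or.inr (Or.inr (Or.inl ⟨?_, hd, ha, ?_⟩))
          · unfold hh l3 q1
            rw [if_neg haz, if_neg hbz, if_pos (hxy.2 hd)]
            beta_reduce
            rw [if_neg (fun h => hq h.2)]
            norm_num
          · rw [← jacobiSym.legendreSym.to_jacobiSym]
            exact (legendreSym.eq_neg_one_iff p).2 hq
      · refine Or.inr (Or.inl ⟨?_, hd, Or.inl (nd_mul ha hb)⟩)
        unfold hh l3
        rw [if_neg haz, if_neg hbz, if_neg (fun h => hd (hxy.1 h))]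
        norm_num

lemma h3_tri (i : Fin 3) (p : ℕ) (A B : ℤ) : h3 i p (A : ZMod p) (B : ZMod p) =
    hh p (((tri i A B).1 : ℤ) : ZMod p) (((tri i A B).2 : ℤ) : ZMod p) := by
  fin_cases i
  · rfl
  · change hh p (-(A : ZMod p)) ((B : ZMod p) - A) = hh p ((-A : ℤ) : ZMod p) ((B - A : ℤ) : ZMod p)
    push_cast
    rfl
  · change hh p (-(B : ZMod p)) ((A : ZMod p) - B) = hh p ((-B : ℤ) : ZMod p) ((A - B : ℤ) : ZMod p)
    push_cast
    rfl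

open Classical in
/-- the exceptional primes -/
noncomputable def XS (z y : ℕ) (t : ℤ × ℤ) : Finset ℕ := (PS z y).filter (fun p =>
  (p : ℤ) ^ 2 ∣ t.1 ∨ (p : ℤ) ^ 2 ∣ t.2 ∨ (p : ℤ) ^ 2 ∣ t.1 - t.2 ∨ ((p : ℤ) ∣ t.1 ∧ (p : ℤ) ∣ t.2))

lemma fv_tri (i : Fin 3) {p : ℕ} (hp : p.Prime) {A B : ℤ} (h1 : ¬ (p : ℤ) ^ 2 ∣ A)
    (h2 : ¬ (p : ℤ) ^ 2 ∣ B) (h3 : ¬ (p : ℤ) ^ 2 ∣ A - B) (h4 : ¬ ((p : ℤ) ∣ A ∧ (p : ℤ) ∣ B)) :
    FV4 (tri i A B).1 (tri i A B).2 p (Pool.Agent.R421.EK.h3 i p (A : ZMod p) (B : ZMod p)) := by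
  rw [h3_tri]
  fin_cases i
  · exact fv_hh hp h4 h1 h2
  · change FV4 (-A) (B - A) p (hh p ((-A : ℤ) : ZMod p) ((B - A : ℤ) : ZMod p))
    refine fv_hh hp ?_ ?_ ?_
    · rintro ⟨k1, k2⟩
      rw [dvd_neg] at k1
      refine h4 ⟨k1, ?_⟩
      have := dvd_add k2 k1
      simpa using this
    · rw [dvd_neg]
      exact h1
    · intro h
      apply h3
      have := (dvd_neg (α := ℤ)).2 h
      simpa using this
  · change FV4 (-B) (A - B) p (hh p ((-B : ℤ) : ZMod p) ((A - B : ℤ) : ZMod p))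
    refine fv_hh hp ?_ ?_ h3
    · rintro ⟨k1, k2⟩
      rw [dvd_neg] at k1
      refine h4 ⟨?_, k1⟩
      have := dvd_add k2 k1
      simpa using this
    · rw [dvd_neg]
      exact h2

lemma SN_tri (i : Fin 3) {A B : ℤ} {R : ℕ} (h1 : SN A B ≤ 2 ^ R) (h2 : SN B A ≤ 2 ^ R) :
    SN (tri i A B).1 (tri i A B).2 ≤ 2 ^ R := by
  fin_cases i
  · exact h1
  · change SN (-A) (B - A) ≤ 2 ^ R
    rw [SN_sw]
    exact h1
  · change SN (-B) (A - B) ≤ 2 ^ R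
    rw [SN_sw]
    exact h2

/-- **the three curves of one pair** -/
theorem three_ok {A B : ℤ} (hA : A ≠ 0) (hB : B ≠ 0) (hAB : A ≠ B) {R : ℕ} (h1 : SN A B ≤ 2 ^ R)
    (h2 : SN B A ≤ 2 ^ R) (y k : ℕ) (hy : 2 ≤ y) (hk : (A * B * (A - B)).natAbs ≤ y ^ k)
    {lo hi : ℝ} (i : Fin 3)
    (hlo : lo + (2 * (XS 10 y (A, B)).card + 10 + k + R + 10) ≤
      ∑ p ∈ PS 10 y, h3 i p (A : ZMod p) (B : ZMod p))
    (hhi : ∑ p ∈ PS 10 y, h3 i p (A : ZMod p) (B : ZMod p) +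
      (2 * (XS 10 y (A, B)).card + 10 + k + R + 10) ≤ hi) :
    OkS lo hi R (tri i A B) := by
  classical
  obtain ⟨z1, z2, z3⟩ := Pool.Agent.Y676.IS.tri_ne hA hB hAB i
  have hN : A * B * (A - B) ≠ 0 := mul_ne_zero (mul_ne_zero hA hB) (sub_ne_zero.2 hAB)
  obtain ⟨W, hW⟩ : ∃ W, W = (A * B * (A - B)).natAbs.primeFactors.filter (fun p => y < p) :=
    ⟨_, rfl⟩
  have hWc : W.card ≤ k := by
    rw [hW]
    exact large_card hN hy hk
  have hWr : (W.card : ℝ) ≤ k := by exact_mod_cast hWc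
  have htri : (tri i A B).1 * (tri i A B).2 * ((tri i A B).1 - (tri i A B).2) ∣
      A * B * (A - B) := by
    fin_cases i
    · exact dvd_rfl
    · change -A * (B - A) * (-A - (B - A)) ∣ A * B * (A - B)
      exact ⟨-1, by ring⟩
    · change -B * (A - B) * (-B - (A - B)) ∣ A * B * (A - B)
      exact ⟨1, by ring⟩
  refine val_ok4 z1 z2 z3 (SN_tri i h1 h2) 10 y le_rfl
    (fun p => h3 i p (A : ZMod p) (B : ZMod p)) 1 zero_le_one (XS 10 y (A, B)) W ?_ ?_ ?_ ?_ ?_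
  · intro p hp hpX
    have hpp := (mem_PS' hp).2.2
    have h5 : ¬ ((p : ℤ) ^ 2 ∣ A ∨ (p : ℤ) ^ 2 ∣ B ∨ (p : ℤ) ^ 2 ∣ A - B ∨
        ((p : ℤ) ∣ A ∧ (p : ℤ) ∣ B)) := by
      intro h
      apply hpX
      unfold XS
      rw [mem_filter]
      exact ⟨hp, h⟩
    rw [not_or, not_or, not_or] at h5
    exact fv_tri i hpp h5.1 h5.2.1 h5.2.2.1 h5.2.2.2
  · intro p
    rw [h3_tri]
    exact hh_abs _ _
  · intro p p1 p2 p3
    rw [hW, mem_filter, Nat.mem_primeFactors]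
    exact ⟨⟨p1, Int.natCast_dvd.1 (p3.trans htri), Int.natAbs_ne_zero.2 hN⟩, p2⟩
  · push_cast
    linarith
  · push_cast
    linarith

/-! ### The count of the exceptional primes -/

lemma pr_le {a b : ℤ} {X : ℕ} (S1 S2 : ℤ → Prop) [DecidablePred S1] [DecidablePred S2] (c1 c2 : ℝ)
    (hc1 : 0 ≤ c1)
    (h1 : (((Ioc a (a + (X : ℤ))).filter S1).card : ℝ) ≤ c1)
    (h2 : (((Ioc b (b + (X : ℤ))).filter S2).card : ℝ) ≤ c2) :
    (((Bx a b X X).filter (fun t => S1 t.1 ∧ S2 t.2)).card : ℝ) ≤ c1 * c2 := by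
  have e : (Bx a b X X).filter (fun t => S1 t.1 ∧ S2 t.2) =
      ((Ioc a (a + (X : ℤ))).filter S1) ×ˢ ((Ioc b (b + (X : ℤ))).filter S2) := by
    unfold Bx
    ext t
    simp only [mem_filter, mem_product]
    tauto
  rw [e, card_product]
  push_cast
  exact mul_le_mul h1 h2 (Nat.cast_nonneg _) hc1

lemma xs_one {p : ℕ} (hp : p.Prime) (a b : ℤ) {X : ℕ} (hX : p ^ 2 ≤ X) :
    (((Bx a b X X).filter (fun t => (p : ℤ) ^ 2 ∣ t.1 ∨ (p : ℤ) ^ 2 ∣ t.2 ∨ (p : ℤ) ^ 2 ∣ t.1 - t.2 ∨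
      ((p : ℤ) ∣ t.1 ∧ (p : ℤ) ∣ t.2))).card : ℝ) ≤ 10 * (X : ℝ) ^ 2 * (1 / (p : ℝ) ^ 2) := by
  classical
  have hp0 : (0 : ℝ) < p := by exact_mod_cast hp.pos
  have hpX : p ≤ X := (Nat.le_self_pow two_ne_zero p).trans hX
  have c0 : ∀ c : ℤ, ((Ioc c (c + (X : ℤ))).card : ℝ) = X := by
    intro c
    rw [Int.card_Ioc]
    have : (c + X - c).toNat = X := by omega
    rw [this]
  have c1 : ∀ c v : ℤ, (((Ioc c (c + (X : ℤ))).filter (fun m : ℤ => (p : ℤ) ^ 2 ∣ m - v)).card : ℝ) ≤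
      2 * X / (p : ℝ) ^ 2 := by
    intro c v
    have := cls_le (p ^ 2) (pow_pos hp.pos 2) c X hX v
    push_cast at this
    exact this
  have c2 : ∀ c v : ℤ, (((Ioc c (c + (X : ℤ))).filter (fun m : ℤ => (p : ℤ) ∣ m - v)).card : ℝ) ≤
      2 * X / (p : ℝ) := fun c v => cls_le p hp.pos c X hpX v
  have a1 := pr_le (a := a) (b := b) (X := X) (fun m => (p : ℤ) ^ 2 ∣ m - 0) (fun _ => True)
    (2 * X / (p : ℝ) ^ 2) X (by positivity) (c1 a 0) (by rw [filter_true]; exact (c0 b).le)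
  have a2 := pr_le (a := a) (b := b) (X := X) (fun _ => True) (fun m => (p : ℤ) ^ 2 ∣ m - 0)
    X (2 * X / (p : ℝ) ^ 2) (by positivity) (by rw [filter_true]; exact (c0 a).le) (c1 b 0)
  have a4 := pr_le (a := a) (b := b) (X := X) (fun m => (p : ℤ) ∣ m - 0) (fun m => (p : ℤ) ∣ m - 0)
    (2 * X / (p : ℝ)) (2 * X / (p : ℝ)) (by positivity) (c2 a 0) (c2 b 0)
  have a3 : (((Bx a b X X).filter (fun t => (p : ℤ) ^ 2 ∣ t.1 - t.2)).card : ℝ) ≤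
      X * (2 * X / (p : ℝ) ^ 2) := by
    have e1 : ((Bx a b X X).filter (fun t => (p : ℤ) ^ 2 ∣ t.1 - t.2)).card =
        ∑ n ∈ Ioc b (b + (X : ℤ)), ((Ioc a (a + (X : ℤ))).filter
          (fun m : ℤ => (p : ℤ) ^ 2 ∣ m - n)).card := by
      unfold Bx
      rw [card_filter, sum_product_right]
      refine sum_congr rfl fun m _ => ?_
      rw [card_filter]
    rw [e1, Nat.cast_sum]
    refine (sum_le_sum fun n _ => c1 a n).trans (le_of_eq ?_)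
    rw [sum_const, nsmul_eq_mul, c0]
  have hsub : (Bx a b X X).filter (fun t => (p : ℤ) ^ 2 ∣ t.1 ∨ (p : ℤ) ^ 2 ∣ t.2 ∨
      (p : ℤ) ^ 2 ∣ t.1 - t.2 ∨ ((p : ℤ) ∣ t.1 ∧ (p : ℤ) ∣ t.2)) ⊆
      ((Bx a b X X).filter (fun t => (p : ℤ) ^ 2 ∣ t.1 - 0 ∧ True) ∪
       (Bx a b X X).filter (fun t => True ∧ (p : ℤ) ^ 2 ∣ t.2 - 0)) ∪
      ((Bx a b X X).filter (fun t => (p : ℤ) ^ 2 ∣ t.1 - t.2) ∪
       (Bx a b X X).filter (fun t => (p : ℤ) ∣ t.1 - 0 ∧ (p : ℤ) ∣ t.2 - 0)) := by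
    intro t ht
    simp only [mem_union, mem_filter, sub_zero, and_true, true_and] at ht ⊢
    tauto
  have u1 := (card_le_card hsub).trans (card_union_le _ _)
  have u2 := card_union_le ((Bx a b X X).filter (fun t => (p : ℤ) ^ 2 ∣ t.1 - 0 ∧ True))
       ((Bx a b X X).filter (fun t => True ∧ (p : ℤ) ^ 2 ∣ t.2 - 0))
  have u3 := card_union_le ((Bx a b X X).filter (fun t => (p : ℤ) ^ 2 ∣ t.1 - t.2))
       ((Bx a b X X).filter (fun t => (p : ℤ) ∣ t.1 - 0 ∧ (p : ℤ) ∣ t.2 - 0))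
  have u4 : (((Bx a b X X).filter (fun t => (p : ℤ) ^ 2 ∣ t.1 ∨ (p : ℤ) ^ 2 ∣ t.2 ∨
      (p : ℤ) ^ 2 ∣ t.1 - t.2 ∨ ((p : ℤ) ∣ t.1 ∧ (p : ℤ) ∣ t.2))).card : ℝ) ≤
      ((Bx a b X X).filter (fun t => (p : ℤ) ^ 2 ∣ t.1 - 0 ∧ True)).card +
      ((Bx a b X X).filter (fun t => True ∧ (p : ℤ) ^ 2 ∣ t.2 - 0)).card +
      ((Bx a b X X).filter (fun t => (p : ℤ) ^ 2 ∣ t.1 - t.2)).card +
      ((Bx a b X X).filter (fun t => (p : ℤ) ∣ t.1 - 0 ∧ (p : ℤ) ∣ t.2 - 0)).card := by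
    have := u1.trans (Nat.add_le_add u2 u3)
    have h : ((Bx a b X X).filter (fun t => (p : ℤ) ^ 2 ∣ t.1 ∨ (p : ℤ) ^ 2 ∣ t.2 ∨
      (p : ℤ) ^ 2 ∣ t.1 - t.2 ∨ ((p : ℤ) ∣ t.1 ∧ (p : ℤ) ∣ t.2))).card ≤
      ((Bx a b X X).filter (fun t => (p : ℤ) ^ 2 ∣ t.1 - 0 ∧ True)).card +
      ((Bx a b X X).filter (fun t => True ∧ (p : ℤ) ^ 2 ∣ t.2 - 0)).card +
      ((Bx a b X X).filter (fun t => (p : ℤ) ^ 2 ∣ t.1 - t.2)).card +
      ((Bx a b X X).filter (fun t => (p : ℤ) ∣ t.1 - 0 ∧ (p : ℤ) ∣ t.2 - 0)).card := by omega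
    exact_mod_cast h
  have e1 : 2 * (X : ℝ) / (p : ℝ) ^ 2 * X = 2 * (X : ℝ) ^ 2 * (1 / (p : ℝ) ^ 2) := by ring
  have e2 : (X : ℝ) * (2 * X / (p : ℝ) ^ 2) = 2 * (X : ℝ) ^ 2 * (1 / (p : ℝ) ^ 2) := by ring
  have e3 : (2 * (X : ℝ) / (p : ℝ)) * (2 * X / (p : ℝ)) = 4 * (X : ℝ) ^ 2 * (1 / (p : ℝ) ^ 2) := by
    field_simp
    ring
  rw [e1] at a1
  rw [e2] at a2 a3
  rw [e3] at a4
  have e4 : 10 * (X : ℝ) ^ 2 * (1 / (p : ℝ) ^ 2) = 2 * (X : ℝ) ^ 2 * (1 / (p : ℝ) ^ 2) +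
    2 * (X : ℝ) ^ 2 * (1 / (p : ℝ) ^ 2) + 2 * (X : ℝ) ^ 2 * (1 / (p : ℝ) ^ 2) +
    4 * (X : ℝ) ^ 2 * (1 / (p : ℝ) ^ 2) := by ring
  rw [e4]
  refine u4.trans ?_
  linarith

lemma xs_sum (a b : ℤ) {X y : ℕ} (hy : y ^ 2 ≤ X) :
    ∑ t ∈ Bx a b X X, ((XS 10 y t).card : ℝ) ≤ 10 * (X : ℝ) ^ 2 := by
  classical
  have e1 : ∑ t ∈ Bx a b X X, ((XS 10 y t).card : ℝ) =
      ∑ p ∈ PS 10 y, (((Bx a b X X).filter (fun t => (p : ℤ) ^ 2 ∣ t.1 ∨ (p : ℤ) ^ 2 ∣ t.2 ∨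
        (p : ℤ) ^ 2 ∣ t.1 - t.2 ∨ ((p : ℤ) ∣ t.1 ∧ (p : ℤ) ∣ t.2))).card : ℝ) := by
    unfold XS
    simp only [card_filter, Nat.cast_sum]
    rw [sum_comm]
  rw [e1]
  calc _ ≤ ∑ p ∈ PS 10 y, 10 * (X : ℝ) ^ 2 * (1 / (p : ℝ) ^ 2) := by
        refine sum_le_sum fun p hp => ?_
        obtain ⟨h1, h2, h3⟩ := mem_PS' hp
        exact xs_one h3 a b ((Nat.pow_le_pow_left h2 2).trans hy)
    _ = 10 * (X : ℝ) ^ 2 * ∑ p ∈ PS 10 y, 1 / (p : ℝ) ^ 2 := (mul_sum _ _ _).symm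
    _ ≤ 10 * (X : ℝ) ^ 2 * 1 :=
      mul_le_mul_of_nonneg_left (sum_inv_sq 10 y (by norm_num)) (by positivity)
    _ = _ := mul_one _

/-- **the structure of almost all pairs** -/
theorem str (ε : ℝ) (L : ℕ) (hε : 0 < ε) : ∃ R X0 : ℕ, ∀ (N1 N2 : ℤ) (X : ℕ), X0 ≤ X →
    N1.natAbs ≤ X ^ L → N2.natAbs ≤ X ^ L →
      ∃ T : Finset (ℤ × ℤ), (T.card : ℝ) ≤ ε * X ^ 2 ∧ ∀ t ∈ Bx N1 N2 X X, t ∉ T → ∀ i,
        OkS (S3s i X t - R) (S3s i X t + R) R (tri i t.1 t.2) := by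
  classical
  obtain ⟨R, X1, hR⟩ := sn_short (ε / 4) L (by positivity)
  obtain ⟨E, hE⟩ : ∃ E : ℕ, 20 / ε + 1 ≤ (E : ℝ) := exists_nat_ge _
  obtain ⟨R', hR'⟩ : ∃ R', R' = 2 * E + 10 + 8 * (3 * (L + 3)) + R + 10 := ⟨_, rfl⟩
  refine ⟨R', X1 + 11 ^ 4 + 81, fun N1 N2 X hX hN1 hN2 => ?_⟩
  obtain ⟨T1, t1, t1'⟩ := hR N1 N2 X (by omega) hN1 hN2
  obtain ⟨T2, t2, t2'⟩ := hR N2 N1 X (by omega) hN2 hN1
  have hy2 : 2 ≤ yT X := (yT_large 10 (by omega)).le.trans' (by norm_num)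
  have hyX : yT X ^ 2 ≤ X := by
    have h2 : yT X ^ 2 ≤ yT X ^ 4 := Nat.pow_le_pow_right (by omega) (by norm_num)
    exact h2.trans (yT_pow X)
  obtain ⟨T3, hT3⟩ : ∃ T3, T3 = (Bx N1 N2 X X).filter (fun t => E < (XS 10 (yT X) t).card) :=
    ⟨_, rfl⟩
  have hsum := xs_sum N1 N2 hyX
  have b3 : (T3.card : ℝ) ≤ ε / 2 * X ^ 2 := by
    have h2 : (T3.card : ℝ) * E ≤ 10 * (X : ℝ) ^ 2 := by
      refine le_trans ?_ hsum
      calc (T3.card : ℝ) * E = ∑ t ∈ T3, (E : ℝ) := by rw [sum_const, nsmul_eq_mul]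
        _ ≤ ∑ t ∈ T3, ((XS 10 (yT X) t).card : ℝ) := by
          refine sum_le_sum fun t ht => ?_
          rw [hT3, mem_filter] at ht
          exact_mod_cast ht.2.le
        _ ≤ _ := by
          refine sum_le_sum_of_subset_of_nonneg ?_ fun _ _ _ => Nat.cast_nonneg _
          rw [hT3]
          exact filter_subset _ _
    have h3 : (0 : ℝ) ≤ 20 / ε := by positivity
    have h4 : 0 < (E : ℝ) := by linarith
    have h5 : 20 ≤ E * ε := by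
      have : 20 / ε ≤ E := by linarith
      rwa [div_le_iff₀ hε] at this
    have h6 : (T3.card : ℝ) * E ≤ (ε / 2 * (X : ℝ) ^ 2) * E := by
      refine h2.trans ?_
      have h7 : (0 : ℝ) ≤ (X : ℝ) ^ 2 := by positivity
      nlinarith
    exact le_of_mul_le_mul_right h6 h4
  refine ⟨T1 ∪ T2.image Prod.swap ∪ T3, ?_, fun t ht hn i => ?_⟩
  · have h1 := card_union_le (T1 ∪ T2.image Prod.swap) T3
    have h2 := card_union_le T1 (T2.image Prod.swap)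
    have h3 : (T2.image Prod.swap).card ≤ T2.card := card_image_le
    have h4 : (((T1 ∪ T2.image Prod.swap ∪ T3).card : ℕ) : ℝ) ≤ T1.card + T2.card + T3.card := by
      have : (T1 ∪ T2.image Prod.swap ∪ T3).card ≤ T1.card + T2.card + T3.card := by omega
      exact_mod_cast this
    linarith
  · rw [mem_union, mem_union, not_or, not_or] at hn
    obtain ⟨⟨n1, n2⟩, n3⟩ := hn
    obtain ⟨⟨z1, z2, z3⟩, z4⟩ := t1' t ht n1
    have ht' : (t.2, t.1) ∈ Ioc N2 (N2 + (X : ℤ)) ×ˢ Ioc N1 (N1 + (X : ℤ)) := by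
      unfold Bx at ht
      rw [mem_product] at ht ⊢
      exact ⟨ht.2, ht.1⟩
    obtain ⟨-, z5⟩ := t2' (t.2, t.1) ht' (fun h => n2 (mem_image.2 ⟨_, h, rfl⟩))
    have hXc : (XS 10 (yT X) t).card ≤ E := by
      by_contra hcon
      exact n3 (by rw [hT3]; exact mem_filter.2 ⟨ht, not_le.1 hcon⟩)
    have hXr : ((XS 10 (yT X) (t.1, t.2)).card : ℝ) ≤ E := by exact_mod_cast hXc
    have hsz : (t.1 * t.2 * (t.1 - t.2)).natAbs ≤ yT X ^ (8 * (3 * (L + 3))) := by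
      have hX2 : 2 ≤ X := by omega
      have hb : ∀ N s : ℤ, N.natAbs ≤ X ^ L → s ∈ Ioc N (N + (X : ℤ)) → s.natAbs ≤ X ^ (L + 2) := by
        intro N s hN hs
        rw [mem_Ioc] at hs
        have e1 : X ^ (L + 2) = X ^ L * (X * X) := by ring
        have e2 : 1 ≤ X ^ L := Nat.one_le_pow _ _ (by omega)
        have e3 : X ^ L + X ≤ X ^ L * (X * X) := by
          have e4 : 2 * X ≤ X * X := Nat.mul_le_mul_right _ hX2
          have e5 : X ^ L * (2 * X) ≤ X ^ L * (X * X) := Nat.mul_le_mul_left _ e4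
          have e6 : X ^ L ≤ X ^ L * X := Nat.le_mul_of_pos_right _ (by omega)
          have e7 : X ≤ X ^ L * X := Nat.le_mul_of_pos_left _ e2
          have e8 : X ^ L * (2 * X) = X ^ L * X + X ^ L * X := by ring
          omega
        rw [e1]
        omega
      unfold Bx at ht
      rw [mem_product] at ht
      have g1 := hb N1 t.1 hN1 ht.1
      have g2 := hb N2 t.2 hN2 ht.2
      have g3 : (t.1 - t.2).natAbs ≤ X ^ (L + 3) := by
        have e1 : X ^ (L + 3) = X * X ^ (L + 2) := by ring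
        have e2 : 2 * X ^ (L + 2) ≤ X * X ^ (L + 2) := Nat.mul_le_mul_right _ hX2
        rw [e1]
        omega
      have g4 : X ^ (L + 2) ≤ X ^ (L + 3) := Nat.pow_le_pow_right (by omega) (by omega)
      calc (t.1 * t.2 * (t.1 - t.2)).natAbs = t.1.natAbs * t.2.natAbs * (t.1 - t.2).natAbs := by
            rw [Int.natAbs_mul, Int.natAbs_mul]
        _ ≤ X ^ (L + 3) * X ^ (L + 3) * X ^ (L + 3) :=
            Nat.mul_le_mul (Nat.mul_le_mul (g1.trans g4) (g2.trans g4)) g3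
        _ = X ^ (3 * (L + 3)) := by ring
        _ ≤ (yT X ^ 8) ^ (3 * (L + 3)) := Nat.pow_le_pow_left (le_yT (by omega)) _
        _ = _ := by rw [← pow_mul]
    have hmain := three_ok (lo := S3s i X t - R') (hi := S3s i X t + R') z1 z2 z3 z4 z5 (yT X)
      (8 * (3 * (L + 3))) hy2 hsz i (by
        change S3s i X t - R' + _ ≤ S3s i X t
        rw [hR']
        push_cast
        linarith) (by
        change S3s i X t + _ ≤ S3s i X t + R'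
        rw [hR']
        push_cast
        linarith)
    exact hmain.mono le_rfl le_rfl (by omega)

end Pool.Agent.R421.EK
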