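import Mathlib
import Pool.Agent.R421.EK.Xc

/-!
# Project EK: the joint law of the Tate-Shafarevich groups
-/

set_option autoImplicit false
set_option linter.all false

namespace Pool.Agent.R421.EK

open Finset ProbabilityTheory MeasureTheory

open Pool.Agent.TH841.SH.D (Sha)

open Pool.Agent.TH841.LS (WI)

open Pool.Agent.R431.NO (OkS typ1)

open Pool.Agent.R421.NR (big_ll)

open Pool.Agent.Y676.IS (tri)

lemma gauss_pdf (x : ℝ) : gaussianPDF 0 1 x ≤ 1 := by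
  unfold gaussianPDF
  rw [ENNReal.ofReal_le_one]
  unfold gaussianPDFReal
  have h1 : (1 : ℝ) ≤ √(2 * Real.pi * ((1 : NNReal) : ℝ)) := by
    rw [Real.one_le_sqrt]
    have := Real.pi_gt_three
    rw [NNReal.coe_one]
    linarith
  have h2 : Real.exp (-(x - 0) ^ 2 / (2 * ((1 : NNReal) : ℝ))) ≤ 1 := by
    rw [Real.exp_le_one_iff]
    rw [NNReal.coe_one]
    have := sq_nonneg (x - 0)
    linarith
  have h3 : (√(2 * Real.pi * ((1 : NNReal) : ℝ)))⁻¹ ≤ 1 := inv_le_one_of_one_le₀ h1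
  calc _ ≤ 1 * 1 := mul_le_mul h3 h2 (Real.exp_pos _).le zero_le_one
    _ = 1 := mul_one _

lemma gauss_lip {a b : ℝ} (h : a ≤ b) : (gaussianReal 0 1).real (Set.Iic b) ≤
    (gaussianReal 0 1).real (Set.Iic a) + (b - a) := by
  rw [← Set.Iic_union_Ioc_eq_Iic h]
  refine (measureReal_union_le _ _).trans ?_
  refine add_le_add le_rfl ?_
  have h1 : gaussianReal 0 1 (Set.Ioc a b) ≤ ENNReal.ofReal (b - a) := by
    rw [gaussianReal_apply 0 one_ne_zero]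
    calc ∫⁻ x in Set.Ioc a b, gaussianPDF 0 1 x ≤ ∫⁻ _ in Set.Ioc a b, 1 :=
          lintegral_mono fun x => gauss_pdf x
      _ = ENNReal.ofReal (b - a) := by
          rw [lintegral_const, one_mul, Measure.restrict_apply MeasurableSet.univ, Set.univ_inter,
            Real.volume_Ioc]
  unfold Measure.real
  exact ENNReal.toReal_le_of_le_ofReal (by linarith) h1

lemma prod3 (a b : Fin 3 → ℝ) (δ : ℝ) (ha0 : ∀ i, 0 ≤ a i) (ha : ∀ i, a i ≤ 1)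
    (hb0 : ∀ i, 0 ≤ b i) (hb : ∀ i, b i ≤ 1) (h : ∀ i, a i ≤ b i + δ) (hδ : 0 ≤ δ) :
    ∏ i, a i ≤ ∏ i, b i + 3 * δ := by
  rw [Fin.prod_univ_three, Fin.prod_univ_three]
  have e1 : a 0 * a 1 * a 2 ≤ (b 0 + δ) * (a 1 * a 2) := by
    rw [mul_assoc]
    exact mul_le_mul_of_nonneg_right (h 0) (mul_nonneg (ha0 1) (ha0 2))
  have e2 : a 1 * a 2 ≤ (b 1 + δ) * a 2 := mul_le_mul_of_nonneg_right (h 1) (ha0 2)
  have e3 : a 1 * a 2 ≤ 1 := mul_le_one₀ (ha 1) (ha0 2) (ha 2)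
  have e4 : b 0 * (a 1 * a 2) ≤ b 0 * ((b 1 + δ) * a 2) := mul_le_mul_of_nonneg_left e2 (hb0 0)
  have e5 : δ * (a 1 * a 2) ≤ δ * 1 := mul_le_mul_of_nonneg_left e3 hδ
  have e6 : b 0 * (δ * a 2) ≤ 1 * (δ * 1) :=
    mul_le_mul (hb 0) (mul_le_mul_of_nonneg_left (ha 2) hδ) (mul_nonneg hδ (ha0 2)) zero_le_one
  have e7 : b 0 * b 1 * a 2 ≤ b 0 * b 1 * (b 2 + δ) :=
    mul_le_mul_of_nonneg_left (h 2) (mul_nonneg (hb0 0) (hb0 1))
  have e8 : b 0 * b 1 * δ ≤ 1 * δ :=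
    mul_le_mul_of_nonneg_right (mul_le_one₀ (hb 0) (hb0 1) (hb 1)) hδ
  nlinarith

lemma sandwich {α : Type} (S T M A B : Finset α) (V W : α → Fin 3 → ℝ) (P : α → Prop) (δ : ℝ)
    (h : ∀ t ∈ S, t ∉ T → P t ∧ ∀ i, |V t i - W t i| ≤ δ) (x : Fin 3 → ℝ)
    (hM : ∀ t, t ∈ M ↔ t ∈ S ∧ P t ∧ ∀ i, V t i ≤ x i)
    (hA : ∀ t, t ∈ A ↔ t ∈ S ∧ ∀ i, W t i ≤ x i - δ)
    (hB : ∀ t, t ∈ B ↔ t ∈ S ∧ ∀ i, W t i ≤ x i + δ) :
    (A.card : ℝ) ≤ M.card + T.card ∧ (M.card : ℝ) ≤ B.card + T.card := by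
  classical
  constructor
  · have h1 : A ⊆ M ∪ T := by
      intro t ht
      rw [hA] at ht
      by_cases hT : t ∈ T
      · exact mem_union_right _ hT
      · refine mem_union_left _ ((hM t).2 ⟨ht.1, (h t ht.1 hT).1, fun i => ?_⟩)
        have h2 := (abs_le.1 ((h t ht.1 hT).2 i)).2
        have h3 := ht.2 i
        linarith
    exact_mod_cast (card_le_card h1).trans (card_union_le _ _)
  · have h1 : M ⊆ B ∪ T := by
      intro t ht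
      rw [hM] at ht
      by_cases hT : t ∈ T
      · exact mem_union_right _ hT
      · refine mem_union_left _ ((hB t).2 ⟨ht.1, fun i => ?_⟩)
        have h2 := (abs_le.1 ((h t ht.1 hT).2 i)).1
        have h3 := ht.2.2 i
        linarith
    exact_mod_cast (card_le_card h1).trans (card_union_le _ _)

/-- the elements killed by `2 ^ j` -/
def To (i : Fin 3) (j : ℕ) (t : ℤ × ℤ) : Set (Sha (WI (tri i t.1 t.2).1 (tri i t.1 t.2).2)) :=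
  {x | (2 ^ j) • x = 0}

/-- the normalised logarithm -/
noncomputable def Ln (j : Fin 3 → ℕ) (X : ℕ) (t : ℤ × ℤ) (i : Fin 3) : ℝ :=
  (Real.logb 2 (To i (j i) t).ncard - 3 / 2 * Real.log (Real.log X)) /
    √(5 / 2 * Real.log (Real.log X))

/-- **the joint law** -/
theorem ek_main (L : ℕ) (j : Fin 3 → ℕ) (hj : ∀ i, 1 ≤ j i) (x : Fin 3 → ℝ) (ε : ℝ) (hε : 0 < ε) :
    ∃ X0 : ℕ, ∀ (N1 N2 : ℤ) (X : ℕ), X0 ≤ X → N1.natAbs ≤ X ^ L → N2.natAbs ≤ X ^ L →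
      ∀ M : Finset (ℤ × ℤ), (∀ t, t ∈ M ↔ t ∈ Bx N1 N2 X X ∧ (∀ i, (To i (j i) t).Finite) ∧
        ∀ i, Ln j X t i ≤ x i) →
      |(M.card : ℝ) / (X : ℝ) ^ 2 - ∏ i, (gaussianReal 0 1).real (Set.Iic (x i))| ≤ ε := by
  classical
  obtain ⟨δ, hδ⟩ : ∃ δ : ℝ, δ = ε / 12 := ⟨_, rfl⟩
  have hδ0 : 0 < δ := by rw [hδ]; positivity
  obtain ⟨R, X1, hR⟩ := str (ε / 4) L (by positivity)
  obtain ⟨X2, h2⟩ := joint_box (fun i => x i - δ) (ε / 4) (by positivity)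
  obtain ⟨X3, h3⟩ := joint_box (fun i => x i + δ) (ε / 4) (by positivity)
  obtain ⟨J, hJ⟩ : ∃ J : ℕ, J = ∑ i, j i := ⟨_, rfl⟩
  obtain ⟨C, hC⟩ : ∃ C : ℝ, C = R + (R + 1) * J := ⟨_, rfl⟩
  have hC0 : 0 ≤ C := by rw [hC]; positivity
  obtain ⟨X4, h4⟩ := big_ll (2 / 5 * (C / δ + 1) ^ 2)
  refine ⟨X1 + X2 + X3 + X4 + 1, fun N1 N2 X hX hN1 hN2 M hM => ?_⟩
  obtain ⟨T, hT1, hT2⟩ := hR N1 N2 X (by omega) hN1 hN2
  have g2 := h2 X (by omega) N1 N2 X X le_rfl le_rfl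
  have g3 := h3 X (by omega) N1 N2 X X le_rfl le_rfl
  have g4 := h4 X (by omega)
  have hXr : (0 : ℝ) < X := by
    have : 0 < X := by omega
    exact_mod_cast this
  have hXX : (X : ℝ) * X = (X : ℝ) ^ 2 := by ring
  rw [hXX] at g2 g3
  have hX2 : (0 : ℝ) < (X : ℝ) ^ 2 := by positivity
  obtain ⟨s, hs⟩ : ∃ s, s = √(5 / 2 * Real.log (Real.log X)) := ⟨_, rfl⟩
  have hs1 : C / δ + 1 ≤ s := by
    rw [hs]
    apply Real.le_sqrt_of_sq_le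
    linarith
  have hs0 : 0 < s := by
    have : 0 ≤ C / δ := by positivity
    linarith
  have hsC : C / s ≤ δ := by
    rw [div_le_iff₀ hs0]
    have : C / δ ≤ s := by linarith
    rwa [div_le_iff₀ hδ0, mul_comm] at this
  have key : ∀ t ∈ Bx N1 N2 X X, t ∉ T → (∀ i, (To i (j i) t).Finite) ∧
      ∀ i, |Ln j X t i - Vn X t i| ≤ δ := by
    intro t ht hn
    have hok := hT2 t ht hn
    have h1 := fun i => (typ1 (hok i)).2 (j i) (hj i)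
    refine ⟨fun i => (h1 i).1, fun i => ?_⟩
    obtain ⟨-, h5, h6, -⟩ := h1 i
    change S3s i X t - R ≤ Real.logb 2 (To i (j i) t).ncard at h5
    change Real.logb 2 (To i (j i) t).ncard ≤ S3s i X t + R + ((R + 1 : ℕ) : ℝ) * (j i : ℕ) at h6
    unfold Ln Vn
    rw [← hs, ← sub_div, abs_div, abs_of_pos hs0]
    refine le_trans ?_ hsC
    apply div_le_div_of_nonneg_right _ hs0.le
    have hji : (j i : ℝ) ≤ J := by
      have : j i ≤ ∑ i, j i := single_le_sum (f := fun i => j i) (fun _ _ => Nat.zero_le _)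
        (mem_univ i)
      rw [hJ]
      exact_mod_cast this
    have hRr : (0 : ℝ) ≤ R := Nat.cast_nonneg _
    have hJr : (0 : ℝ) ≤ J := Nat.cast_nonneg _
    push_cast at h6
    rw [abs_le, hC]
    constructor
    · nlinarith
    · nlinarith
  obtain ⟨A, hA⟩ : ∃ A, A = (Bx N1 N2 X X).filter (fun t => ∀ i, Vn X t i ≤ x i - δ) := ⟨_, rfl⟩
  obtain ⟨B, hB⟩ : ∃ B, B = (Bx N1 N2 X X).filter (fun t => ∀ i, Vn X t i ≤ x i + δ) := ⟨_, rfl⟩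
  obtain ⟨k1, k2⟩ := sandwich (Bx N1 N2 X X) T M A B (Ln j X) (Vn X)
    (fun t => ∀ i, (To i (j i) t).Finite) δ key x hM (fun t => by rw [hA, mem_filter])
    (fun t => by rw [hB, mem_filter])
  obtain ⟨Φ, hΦ⟩ : ∃ Φ : ℝ → ℝ, Φ = fun y => (gaussianReal 0 1).real (Set.Iic y) := ⟨_, rfl⟩
  have hΦ0 : ∀ y, 0 ≤ Φ y := fun y => by rw [hΦ]; exact measureReal_nonneg
  have hΦ1 : ∀ y, Φ y ≤ 1 := fun y => by rw [hΦ]; exact measureReal_le_one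
  have hΦL : ∀ a b, a ≤ b → Φ b ≤ Φ a + (b - a) := fun a b hab => by rw [hΦ]; exact gauss_lip hab
  have p1 : ∏ i, Φ (x i) ≤ ∏ i, Φ (x i - δ) + 3 * δ :=
    prod3 _ _ δ (fun i => hΦ0 _) (fun i => hΦ1 _) (fun i => hΦ0 _) (fun i => hΦ1 _)
      (fun i => by have := hΦL (x i - δ) (x i) (by linarith); linarith) hδ0.le
  have p2 : ∏ i, Φ (x i + δ) ≤ ∏ i, Φ (x i) + 3 * δ :=
    prod3 _ _ δ (fun i => hΦ0 _) (fun i => hΦ1 _) (fun i => hΦ0 _) (fun i => hΦ1 _)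
      (fun i => by have := hΦL (x i) (x i + δ) (by linarith); linarith) hδ0.le
  have q1 : ∏ i, (gaussianReal 0 1).real (Set.Iic (x i)) = ∏ i, Φ (x i) := by rw [hΦ]
  have q2 : ∏ i, (gaussianReal 0 1).real (Set.Iic (x i - δ)) = ∏ i, Φ (x i - δ) := by rw [hΦ]
  have q3 : ∏ i, (gaussianReal 0 1).real (Set.Iic (x i + δ)) = ∏ i, Φ (x i + δ) := by rw [hΦ]
  rw [q1]
  rw [q2] at g2
  rw [q3] at g3
  have g2' := (abs_le.1 g2).1
  have g3' := (abs_le.1 g3).2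
  have e1 : ((((Bx N1 N2 X X).filter (fun t => ∀ i, Vn X t i ≤ x i - δ)).card : ℕ) : ℝ) =
      A.card := by rw [hA]
  have e2 : ((((Bx N1 N2 X X).filter (fun t => ∀ i, Vn X t i ≤ x i + δ)).card : ℕ) : ℝ) =
      B.card := by rw [hB]
  have g2'' : -(ε / 4) ≤ (A.card : ℝ) / (X : ℝ) ^ 2 - ∏ i, Φ (x i - δ) := by
    rw [← e1]
    refine g2'.trans (le_of_eq ?_)
    congr!
  have g3'' : (B.card : ℝ) / (X : ℝ) ^ 2 - ∏ i, Φ (x i + δ) ≤ ε / 4 := by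
    rw [← e2]
    refine le_trans (le_of_eq ?_) g3'
    congr!
  have r1 : (A.card : ℝ) / (X : ℝ) ^ 2 ≤ (M.card : ℝ) / (X : ℝ) ^ 2 + ε / 4 := by
    rw [div_add' _ _ _ hX2.ne']
    apply div_le_div_of_nonneg_right _ hX2.le
    linarith
  have r2 : (M.card : ℝ) / (X : ℝ) ^ 2 ≤ (B.card : ℝ) / (X : ℝ) ^ 2 + ε / 4 := by
    rw [div_add' _ _ _ hX2.ne']
    apply div_le_div_of_nonneg_right _ hX2.le
    linarith
  rw [abs_le]
  constructor <;> linarith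

end Pool.Agent.R421.EK
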