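import Mathlib
import Pool.Agent.R421.EK.Law

/-!
# Project EK: from characteristic functions to joint distribution functions, general limits
-/

set_option autoImplicit false
set_option linter.all false

namespace Pool.Agent.R421.EK

open Finset Complex MeasureTheory ProbabilityTheory Filter Topology

open scoped ENNReal RealInnerProductSpace

section

variable {ι : Type} [Fintype ι] [DecidableEq ι] {Ω : Type}

lemma mu_front (μ : Measure (EuclideanSpace ℝ ι)) (hμ : ∀ i c, μ {w | w i = c} = 0) (x : ι → ℝ) :
    μ (frontier {w | ∀ i, w i ≤ x i}) = 0 := by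
  have hsub : frontier {w : EuclideanSpace ℝ ι | ∀ i, w i ≤ x i} ⊆ ⋃ i, {w | w i = x i} := by
    have hc : IsClosed {w : EuclideanSpace ℝ ι | ∀ i, w i ≤ x i} := by
      have : {w : EuclideanSpace ℝ ι | ∀ i, w i ≤ x i} = ⋂ i, {w | w i ≤ x i} := by
        ext w
        simp
      rw [this]
      exact isClosed_iInter fun i => isClosed_le (by fun_prop) continuous_const
    have ho : IsOpen {w : EuclideanSpace ℝ ι | ∀ i, w i < x i} := by
      have : {w : EuclideanSpace ℝ ι | ∀ i, w i < x i} = ⋂ i, {w | w i < x i} := by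
        ext w
        simp
      rw [this]
      exact isOpen_iInter_of_finite fun i => isOpen_lt (by fun_prop) continuous_const
    intro w hw
    rw [hc.frontier_eq] at hw
    obtain ⟨h1, h2⟩ := hw
    by_contra hcon
    apply h2
    have h3 : w ∈ {w : EuclideanSpace ℝ ι | ∀ i, w i < x i} := by
      intro i
      rcases lt_or_eq_of_le (h1 i) with h | h
      · exact h
      · exact absurd (Set.mem_iUnion.2 ⟨i, h⟩) hcon
    exact interior_maximal (fun w' hw' i => (hw' i).le) ho h3
  refine measure_mono_null hsub ?_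
  rw [measure_iUnion_null_iff]
  exact fun i => hμ i (x i)

/-- **joint distribution functions** -/
theorem law_mu (μ : Measure (EuclideanSpace ℝ ι)) [IsProbabilityMeasure μ]
    (hμ : ∀ i c, μ {w | w i = c} = 0) (s : ℕ → Finset Ω) (hs : ∀ n, (s n).Nonempty)
    (V : ℕ → Ω → ι → ℝ)
    (h : ∀ θ : ι → ℝ, Tendsto (fun n => (∑ t ∈ s n, cexp (((∑ i, θ i * V n t i : ℝ) : ℂ) * I)) /
      ((s n).card : ℂ)) atTop (𝓝 (charFun μ (WithLp.toLp 2 θ)))) (x : ι → ℝ) :
    Tendsto (fun n => (((s n).filter (fun t => ∀ i, V n t i ≤ x i)).card : ℝ) / (s n).card)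
      atTop (𝓝 (μ.real {w | ∀ i, w i ≤ x i})) := by
  have h1 : ∀ θ : EuclideanSpace ℝ ι, Tendsto (fun n => charFun
      ((⟨lw (s n) (V n), lw_prob (s n) (hs n) (V n)⟩ : ProbabilityMeasure (EuclideanSpace ℝ ι)) :
        Measure (EuclideanSpace ℝ ι)) θ) atTop
      (𝓝 (charFun ((⟨μ, inferInstance⟩ :
        ProbabilityMeasure (EuclideanSpace ℝ ι)) : Measure (EuclideanSpace ℝ ι)) θ)) := by
    intro θ
    simp only [ProbabilityMeasure.coe_mk]
    have h2 := h (fun i => θ i)
    refine h2.congr fun n => ?_
    exact (lw_charFun (s n) (V n) θ).symm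
  have h2 := ProbabilityMeasure.tendsto_of_tendsto_charFun h1
  have h3 := ProbabilityMeasure.tendsto_measure_of_null_frontier_of_tendsto' h2 (mu_front μ hμ x)
  have h4 := (ENNReal.tendsto_toReal (measure_ne_top _ _)).comp h3
  simp only [ProbabilityMeasure.coe_mk] at h4
  refine h4.congr fun n => ?_
  exact lw_set (s n) (V n) x

end

/-! ### The limit for the twists -/

section

variable (κ n : ℕ)

/-- independent standard Gaussian variables `G_i`, `G_{i, l}` -/
abbrev Gs : Type := EuclideanSpace ℝ (Fin κ ⊕ Fin κ × Fin n)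

/-- the vector `(3 / 2) G_i + (1 / 2) G_{i, l}` -/
noncomputable def Lm (w : Gs κ n) : EuclideanSpace ℝ (Fin κ × Fin n) :=
  WithLp.toLp 2 (fun k => 3 / 2 * w (Sum.inl k.1) + 1 / 2 * w (Sum.inr k))

lemma Lm_meas : Measurable (Lm κ n) := by
  unfold Lm
  fun_prop

/-- the limit distribution -/
noncomputable def muT : Measure (EuclideanSpace ℝ (Fin κ × Fin n)) :=
  (stdGaussian (Gs κ n)).map (Lm κ n)

instance : IsProbabilityMeasure (muT κ n) :=
  Measure.isProbabilityMeasure_map (Lm_meas κ n).aemeasurable

lemma muT_char (θ : Fin κ × Fin n → ℝ) : charFun (muT κ n) (WithLp.toLp 2 θ) =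
    ((Real.exp (-((9 / 4 * ∑ i, (∑ l, θ (i, l)) ^ 2 + 1 / 4 * ∑ k, θ k ^ 2) / 2)) : ℝ) : ℂ) := by
  obtain ⟨θ', hθ'⟩ : ∃ θ' : Gs κ n, θ' = WithLp.toLp 2 (Sum.elim
    (fun i => 3 / 2 * ∑ l, θ (i, l)) (fun k => 1 / 2 * θ k)) := ⟨_, rfl⟩
  have h1 : charFun (muT κ n) (WithLp.toLp 2 θ) = charFun (stdGaussian (Gs κ n)) θ' := by
    rw [charFun_apply, charFun_apply]
    unfold muT
    rw [integral_map (Lm_meas κ n).aemeasurable (by fun_prop)]
    refine integral_congr_ae (Filter.Eventually.of_forall fun w => ?_)
    beta_reduce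
    congr 3
    rw [PiLp.inner_apply, PiLp.inner_apply, hθ']
    unfold Lm
    simp only [Fintype.sum_sum_type, Sum.elim_inl, Sum.elim_inr, RCLike.inner_apply,
      conj_trivial, Fintype.sum_prod_type]
    rw [← sum_add_distrib]
    refine sum_congr rfl fun i _ => ?_
    rw [mul_sum, sum_mul, ← sum_add_distrib]
    refine sum_congr rfl fun l _ => ?_
    ring
  rw [h1, charFun_stdGaussian, Complex.ofReal_exp]
  congr 1
  rw [← Complex.ofReal_pow, EuclideanSpace.real_norm_sq_eq, hθ']
  simp only [Fintype.sum_sum_type, Sum.elim_inl, Sum.elim_inr]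
  push_cast
  simp only [mul_pow, ← mul_sum]
  ring

lemma muT_null (k : Fin κ × Fin n) (c : ℝ) : muT κ n {w | w k = c} = 0 := by
  have hm : Measurable (fun w : EuclideanSpace ℝ (Fin κ × Fin n) => w k) := by fun_prop
  haveI : IsProbabilityMeasure ((muT κ n).map (fun w => w k)) :=
    Measure.isProbabilityMeasure_map hm.aemeasurable
  have h1 : (muT κ n).map (fun w => w k) = gaussianReal 0 (5 / 2) := by
    apply Measure.ext_of_charFun
    funext t
    have h2 : charFun ((muT κ n).map (fun w => w k)) t =
        charFun (muT κ n) (WithLp.toLp 2 (fun k' => if k' = k then t else 0)) := by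
      rw [charFun_apply, charFun_apply, integral_map hm.aemeasurable (by fun_prop)]
      refine integral_congr_ae (Filter.Eventually.of_forall fun w => ?_)
      beta_reduce
      congr 3
      rw [PiLp.inner_apply]
      simp only [RCLike.inner_apply, conj_trivial]
      rw [sum_eq_single k]
      · simp
      · intro b _ hb
        simp [hb]
      · intro h
        exact absurd (mem_univ _) h
    rw [h2, muT_char, charFun_gaussianReal, Complex.ofReal_exp]
    congr 1
    have e1 : ∑ i, (∑ l, (if ((i, l) : Fin κ × Fin n) = k then t else 0)) ^ 2 = t ^ 2 := by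
      rw [sum_eq_single k.1]
      · rw [sum_eq_single k.2]
        · simp
        · intro b _ hb
          rw [if_neg]
          intro h
          exact hb (by rw [← h])
        · intro h
          exact absurd (mem_univ _) h
      · intro b _ hb
        rw [sum_eq_zero]
        · ring
        · intro l _
          rw [if_neg]
          intro h
          exact hb (by rw [← h])
      · intro h
        exact absurd (mem_univ _) h
    have e2 : ∑ k', (if k' = k then t else 0) ^ 2 = t ^ 2 := by
      rw [sum_eq_single k]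
      · simp
      · intro b _ hb
        simp [hb]
      · intro h
        exact absurd (mem_univ _) h
    rw [e1, e2]
    push_cast
    ring
  have h2 : {w : EuclideanSpace ℝ (Fin κ × Fin n) | w k = c} = (fun w => w k) ⁻¹' {c} := rfl
  rw [h2, ← Measure.map_apply hm (measurableSet_singleton c), h1,
    gaussianReal_of_var_ne_zero _ (by norm_num)]
  exact withDensity_absolutelyContinuous _ _ Real.volume_singleton

end

end Pool.Agent.R421.EK
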