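import Mathlib
import Pool.Agent.R421.EK.Hh
import Pool.Agent.R421.EK.Cfv

/-!
# Project EK: the additive functions of the quadratic twists
-/

set_option autoImplicit false
set_option linter.all false

namespace Pool.Agent.R421.EK

open Finset

open Pool.Agent.W262.RK (PS Jr)

open Pool.Agent.R421.NR (sq_cnt Jr_quad Jr_abs)

variable {n : ℕ}

/-- a function on a line -/
noncomputable def lg (a : ℝ) (b : Fin n → ℝ) (c : Fin n → ℤ) (p : ℕ) (x : ZMod p) : ℝ :=
  a * u1 p x - ∑ l, b l * q1 p ((c l : ZMod p) * x)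

lemma lg_zero (a : ℝ) (b : Fin n → ℝ) (c : Fin n → ℤ) (p : ℕ) : lg a b c p 0 = 0 := by
  unfold lg
  simp [u1_zero, q1_zero]

section

variable {p : ℕ} [hp : Fact p.Prime]

lemma q1_mul_sum (h2 : p ≠ 2) {c : ZMod p} (hc : c ≠ 0) :
    ∑ x, q1 p (c * x) = ((p : ℝ) - 1) / 2 := by
  rw [← q1_sum h2]
  exact Fintype.sum_equiv (Equiv.mulLeft₀ c hc) _ _ (fun x => rfl)

lemma q1_quad (x : ZMod p) : q1 p x = (u1 p x + (quadraticChar (ZMod p) x : ℝ)) / 2 := by
  unfold q1 u1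
  by_cases h : x = 0
  · subst h
    simp
  · by_cases hs : IsSquare x
    · rw [if_pos ⟨h, hs⟩, if_pos h, (quadraticChar_one_iff_isSquare h).2 hs]
      norm_num
    · rw [if_neg (fun h' => hs h'.2), if_pos h,
        (quadraticChar_neg_one_iff_not_isSquare).2 hs]
      norm_num

lemma quad_sum (h2 : p ≠ 2) {c : ZMod p} (hc : c ≠ 0) :
    ∑ x, (quadraticChar (ZMod p) (c * x) : ℝ) = 0 := by
  have h1 : ∑ x : ZMod p, quadraticChar (ZMod p) x = 0 :=
    quadraticChar_sum_zero (by rw [ZMod.ringChar_zmod_n]; exact h2)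
  have h3 : ∑ x, (quadraticChar (ZMod p) (c * x) : ℝ) =
      ((∑ x : ZMod p, quadraticChar (ZMod p) x : ℤ) : ℝ) := by
    rw [Int.cast_sum]
    exact Fintype.sum_equiv (Equiv.mulLeft₀ c hc) _ _ (fun x => rfl)
  rw [h3, h1, Int.cast_zero]

lemma q1_pair (h2 : p ≠ 2) {c c' : ℤ} (hc : (c : ZMod p) ≠ 0) (hc' : (c' : ZMod p) ≠ 0) :
    ∑ x : ZMod p, q1 p ((c : ZMod p) * x) * q1 p ((c' : ZMod p) * x) =
      (1 + Jr (c * c') p) / 4 * ((p : ℝ) - 1) := by
  have e : ∀ x : ZMod p, q1 p ((c : ZMod p) * x) * q1 p ((c' : ZMod p) * x) =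
      1 / 4 * ((1 + Jr (c * c') p) * u1 p x +
        ((quadraticChar (ZMod p) ((c : ZMod p) * x) : ℝ) +
          (quadraticChar (ZMod p) ((c' : ZMod p) * x) : ℝ))) := by
    intro x
    by_cases hx : x = 0
    · subst hx
      simp [q1_zero, u1_zero]
    · have k1 : u1 p ((c : ZMod p) * x) = 1 := by
        unfold u1
        rw [if_pos (mul_ne_zero hc hx)]
      have k2 : u1 p ((c' : ZMod p) * x) = 1 := by
        unfold u1
        rw [if_pos (mul_ne_zero hc' hx)]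
      have k3 : u1 p x = 1 := by
        unfold u1
        rw [if_pos hx]
      rw [q1_quad, q1_quad, k1, k2, k3, Jr_quad]
      have k4 : (quadraticChar (ZMod p) ((c : ZMod p) * x) : ℝ) *
          (quadraticChar (ZMod p) ((c' : ZMod p) * x) : ℝ) =
          (quadraticChar (ZMod p) (((c * c' : ℤ) : ZMod p)) : ℝ) := by
        push_cast
        rw [map_mul, map_mul, map_mul]
        have k5 : (quadraticChar (ZMod p) x : ℤ) ^ 2 = 1 := quadraticChar_sq_one hx
        have k6 : ((quadraticChar (ZMod p) x : ℤ) : ℝ) ^ 2 = 1 := by exact_mod_cast k5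
        push_cast
        linear_combination ((quadraticChar (ZMod p) (c : ZMod p) : ℤ) : ℝ) *
          ((quadraticChar (ZMod p) (c' : ZMod p) : ℤ) : ℝ) * k6
      rw [← k4]
      ring
  rw [sum_congr rfl fun x _ => e x, ← mul_sum, sum_add_distrib, sum_add_distrib, ← mul_sum,
    u1_sum, quad_sum h2 hc, quad_sum h2 hc']
  ring

lemma lg_sum (h2 : p ≠ 2) (a : ℝ) (b : Fin n → ℝ) (c : Fin n → ℤ)
    (hc : ∀ l, (c l : ZMod p) ≠ 0) :
    ∑ x, lg a b c p x = (a - (∑ l, b l) / 2) * ((p : ℝ) - 1) := by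
  unfold lg
  rw [sum_sub_distrib, ← mul_sum, u1_sum, sum_comm]
  simp_rw [← mul_sum]
  rw [sum_congr rfl fun l _ => by rw [q1_mul_sum h2 (hc l)], ← sum_mul]
  ring

lemma lg_sq (h2 : p ≠ 2) (a : ℝ) (b : Fin n → ℝ) (c : Fin n → ℤ)
    (hc : ∀ l, (c l : ZMod p) ≠ 0) :
    ∑ x, lg a b c p x ^ 2 = ((a - (∑ l, b l) / 2) ^ 2 +
      1 / 4 * ∑ l, ∑ m, b l * b m * Jr (c l * c m) p) * ((p : ℝ) - 1) := by
  have e1 : ∀ x : ZMod p, lg a b c p x ^ 2 = a ^ 2 * u1 p x -
      2 * a * ∑ l, b l * q1 p ((c l : ZMod p) * x) +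
      ∑ l, ∑ m, b l * b m * (q1 p ((c l : ZMod p) * x) * q1 p ((c m : ZMod p) * x)) := by
    intro x
    have k1 : ∀ l, u1 p x * q1 p ((c l : ZMod p) * x) = q1 p ((c l : ZMod p) * x) := by
      intro l
      by_cases hx : x = 0
      · subst hx
        simp [q1_zero]
      · have : u1 p x = 1 := by
          unfold u1
          rw [if_pos hx]
        rw [this, one_mul]
    have k2 : (∑ l, b l * q1 p ((c l : ZMod p) * x)) ^ 2 =
        ∑ l, ∑ m, b l * b m * (q1 p ((c l : ZMod p) * x) * q1 p ((c m : ZMod p) * x)) := by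
      rw [pow_two, sum_mul_sum]
      refine sum_congr rfl fun l _ => sum_congr rfl fun m _ => by ring
    have k3 : u1 p x * ∑ l, b l * q1 p ((c l : ZMod p) * x) =
        ∑ l, b l * q1 p ((c l : ZMod p) * x) := by
      rw [mul_sum]
      refine sum_congr rfl fun l _ => ?_
      have := k1 l
      linear_combination b l * this
    unfold lg
    rw [← k2]
    have k4 := u1_sq p x
    linear_combination a ^ 2 * k4 - 2 * a * k3
  rw [sum_congr rfl fun x _ => e1 x, sum_add_distrib, sum_sub_distrib, ← mul_sum, ← mul_sum, u1_sum]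
  have e2 : ∑ x : ZMod p, ∑ l, b l * q1 p ((c l : ZMod p) * x) = (∑ l, b l) * (((p : ℝ) - 1) / 2) := by
    rw [sum_comm, sum_mul]
    refine sum_congr rfl fun l _ => ?_
    rw [← mul_sum, q1_mul_sum h2 (hc l)]
  have e3 : ∑ x : ZMod p, ∑ l, ∑ m, b l * b m * (q1 p ((c l : ZMod p) * x) *
      q1 p ((c m : ZMod p) * x)) =
      ∑ l, ∑ m, b l * b m * ((1 + Jr (c l * c m) p) / 4 * ((p : ℝ) - 1)) := by
    rw [sum_comm]
    refine sum_congr rfl fun l _ => ?_
    rw [sum_comm]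
    refine sum_congr rfl fun m _ => ?_
    rw [← mul_sum, q1_pair h2 (hc l) (hc m)]
  have e4 : ∑ l, ∑ m, b l * b m * ((1 + Jr (c l * c m) p) / 4 * ((p : ℝ) - 1)) =
      ((∑ l, b l) ^ 2 / 4 + 1 / 4 * ∑ l, ∑ m, b l * b m * Jr (c l * c m) p) * ((p : ℝ) - 1) := by
    have e5 : (∑ l, b l) ^ 2 = ∑ l, ∑ m, b l * b m := by
      rw [pow_two, sum_mul_sum]
    rw [e5, sum_div, mul_sum, ← sum_add_distrib, sum_mul]
    refine sum_congr rfl fun l _ => ?_
    rw [sum_div, mul_sum, ← sum_add_distrib, sum_mul]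
    refine sum_congr rfl fun m _ => ?_
    ring
  rw [e2, e3, e4]
  ring

end

/-- the linear combination of the functions of the twists -/
noncomputable def ft (d : Fin n → ℤ) (θ : Fin 3 → Fin n → ℝ) (p : ℕ) (x y : ZMod p) : ℝ :=
  ∑ l, ff (fun i => θ i l) p ((d l : ZMod p) * x) ((d l : ZMod p) * y)

/-- the sum of the absolute values -/
noncomputable def sT (θ : Fin 3 → Fin n → ℝ) : ℝ := ∑ l, sθ (fun i => θ i l)

lemma sT_nonneg (θ : Fin 3 → Fin n → ℝ) : 0 ≤ sT θ := sum_nonneg fun l _ => sθ_nonneg _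

lemma ft_bd (d : Fin n → ℤ) (θ : Fin 3 → Fin n → ℝ) (p : ℕ) (x y : ZMod p) :
    |ft d θ p x y| ≤ sT θ := by
  unfold ft sT
  exact (abs_sum_le_sum_abs _ _).trans (sum_le_sum fun l _ => ff_bd _ p _ _)

lemma ft_eq {p : ℕ} [hp : Fact p.Prime] (d : Fin n → ℤ) (hd : ∀ l, (d l : ZMod p) ≠ 0)
    (θ : Fin 3 → Fin n → ℝ) (x y : ZMod p) : ft d θ p x y =
    l3 p (lg (∑ l, (θ 0 l + θ 1 l)) (θ 2) (fun l => -d l) p)
      (lg (∑ l, (θ 0 l + θ 2 l)) (θ 1) (fun l => -d l) p)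
      (lg (∑ l, (θ 1 l + θ 2 l)) (θ 0) d p) x y := by
  unfold ft
  have hu : ∀ l (z : ZMod p), u1 p ((d l : ZMod p) * z) = u1 p z := by
    intro l z
    unfold u1
    simp [hd l]
  have key : ∀ l, ff (fun i => θ i l) p ((d l : ZMod p) * x) ((d l : ZMod p) * y) =
      (if x = 0 then ((θ 0 l + θ 1 l) * u1 p y -
        θ 2 l * q1 p ((((fun l => -d l) l : ℤ) : ZMod p) * y)) else 0) +
      (if y = 0 then ((θ 0 l + θ 2 l) * u1 p x -
        θ 1 l * q1 p ((((fun l => -d l) l : ℤ) : ZMod p) * x)) else 0) +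
      (if x = y then ((θ 1 l + θ 2 l) * u1 p x - θ 0 l * q1 p ((d l : ZMod p) * x)) else 0) := by
    intro l
    rw [ff_eq]
    unfold l3 ln
    have c1 : ((d l : ZMod p) * x = 0) ↔ x = 0 := by simp [hd l]
    have c2 : ((d l : ZMod p) * y = 0) ↔ y = 0 := by simp [hd l]
    have c3 : ((d l : ZMod p) * x = (d l : ZMod p) * y) ↔ x = y := by
      rw [mul_right_inj' (hd l)]
    simp only [c1, c2, c3, hu]
    push_cast
    simp only [neg_mul]
  rw [sum_congr rfl fun l _ => key l, sum_add_distrib, sum_add_distrib]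
  unfold l3 lg
  congr 1
  · congr 1
    · by_cases h : x = 0
      · simp only [if_pos h]
        rw [sum_sub_distrib, sum_mul]
      · simp only [if_neg h, sum_const_zero]
    · by_cases h : y = 0
      · simp only [if_pos h]
        rw [sum_sub_distrib, sum_mul]
      · simp only [if_neg h, sum_const_zero]
  · by_cases h : x = y
    · simp only [if_pos h]
      rw [sum_sub_distrib, sum_mul]
    · simp only [if_neg h, sum_const_zero]

/-- the variances -/
noncomputable def wT (d : Fin n → ℤ) (θ : Fin 3 → Fin n → ℝ) (p : ℕ) : ℝ :=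
  9 / 4 * ∑ i, (∑ l, θ i l) ^ 2 + 1 / 4 * ∑ i, ∑ l, ∑ m, θ i l * θ i m * Jr (d l * d m) p

lemma ft_sum {p : ℕ} (hp : p.Prime) (h2 : p ≠ 2) (d : Fin n → ℤ) (hd : ∀ l, (d l : ZMod p) ≠ 0)
    (θ : Fin 3 → Fin n → ℝ) : SS p (ft d θ p) = (3 / 2 * ∑ i, ∑ l, θ i l) * ((p : ℝ) - 1) := by
  haveI : Fact p.Prime := ⟨hp⟩
  haveI : NeZero p := ⟨hp.ne_zero⟩
  have e : ft d θ p = l3 p (lg (∑ l, (θ 0 l + θ 1 l)) (θ 2) (fun l => -d l) p)
      (lg (∑ l, (θ 0 l + θ 2 l)) (θ 1) (fun l => -d l) p)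
      (lg (∑ l, (θ 1 l + θ 2 l)) (θ 0) d p) := by
    funext x y
    exact ft_eq d hd θ x y
  have hd' : ∀ l, (((fun l => -d l) l : ℤ) : ZMod p) ≠ 0 := fun l => by
    push_cast
    exact neg_ne_zero.2 (hd l)
  rw [e, l3_sum, lg_sum h2 _ _ _ hd', lg_sum h2 _ _ _ hd', lg_sum h2 _ _ _ hd,
    Fin.sum_univ_three, sum_add_distrib, sum_add_distrib, sum_add_distrib]
  ring

lemma ft_sumsq {p : ℕ} (hp : p.Prime) (h2 : p ≠ 2) (d : Fin n → ℤ)
    (hd : ∀ l, (d l : ZMod p) ≠ 0) (θ : Fin 3 → Fin n → ℝ) :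
    SS p (fun x y => ft d θ p x y ^ 2) = wT d θ p * ((p : ℝ) - 1) := by
  haveI : Fact p.Prime := ⟨hp⟩
  haveI : NeZero p := ⟨hp.ne_zero⟩
  have e : (fun x y => ft d θ p x y ^ 2) =
      l3 p (fun z => lg (∑ l, (θ 0 l + θ 1 l)) (θ 2) (fun l => -d l) p z ^ 2)
      (fun z => lg (∑ l, (θ 0 l + θ 2 l)) (θ 1) (fun l => -d l) p z ^ 2)
      (fun z => lg (∑ l, (θ 1 l + θ 2 l)) (θ 0) d p z ^ 2) := by
    funext x y
    rw [ft_eq d hd, l3_sq _ _ _ (lg_zero _ _ _ _) (lg_zero _ _ _ _) (lg_zero _ _ _ _)]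
  have hd' : ∀ l, (((fun l => -d l) l : ℤ) : ZMod p) ≠ 0 := fun l => by
    push_cast
    exact neg_ne_zero.2 (hd l)
  rw [e, l3_sum, lg_sq h2 _ _ _ hd', lg_sq h2 _ _ _ hd', lg_sq h2 _ _ _ hd]
  unfold wT
  rw [Fin.sum_univ_three, Fin.sum_univ_three, sum_add_distrib, sum_add_distrib, sum_add_distrib]
  simp only [neg_mul_neg]
  ring

lemma ft_sumabs {p : ℕ} (hp : p.Prime) (d : Fin n → ℤ)
    (hd : ∀ l, (d l : ZMod p) ≠ 0) (θ : Fin 3 → Fin n → ℝ) :
    SS p (fun x y => |ft d θ p x y|) ≤ (3 * sT θ + 1) * p := by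
  haveI : Fact p.Prime := ⟨hp⟩
  haveI : NeZero p := ⟨hp.ne_zero⟩
  have hs := sT_nonneg θ
  have hp1 : (1 : ℝ) ≤ p := by exact_mod_cast hp.one_lt.le
  -- the function vanishes outside the three lines
  have h1 : ∀ x y : ZMod p, |ft d θ p x y| ≤
      l3 p (fun _ => sT θ) (fun _ => sT θ) (fun _ => sT θ) x y := by
    intro x y
    have h2 := ft_bd d θ p x y
    rw [ft_eq d hd] at h2 ⊢
    unfold l3 at h2 ⊢
    by_cases a1 : x = 0
    · rw [if_pos a1] at h2 ⊢
      rw [if_pos a1]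
      refine h2.trans ?_
      have : 0 ≤ (if y = 0 then sT θ else 0) + (if x = y then sT θ else 0) := by
        split_ifs <;> linarith
      linarith
    · by_cases a2 : y = 0
      · rw [if_neg a1, if_pos a2] at h2 ⊢
        rw [if_neg a1, if_pos a2]
        refine h2.trans ?_
        split_ifs <;> linarith
      · by_cases a3 : x = y
        · rw [if_neg a1, if_neg a2, if_pos a3] at h2 ⊢
          rw [if_neg a1, if_neg a2, if_pos a3]
          refine h2.trans ?_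
          linarith
        · rw [if_neg a1, if_neg a2, if_neg a3, if_neg a1, if_neg a2, if_neg a3]
          simp
  have h2 : SS p (fun x y => |ft d θ p x y|) ≤
      SS p (l3 p (fun _ => sT θ) (fun _ => sT θ) (fun _ => sT θ)) := by
    rw [SS_eq, SS_eq]
    exact sum_le_sum fun x _ => sum_le_sum fun y _ => h1 x y
  refine h2.trans ?_
  rw [l3_sum, sum_const, card_univ, ZMod.card, nsmul_eq_mul]
  nlinarith

end Pool.Agent.R421.EK
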