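import Mathlib
import Pool.Agent.R421.EK.Tw
import Pool.Agent.R421.EK.LawG
import Pool.Agent.R421.EK.Box

/-!
# Project EK: the joint law of the truncated additive functions of the twists in boxes
-/

set_option autoImplicit false
set_option linter.all false

namespace Pool.Agent.R421.EK

open Finset Filter Topology

open Pool.Agent.W262.RK (PS Jr)

open Pool.Agent.R421.NR (yT yT_pow loglog_yT yT_large big_ll Jr_abs Jr_quad)

variable {n : ℕ}

/-- all larger primes are prime to the twists -/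
def zD (d : Fin n → ℤ) : ℕ := 10 + ∑ l, (d l).natAbs

lemma zD_le (d : Fin n → ℤ) : 10 ≤ zD d := Nat.le_add_right _ _

lemma zD_ne (d : Fin n → ℤ) (hd : ∀ l, d l ≠ 0) {p : ℕ} (hp : p.Prime) (hz : zD d < p) (l : Fin n) :
    (d l : ZMod p) ≠ 0 := by
  intro h
  rw [ZMod.intCast_zmod_eq_zero_iff_dvd] at h
  have h1 := Nat.le_of_dvd (Int.natAbs_pos.2 (hd l)) (Int.natCast_dvd.1 h)
  have h2 : (d l).natAbs ≤ ∑ l, (d l).natAbs :=
    single_le_sum (f := fun l => (d l).natAbs) (fun _ _ => Nat.zero_le _) (mem_univ l)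
  unfold zD at hz
  omega

/-- the truncated sums of the twists -/
noncomputable def St (d : Fin n → ℤ) (k : Fin 3 × Fin n) (T : ℕ) (t : ℤ × ℤ) : ℝ :=
  ∑ p ∈ PS (zD d) (yT T), h3 k.1 p ((d k.2 : ZMod p) * (t.1 : ZMod p))
    ((d k.2 : ZMod p) * (t.2 : ZMod p))

/-- the normalised vector -/
noncomputable def Vt (d : Fin n → ℤ) (T : ℕ) (t : ℤ × ℤ) (k : Fin 3 × Fin n) : ℝ :=
  (St d k T t - 3 / 2 * Real.log (Real.log T)) / √(Real.log (Real.log T))

lemma ft_St (d : Fin n → ℤ) (θ : Fin 3 × Fin n → ℝ) (T : ℕ) (t : ℤ × ℤ) :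
    ∑ p ∈ PS (zD d) (yT T), ft d (fun i l => θ (i, l)) p (t.1 : ZMod p) (t.2 : ZMod p) =
      ∑ k, θ k * St d k T t := by
  have e : ∀ p : ℕ, ft d (fun i l => θ (i, l)) p (t.1 : ZMod p) (t.2 : ZMod p) =
      ∑ k : Fin 3 × Fin n, θ k * h3 k.1 p ((d k.2 : ZMod p) * (t.1 : ZMod p))
        ((d k.2 : ZMod p) * (t.2 : ZMod p)) := by
    intro p
    unfold ft ff
    rw [Fintype.sum_prod_type, sum_comm]
  simp_rw [e]
  rw [sum_comm]
  unfold St
  exact sum_congr rfl fun k _ => (mul_sum _ _ _).symm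

/-- the bound of the variances -/
noncomputable def VT (θ : Fin 3 × Fin n → ℝ) : ℝ :=
  9 / 4 * ∑ i, (∑ l, θ (i, l)) ^ 2 + 1 / 4 * ∑ i, ∑ l, ∑ m, |θ (i, l)| * |θ (i, m)|

/-- the limit variance -/
noncomputable def vT (θ : Fin 3 × Fin n → ℝ) : ℝ :=
  9 / 4 * ∑ i, (∑ l, θ (i, l)) ^ 2 + 1 / 4 * ∑ k, θ k ^ 2

lemma wT_abs (d : Fin n → ℤ) (θ : Fin 3 × Fin n → ℝ) (p : ℕ) :
    |wT d (fun i l => θ (i, l)) p| ≤ VT θ := by
  unfold wT VT
  refine (abs_add_le _ _).trans (add_le_add ?_ ?_)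
  · rw [abs_of_nonneg]
    exact mul_nonneg (by norm_num) (sum_nonneg fun i _ => sq_nonneg _)
  · rw [abs_mul, abs_of_pos (by norm_num : (0 : ℝ) < 1 / 4)]
    apply mul_le_mul_of_nonneg_left _ (by norm_num)
    refine (abs_sum_le_sum_abs _ _).trans (sum_le_sum fun i _ => ?_)
    refine (abs_sum_le_sum_abs _ _).trans (sum_le_sum fun l _ => ?_)
    refine (abs_sum_le_sum_abs _ _).trans (sum_le_sum fun m _ => ?_)
    rw [abs_mul, abs_mul]
    exact mul_le_of_le_one_right (by positivity) (Jr_abs _ _)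

lemma wT_nonneg (d : Fin n → ℤ) (hd : ∀ l, d l ≠ 0) (θ : Fin 3 → Fin n → ℝ) {p : ℕ}
    (hp : p.Prime) (hz : zD d < p) : 0 ≤ wT d θ p := by
  haveI : NeZero p := ⟨hp.ne_zero⟩
  have h10 := zD_le d
  have h1 := ft_sumsq hp (by omega) d (zD_ne d hd hp hz) θ
  have h2 : 0 ≤ SS p (fun x y => ft d θ p x y ^ 2) := by
    rw [SS_eq]
    exact sum_nonneg fun x _ => sum_nonneg fun y _ => sq_nonneg _
  rw [h1] at h2
  have h3 : (0 : ℝ) < (p : ℝ) - 1 := by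
    have : (2 : ℝ) ≤ p := by exact_mod_cast hp.two_le
    linarith
  exact nonneg_of_mul_nonneg_left h2 h3

lemma Jr_sq {p : ℕ} (hp : p.Prime) {c : ℤ} (hc : (c : ZMod p) ≠ 0) : Jr (c * c) p = 1 := by
  haveI : Fact p.Prime := ⟨hp⟩
  rw [Jr_quad]
  push_cast
  rw [map_mul, ← pow_two, quadraticChar_sq_one hc]
  norm_num

lemma wT_sum (d : Fin n → ℤ) (hd : ∀ l, d l ≠ 0) (hdd : ∀ l m, l ≠ m → ∀ r : ℤ, r ^ 2 ≠ d l * d m)
    (θ : Fin 3 × Fin n → ℝ) : ∃ C : ℝ, 0 ≤ C ∧ ∀ y : ℕ, zD d < y →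
    |∑ p ∈ PS (zD d) y, |wT d (fun i l => θ (i, l)) p| * (1 / (p : ℝ)) -
      vT θ * ∑ p ∈ PS (zD d) y, 1 / (p : ℝ)| ≤ C := by
  classical
  have h10 := zD_le d
  have hch : ∀ l m : Fin n, ∃ C : ℝ, 0 ≤ C ∧ ∀ y : ℕ, zD d < y →
      |∑ p ∈ PS (zD d) y, (Jr (d l * d m) p - (if l = m then 1 else 0)) * (1 / (p : ℝ))| ≤ C := by
    intro l m
    by_cases h : l = m
    · refine ⟨0, le_rfl, fun y hy => ?_⟩
      rw [sum_eq_zero, abs_zero]
      intro p hp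
      obtain ⟨p1, p2, p3⟩ := mem_PS' hp
      rw [if_pos h, ← h, Jr_sq p3 (zD_ne d hd p3 p1 l)]
      ring
    · obtain ⟨C, hC0, hC⟩ := Pool.Agent.R421.HF.chrB (d l * d m) (hdd l m h) (zD d) h10
      refine ⟨C, hC0, fun y hy => ?_⟩
      refine le_trans (le_of_eq ?_) (hC y hy)
      congr 1
      refine sum_congr rfl fun p _ => ?_
      rw [if_neg h]
      ring
  choose CH hCH0 hCH using hch
  refine ⟨1 / 4 * ∑ i, ∑ l, ∑ m, |θ (i, l)| * |θ (i, m)| * CH l m,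
    mul_nonneg (by norm_num) (sum_nonneg fun i _ => sum_nonneg fun l _ => sum_nonneg fun m _ =>
      mul_nonneg (by positivity) (hCH0 l m)), fun y hy => ?_⟩
  have e1 : ∑ p ∈ PS (zD d) y, |wT d (fun i l => θ (i, l)) p| * (1 / (p : ℝ)) -
      vT θ * ∑ p ∈ PS (zD d) y, 1 / (p : ℝ) = 1 / 4 * ∑ i, ∑ l, ∑ m, θ (i, l) * θ (i, m) *
        ∑ p ∈ PS (zD d) y, (Jr (d l * d m) p - (if l = m then 1 else 0)) * (1 / (p : ℝ)) := by
    have e2 : ∀ p ∈ PS (zD d) y, |wT d (fun i l => θ (i, l)) p| * (1 / (p : ℝ)) =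
        vT θ * (1 / (p : ℝ)) + 1 / 4 * ∑ i, ∑ l, ∑ m, θ (i, l) * θ (i, m) *
          ((Jr (d l * d m) p - (if l = m then 1 else 0)) * (1 / (p : ℝ))) := by
      intro p hp
      obtain ⟨p1, p2, p3⟩ := mem_PS' hp
      rw [abs_of_nonneg (wT_nonneg d hd _ p3 p1)]
      have e3 : ∑ k : Fin 3 × Fin n, θ k ^ 2 = ∑ i, ∑ l, ∑ m, θ (i, l) * θ (i, m) *
          (if l = m then 1 else 0) := by
        rw [Fintype.sum_prod_type]
        refine sum_congr rfl fun i _ => sum_congr rfl fun l _ => ?_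
        simp only [mul_ite, mul_one, mul_zero, sum_ite_eq, mem_univ, if_true]
        ring
      unfold wT vT
      rw [e3]
      simp only [sub_mul, mul_sub, sum_sub_distrib]
      simp only [← mul_assoc, ← sum_mul]
      ring
    rw [sum_congr rfl e2, sum_add_distrib, ← mul_sum, ← mul_sum, add_sub_cancel_left, sum_comm]
    congr 1
    refine sum_congr rfl fun i _ => ?_
    rw [sum_comm]
    refine sum_congr rfl fun l _ => ?_
    rw [sum_comm]
    refine sum_congr rfl fun m _ => ?_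
    rw [mul_sum]
  rw [e1, abs_mul, abs_of_pos (by norm_num : (0 : ℝ) < 1 / 4)]
  apply mul_le_mul_of_nonneg_left _ (by norm_num)
  refine (abs_sum_le_sum_abs _ _).trans (sum_le_sum fun i _ => ?_)
  refine (abs_sum_le_sum_abs _ _).trans (sum_le_sum fun l _ => ?_)
  refine (abs_sum_le_sum_abs _ _).trans (sum_le_sum fun m _ => ?_)
  rw [abs_mul, abs_mul]
  exact mul_le_mul_of_nonneg_left (hCH l m y hy) (by positivity)

theorem tw_cf (d : Fin n → ℤ) (hd : ∀ l, d l ≠ 0)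
    (hdd : ∀ l m, l ≠ m → ∀ r : ℤ, r ^ 2 ≠ d l * d m) (θ : Fin 3 × Fin n → ℝ)
    (ε : ℝ) (hε : 0 < ε) : ∃ T0 : ℕ, ∀ T : ℕ, T0 ≤ T →
    ∀ (a b : ℤ) (K L : ℕ), T ≤ K → T ≤ L →
      ‖(∑ t ∈ Bx a b K L, Complex.exp (((∑ k, θ k * Vt d T t k : ℝ) : ℂ) * Complex.I)) /
        ((Bx a b K L).card : ℂ) - ((Real.exp (-(vT θ / 2)) : ℝ) : ℂ)‖ ≤ ε := by
  obtain ⟨θ', hθ'⟩ : ∃ θ' : Fin 3 → Fin n → ℝ, θ' = fun i l => θ (i, l) := ⟨_, rfl⟩
  have hs := sT_nonneg θ'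
  have h10 := zD_le d
  have hm : |3 / 2 * ∑ i, ∑ l, θ' i l| ≤ 3 * sT θ' + 1 := by
    rw [abs_mul, abs_of_pos (by norm_num : (0 : ℝ) < 3 / 2)]
    have h1 : |∑ i, ∑ l, θ' i l| ≤ sT θ' := by
      rw [sum_comm]
      unfold sT
      refine (abs_sum_le_sum_abs _ _).trans (sum_le_sum fun l _ => ?_)
      rw [Fin.sum_univ_three]
      unfold sθ
      have h1 := abs_add_le (θ' 0 l + θ' 1 l) (θ' 2 l)
      have h2 := abs_add_le (θ' 0 l) (θ' 1 l)
      linarith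
    linarith
  have hv0 : 0 ≤ vT θ := by
    unfold vT
    have h1 : 0 ≤ ∑ i, (∑ l, θ (i, l)) ^ 2 := sum_nonneg fun i _ => sq_nonneg _
    have h2 : 0 ≤ ∑ k, θ k ^ 2 := sum_nonneg fun i _ => sq_nonneg _
    linarith
  obtain ⟨C3, hC30, hC3⟩ := wT_sum d hd hdd θ
  rw [← hθ'] at hC3
  obtain ⟨T0, hT0⟩ := cfv (ft d θ') (zD d) h10 (3 * sT θ' + 1) (3 / 2 * ∑ i, ∑ l, θ' i l)
    (vT θ) (fun p => |wT d θ' p|) (VT θ) C3 (by linarith) hv0 (fun p => abs_nonneg _)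
    (fun p => by rw [hθ']; exact wT_abs d θ p) hC30 hC3 hm
    (fun p x y => (ft_bd d θ' p x y).trans (by linarith))
    (fun p hp hz => ft_sum hp (by omega) d (zD_ne d hd hp hz) θ')
    (fun p hp hz => by
      rw [abs_of_nonneg (wT_nonneg d hd θ' hp hz)]
      exact ft_sumsq hp (by omega) d (zD_ne d hd hp hz) θ')
    (fun p hp hz => ft_sumabs hp d (zD_ne d hd hp hz) θ') ε hε
  refine ⟨T0, fun T hT a b K L hK hL => ?_⟩
  have h := hT0 T hT a b K L hK hL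
  have e1 : ∀ t : ℤ × ℤ, ((∑ p ∈ PS (zD d) (yT T), ft d θ' p (t.1 : ZMod p) (t.2 : ZMod p)) -
      3 / 2 * (∑ i, ∑ l, θ' i l) * Real.log (Real.log T)) / √(Real.log (Real.log T)) =
      ∑ k, θ k * Vt d T t k := by
    intro t
    rw [hθ', ft_St]
    unfold Vt
    have e2 : ∀ k, θ k * ((St d k T t - 3 / 2 * Real.log (Real.log T)) /
        √(Real.log (Real.log T))) = (θ k * St d k T t - 3 / 2 * Real.log (Real.log T) * θ k) /
        √(Real.log (Real.log T)) := fun k => by ring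
    rw [sum_congr rfl fun k _ => e2 k, ← sum_div, sum_sub_distrib, ← mul_sum,
      Fintype.sum_prod_type (f := fun k : Fin 3 × Fin n => θ k)]
    congr 1
    ring
  simp_rw [e1] at h
  have e4 : (((Bx a b K L).card : ℕ) : ℂ) = (((K : ℝ) * L : ℝ) : ℂ) := by
    rw [← Bx_card a b K L]
    push_cast
    rfl
  rw [e4]
  exact h

/-- **the joint law of the twists in boxes** -/
theorem tw_box (d : Fin n → ℤ) (hd : ∀ l, d l ≠ 0)
    (hdd : ∀ l m, l ≠ m → ∀ r : ℤ, r ^ 2 ≠ d l * d m) (x : Fin 3 × Fin n → ℝ)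
    (ε : ℝ) (hε : 0 < ε) : ∃ T0 : ℕ, ∀ T : ℕ, T0 ≤ T →
    ∀ (a b : ℤ) (K L : ℕ), T ≤ K → T ≤ L →
      |(((Bx a b K L).filter (fun t => ∀ k, Vt d T t k ≤ x k)).card : ℝ) / ((K : ℝ) * L) -
        (muT 3 n).real {w | ∀ k, w k ≤ x k}| ≤ ε := by
  by_contra hcon
  push Not at hcon
  choose! T hT a b K L hK hL hbad using fun n : ℕ => hcon (n + 1)
  obtain ⟨s, hs⟩ : ∃ s : ℕ → Finset (ℤ × ℤ), s = fun n => Bx (a n) (b n) (K n) (L n) := ⟨_, rfl⟩
  have hcard : ∀ n, ((s n).card : ℝ) = (K n : ℝ) * L n := by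
    intro n
    rw [hs]
    exact Bx_card _ _ _ _
  have hne : ∀ n, (s n).Nonempty := by
    intro n
    rw [← card_pos]
    have h1 : 0 < K n := by have := hT n; have := hK n; omega
    have h2 : 0 < L n := by have := hT n; have := hL n; omega
    have h3 : (0 : ℝ) < (s n).card := by
      rw [hcard]
      positivity
    exact_mod_cast h3
  have hlaw := law_mu (muT 3 n) (muT_null 3 n) s hne (fun n t i => Vt d (T n) t i) (fun θ => by
    rw [Metric.tendsto_atTop]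
    intro δ hδ
    obtain ⟨T0, hT0⟩ := tw_cf d hd hdd θ (δ / 2) (by positivity)
    refine ⟨T0, fun n hn => ?_⟩
    rw [dist_eq_norm]
    have := hT0 (T n) (by have := hT n; omega) (a n) (b n) (K n) (L n) (hK n) (hL n)
    rw [hs, muT_char]
    unfold vT at this
    linarith) x
  rw [Metric.tendsto_atTop] at hlaw
  obtain ⟨n, hn⟩ := hlaw ε hε
  have h1 := hn n le_rfl
  have h2 := hbad n
  rw [Real.dist_eq, hcard n] at h1
  have e9 : s n = Bx (a n) (b n) (K n) (L n) := by rw [hs]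
  rw [e9] at h1
  refine lt_irrefl ε (h2.trans (lt_of_eq_of_lt ?_ h1))
  congr!

end Pool.Agent.R421.EK
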