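import Mathlib
import Pool.Agent.R421.EK.TwBox
import Pool.Agent.R421.EK.Fin

/-!
# Project EK: the joint law of the Tate-Shafarevich groups of quadratic twists
-/

set_option autoImplicit false
set_option linter.all false

namespace Pool.Agent.R421.EK

open Finset ProbabilityTheory MeasureTheory

open Pool.Agent.W307.SE (SN SN_nonneg)

open Pool.Agent.TH841.SH.D (Sha)

open Pool.Agent.TH841.LS (WI)

open Pool.Agent.R431.NO (OkS typ1)

open Pool.Agent.W262.RK (PS)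

open Pool.Agent.R421.NR (Gc val_one nd_mul cls_le sum_inv_sq SN_sw large_card yT yT_pow le_yT
  yT_large big_ll)

open Pool.Agent.Y676.IS (tri)

variable {n : ℕ}

/-- **the three curves of one pair, twisted by `d`** -/
theorem three_tw {A B d : ℤ} (hA : A ≠ 0) (hB : B ≠ 0) (hAB : A ≠ B) (hd : d ≠ 0) {R : ℕ}
    (h1 : SN (d * A) (d * B) ≤ 2 ^ R) (h2 : SN (d * B) (d * A) ≤ 2 ^ R) (z y k : ℕ)
    (hz : 10 ≤ z) (hzd : d.natAbs ≤ z) (hzy : z ≤ y)
    (hk : (A * B * (A - B)).natAbs ≤ y ^ k)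
    {lo hi : ℝ} (i : Fin 3)
    (hlo : lo + (2 * (XS z y (A, B)).card + z + k + R + 10) ≤
      ∑ p ∈ PS z y, h3 i p ((d : ZMod p) * (A : ZMod p)) ((d : ZMod p) * (B : ZMod p)))
    (hhi : ∑ p ∈ PS z y, h3 i p ((d : ZMod p) * (A : ZMod p)) ((d : ZMod p) * (B : ZMod p)) +
      (2 * (XS z y (A, B)).card + z + k + R + 10) ≤ hi) :
    OkS lo hi R (tri i (d * A) (d * B)) := by
  classical
  have hA' : d * A ≠ 0 := mul_ne_zero hd hA
  have hB' : d * B ≠ 0 := mul_ne_zero hd hB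
  have hAB' : d * A ≠ d * B := fun h => hAB (mul_left_cancel₀ hd h)
  obtain ⟨z1, z2, z3⟩ := Pool.Agent.Y676.IS.tri_ne hA' hB' hAB' i
  have hN : A * B * (A - B) ≠ 0 := mul_ne_zero (mul_ne_zero hA hB) (sub_ne_zero.2 hAB)
  obtain ⟨W, hW⟩ : ∃ W, W = (A * B * (A - B)).natAbs.primeFactors.filter (fun p => y < p) :=
    ⟨_, rfl⟩
  have hWc : W.card ≤ k := by
    rw [hW]
    exact large_card hN (by omega) hk
  have hWr : (W.card : ℝ) ≤ k := by exact_mod_cast hWc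
  have htri : (tri i (d * A) (d * B)).1 * (tri i (d * A) (d * B)).2 *
      ((tri i (d * A) (d * B)).1 - (tri i (d * A) (d * B)).2) ∣ d ^ 3 * (A * B * (A - B)) := by
    fin_cases i
    · change (d * A) * (d * B) * (d * A - d * B) ∣ d ^ 3 * (A * B * (A - B))
      exact ⟨1, by ring⟩
    · change -(d * A) * (d * B - d * A) * (-(d * A) - (d * B - d * A)) ∣ d ^ 3 * (A * B * (A - B))
      exact ⟨-1, by ring⟩
    · change -(d * B) * (d * A - d * B) * (-(d * B) - (d * A - d * B)) ∣ d ^ 3 * (A * B * (A - B))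
      exact ⟨1, by ring⟩
  have hpd : ∀ p : ℕ, p.Prime → z < p → ¬ (p : ℤ) ∣ d := by
    intro p hp hzp hdv
    have := Nat.le_of_dvd (Int.natAbs_pos.2 hd) (Int.natCast_dvd.1 hdv)
    omega
  have e1 : ∀ p : ℕ, h3 i p ((d : ZMod p) * (A : ZMod p)) ((d : ZMod p) * (B : ZMod p)) =
      h3 i p ((d * A : ℤ) : ZMod p) ((d * B : ℤ) : ZMod p) := by
    intro p
    push_cast
    rfl
  obtain ⟨S, hS⟩ : ∃ S, S = ∑ p ∈ PS z y,
      h3 i p ((d * A : ℤ) : ZMod p) ((d * B : ℤ) : ZMod p) := ⟨_, rfl⟩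
  have hSe : ∑ p ∈ PS z y, h3 i p ((d : ZMod p) * (A : ZMod p)) ((d : ZMod p) * (B : ZMod p)) =
      S := by
    rw [hS]
    exact sum_congr rfl fun p _ => e1 p
  rw [hSe] at hlo hhi
  refine val_ok4 z1 z2 z3 (SN_tri i h1 h2) z y hz
    (fun p => h3 i p ((d * A : ℤ) : ZMod p) ((d * B : ℤ) : ZMod p)) 1 zero_le_one
    (XS z y (A, B)) W ?_ ?_ ?_ ?_ ?_
  · intro p hp hpX
    obtain ⟨p1, -, hpp⟩ := mem_PS' hp
    have hpd' := hpd p hpp p1
    have hpi : Prime (p : ℤ) := Nat.prime_iff_prime_int.1 hpp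
    have h5 : ¬ ((p : ℤ) ^ 2 ∣ A ∨ (p : ℤ) ^ 2 ∣ B ∨ (p : ℤ) ^ 2 ∣ A - B ∨
        ((p : ℤ) ∣ A ∧ (p : ℤ) ∣ B)) := by
      intro h
      apply hpX
      unfold XS
      rw [mem_filter]
      exact ⟨hp, h⟩
    rw [not_or, not_or, not_or] at h5
    have hcop : IsCoprime ((p : ℤ) ^ 2) d :=
      IsCoprime.pow_left ((Int.prime_iff_natAbs_prime.2 (by simpa using hpp)).coprime_iff_not_dvd.2
        hpd')
    refine fv_tri i hpp (fun h => h5.1 (hcop.dvd_of_dvd_mul_left h))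
      (fun h => h5.2.1 (hcop.dvd_of_dvd_mul_left h)) (fun h => h5.2.2.1 ?_) (fun h => h5.2.2.2 ?_)
    · rw [← mul_sub] at h
      exact hcop.dvd_of_dvd_mul_left h
    · exact ⟨(hpi.dvd_or_dvd h.1).resolve_left hpd', (hpi.dvd_or_dvd h.2).resolve_left hpd'⟩
  · intro p
    rw [h3_tri]
    exact hh_abs _ _
  · intro p p1 p2 p3
    rw [hW, mem_filter, Nat.mem_primeFactors]
    have hpi : Prime (p : ℤ) := Nat.prime_iff_prime_int.1 p1
    have hpd' := hpd p p1 (by omega)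
    have h6 : (p : ℤ) ∣ A * B * (A - B) :=
      (hpi.dvd_or_dvd (p3.trans htri)).resolve_left (fun h => hpd' (hpi.dvd_of_dvd_pow h))
    exact ⟨⟨p1, Int.natCast_dvd.1 h6, Int.natAbs_ne_zero.2 hN⟩, p2⟩
  · have e2 : ∑ p ∈ PS z y, (fun p => h3 i p ((d * A : ℤ) : ZMod p) ((d * B : ℤ) : ZMod p)) p =
        S := hS.symm
    rw [e2]
    generalize hXc : ((XS z y (A, B)).card : ℝ) = c at *
    nlinarith
  · have e2 : ∑ p ∈ PS z y, (fun p => h3 i p ((d * A : ℤ) : ZMod p) ((d * B : ℤ) : ZMod p)) p =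
        S := hS.symm
    rw [e2]
    generalize hXc : ((XS z y (A, B)).card : ℝ) = c at *
    nlinarith

/-- the Selmer groups of the twists, coprime pairs -/
theorem sn_cop_tw (d : Fin n → ℤ) (hd : ∀ l, d l ≠ 0) (D : ℤ) (hD : D ≠ 0) (ε : ℝ) (L : ℕ)
    (hε : 0 < ε) :
    ∃ R X0 : ℕ, ∀ (N1 N2 : ℤ) (X : ℕ), X0 ≤ X → N1.natAbs ≤ X ^ L → N2.natAbs ≤ X ^ L →
      ∃ T : Finset (ℕ × ℕ), (T.card : ℝ) ≤ ε * X ^ 2 ∧ ∀ t ∈ Icc 1 X ×ˢ Icc 1 X,
        IsCoprime (N1 + (t.1 : ℤ)) (N2 + (t.2 : ℤ)) → t ∉ T →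
        (D * (N1 + (t.1 : ℤ)) ≠ 0 ∧ D * (N2 + (t.2 : ℤ)) ≠ 0 ∧
          D * (N1 + (t.1 : ℤ)) ≠ D * (N2 + (t.2 : ℤ))) ∧
        ∀ l, SN (d l * (D * (N1 + (t.1 : ℤ)))) (d l * (D * (N2 + (t.2 : ℤ)))) ≤ 2 ^ R := by
  classical
  have ha := fun l => sn_cop (d l * D) (mul_ne_zero (hd l) hD) (ε / (2 * (n + 1))) L
    (by positivity)
  choose R X0 h using ha
  obtain ⟨R0, X00, h0⟩ := sn_cop D hD (ε / 2) L (by positivity)
  refine ⟨∑ l, R l, ∑ l, X0 l + X00, fun N1 N2 X hX hN1 hN2 => ?_⟩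
  have hXl : ∀ l, X0 l ≤ X := fun l => by
    have h1 : X0 l ≤ ∑ l, X0 l :=
      single_le_sum (f := fun i => X0 i) (fun _ _ => Nat.zero_le _) (mem_univ l)
    omega
  have hRl : ∀ l, R l ≤ ∑ l, R l := fun l =>
    single_le_sum (f := fun i => R i) (fun _ _ => Nat.zero_le _) (mem_univ l)
  have hT := fun l => h l N1 N2 X (hXl l) hN1 hN2
  choose T hT1 hT2 using hT
  obtain ⟨T0, hT01, hT02⟩ := h0 N1 N2 X (by omega) hN1 hN2
  refine ⟨T0 ∪ univ.biUnion T, ?_, fun t ht hc hn => ?_⟩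
  · have h1 : ((univ.biUnion T).card : ℝ) ≤ ∑ l, ((T l).card : ℝ) := by
      exact_mod_cast card_biUnion_le
    have h2 : ∑ l, ((T l).card : ℝ) ≤ ε / 2 * X ^ 2 := by
      refine (sum_le_sum fun l _ => hT1 l).trans ?_
      rw [sum_const, card_univ, Fintype.card_fin, nsmul_eq_mul]
      have e : (n : ℝ) * (ε / (2 * (n + 1)) * X ^ 2) = (n / (n + 1) : ℝ) * (ε / 2 * X ^ 2) := by
        field_simp
      rw [e]
      apply mul_le_of_le_one_left (by positivity)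
      rw [div_le_one (by positivity)]
      linarith
    have h3 : (((T0 ∪ univ.biUnion T).card : ℕ) : ℝ) ≤ T0.card + (univ.biUnion T).card := by
      exact_mod_cast card_union_le _ _
    linarith
  · rw [mem_union, not_or] at hn
    refine ⟨(hT02 t ht hc hn.1).1, fun l => ?_⟩
    have := (hT2 l t ht hc (fun h' => hn.2 (mem_biUnion.2 ⟨l, mem_univ _, h'⟩))).2
    rw [mul_assoc, mul_assoc] at this
    exact this.trans (pow_le_pow_right₀ (by norm_num) (hRl l))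

/-- the Selmer groups of the twists -/
theorem sn_short_tw (d : Fin n → ℤ) (hd : ∀ l, d l ≠ 0) (ε : ℝ) (L : ℕ) (hε : 0 < ε) :
    ∃ R X0 : ℕ, ∀ (N1 N2 : ℤ) (X : ℕ), X0 ≤ X → N1.natAbs ≤ X ^ L → N2.natAbs ≤ X ^ L →
      ∃ T : Finset (ℤ × ℤ), (T.card : ℝ) ≤ ε * X ^ 2 ∧
        ∀ t ∈ Ioc N1 (N1 + (X : ℤ)) ×ˢ Ioc N2 (N2 + (X : ℤ)), t ∉ T →
          (t.1 ≠ 0 ∧ t.2 ≠ 0 ∧ t.1 ≠ t.2) ∧ ∀ l, SN (d l * t.1) (d l * t.2) ≤ 2 ^ R :=
  split (fun R a b => (a ≠ 0 ∧ b ≠ 0 ∧ a ≠ b) ∧ ∀ l, SN (d l * a) (d l * b) ≤ 2 ^ R)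
    (fun R R' a b h h' => ⟨h'.1, fun l => (h'.2 l).trans (pow_le_pow_right₀ (by norm_num) h)⟩)
    (fun D hD ε L hε => sn_cop_tw d hd D hD ε L hε) ε L hε

/-- **the structure of almost all pairs, twists** -/
theorem str_tw (d : Fin n → ℤ) (hd : ∀ l, d l ≠ 0) (ε : ℝ) (L : ℕ) (hε : 0 < ε) :
    ∃ R X0 : ℕ, ∀ (N1 N2 : ℤ) (X : ℕ), X0 ≤ X → N1.natAbs ≤ X ^ L → N2.natAbs ≤ X ^ L →
      ∃ T : Finset (ℤ × ℤ), (T.card : ℝ) ≤ ε * X ^ 2 ∧ ∀ t ∈ Bx N1 N2 X X, t ∉ T →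
        ∀ k : Fin 3 × Fin n,
        OkS (St d k X t - R) (St d k X t + R) R (tri k.1 (d k.2 * t.1) (d k.2 * t.2)) := by
  classical
  obtain ⟨R, X1, hR⟩ := sn_short_tw d hd (ε / 4) L (by positivity)
  obtain ⟨E, hE⟩ : ∃ E : ℕ, 20 / ε + 1 ≤ (E : ℝ) := exists_nat_ge _
  obtain ⟨R', hR'⟩ : ∃ R', R' = 2 * E + zD d + 8 * (3 * (L + 3)) + R + 10 := ⟨_, rfl⟩
  refine ⟨R', X1 + (zD d + 11) ^ 4 + 81, fun N1 N2 X hX hN1 hN2 => ?_⟩
  have h10 := zD_le d
  obtain ⟨T1, t1, t1'⟩ := hR N1 N2 X (by omega) hN1 hN2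
  obtain ⟨T2, t2, t2'⟩ := hR N2 N1 X (by omega) hN2 hN1
  have hyz : zD d < yT X := by
    apply yT_large (zD d)
    have : (zD d + 1) ^ 4 ≤ (zD d + 11) ^ 4 := Nat.pow_le_pow_left (by omega) 4
    omega
  have hyX : yT X ^ 2 ≤ X := by
    have h2 : yT X ^ 2 ≤ yT X ^ 4 := Nat.pow_le_pow_right (by omega) (by norm_num)
    exact h2.trans (yT_pow X)
  obtain ⟨T3, hT3⟩ : ∃ T3, T3 = (Bx N1 N2 X X).filter (fun t => E < (XS 10 (yT X) t).card) :=
    ⟨_, rfl⟩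
  have hsum := xs_sum N1 N2 hyX
  have b3 : (T3.card : ℝ) ≤ ε / 2 * X ^ 2 := by
    have h2 : (T3.card : ℝ) * E ≤ 10 * (X : ℝ) ^ 2 := by
      refine le_trans ?_ hsum
      calc (T3.card : ℝ) * E = ∑ t ∈ T3, (E : ℝ) := by rw [sum_const, nsmul_eq_mul]
        _ ≤ ∑ t ∈ T3, ((XS 10 (yT X) t).card : ℝ) := by
          refine sum_le_sum fun t ht => ?_
          rw [hT3, mem_filter] at ht
          exact_mod_cast ht.2.le
        _ ≤ _ := by
          refine sum_le_sum_of_subset_of_nonneg ?_ fun _ _ _ => Nat.cast_nonneg _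
          rw [hT3]
          exact filter_subset _ _
    have h3 : (0 : ℝ) ≤ 20 / ε := by positivity
    have h4 : 0 < (E : ℝ) := by linarith
    have h5 : 20 ≤ E * ε := by
      have : 20 / ε ≤ E := by linarith
      rwa [div_le_iff₀ hε] at this
    have h6 : (T3.card : ℝ) * E ≤ (ε / 2 * (X : ℝ) ^ 2) * E := by
      refine h2.trans ?_
      have h7 : (0 : ℝ) ≤ (X : ℝ) ^ 2 := by positivity
      nlinarith
    exact le_of_mul_le_mul_right h6 h4
  refine ⟨T1 ∪ T2.image Prod.swap ∪ T3, ?_, fun t ht hn k => ?_⟩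
  · have h1 := card_union_le (T1 ∪ T2.image Prod.swap) T3
    have h2 := card_union_le T1 (T2.image Prod.swap)
    have h3 : (T2.image Prod.swap).card ≤ T2.card := card_image_le
    have h4 : (((T1 ∪ T2.image Prod.swap ∪ T3).card : ℕ) : ℝ) ≤ T1.card + T2.card + T3.card := by
      have : (T1 ∪ T2.image Prod.swap ∪ T3).card ≤ T1.card + T2.card + T3.card := by omega
      exact_mod_cast this
    linarith
  · rw [mem_union, mem_union, not_or, not_or] at hn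
    obtain ⟨⟨n1, n2⟩, n3⟩ := hn
    obtain ⟨⟨z1, z2, z3⟩, z4⟩ := t1' t ht n1
    have ht' : (t.2, t.1) ∈ Ioc N2 (N2 + (X : ℤ)) ×ˢ Ioc N1 (N1 + (X : ℤ)) := by
      unfold Bx at ht
      rw [mem_product] at ht ⊢
      exact ⟨ht.2, ht.1⟩
    obtain ⟨-, z5⟩ := t2' (t.2, t.1) ht' (fun h => n2 (mem_image.2 ⟨_, h, rfl⟩))
    have hXc : (XS 10 (yT X) t).card ≤ E := by
      by_contra hcon
      exact n3 (by rw [hT3]; exact mem_filter.2 ⟨ht, not_le.1 hcon⟩)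
    have hXs : (XS (zD d) (yT X) (t.1, t.2)).card ≤ (XS 10 (yT X) t).card := by
      apply card_le_card
      intro p hp
      unfold XS PS at hp ⊢
      rw [mem_filter, mem_filter, mem_Ioc] at hp ⊢
      exact ⟨⟨⟨by omega, hp.1.1.2⟩, hp.1.2⟩, hp.2⟩
    have hXr : ((XS (zD d) (yT X) (t.1, t.2)).card : ℝ) ≤ E := by exact_mod_cast hXs.trans hXc
    have hsz : (t.1 * t.2 * (t.1 - t.2)).natAbs ≤ yT X ^ (8 * (3 * (L + 3))) := by
      have hX2 : 2 ≤ X := by omega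
      have hb : ∀ N s : ℤ, N.natAbs ≤ X ^ L → s ∈ Ioc N (N + (X : ℤ)) → s.natAbs ≤ X ^ (L + 2) := by
        intro N s hN hs
        rw [mem_Ioc] at hs
        have e1 : X ^ (L + 2) = X ^ L * (X * X) := by ring
        have e2 : 1 ≤ X ^ L := Nat.one_le_pow _ _ (by omega)
        have e3 : X ^ L + X ≤ X ^ L * (X * X) := by
          have e4 : 2 * X ≤ X * X := Nat.mul_le_mul_right _ hX2
          have e5 : X ^ L * (2 * X) ≤ X ^ L * (X * X) := Nat.mul_le_mul_left _ e4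
          have e6 : X ^ L ≤ X ^ L * X := Nat.le_mul_of_pos_right _ (by omega)
          have e7 : X ≤ X ^ L * X := Nat.le_mul_of_pos_left _ e2
          have e8 : X ^ L * (2 * X) = X ^ L * X + X ^ L * X := by ring
          omega
        rw [e1]
        omega
      unfold Bx at ht
      rw [mem_product] at ht
      have g1 := hb N1 t.1 hN1 ht.1
      have g2 := hb N2 t.2 hN2 ht.2
      have g3 : (t.1 - t.2).natAbs ≤ X ^ (L + 3) := by
        have e1 : X ^ (L + 3) = X * X ^ (L + 2) := by ring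
        have e2 : 2 * X ^ (L + 2) ≤ X * X ^ (L + 2) := Nat.mul_le_mul_right _ hX2
        rw [e1]
        omega
      have g4 : X ^ (L + 2) ≤ X ^ (L + 3) := Nat.pow_le_pow_right (by omega) (by omega)
      calc (t.1 * t.2 * (t.1 - t.2)).natAbs = t.1.natAbs * t.2.natAbs * (t.1 - t.2).natAbs := by
            rw [Int.natAbs_mul, Int.natAbs_mul]
        _ ≤ X ^ (L + 3) * X ^ (L + 3) * X ^ (L + 3) :=
            Nat.mul_le_mul (Nat.mul_le_mul (g1.trans g4) (g2.trans g4)) g3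
        _ = X ^ (3 * (L + 3)) := by ring
        _ ≤ (yT X ^ 8) ^ (3 * (L + 3)) := Nat.pow_le_pow_left (le_yT (by omega)) _
        _ = _ := by rw [← pow_mul]
    have hdz : (d k.2).natAbs ≤ zD d := by
      have : (d k.2).natAbs ≤ ∑ l, (d l).natAbs :=
        single_le_sum (f := fun l => (d l).natAbs) (fun _ _ => Nat.zero_le _) (mem_univ k.2)
      unfold zD
      omega
    have hmain := three_tw (lo := St d k X t - R') (hi := St d k X t + R') z1 z2 z3 (hd k.2)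
      (z4 k.2) (z5 k.2) (zD d) (yT X) (8 * (3 * (L + 3))) h10 hdz hyz.le hsz k.1 (by
        change St d k X t - R' + _ ≤ St d k X t
        rw [hR']
        push_cast
        linarith) (by
        change St d k X t + _ ≤ St d k X t + R'
        rw [hR']
        push_cast
        linarith)
    exact hmain.mono le_rfl le_rfl (by omega)

/-! ### The law -/

/-- the elements killed by `2 ^ j` -/
def Tw (d : Fin n → ℤ) (k : Fin 3 × Fin n) (j : ℕ) (t : ℤ × ℤ) :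
    Set (Sha (WI (tri k.1 (d k.2 * t.1) (d k.2 * t.2)).1 (tri k.1 (d k.2 * t.1) (d k.2 * t.2)).2)) :=
  {x | (2 ^ j) • x = 0}

/-- the normalised logarithm -/
noncomputable def Lt (d : Fin n → ℤ) (j : Fin 3 × Fin n → ℕ) (X : ℕ) (t : ℤ × ℤ)
    (k : Fin 3 × Fin n) : ℝ :=
  (Real.logb 2 (Tw d k (j k) t).ncard - 3 / 2 * Real.log (Real.log X)) / √(Real.log (Real.log X))

/-- shifting the bounds -/
lemma shift_le {ι : Type} [Fintype ι] (μ : Measure (EuclideanSpace ℝ ι)) [IsProbabilityMeasure μ]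
    (x : ι → ℝ) (ε : ℝ) (hμ : ∀ i c, μ {w | w i = c} = 0) (hε : 0 < ε) : ∃ δ : ℝ, 0 < δ ∧
    μ.real {w | ∀ i, w i ≤ x i} ≤ μ.real {w | ∀ i, w i ≤ x i - δ} + ε ∧
    μ.real {w | ∀ i, w i ≤ x i + δ} ≤ μ.real {w | ∀ i, w i ≤ x i} + ε := by
  have hmeas : ∀ c : ι → ℝ, MeasurableSet {w : EuclideanSpace ℝ ι | ∀ i, w i ≤ c i} := by
    intro c
    have : {w : EuclideanSpace ℝ ι | ∀ i, w i ≤ c i} = ⋂ i, {w | w i ≤ c i} := by
      ext w
      simp
    rw [this]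
    exact MeasurableSet.iInter fun i => (isClosed_le (by fun_prop) continuous_const).measurableSet
  -- from above
  obtain ⟨u, hu⟩ : ∃ u : ℕ → ℝ, u = fun n : ℕ => 1 / ((n : ℝ) + 1) := ⟨_, rfl⟩
  have hu0 : ∀ n, 0 < u n := fun n => by rw [hu]; positivity
  have hua : Antitone u := by
    intro a b hab
    rw [hu]
    apply one_div_le_one_div_of_le (by positivity)
    have : (a : ℝ) ≤ b := by exact_mod_cast hab
    linarith
  have hul : Filter.Tendsto u Filter.atTop (nhds 0) := by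
    rw [hu]
    exact tendsto_one_div_add_atTop_nhds_zero_nat
  have h1 : Filter.Tendsto (fun n => μ {w | ∀ i, w i ≤ x i + u n}) Filter.atTop
      (nhds (μ {w | ∀ i, w i ≤ x i})) := by
    have e : {w : EuclideanSpace ℝ ι | ∀ i, w i ≤ x i} = ⋂ n, {w | ∀ i, w i ≤ x i + u n} := by
      ext w
      rw [Set.mem_iInter]
      constructor
      · intro h n i
        have := h i
        have := hu0 n
        linarith
      · intro h i
        have h2 : Filter.Tendsto (fun n => x i + u n) Filter.atTop (nhds (x i + 0)) :=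
          tendsto_const_nhds.add hul
        rw [add_zero] at h2
        exact ge_of_tendsto' h2 (fun n => h n i)
    rw [e]
    refine tendsto_measure_iInter_atTop (fun n => (hmeas _).nullMeasurableSet) ?_
      ⟨0, measure_ne_top _ _⟩
    intro a b hab w hw i
    have := hw i
    have := hua hab
    linarith
  have h2 : Filter.Tendsto (fun n => μ {w | ∀ i, w i ≤ x i - u n}) Filter.atTop
      (nhds (μ {w | ∀ i, w i < x i})) := by
    have e : {w : EuclideanSpace ℝ ι | ∀ i, w i < x i} = ⋃ n, {w | ∀ i, w i ≤ x i - u n} := by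
      ext w
      rw [Set.mem_iUnion]
      constructor
      · intro h
        have h3 : ∀ i, ∃ N : ℕ, ∀ n, N ≤ n → w i ≤ x i - u n := by
          intro i
          have h4 : Filter.Tendsto (fun n => x i - u n) Filter.atTop (nhds (x i - 0)) :=
            tendsto_const_nhds.sub hul
          rw [sub_zero] at h4
          have h5 := h4.eventually (lt_mem_nhds (h i))
          obtain ⟨N, hN⟩ := Filter.eventually_atTop.1 h5
          exact ⟨N, fun n hn => (hN n hn).le⟩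
        choose N hN using h3
        refine ⟨∑ i, N i, fun i => hN i _ ?_⟩
        exact single_le_sum (f := fun i => N i) (fun _ _ => Nat.zero_le _) (mem_univ i)
      · rintro ⟨n, h⟩ i
        have := h i
        have := hu0 n
        linarith
    rw [e]
    refine tendsto_measure_iUnion_atTop ?_
    intro a b hab w hw i
    have := hw i
    have := hua hab
    linarith
  have h3 : μ {w | ∀ i, w i < x i} = μ {w | ∀ i, w i ≤ x i} := by
    apply le_antisymm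
    · exact measure_mono fun w hw i => (hw i).le
    · have hsub : {w : EuclideanSpace ℝ ι | ∀ i, w i ≤ x i} ⊆ {w | ∀ i, w i < x i} ∪
          ⋃ i, {w | w i = x i} := by
        intro w hw
        by_cases h : ∃ i, w i = x i
        · obtain ⟨i, hi⟩ := h
          exact Or.inr (Set.mem_iUnion.2 ⟨i, hi⟩)
        · refine Or.inl fun i => lt_of_le_of_ne (hw i) fun he => h ⟨i, he⟩
      refine (measure_mono hsub).trans ((measure_union_le _ _).trans ?_)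
      rw [(measure_iUnion_null_iff).2 (fun i => hμ i (x i)), add_zero]
  rw [h3] at h2
  have g1 := (ENNReal.tendsto_toReal (measure_ne_top _ _)).comp h1
  have g2 := (ENNReal.tendsto_toReal (measure_ne_top _ _)).comp h2
  rw [Metric.tendsto_atTop] at g1 g2
  obtain ⟨n1, k1⟩ := g1 ε hε
  obtain ⟨n2, k2⟩ := g2 ε hε
  have k1' := k1 (n1 + n2) (by omega)
  have k2' := k2 (n1 + n2) (by omega)
  rw [Real.dist_eq] at k1' k2'
  have k1'' := (abs_lt.1 k1').2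
  have k2'' := (abs_lt.1 k2').1
  refine ⟨u (n1 + n2), hu0 _, ?_, ?_⟩
  · change (μ {w | ∀ i, w i ≤ x i}).toReal ≤ (μ {w | ∀ i, w i ≤ x i - u (n1 + n2)}).toReal + ε
    change -ε < (μ {w | ∀ i, w i ≤ x i - u (n1 + n2)}).toReal - _ at k2''
    linarith
  · change (μ {w | ∀ i, w i ≤ x i + u (n1 + n2)}).toReal ≤ (μ {w | ∀ i, w i ≤ x i}).toReal + ε
    change (μ {w | ∀ i, w i ≤ x i + u (n1 + n2)}).toReal - _ < ε at k1''
    linarith

lemma sandwich2 {α κ : Type} (S T M A B : Finset α) (V W : α → κ → ℝ) (P : α → Prop) (δ : ℝ)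
    (h : ∀ t ∈ S, t ∉ T → P t ∧ ∀ i, |V t i - W t i| ≤ δ) (x : κ → ℝ)
    (hM : ∀ t, t ∈ M ↔ t ∈ S ∧ P t ∧ ∀ i, V t i ≤ x i)
    (hA : ∀ t, t ∈ A ↔ t ∈ S ∧ ∀ i, W t i ≤ x i - δ)
    (hB : ∀ t, t ∈ B ↔ t ∈ S ∧ ∀ i, W t i ≤ x i + δ) :
    (A.card : ℝ) ≤ M.card + T.card ∧ (M.card : ℝ) ≤ B.card + T.card := by
  classical
  constructor
  · have h1 : A ⊆ M ∪ T := by
      intro t ht
      rw [hA] at ht
      by_cases hT : t ∈ T
      · exact mem_union_right _ hT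
      · refine mem_union_left _ ((hM t).2 ⟨ht.1, (h t ht.1 hT).1, fun i => ?_⟩)
        have h2 := (abs_le.1 ((h t ht.1 hT).2 i)).2
        have h3 := ht.2 i
        linarith
    exact_mod_cast (card_le_card h1).trans (card_union_le _ _)
  · have h1 : M ⊆ B ∪ T := by
      intro t ht
      rw [hM] at ht
      by_cases hT : t ∈ T
      · exact mem_union_right _ hT
      · refine mem_union_left _ ((hB t).2 ⟨ht.1, fun i => ?_⟩)
        have h2 := (abs_le.1 ((h t ht.1 hT).2 i)).1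
        have h3 := ht.2.2 i
        linarith
    exact_mod_cast (card_le_card h1).trans (card_union_le _ _)

/-- **the joint law for the quadratic twists** -/
theorem tw_main (L : ℕ) (d : Fin n → ℤ) (hd : ∀ l, d l ≠ 0)
    (hdd : ∀ l m, l ≠ m → ∀ r : ℤ, r ^ 2 ≠ d l * d m) (j : Fin 3 × Fin n → ℕ)
    (hj : ∀ i, 1 ≤ j i) (x : Fin 3 × Fin n → ℝ) (ε : ℝ) (hε : 0 < ε) :
    ∃ R X0 : ℕ, ∀ (N1 N2 : ℤ) (X : ℕ), X0 ≤ X → N1.natAbs ≤ X ^ L → N2.natAbs ≤ X ^ L →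
      ∃ T : Finset (ℤ × ℤ), (T.card : ℝ) ≤ ε * X ^ 2 ∧
      (∀ t ∈ Bx N1 N2 X X, t ∉ T → ∀ k : Fin 3 × Fin n,
        OkS (St d k X t - R) (St d k X t + R) R (tri k.1 (d k.2 * t.1) (d k.2 * t.2))) ∧
      ∀ M : Finset (ℤ × ℤ), (∀ t, t ∈ M ↔ t ∈ Bx N1 N2 X X ∧ (∀ k, (Tw d k (j k) t).Finite) ∧
        ∀ k, Lt d j X t k ≤ x k) →
      |(M.card : ℝ) / (X : ℝ) ^ 2 - (muT 3 n).real {w | ∀ k, w k ≤ x k}| ≤ ε := by
  classical
  obtain ⟨δ, hδ0, hδ1, hδ2⟩ := shift_le (muT 3 n) x (ε / 4) (muT_null 3 n) (by positivity)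
  obtain ⟨R, X1, hR⟩ := str_tw d hd (ε / 4) L (by positivity)
  obtain ⟨X2, h2⟩ := tw_box d hd hdd (fun i => x i - δ) (ε / 4) (by positivity)
  obtain ⟨X3, h3⟩ := tw_box d hd hdd (fun i => x i + δ) (ε / 4) (by positivity)
  obtain ⟨J, hJ⟩ : ∃ J : ℕ, J = ∑ i, j i := ⟨_, rfl⟩
  obtain ⟨C, hC⟩ : ∃ C : ℝ, C = R + (R + 1) * J := ⟨_, rfl⟩
  have hC0 : 0 ≤ C := by rw [hC]; positivity
  obtain ⟨X4, h4⟩ := big_ll ((C / δ + 1) ^ 2)
  refine ⟨R, X1 + X2 + X3 + X4 + 1, fun N1 N2 X hX hN1 hN2 => ?_⟩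
  obtain ⟨T, hT1, hT2⟩ := hR N1 N2 X (by omega) hN1 hN2
  have hX2 : (0 : ℝ) < (X : ℝ) ^ 2 := by
    have : 0 < X := by omega
    positivity
  refine ⟨T, hT1.trans (by nlinarith), hT2, fun M hM => ?_⟩
  have g2 := h2 X (by omega) N1 N2 X X le_rfl le_rfl
  have g3 := h3 X (by omega) N1 N2 X X le_rfl le_rfl
  have g4 := h4 X (by omega)
  have hXX : (X : ℝ) * X = (X : ℝ) ^ 2 := by ring
  rw [hXX] at g2 g3
  obtain ⟨s, hs⟩ : ∃ s, s = √(Real.log (Real.log X)) := ⟨_, rfl⟩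
  have hs1 : C / δ + 1 ≤ s := by
    rw [hs]
    exact Real.le_sqrt_of_sq_le g4
  have hs0 : 0 < s := by
    have : 0 ≤ C / δ := by positivity
    linarith
  have hsC : C / s ≤ δ := by
    rw [div_le_iff₀ hs0]
    have : C / δ ≤ s := by linarith
    rwa [div_le_iff₀ hδ0, mul_comm] at this
  have key : ∀ t ∈ Bx N1 N2 X X, t ∉ T → (∀ k, (Tw d k (j k) t).Finite) ∧
      ∀ k, |Lt d j X t k - Vt d X t k| ≤ δ := by
    intro t ht hn
    have hok := hT2 t ht hn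
    have h1 := fun k => (typ1 (hok k)).2 (j k) (hj k)
    refine ⟨fun k => (h1 k).1, fun k => ?_⟩
    obtain ⟨-, h5, h6, -⟩ := h1 k
    change St d k X t - R ≤ Real.logb 2 (Tw d k (j k) t).ncard at h5
    change Real.logb 2 (Tw d k (j k) t).ncard ≤ St d k X t + R + ((R + 1 : ℕ) : ℝ) * (j k : ℕ) at h6
    unfold Lt Vt
    rw [← hs, ← sub_div, abs_div, abs_of_pos hs0]
    refine le_trans ?_ hsC
    apply div_le_div_of_nonneg_right _ hs0.le
    have hji : (j k : ℝ) ≤ J := by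
      have : j k ≤ ∑ i, j i := single_le_sum (f := fun i => j i) (fun _ _ => Nat.zero_le _)
        (mem_univ k)
      rw [hJ]
      exact_mod_cast this
    have hRr : (0 : ℝ) ≤ R := Nat.cast_nonneg _
    have hJr : (0 : ℝ) ≤ J := Nat.cast_nonneg _
    push_cast at h6
    rw [abs_le, hC]
    constructor
    · nlinarith
    · nlinarith
  obtain ⟨A, hA⟩ : ∃ A, A = (Bx N1 N2 X X).filter (fun t => ∀ i, Vt d X t i ≤ x i - δ) := ⟨_, rfl⟩
  obtain ⟨B, hB⟩ : ∃ B, B = (Bx N1 N2 X X).filter (fun t => ∀ i, Vt d X t i ≤ x i + δ) := ⟨_, rfl⟩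
  obtain ⟨k1, k2⟩ := sandwich2 (Bx N1 N2 X X) T M A B (Lt d j X) (Vt d X)
    (fun t => ∀ i, (Tw d i (j i) t).Finite) δ key x hM (fun t => by rw [hA, mem_filter])
    (fun t => by rw [hB, mem_filter])
  have g2' := (abs_le.1 g2).1
  have g3' := (abs_le.1 g3).2
  have e1 : ((((Bx N1 N2 X X).filter (fun t => ∀ i, Vt d X t i ≤ x i - δ)).card : ℕ) : ℝ) =
      A.card := by rw [hA]
  have e2 : ((((Bx N1 N2 X X).filter (fun t => ∀ i, Vt d X t i ≤ x i + δ)).card : ℕ) : ℝ) =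
      B.card := by rw [hB]
  have g2'' : -(ε / 4) ≤ (A.card : ℝ) / (X : ℝ) ^ 2 - (muT 3 n).real {w | ∀ k, w k ≤ x k - δ} := by
    rw [← e1]
    refine g2'.trans (le_of_eq ?_)
    congr!
  have g3'' : (B.card : ℝ) / (X : ℝ) ^ 2 - (muT 3 n).real {w | ∀ k, w k ≤ x k + δ} ≤ ε / 4 := by
    rw [← e2]
    refine le_trans (le_of_eq ?_) g3'
    congr!
  have r1 : (A.card : ℝ) / (X : ℝ) ^ 2 ≤ (M.card : ℝ) / (X : ℝ) ^ 2 + ε / 4 := by
    rw [div_add' _ _ _ hX2.ne']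
    apply div_le_div_of_nonneg_right _ hX2.le
    linarith
  have r2 : (M.card : ℝ) / (X : ℝ) ^ 2 ≤ (B.card : ℝ) / (X : ℝ) ^ 2 + ε / 4 := by
    rw [div_add' _ _ _ hX2.ne']
    apply div_le_div_of_nonneg_right _ hX2.le
    linarith
  rw [abs_le]
  constructor <;> linarith

end Pool.Agent.R421.EK
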