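import Mathlib
import Pool.Agent.W605.AT.DSC
import Pool.Agent.W683.AT.Chi
import Pool.Agent.R421.EK.TwFin

/-!
# Project EK: the part of `E(F)` belonging to a quadratic character and the twist
-/

set_option autoImplicit false
set_option linter.all false

namespace Pool.Agent.R421.EK

open WeierstrassCurve

open Pool.Agent.W605.AT (Sc sc sc_add sc_inj sc_some some_congr)

open Pool.Agent.W307.AT (Part)

open Pool.Agent.TH841.LS (WI)

open Pool.Agent.TH841.SH.D

open Pool.Agent.TH841.PT (EQ isR_EQ)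

open Pool.Agent.Y676.IS

open Pool.Agent.R431.NO (fg_EQ fg_aux fr_pt finrank_le_of_ker)

theorem scWI (A B D : ℤ) (hD : D ≠ 0) (L : Type) [Field L] [Algebra ℚ L] (s : L)
    (hs : s ^ 2 = (D : L)) :
    Sc (((WI A B).baseChange L).toAffine) (((WI (D * A) (D * B)).baseChange L).toAffine) s := by
  have : CharZero L := algebraRat.charZero L
  have hD' : (D : L) ≠ 0 := by exact_mod_cast hD
  have h4 : s ^ 4 = (D : L) ^ 2 := by rw [← hs]; ring
  constructor
  · simp [WI, WeierstrassCurve.baseChange, WeierstrassCurve.map]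
  · simp only [WI, WeierstrassCurve.baseChange, WeierstrassCurve.map]
    push_cast
    simp only [map_mul, map_add, map_ofNat, map_intCast]
    rw [hs]
    ring
  · simp [WI, WeierstrassCurve.baseChange, WeierstrassCurve.map]
  · simp only [WI, WeierstrassCurve.baseChange, WeierstrassCurve.map]
    push_cast
    simp only [map_mul, map_sub, map_pow, map_intCast]
    rw [h4]
    ring
  · simp [WI, WeierstrassCurve.baseChange, WeierstrassCurve.map]
  · rintro rfl
    rw [zero_pow two_ne_zero] at hs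
    exact hD' hs.symm

theorem part_someWI (F : Type) [Field F] [NumberField F] (χ : (F ≃ₐ[ℚ] F) →* ℤˣ) (A B : ℤ)
    {x y : F} (h0 : ((WI A B).baseChange F).toAffine.Nonsingular x y)
    (hP : Affine.Point.some x y h0 ∈ Part F χ (WI A B)) (σ : F ≃ₐ[ℚ] F) :
    σ x = x ∧ σ y = (((χ σ : ℤˣ) : ℤ) : F) * y := by
  classical
  have h1 := hP σ
  rw [Affine.Point.map_some] at h1
  rcases Int.units_eq_one_or (χ σ) with h2 | h2
  · rw [h2] at h1 ⊢
    rw [Units.val_one, one_smul, Affine.Point.some.injEq] at h1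
    refine ⟨h1.1, ?_⟩
    rw [Units.val_one, Int.cast_one, one_mul]
    exact h1.2
  · rw [h2] at h1 ⊢
    rw [Units.val_neg, Units.val_one, neg_smul, one_smul, Affine.Point.neg_some,
      Affine.Point.some.injEq] at h1
    refine ⟨h1.1, ?_⟩
    rw [Units.val_neg, Units.val_one, Int.cast_neg, Int.cast_one, neg_mul, one_mul]
    have h3 := h1.2
    rw [Affine.negY] at h3
    have e1 : (((WI A B).baseChange F).toAffine).a₁ = 0 := by
      simp [WI, WeierstrassCurve.baseChange, WeierstrassCurve.map]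
    have e3 : (((WI A B).baseChange F).toAffine).a₃ = 0 := by
      simp [WI, WeierstrassCurve.baseChange, WeierstrassCurve.map]
    rw [e1, e3, zero_mul, sub_zero, sub_zero] at h3
    exact h3

open Classical in
theorem dscWI (F : Type) [Field F] [NumberField F] [IsGalois ℚ F]
    (χ : (F ≃ₐ[ℚ] F) →* ℤˣ) (D : ℤ) (s : F) (hD : D ≠ 0) (hs : s ^ 2 = (D : F))
    (hσ : ∀ σ : F ≃ₐ[ℚ] F, σ s = (((χ σ : ℤˣ) : ℤ) : F) * s) (A B : ℤ) :
    ∃ φ : Part F χ (WI A B) →+ ((WI (D * A) (D * B)).baseChange ℚ).toAffine.Point,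
      Function.Injective φ := by
  have h := scWI A B D hD F s hs
  obtain ⟨W', hW'⟩ : ∃ W' : WeierstrassCurve ℚ, W' = WI (D * A) (D * B) := ⟨_, rfl⟩
  rw [← hW'] at h ⊢
  let j : (W'.baseChange ℚ).toAffine.Point →+ (W'.baseChange F).toAffine.Point :=
    Affine.Point.map (W' := W'.toAffine) (Algebra.ofId ℚ F)
  have hj : Function.Injective j := Affine.Point.map_injective _
  let ψ0 : ((WI A B).baseChange F).toAffine.Point →+ (W'.baseChange F).toAffine.Point :=
    AddMonoidHom.mk' (sc _ _ s) (sc_add h)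
  let ψ : Part F χ (WI A B) →+ (W'.baseChange F).toAffine.Point :=
    ψ0.comp (Part F χ (WI A B)).subtype
  have hψ : Function.Injective ψ := by
    intro P Q hPQ
    apply Subtype.ext
    exact sc_inj h hPQ
  have hr : ∀ P, ψ P ∈ j.range := by
    rintro ⟨P, hP⟩
    rcases P with _ | ⟨x, y, h0⟩
    · exact ⟨0, rfl⟩
    · have hxy := part_someWI F χ A B h0 hP
      have hχ : ∀ σ : F ≃ₐ[ℚ] F, (((χ σ : ℤˣ) : ℤ) : F) ^ 2 = 1 := by
        intro σ
        rcases Int.units_eq_one_or (χ σ) with h2 | h2 <;> rw [h2] <;> simp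
      have hx : s ^ 2 * x ∈ Set.range (algebraMap ℚ F) := by
        rw [IsGalois.mem_range_algebraMap_iff_fixed]
        intro σ
        rw [map_mul, map_pow, hσ σ, (hxy σ).1, mul_pow, hχ σ, one_mul]
      have hy : s ^ 3 * y ∈ Set.range (algebraMap ℚ F) := by
        rw [IsGalois.mem_range_algebraMap_iff_fixed]
        intro σ
        rw [map_mul, map_pow, hσ σ, (hxy σ).2]
        linear_combination ((((χ σ : ℤˣ) : ℤ) : F) ^ 2 + 1) * s ^ 3 * y * hχ σ
      obtain ⟨q1, hq1⟩ := hx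
      obtain ⟨q2, hq2⟩ := hy
      have hns : (W'.baseChange F).toAffine.Nonsingular ((Algebra.ofId ℚ F) q1)
          ((Algebra.ofId ℚ F) q2) := by
        have e1 : (Algebra.ofId ℚ F) q1 = s ^ 2 * x := hq1
        have e2 : (Algebra.ofId ℚ F) q2 = s ^ 3 * y := hq2
        rw [e1, e2]
        exact h.non.2 h0
      have hn : (W'.baseChange ℚ).toAffine.Nonsingular q1 q2 :=
        (W'.toAffine.baseChange_nonsingular (Algebra.ofId ℚ F).injective q1 q2).1 hns
      refine ⟨.some q1 q2 hn, ?_⟩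
      have e1 : j (.some q1 q2 hn) = .some _ _ hns := rfl
      have e2 : ψ ⟨.some x y h0, hP⟩ = .some _ _ (h.non.2 h0) := sc_some h h0
      rw [e1, e2]
      exact Pool.Agent.W605.AT.some_congr _ _ hq1 hq2
  let e := AddMonoidHom.ofInjective hj
  let φ0 : Part F χ (WI A B) →+ (W'.baseChange ℚ).toAffine.Point :=
    (e.symm.toAddMonoidHom).comp (ψ.codRestrict j.range hr)
  have hφ0 : Function.Injective φ0 := by
    intro P Q hPQ
    have h1 : ψ.codRestrict j.range hr P = ψ.codRestrict j.range hr Q := e.symm.injective hPQ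
    exact hψ (congrArg Subtype.val h1)
  exact ⟨φ0, hφ0⟩

lemma hom_aux {G : Type} [AddCommGroup G] (W : WeierstrassCurve ℚ) (d d' : DecidableEq ℚ)
    (h : ∃ φ : @AddMonoidHom G (W.baseChange ℚ).toAffine.Point _
      (@Affine.Point.instAddCommGroup ℚ _ (W.baseChange ℚ).toAffine d).toAddGroup.toSubNegMonoid.toAddMonoid.toAddZeroClass.toAddZero, Function.Injective φ) :
    ∃ φ : @AddMonoidHom G (W.baseChange ℚ).toAffine.Point _
      (@Affine.Point.instAddCommGroup ℚ _ (W.baseChange ℚ).toAffine d').toAddGroup.toSubNegMonoid.toAddMonoid.toAddZeroClass.toAddZero, Function.Injective φ := by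
  have : d' = d := Subsingleton.elim _ _
  subst this
  exact h

open Classical in
theorem dscPt (F : Type) [Field F] [NumberField F] [IsGalois ℚ F]
    (χ : (F ≃ₐ[ℚ] F) →* ℤˣ) (D : ℤ) (s : F) (hD : D ≠ 0) (hs : s ^ 2 = (D : F))
    (hσ : ∀ σ : F ≃ₐ[ℚ] F, σ s = (((χ σ : ℤˣ) : ℤ) : F) * s) (A B : ℤ) :
    ∃ φ : Part F χ (WI A B) →+ Pt (WI (D * A) (D * B)) ℚ, Function.Injective φ :=
  hom_aux (WI (D * A) (D * B)) inferInstance (Classical.decEq ℚ) (dscWI F χ D s hD hs hσ A B)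

open Classical in
theorem mult_le (F : Type) [Field F] [NumberField F] [IsGalois ℚ F]
    (χ : (F ≃ₐ[ℚ] F) →* ℤˣ) (D : ℤ) (s : F) (hD : D ≠ 0) (hs : s ^ 2 = (D : F))
    (hσ : ∀ σ : F ≃ₐ[ℚ] F, σ s = (((χ σ : ℤˣ) : ℤ) : F) * s) {A B : ℤ} {lo hi : ℝ} {R : ℕ}
    (h : Pool.Agent.R431.NO.OkS lo hi R (D * A, D * B)) :
    Module.finrank ℤ (Part F χ (WI A B)) ≤ R := by
  obtain ⟨g1, g2, g3, g4, -⟩ := h
  have h1 : rk (EQ (D * A) (D * B)) ≤ R := by
    obtain ⟨k1, k2⟩ := g4 1 le_rfl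
    rw [mul_one, mul_one] at k2
    have hpos : 0 < {x : Sha (EQ (D * A) (D * B)) | (2 ^ 1) • x = 0}.ncard := by
      rw [Set.ncard_pos k1]
      exact ⟨0, smul_zero _⟩
    exact (Nat.pow_le_pow_iff_right (by norm_num : 1 < 2)).1
      ((Nat.le_mul_of_pos_right _ hpos).trans k2)
  refine le_trans ?_ h1
  obtain ⟨φ, hφ⟩ := dscPt F χ D s hD hs hσ A B
  obtain ⟨ψ, φ', h1', h2', h3'⟩ := exists_NH g3 g1 g2
  rw [← fr_pt]
  refine finrank_le_of_ker (fg_aux _ _ (bcQ (EQ (D * A) (D * B))) inferInstance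
    (Classical.decEq ℚ) (fg_EQ g3 g1 g2)) ((ψ.f ℚ).comp φ) ?_
  intro x hx
  refine ⟨2, two_ne_zero, ?_⟩
  apply hφ
  have hx' : ψ.f ℚ (φ x) = 0 := hx
  have h4 : φ x + φ x = 0 := by
    rw [← h1', hx', map_zero]
  rw [map_zero, map_nsmul, two_nsmul]
  exact h4

/-- the squarefree numbers of different characters -/
theorem chars_ind (F : Type) [Field F] [NumberField F] (χ χ' : (F ≃ₐ[ℚ] F) →* ℤˣ) (hne : χ ≠ χ')
    (D D' : ℤ) (hD : Squarefree D) (hD' : Squarefree D') (s s' : F) (hs : s ^ 2 = (D : F))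
    (hs' : s' ^ 2 = (D' : F)) (hσ : ∀ σ : F ≃ₐ[ℚ] F, σ s = (((χ σ : ℤˣ) : ℤ) : F) * s)
    (hσ' : ∀ σ : F ≃ₐ[ℚ] F, σ s' = (((χ' σ : ℤˣ) : ℤ) : F) * s') (r : ℤ) : r ^ 2 ≠ D * D' := by
  intro hr
  have hDD : D = D' := by
    have h1 : D.natAbs = D'.natAbs := by
      have h2 : r.natAbs ^ 2 = D.natAbs * D'.natAbs := by
        rw [← Int.natAbs_pow, hr, Int.natAbs_mul]
      have h3 := Int.squarefree_natAbs.2 hD
      have h4 := Int.squarefree_natAbs.2 hD'
      have h5 : ∀ a b c : ℕ, Squarefree a → Squarefree b → c ^ 2 = a * b → a ∣ b := by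
        intro a b c ha hb hc
        have h6 : a ∣ c := by
          have h7 : a ∣ c ^ 2 := ⟨b, hc⟩
          exact (ha.dvd_pow_iff_dvd two_ne_zero).1 h7
        obtain ⟨m, hm⟩ := h6
        have ha0 : 0 < a := Nat.pos_of_ne_zero ha.ne_zero
        have h8 : a * (a * m ^ 2) = a * b := by
          rw [← hc, hm]
          ring
        exact ⟨m ^ 2, (Nat.eq_of_mul_eq_mul_left ha0 h8).symm⟩
      exact Nat.dvd_antisymm (h5 _ _ _ h3 h4 h2) (h5 _ _ _ h4 h3 (by rw [h2, mul_comm]))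
    rcases Int.natAbs_eq_natAbs_iff.1 h1 with h | h
    · exact h
    · exfalso
      have h2 : 0 ≤ D * D' := by rw [← hr]; positivity
      rw [h] at h2
      have h3 : D' ^ 2 ≤ 0 := by nlinarith
      have h4 : D' = 0 := by
        have : D' ^ 2 = 0 := le_antisymm h3 (sq_nonneg _)
        exact pow_eq_zero_iff two_ne_zero |>.1 this
      exact hD'.ne_zero h4
  apply hne
  have hs0 : s ≠ 0 := by
    rintro rfl
    rw [zero_pow two_ne_zero] at hs
    exact hD.ne_zero (by exact_mod_cast hs.symm)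
  have hpm : s' = s ∨ s' = -s := by
    have : s' ^ 2 = s ^ 2 := by rw [hs, hs', hDD]
    exact sq_eq_sq_iff_eq_or_eq_neg.1 this
  ext σ
  have h1 : (((χ σ : ℤˣ) : ℤ) : F) * s = (((χ' σ : ℤˣ) : ℤ) : F) * s := by
    rcases hpm with h | h
    · have h2 := hσ' σ
      rw [h, hσ σ] at h2
      exact h2
    · have h2 := hσ' σ
      rw [h, map_neg, hσ σ] at h2
      linear_combination -h2
  have h2 := mul_right_cancel₀ hs0 h1
  exact_mod_cast h2

end Pool.Agent.R421.EK
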