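import Mathlib
import Pool.Agent.R421.EK.TwFin

/-!
# Project EK: the joint law at the pairs `(3 e + 2 N, 3 e - 2 N)`
-/

set_option autoImplicit false
set_option linter.all false

namespace Pool.Agent.R421.EK

open Finset Filter Topology

open Pool.Agent.W262.RK (PS Jr)

open Pool.Agent.R421.NR (yT yT_pow loglog_yT yT_large big_ll Jr_abs Jr_quad)

variable {n : ℕ}

/-- the linear map -/
def lf (t : ℤ × ℤ) : ℤ × ℤ := (3 * t.1 + 2 * t.2, 3 * t.1 - 2 * t.2)

lemma SS_lf {R : Type} [Ring R] {p : ℕ} (hp : p.Prime) (h5 : 5 ≤ p) (F : ZMod p → ZMod p → R) :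
    SS p (fun x y => F (3 * x + 2 * y) (3 * x - 2 * y)) = SS p F := by
  haveI : Fact p.Prime := ⟨hp⟩
  haveI : NeZero p := ⟨hp.ne_zero⟩
  have hne : ∀ m : ℕ, 0 < m → m < p → (m : ZMod p) ≠ 0 := by
    intro m h0 h1 h
    rw [ZMod.natCast_eq_zero_iff] at h
    exact absurd (Nat.le_of_dvd h0 h) (by omega)
  have h2 : (2 : ZMod p) ≠ 0 := by exact_mod_cast hne 2 (by norm_num) (by omega)
  have h3 : (3 : ZMod p) ≠ 0 := by exact_mod_cast hne 3 (by norm_num) (by omega)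
  rw [SS_eq, SS_eq, ← Fintype.sum_prod_type' (f := fun x y => F (3 * x + 2 * y) (3 * x - 2 * y)),
    ← Fintype.sum_prod_type' (f := fun x y => F x y)]
  let e : (ZMod p × ZMod p) ≃ (ZMod p × ZMod p) :=
    { toFun := fun q => (3 * q.1 + 2 * q.2, 3 * q.1 - 2 * q.2)
      invFun := fun q => ((q.1 + q.2) / (2 * 3), (q.1 - q.2) / (2 * 2))
      left_inv := by
        rintro ⟨x, y⟩
        simp only [Prod.mk.injEq]
        constructor
        · field_simp
          ring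
        · field_simp
          ring
      right_inv := by
        rintro ⟨x, y⟩
        simp only [Prod.mk.injEq]
        constructor
        · field_simp
          ring
        · field_simp
          ring }
  exact Equiv.sum_comp e (fun q => F q.1 q.2)

theorem tw_cf_lf (d : Fin n → ℤ) (hd : ∀ l, d l ≠ 0)
    (hdd : ∀ l m, l ≠ m → ∀ r : ℤ, r ^ 2 ≠ d l * d m) (θ : Fin 3 × Fin n → ℝ)
    (ε : ℝ) (hε : 0 < ε) : ∃ T0 : ℕ, ∀ T : ℕ, T0 ≤ T →
    ∀ (a b : ℤ) (K L : ℕ), T ≤ K → T ≤ L →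
      ‖(∑ t ∈ Bx a b K L, Complex.exp (((∑ k, θ k * Vt d T (lf t) k : ℝ) : ℂ) * Complex.I)) /
        ((Bx a b K L).card : ℂ) - ((Real.exp (-(vT θ / 2)) : ℝ) : ℂ)‖ ≤ ε := by
  obtain ⟨θ', hθ'⟩ : ∃ θ' : Fin 3 → Fin n → ℝ, θ' = fun i l => θ (i, l) := ⟨_, rfl⟩
  have hs := sT_nonneg θ'
  have h10 := zD_le d
  have hm : |3 / 2 * ∑ i, ∑ l, θ' i l| ≤ 3 * sT θ' + 1 := by
    rw [abs_mul, abs_of_pos (by norm_num : (0 : ℝ) < 3 / 2)]
    have h1 : |∑ i, ∑ l, θ' i l| ≤ sT θ' := by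
      rw [sum_comm]
      unfold sT
      refine (abs_sum_le_sum_abs _ _).trans (sum_le_sum fun l _ => ?_)
      rw [Fin.sum_univ_three]
      unfold sθ
      have h1 := abs_add_le (θ' 0 l + θ' 1 l) (θ' 2 l)
      have h2 := abs_add_le (θ' 0 l) (θ' 1 l)
      linarith
    linarith
  have hv0 : 0 ≤ vT θ := by
    unfold vT
    have h1 : 0 ≤ ∑ i, (∑ l, θ (i, l)) ^ 2 := sum_nonneg fun i _ => sq_nonneg _
    have h2 : 0 ≤ ∑ k, θ k ^ 2 := sum_nonneg fun i _ => sq_nonneg _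
    linarith
  obtain ⟨C3, hC30, hC3⟩ := wT_sum d hd hdd θ
  rw [← hθ'] at hC3
  obtain ⟨T0, hT0⟩ := cfv (fun p x y => ft d θ' p (3 * x + 2 * y) (3 * x - 2 * y)) (zD d) h10 (3 * sT θ' + 1) (3 / 2 * ∑ i, ∑ l, θ' i l)
    (vT θ) (fun p => |wT d θ' p|) (VT θ) C3 (by linarith) hv0 (fun p => abs_nonneg _)
    (fun p => by rw [hθ']; exact wT_abs d θ p) hC30 hC3 hm
    (fun p x y => (ft_bd d θ' p _ _).trans (by linarith))
    (fun p hp hz => by
      rw [SS_lf hp (by omega) (ft d θ' p)]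
      exact ft_sum hp (by omega) d (zD_ne d hd hp hz) θ')
    (fun p hp hz => by
      rw [SS_lf hp (by omega) (fun x y => ft d θ' p x y ^ 2),
        abs_of_nonneg (wT_nonneg d hd θ' hp hz)]
      exact ft_sumsq hp (by omega) d (zD_ne d hd hp hz) θ')
    (fun p hp hz => by
      rw [SS_lf hp (by omega) (fun x y => |ft d θ' p x y|)]
      exact ft_sumabs hp d (zD_ne d hd hp hz) θ') ε hε
  refine ⟨T0, fun T hT a b K L hK hL => ?_⟩
  have h := hT0 T hT a b K L hK hL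
  have e1 : ∀ t : ℤ × ℤ, ((∑ p ∈ PS (zD d) (yT T), ft d θ' p (3 * (t.1 : ZMod p) +
      2 * (t.2 : ZMod p)) (3 * (t.1 : ZMod p) - 2 * (t.2 : ZMod p))) -
      3 / 2 * (∑ i, ∑ l, θ' i l) * Real.log (Real.log T)) / √(Real.log (Real.log T)) =
      ∑ k, θ k * Vt d T (lf t) k := by
    intro t
    have e0 : ∀ p : ℕ, ft d θ' p (3 * (t.1 : ZMod p) + 2 * (t.2 : ZMod p))
        (3 * (t.1 : ZMod p) - 2 * (t.2 : ZMod p)) =
        ft d θ' p ((lf t).1 : ZMod p) ((lf t).2 : ZMod p) := by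
      intro p
      unfold lf
      push_cast
      rfl
    simp_rw [e0]
    rw [hθ', ft_St]
    unfold Vt
    have e2 : ∀ k, θ k * ((St d k T (lf t) - 3 / 2 * Real.log (Real.log T)) /
        √(Real.log (Real.log T))) = (θ k * St d k T (lf t) - 3 / 2 * Real.log (Real.log T) * θ k) /
        √(Real.log (Real.log T)) := fun k => by ring
    rw [sum_congr rfl fun k _ => e2 k, ← sum_div, sum_sub_distrib, ← mul_sum,
      Fintype.sum_prod_type (f := fun k : Fin 3 × Fin n => θ k)]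
    congr 1
    ring
  simp_rw [e1] at h
  have e4 : (((Bx a b K L).card : ℕ) : ℂ) = (((K : ℝ) * L : ℝ) : ℂ) := by
    rw [← Bx_card a b K L]
    push_cast
    rfl
  rw [e4]
  exact h

/-- **the joint law of the twists in boxes** -/
theorem tw_box_lf (d : Fin n → ℤ) (hd : ∀ l, d l ≠ 0)
    (hdd : ∀ l m, l ≠ m → ∀ r : ℤ, r ^ 2 ≠ d l * d m) (x : Fin 3 × Fin n → ℝ)
    (ε : ℝ) (hε : 0 < ε) : ∃ T0 : ℕ, ∀ T : ℕ, T0 ≤ T →
    ∀ (a b : ℤ) (K L : ℕ), T ≤ K → T ≤ L →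
      |(((Bx a b K L).filter (fun t => ∀ k, Vt d T (lf t) k ≤ x k)).card : ℝ) / ((K : ℝ) * L) -
        (muT 3 n).real {w | ∀ k, w k ≤ x k}| ≤ ε := by
  by_contra hcon
  push Not at hcon
  choose! T hT a b K L hK hL hbad using fun n : ℕ => hcon (n + 1)
  obtain ⟨s, hs⟩ : ∃ s : ℕ → Finset (ℤ × ℤ), s = fun n => Bx (a n) (b n) (K n) (L n) := ⟨_, rfl⟩
  have hcard : ∀ n, ((s n).card : ℝ) = (K n : ℝ) * L n := by
    intro n
    rw [hs]
    exact Bx_card _ _ _ _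
  have hne : ∀ n, (s n).Nonempty := by
    intro n
    rw [← card_pos]
    have h1 : 0 < K n := by have := hT n; have := hK n; omega
    have h2 : 0 < L n := by have := hT n; have := hL n; omega
    have h3 : (0 : ℝ) < (s n).card := by
      rw [hcard]
      positivity
    exact_mod_cast h3
  have hlaw := law_mu (muT 3 n) (muT_null 3 n) s hne (fun n t i => Vt d (T n) (lf t) i) (fun θ => by
    rw [Metric.tendsto_atTop]
    intro δ hδ
    obtain ⟨T0, hT0⟩ := tw_cf_lf d hd hdd θ (δ / 2) (by positivity)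
    refine ⟨T0, fun n hn => ?_⟩
    rw [dist_eq_norm]
    have := hT0 (T n) (by have := hT n; omega) (a n) (b n) (K n) (L n) (hK n) (hL n)
    rw [hs, muT_char]
    unfold vT at this
    linarith) x
  rw [Metric.tendsto_atTop] at hlaw
  obtain ⟨n, hn⟩ := hlaw ε hε
  have h1 := hn n le_rfl
  have h2 := hbad n
  rw [Real.dist_eq, hcard n] at h1
  have e9 : s n = Bx (a n) (b n) (K n) (L n) := by rw [hs]
  rw [e9] at h1
  refine lt_irrefl ε (h2.trans (lt_of_eq_of_lt ?_ h1))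
  congr!

end Pool.Agent.R421.EK
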