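import Mathlib
import Pool.Agent.R421.EK.TwLf

/-!
# Project EK: the joint law at the pairs `(3 e + 2 N, 3 e - 2 N)`, main statement
-/

set_option autoImplicit false
set_option linter.all false

namespace Pool.Agent.R421.EK

open Finset ProbabilityTheory MeasureTheory

open Pool.Agent.TH841.SH.D (Sha)

open Pool.Agent.TH841.LS (WI)

open Pool.Agent.R431.NO (OkS typ1)

open Pool.Agent.R421.NR (yT yT_pow loglog_yT yT_large big_ll)

open Pool.Agent.Y676.IS (tri)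

variable {n : ℕ}

lemma lf_inj : Function.Injective lf := by
  rintro ⟨a, b⟩ ⟨c, d⟩ h
  unfold lf at h
  simp only [Prod.mk.injEq] at h
  obtain ⟨h1, h2⟩ := h
  rw [Prod.mk.injEq]
  constructor <;> linarith

/-- the structure at almost all pairs `(3 e + 2 N, 3 e - 2 N)` -/
theorem str_lf (d : Fin n → ℤ) (hd : ∀ l, d l ≠ 0) (ε : ℝ) (L : ℕ) (hε : 0 < ε) :
    ∃ R X0 : ℕ, ∀ (N1 N2 : ℤ) (X : ℕ), X0 ≤ X → N1.natAbs ≤ X ^ L → N2.natAbs ≤ X ^ L →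
      ∃ T : Finset (ℤ × ℤ), (T.card : ℝ) ≤ ε * X ^ 2 ∧ ∀ t ∈ Bx N1 N2 X X, t ∉ T →
        ∀ k : Fin 3 × Fin n, OkS (St d k X (lf t) - R) (St d k X (lf t) + R) R
          (tri k.1 (d k.2 * (lf t).1) (d k.2 * (lf t).2)) := by
  classical
  obtain ⟨R, X1, hR⟩ := str_tw d hd (ε / 25) (L + 2) (by positivity)
  refine ⟨R, X1 + 11, fun N1 N2 X hX hN1 hN2 => ?_⟩
  have hXpos : (0 : ℤ) < X := by
    have : 0 < X := by omega
    exact_mod_cast this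
  obtain ⟨M1, hM1⟩ : ∃ M1 : ℤ, M1 = 3 * N1 + 2 * N2 := ⟨_, rfl⟩
  obtain ⟨M2, hM2⟩ : ∃ M2 : ℤ, M2 = 3 * N1 - 2 * N2 - 2 * X := ⟨_, rfl⟩
  have hpow : 11 * X ^ (L + 1) ≤ X ^ (L + 2) := by
    have : X ^ (L + 2) = X * X ^ (L + 1) := by ring
    rw [this]
    exact Nat.mul_le_mul_right _ (by omega)
  have hp1 : X ^ L ≤ X ^ (L + 1) := Nat.pow_le_pow_right (by omega) (by omega)
  have hp2 : X ≤ X ^ (L + 1) := Nat.le_self_pow (by omega) X
  have hb1 : ∀ i : Fin 5, (M1 + i * X).natAbs ≤ X ^ (L + 2) := by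
    intro i
    have hi : (i : ℕ) * X ≤ 4 * X := Nat.mul_le_mul_right _ (by omega)
    have e : ((i : ℕ) : ℤ) * X = ((i * X : ℕ) : ℤ) := by push_cast; rfl
    rw [hM1, e]
    omega
  have hb2 : ∀ i : Fin 5, (M2 + i * X).natAbs ≤ X ^ (L + 2) := by
    intro i
    have hi : (i : ℕ) * X ≤ 4 * X := Nat.mul_le_mul_right _ (by omega)
    have e : ((i : ℕ) : ℤ) * X = ((i * X : ℕ) : ℤ) := by push_cast; rfl
    rw [hM2, e]
    omega
  have hT := fun q : Fin 5 × Fin 5 => hR (M1 + q.1 * X) (M2 + q.2 * X) X (by omega) (hb1 q.1)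
    (hb2 q.2)
  choose T hT1 hT2 using hT
  refine ⟨univ.biUnion (fun q => (Bx N1 N2 X X).filter (fun t => lf t ∈ T q)), ?_,
    fun t ht hn k => ?_⟩
  · have h1 : ((univ.biUnion (fun q => (Bx N1 N2 X X).filter (fun t => lf t ∈ T q))).card : ℝ) ≤
        ∑ q : Fin 5 × Fin 5, (((Bx N1 N2 X X).filter (fun t => lf t ∈ T q)).card : ℝ) := by
      exact_mod_cast card_biUnion_le
    have h2 : ∑ q : Fin 5 × Fin 5, (((Bx N1 N2 X X).filter (fun t => lf t ∈ T q)).card : ℝ) ≤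
        ∑ q : Fin 5 × Fin 5, ε / 25 * (X : ℝ) ^ 2 := by
      refine sum_le_sum fun q _ => le_trans ?_ (hT1 q)
      have : ((Bx N1 N2 X X).filter (fun t => lf t ∈ T q)).card ≤ (T q).card :=
        card_le_card_of_injOn lf (fun t ht => by
          rw [mem_coe, mem_filter] at ht
          exact ht.2) (fun a _ b _ h => lf_inj h)
      exact_mod_cast this
    refine (h1.trans h2).trans (le_of_eq ?_)
    rw [sum_const, card_univ, Fintype.card_prod, Fintype.card_fin, nsmul_eq_mul]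
    push_cast
    ring
  · have hcell : ∀ M u : ℤ, M < u → u ≤ M + 5 * X → ∃ i : Fin 5, M + i * X < u ∧
        u ≤ M + i * X + X := by
      intro M u h1 h2
      have h3 : 0 ≤ (u - M - 1) / X := Int.ediv_nonneg (by omega) hXpos.le
      have h4 : (u - M - 1) / X < 5 := Int.ediv_lt_of_lt_mul hXpos (by linarith)
      refine ⟨⟨((u - M - 1) / X).toNat, by omega⟩, ?_⟩
      have h5 : ((((u - M - 1) / X).toNat : ℕ) : ℤ) = (u - M - 1) / X := Int.toNat_of_nonneg h3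
      change M + ((((u - M - 1) / X).toNat : ℕ) : ℤ) * X < u ∧
        u ≤ M + ((((u - M - 1) / X).toNat : ℕ) : ℤ) * X + X
      rw [h5]
      have h6 := Int.ediv_mul_le (u - M - 1) hXpos.ne'
      have h7 := Int.lt_ediv_add_one_mul_self (u - M - 1) hXpos
      constructor
      · linarith
      · have : ((u - M - 1) / X + 1) * (X : ℤ) = (u - M - 1) / X * X + X := by ring
        linarith
    have ht0 := ht
    unfold Bx at ht
    rw [mem_product, mem_Ioc, mem_Ioc] at ht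
    obtain ⟨i, hi⟩ := hcell M1 (lf t).1 (by unfold lf; simp only; omega)
      (by unfold lf; simp only; omega)
    obtain ⟨j, hj⟩ := hcell M2 (lf t).2 (by unfold lf; simp only; omega)
      (by unfold lf; simp only; omega)
    have hmem : lf t ∈ Bx (M1 + ((i, j) : Fin 5 × Fin 5).1 * X)
        (M2 + ((i, j) : Fin 5 × Fin 5).2 * X) X X := by
      unfold Bx
      rw [mem_product, mem_Ioc, mem_Ioc]
      exact ⟨hi, hj⟩
    refine hT2 (i, j) (lf t) hmem (fun h => hn ?_) k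
    rw [mem_biUnion]
    exact ⟨(i, j), mem_univ _, mem_filter.2 ⟨ht0, h⟩⟩

/-- the normalised function, with any scale -/
noncomputable def Lg (Λ : ℤ × ℤ → Fin 3 × Fin n → ℝ) (ℓ : ℝ) (t : ℤ × ℤ)
    (k : Fin 3 × Fin n) : ℝ :=
  (Λ t k - 3 / 2 * ℓ) / √ℓ

/-- the structure of the twists of the three curves -/
def Oks (d : Fin n → ℤ) (R : ℕ) (t : ℤ × ℤ) (k : Fin 3 × Fin n) (S : ℝ) : Prop :=
  OkS (S - R) (S + R) R (tri k.1 (d k.2 * (lf t).1) (d k.2 * (lf t).2))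

/-- `Λ` is a statistic of the structure and `P` follows from it -/
def Stat (d : Fin n → ℤ) (Λ : ℤ × ℤ → Fin 3 × Fin n → ℝ) (P : ℤ × ℤ → Prop) : Prop :=
  (∀ R : ℕ, ∃ C : ℝ, ∀ (t : ℤ × ℤ) (k : Fin 3 × Fin n) (S : ℝ), Oks d R t k S →
    |Λ t k - S| ≤ C) ∧
  ∀ (R : ℕ) (t : ℤ × ℤ), (∀ k, ∃ S, Oks d R t k S) → P t

/-- the logarithms of the torsion of the Tate-Shafarevich groups -/
theorem stat_sha (d : Fin n → ℤ) (j : Fin 3 × Fin n → ℕ) (hj : ∀ i, 1 ≤ j i) :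
    Stat d (fun t k => Real.logb 2 (Tw d k (j k) (lf t)).ncard)
      (fun t => ∀ k, (Tw d k (j k) (lf t)).Finite) := by
  classical
  obtain ⟨J, hJ⟩ : ∃ J : ℕ, J = ∑ i, j i := ⟨_, rfl⟩
  refine ⟨fun R => ⟨R + (R + 1) * J, fun t k S hok => ?_⟩, fun R t h k => ?_⟩
  · obtain ⟨-, h5, h6, -⟩ := (typ1 hok).2 (j k) (hj k)
    change S - R ≤ Real.logb 2 (Tw d k (j k) (lf t)).ncard at h5
    change Real.logb 2 (Tw d k (j k) (lf t)).ncard ≤ S + R + ((R + 1 : ℕ) : ℝ) * (j k : ℕ) at h6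
    have hji : (j k : ℝ) ≤ J := by
      have : j k ≤ ∑ i, j i := single_le_sum (f := fun i => j i) (fun _ _ => Nat.zero_le _)
        (mem_univ k)
      rw [hJ]
      exact_mod_cast this
    have hRr : (0 : ℝ) ≤ R := Nat.cast_nonneg _
    have hJr : (0 : ℝ) ≤ J := Nat.cast_nonneg _
    push_cast at h6
    have h8 : ((R : ℝ) + 1) * j k ≤ (R + 1) * J := mul_le_mul_of_nonneg_left hji (by linarith)
    have h9 : 0 ≤ ((R : ℝ) + 1) * J := by positivity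
    rw [abs_le]
    constructor
    · linarith
    · linarith
  · obtain ⟨S, hS⟩ := h k
    exact ((typ1 hS).2 (j k) (hj k)).1

lemma norm_alg {lam ℓ Λ S C x δ : ℝ} (h1 : |ℓ - lam| ≤ 10) (hC0 : 0 ≤ C)
    (hs : (C + 15 + 10 * |x|) / δ + 4 ≤ √lam) (hδ : 0 < δ) (hC : |Λ - S| ≤ C) :
    ((Λ - 3 / 2 * ℓ) / √ℓ ≤ x → (S - 3 / 2 * lam) / √lam ≤ x + δ) ∧
    ((S - 3 / 2 * lam) / √lam ≤ x - δ → (Λ - 3 / 2 * ℓ) / √ℓ ≤ x) := by
  have hx := abs_nonneg x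
  have h2 : 0 ≤ (C + 15 + 10 * |x|) / δ := by positivity
  have hs4 : 4 ≤ √lam := by linarith
  have hlam0 : 0 ≤ lam := by
    by_contra hcon
    rw [Real.sqrt_eq_zero_of_nonpos (not_le.1 hcon).le] at hs4
    linarith
  have hlam : √lam ^ 2 = lam := Real.sq_sqrt hlam0
  have hlam16 : 16 ≤ lam := by nlinarith
  have h1' := abs_le.1 h1
  have hℓ6 : 6 ≤ ℓ := by linarith
  have hℓ : √ℓ ^ 2 = ℓ := Real.sq_sqrt (by linarith)
  have hr0 : 0 < √ℓ := Real.sqrt_pos.2 (by linarith)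
  obtain ⟨s, hsd⟩ : ∃ s, s = √lam := ⟨_, rfl⟩
  obtain ⟨r, hrd⟩ : ∃ r, r = √ℓ := ⟨_, rfl⟩
  rw [← hsd] at hs hs4 hlam ⊢
  rw [← hrd] at hr0 hℓ ⊢
  have hrs : |r - s| ≤ 10 := by
    have e : (r - s) * (r + s) = ℓ - lam := by rw [← hlam, ← hℓ]; ring
    have h3 : |r - s| * (r + s) ≤ 10 := by
      rw [← abs_of_pos (show 0 < r + s by linarith), ← abs_mul, e]
      exact h1
    have h4 : |r - s| * 1 ≤ |r - s| * (r + s) :=
      mul_le_mul_of_nonneg_left (by linarith) (abs_nonneg _)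
    linarith
  have hxr : |x * (r - s)| ≤ 10 * |x| := by
    rw [abs_mul, mul_comm]
    exact mul_le_mul_of_nonneg_right hrs hx
  have hxr' := abs_le.1 hxr
  have hC' := abs_le.1 hC
  have hds : C + 15 + 10 * |x| ≤ δ * s := by
    have h3 : (C + 15 + 10 * |x|) / δ ≤ s := by linarith
    rw [div_le_iff₀ hδ] at h3
    linarith
  have hs0 : 0 < s := by linarith
  constructor
  · intro h
    rw [div_le_iff₀ hr0] at h
    rw [div_le_iff₀ hs0]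
    have e : x * (r - s) = x * r - x * s := by ring
    have e2 : (x + δ) * s = x * s + δ * s := by ring
    rw [e] at hxr'
    rw [e2]
    linarith [hxr'.2, hC'.1, h1'.2]
  · intro h
    rw [div_le_iff₀ hs0] at h
    rw [div_le_iff₀ hr0]
    have e : x * (r - s) = x * r - x * s := by ring
    have e2 : (x - δ) * s = x * s - δ * s := by ring
    rw [e] at hxr'
    rw [e2] at h
    linarith [hxr'.1, hC'.2, h1'.1]

lemma sandwich3 {α κ : Type} (S T M A B : Finset α) (V W : α → κ → ℝ) (P : α → Prop) (δ : ℝ)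
    (x : κ → ℝ)
    (h : ∀ t ∈ S, t ∉ T → P t ∧ ∀ i, (V t i ≤ x i → W t i ≤ x i + δ) ∧
      (W t i ≤ x i - δ → V t i ≤ x i))
    (hM : ∀ t, t ∈ M ↔ t ∈ S ∧ P t ∧ ∀ i, V t i ≤ x i)
    (hA : ∀ t, t ∈ A ↔ t ∈ S ∧ ∀ i, W t i ≤ x i - δ)
    (hB : ∀ t, t ∈ B ↔ t ∈ S ∧ ∀ i, W t i ≤ x i + δ) :
    (A.card : ℝ) ≤ M.card + T.card ∧ (M.card : ℝ) ≤ B.card + T.card := by
  classical
  constructor
  · have h1 : A ⊆ M ∪ T := by
      intro t ht
      rw [hA] at ht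
      by_cases hT : t ∈ T
      · exact mem_union_right _ hT
      · exact mem_union_left _ ((hM t).2 ⟨ht.1, (h t ht.1 hT).1, fun i =>
          ((h t ht.1 hT).2 i).2 (ht.2 i)⟩)
    exact_mod_cast (card_le_card h1).trans (card_union_le _ _)
  · have h1 : M ⊆ B ∪ T := by
      intro t ht
      rw [hM] at ht
      by_cases hT : t ∈ T
      · exact mem_union_right _ hT
      · exact mem_union_left _ ((hB t).2 ⟨ht.1, fun i =>
          ((h t ht.1 hT).2 i).1 (ht.2.2 i)⟩)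
    exact_mod_cast (card_le_card h1).trans (card_union_le _ _)

/-- **the joint law at the pairs `(3 e + 2 N, 3 e - 2 N)`** -/
theorem lf_main (L : ℕ) (d : Fin n → ℤ) (hd : ∀ l, d l ≠ 0)
    (hdd : ∀ l m, l ≠ m → ∀ r : ℤ, r ^ 2 ≠ d l * d m) (Λ : ℤ × ℤ → Fin 3 × Fin n → ℝ)
    (P : ℤ × ℤ → Prop) (hΛ : Stat d Λ P) (x : Fin 3 × Fin n → ℝ) (ε : ℝ) (hε : 0 < ε) :
    ∃ R X0 : ℕ, ∀ (N1 N2 : ℤ) (X : ℕ), X0 ≤ X → N1.natAbs ≤ X ^ L → N2.natAbs ≤ X ^ L →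
      ∃ T : Finset (ℤ × ℤ), (T.card : ℝ) ≤ ε * X ^ 2 ∧
      (∀ t ∈ Bx N1 N2 X X, t ∉ T → ∀ k : Fin 3 × Fin n, Oks d R t k (St d k X (lf t))) ∧
      ∀ ℓ : ℝ, |ℓ - Real.log (Real.log X)| ≤ 10 →
      ∀ M : Finset (ℤ × ℤ), (∀ t, t ∈ M ↔ t ∈ Bx N1 N2 X X ∧ P t ∧ ∀ k, Lg Λ ℓ t k ≤ x k) →
      |(M.card : ℝ) / (X : ℝ) ^ 2 - (muT 3 n).real {w | ∀ k, w k ≤ x k}| ≤ ε := by
  classical
  obtain ⟨δ, hδ0, hδ1, hδ2⟩ := shift_le (muT 3 n) x (ε / 4) (muT_null 3 n) (by positivity)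
  obtain ⟨R, X1, hR⟩ := str_lf d hd (ε / 4) L (by positivity)
  obtain ⟨X2, h2⟩ := tw_box_lf d hd hdd (fun i => x i - δ) (ε / 4) (by positivity)
  obtain ⟨X3, h3⟩ := tw_box_lf d hd hdd (fun i => x i + δ) (ε / 4) (by positivity)
  obtain ⟨C', hC'⟩ := hΛ.1 R
  obtain ⟨C, hC⟩ : ∃ C : ℝ, C = |C'| := ⟨_, rfl⟩
  have hC0 : 0 ≤ C := by rw [hC]; positivity
  obtain ⟨Z, hZ⟩ : ∃ Z : ℝ, Z = ∑ k, |x k| := ⟨_, rfl⟩
  have hZ0 : 0 ≤ Z := by rw [hZ]; exact sum_nonneg fun i _ => abs_nonneg _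
  obtain ⟨X4, h4⟩ := big_ll (((C + 15 + 10 * Z) / δ + 4) ^ 2)
  refine ⟨R, X1 + X2 + X3 + X4 + 1, fun N1 N2 X hX hN1 hN2 => ?_⟩
  obtain ⟨T, hT1, hT2⟩ := hR N1 N2 X (by omega) hN1 hN2
  have hX2 : (0 : ℝ) < (X : ℝ) ^ 2 := by
    have : 0 < X := by omega
    positivity
  refine ⟨T, hT1.trans (by nlinarith), hT2, fun ℓ hℓ M hM => ?_⟩
  have g2 := h2 X (by omega) N1 N2 X X le_rfl le_rfl
  have g3 := h3 X (by omega) N1 N2 X X le_rfl le_rfl
  have g4 := h4 X (by omega)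
  have hXX : (X : ℝ) * X = (X : ℝ) ^ 2 := by ring
  rw [hXX] at g2 g3
  have hs1 : (C + 15 + 10 * Z) / δ + 4 ≤ √(Real.log (Real.log X)) := Real.le_sqrt_of_sq_le g4
  have key : ∀ t ∈ Bx N1 N2 X X, t ∉ T → P t ∧
      ∀ k, (Lg Λ ℓ t k ≤ x k → Vt d X (lf t) k ≤ x k + δ) ∧
        (Vt d X (lf t) k ≤ x k - δ → Lg Λ ℓ t k ≤ x k) := by
    intro t ht hn
    have hok := hT2 t ht hn
    refine ⟨hΛ.2 R t (fun k => ⟨_, hok k⟩), fun k => ?_⟩
    have hCb : |Λ t k - St d k X (lf t)| ≤ C :=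
      (hC' t k _ (hok k)).trans (by rw [hC]; exact le_abs_self _)
    have hxk : |x k| ≤ Z := by
      rw [hZ]
      exact single_le_sum (f := fun i => |x i|) (fun _ _ => abs_nonneg _) (mem_univ k)
    have hs2 : (C + 15 + 10 * |x k|) / δ + 4 ≤ √(Real.log (Real.log X)) := by
      refine le_trans ?_ hs1
      have : (C + 15 + 10 * |x k|) / δ ≤ (C + 15 + 10 * Z) / δ :=
        div_le_div_of_nonneg_right (by linarith) hδ0.le
      linarith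
    exact norm_alg hℓ hC0 hs2 hδ0 hCb
  obtain ⟨A, hA⟩ : ∃ A, A = (Bx N1 N2 X X).filter (fun t => ∀ i, Vt d X (lf t) i ≤ x i - δ) :=
    ⟨_, rfl⟩
  obtain ⟨B, hB⟩ : ∃ B, B = (Bx N1 N2 X X).filter (fun t => ∀ i, Vt d X (lf t) i ≤ x i + δ) :=
    ⟨_, rfl⟩
  obtain ⟨k1, k2⟩ := sandwich3 (Bx N1 N2 X X) T M A B (fun t => Lg Λ ℓ t)
    (fun t => Vt d X (lf t)) P δ x key hM
    (fun t => by rw [hA, mem_filter]) (fun t => by rw [hB, mem_filter])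
  have g2' := (abs_le.1 g2).1
  have g3' := (abs_le.1 g3).2
  have e1 : ((((Bx N1 N2 X X).filter (fun t => ∀ i, Vt d X (lf t) i ≤ x i - δ)).card : ℕ) : ℝ) =
      A.card := by rw [hA]
  have e2 : ((((Bx N1 N2 X X).filter (fun t => ∀ i, Vt d X (lf t) i ≤ x i + δ)).card : ℕ) : ℝ) =
      B.card := by rw [hB]
  have g2'' : -(ε / 4) ≤ (A.card : ℝ) / (X : ℝ) ^ 2 - (muT 3 n).real {w | ∀ k, w k ≤ x k - δ} := by
    rw [← e1]
    refine g2'.trans (le_of_eq ?_)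
    congr!
  have g3'' : (B.card : ℝ) / (X : ℝ) ^ 2 - (muT 3 n).real {w | ∀ k, w k ≤ x k + δ} ≤ ε / 4 := by
    rw [← e2]
    refine le_trans (le_of_eq ?_) g3'
    congr!
  have r1 : (A.card : ℝ) / (X : ℝ) ^ 2 ≤ (M.card : ℝ) / (X : ℝ) ^ 2 + ε / 4 := by
    rw [div_add' _ _ _ hX2.ne']
    apply div_le_div_of_nonneg_right _ hX2.le
    linarith
  have r2 : (M.card : ℝ) / (X : ℝ) ^ 2 ≤ (B.card : ℝ) / (X : ℝ) ^ 2 + ε / 4 := by
    rw [div_add' _ _ _ hX2.ne']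
    apply div_le_div_of_nonneg_right _ hX2.le
    linarith
  rw [abs_le]
  constructor <;> linarith

end Pool.Agent.R421.EK
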