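import Mathlib

/-!
# Project EK: pairs near the boundary of a region of bounded height
-/

set_option autoImplicit false
set_option linter.all false
set_option maxHeartbeats 400000

namespace Pool.Agent.R421.EK

open Finset

/-- squares in an interval -/
lemma sq_count (S : Finset ℤ) (s l : ℤ) (c : ℕ) (hl : l ≤ (c : ℤ) ^ 2)
    (hS : ∀ N ∈ S, s ≤ N ^ 2 ∧ N ^ 2 ≤ s + l) : S.card ≤ 2 * (c + 1) := by
  classical
  obtain ⟨P, hP⟩ : ∃ P, P = S.image Int.natAbs := ⟨_, rfl⟩
  have h1 : P.card ≤ c + 1 := by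
    rcases P.eq_empty_or_nonempty with h | h
    · rw [h, card_empty]
      omega
    · obtain ⟨N0, hN0, hmin⟩ := P.exists_min_image (fun x => x) h
      have hsub : P ⊆ Icc N0 (N0 + c) := by
        intro M hM
        rw [mem_Icc]
        refine ⟨hmin M hM, ?_⟩
        rw [hP, mem_image] at hM hN0
        obtain ⟨a, ha, ha'⟩ := hM
        obtain ⟨b, hb, hb'⟩ := hN0
        have e1 : (M : ℤ) ^ 2 = a ^ 2 := by rw [← ha', Int.natCast_natAbs, sq_abs]
        have e2 : (N0 : ℤ) ^ 2 = b ^ 2 := by rw [← hb', Int.natCast_natAbs, sq_abs]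
        have h2 := (hS a ha).2
        have h3 := (hS b hb).1
        by_contra hcon
        rw [not_le] at hcon
        have h4 : (N0 : ℤ) + c + 1 ≤ M := by exact_mod_cast hcon
        have h5 : (0 : ℤ) ≤ N0 := Int.natCast_nonneg _
        have h6 : (0 : ℤ) ≤ c := Int.natCast_nonneg _
        nlinarith
      refine (card_le_card hsub).trans ?_
      rw [Nat.card_Icc]
      omega
  have h2 : S ⊆ P.image (fun n : ℕ => (n : ℤ)) ∪ P.image (fun n : ℕ => -(n : ℤ)) := by
    intro N hN
    rw [mem_union, mem_image, mem_image]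
    have hN' : N.natAbs ∈ P := by
      rw [hP]
      exact mem_image_of_mem _ hN
    rcases Int.natAbs_eq N with h | h
    · exact Or.inl ⟨_, hN', h.symm⟩
    · exact Or.inr ⟨_, hN', h.symm⟩
  have h3 := card_le_card h2
  have h4 := card_union_le (P.image (fun n : ℕ => (n : ℤ))) (P.image (fun n : ℕ => -(n : ℤ)))
  have h5 : (P.image (fun n : ℕ => (n : ℤ))).card ≤ P.card := card_image_le
  have h6 : (P.image (fun n : ℕ => -(n : ℤ))).card ≤ P.card := card_image_le
  omega

/-- squares near two points -/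
lemma sq_count2 (S : Finset ℤ) (u v w : ℤ) (c : ℕ) (hl : 2 * w ≤ (c : ℤ) ^ 2)
    (hS : ∀ N ∈ S, (u - w ≤ N ^ 2 ∧ N ^ 2 ≤ u + w) ∨ (v - w ≤ N ^ 2 ∧ N ^ 2 ≤ v + w)) :
    S.card ≤ 4 * (c + 1) := by
  classical
  have h1 := sq_count (S.filter (fun N => u - w ≤ N ^ 2 ∧ N ^ 2 ≤ u + w)) (u - w) (2 * w) c hl
    (fun N hN => by
      have := (mem_filter.1 hN).2
      exact ⟨this.1, by linarith [this.2]⟩)
  have h2 := sq_count (S.filter (fun N => v - w ≤ N ^ 2 ∧ N ^ 2 ≤ v + w)) (v - w) (2 * w) c hl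
    (fun N hN => by
      have := (mem_filter.1 hN).2
      exact ⟨this.1, by linarith [this.2]⟩)
  have h3 : S ⊆ S.filter (fun N => u - w ≤ N ^ 2 ∧ N ^ 2 ≤ u + w) ∪
      S.filter (fun N => v - w ≤ N ^ 2 ∧ N ^ 2 ≤ v + w) := by
    intro N hN
    rw [mem_union, mem_filter, mem_filter]
    rcases hS N hN with h | h
    · exact Or.inl ⟨hN, h⟩
    · exact Or.inr ⟨hN, h⟩
  have h4 := (card_le_card h3).trans (card_union_le _ _)
  omega

/-- the first coefficient -/
def cA (t : ℤ × ℤ) : ℤ := t.2 ^ 2 - 3 * t.1 ^ 2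

/-- the second coefficient -/
def cB (t : ℤ × ℤ) : ℤ := 2 * t.1 ^ 3 - t.2 ^ 2 * t.1

/-- the pairs of the box with the first coefficient near `± α` or the second one near `± β` -/
def Nr (T X : ℕ) (α β : ℤ) (t : ℤ × ℤ) : Prop :=
  |(|cA t| - α)| ≤ 28 * T * X ∨ |(|cB t| - β)| ≤ 109 * T ^ 2 * X

lemma row_alg {a q β g b w : ℤ} (ha : 0 < a) (h2 : -g ≤ a * q - β) (h3 : a * q - β ≤ g)
    (m1 : a * b ≤ β) (m2 : β < a * (b + 1)) (m4 : g < a * w) : q < b + 1 + w ∧ b < q + w := by
  constructor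
  · have e : a * (b + 1 + w) = a * (b + 1) + a * w := by ring
    have : a * q < a * (b + 1 + w) := by rw [e]; linarith
    exact lt_of_mul_lt_mul_left this ha.le
  · have e : a * (q + w) = a * q + a * w := by ring
    have : a * b < a * (q + w) := by rw [e]; linarith
    exact lt_of_mul_lt_mul_left this ha.le

/-- **few pairs near the boundary** -/
theorem shell (η : ℝ) (hη : 0 < η) : ∃ X0 : ℕ, ∀ X T : ℕ, X0 ≤ X → X ^ 2 ≤ T → ∀ (α β : ℤ)
    (S : Finset (ℤ × ℤ)), (∀ t ∈ S, |t.1| ≤ 3 * T ∧ |t.2| ≤ 5 * T ∧ Nr T X α β t) →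
    (S.card : ℝ) ≤ η * (T : ℝ) ^ 2 := by
  classical
  obtain ⟨δ, hδ0, hδ1, hδ⟩ : ∃ δ : ℝ, 0 < δ ∧ δ ≤ 1 ∧ 200 * δ ≤ η := by
    refine ⟨min 1 (η / 200), by positivity, min_le_left _ _, ?_⟩
    have := min_le_right 1 (η / 200)
    linarith
  obtain ⟨X0, hX0⟩ := exists_nat_ge (1000 / δ ^ 3 + 1000)
  refine ⟨X0, fun X T hX hXT α β S hS => ?_⟩
  have hXr : 1000 / δ ^ 3 + 1000 ≤ (X : ℝ) := hX0.trans (by exact_mod_cast hX)
  have hXT' : (X : ℝ) ^ 2 ≤ T := by exact_mod_cast hXT
  have hd3 : 0 < δ ^ 3 := by positivity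
  have h1000 : 1000 ≤ X * δ ^ 3 := by
    have h1 : 1000 / δ ^ 3 ≤ X := by
      have : (0 : ℝ) ≤ 1000 := by norm_num
      linarith
    rwa [div_le_iff₀ hd3] at h1
  have hX1 : (1000 : ℝ) ≤ X := by
    have : 0 ≤ 1000 / δ ^ 3 := by positivity
    linarith
  have hT1 : (1000 : ℝ) ≤ T := by nlinarith
  have hTX : (X : ℝ) * X ≤ T := by nlinarith
  -- the number `c`
  obtain ⟨c, hc⟩ : ∃ c : ℕ, c = ⌈δ * T⌉₊ := ⟨_, rfl⟩
  have hc1 : δ * T ≤ c := by rw [hc]; exact Nat.le_ceil _
  have hc2 : (c : ℝ) ≤ δ * T + 1 := by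
    rw [hc]
    exact (Nat.ceil_lt_add_one (by positivity)).le
  have hδT : 1 ≤ δ * T := by
    have h1 : δ ^ 3 ≤ δ := by nlinarith [sq_nonneg δ, mul_pos hδ0 hδ0]
    have h2 : X * δ ^ 3 ≤ T * δ := by
      have : (X : ℝ) ≤ T := by nlinarith
      nlinarith
    nlinarith
  have hc3 : ((c + 1 : ℕ) : ℝ) ≤ 3 * (δ * T) := by
    push_cast
    linarith
  -- the rows
  have hrow : ∀ e : ℤ, (c : ℤ) ≤ |e| → ((S.filter (fun t => t.1 = e)).card : ℝ) ≤
      8 * (3 * (δ * T)) := by
    intro e he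
    obtain ⟨R, hR⟩ : ∃ R : Finset ℤ, R = (S.filter (fun t => t.1 = e)).image Prod.snd := ⟨_, rfl⟩
    have hRc : (S.filter (fun t => t.1 = e)).card = R.card := by
      rw [hR, card_image_of_injOn]
      intro t ht t' ht' h
      rw [mem_coe, mem_filter] at ht ht'
      exact Prod.ext (ht.2.trans ht'.2.symm) h
    have hRm : ∀ N ∈ R, |e| ≤ 3 * T ∧ |N| ≤ 5 * T ∧ Nr T X α β (e, N) := by
      intro N hN
      rw [hR, mem_image] at hN
      obtain ⟨t, ht, rfl⟩ := hN
      rw [mem_filter] at ht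
      have h1 := hS t ht.1
      rw [← ht.2]
      exact h1
    have hc0 : (0 : ℤ) < c := by
      have : (0 : ℝ) < c := by linarith
      exact_mod_cast this
    have he0 : 0 < |e| := by linarith
    -- first kind
    have k1 : (R.filter (fun N => |(|cA (e, N)| - α)| ≤ 28 * T * X)).card ≤ 4 * (c + 1) := by
      apply sq_count2 _ (3 * e ^ 2 + α) (3 * e ^ 2 - α) (28 * T * X) c
      · have h1 : ((2 * (28 * T * X) : ℤ) : ℝ) ≤ (((c : ℤ) ^ 2 : ℤ) : ℝ) := by
          push_cast
          have h2 : (δ * T) ^ 2 ≤ (c : ℝ) ^ 2 := by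
            apply pow_le_pow_left₀ (by positivity) hc1
          have h3 : δ ^ 3 ≤ δ ^ 2 := by
            have : δ ^ 2 * δ ≤ δ ^ 2 * 1 := mul_le_mul_of_nonneg_left hδ1 (by positivity)
            nlinarith
          have h4 : 1000 ≤ X * δ ^ 2 := h1000.trans (mul_le_mul_of_nonneg_left h3 (by linarith))
          have h5 : 1000 * X ≤ (T : ℝ) * δ ^ 2 := by
            have : (X : ℝ) * (X * δ ^ 2) ≤ T * δ ^ 2 := by
              rw [← mul_assoc]
              exact mul_le_mul_of_nonneg_right hTX (by positivity)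
            nlinarith
          have h6 : 1000 * X * T ≤ (T : ℝ) * δ ^ 2 * T :=
            mul_le_mul_of_nonneg_right h5 (by linarith)
          have h7 : 0 ≤ (X : ℝ) * T := by positivity
          nlinarith
        exact_mod_cast h1
      · intro N hN
        have h1 := (mem_filter.1 hN).2
        unfold cA at h1
        simp only at h1
        rw [abs_le] at h1
        rcases abs_cases (N ^ 2 - 3 * e ^ 2) with ⟨h2, -⟩ | ⟨h2, -⟩
        · rw [h2] at h1
          exact Or.inl ⟨by linarith [h1.1], by linarith [h1.2]⟩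
        · rw [h2] at h1
          exact Or.inr ⟨by linarith [h1.2], by linarith [h1.1]⟩
    -- second kind
    have k2 : (R.filter (fun N => |(|cB (e, N)| - β)| ≤ 109 * T ^ 2 * X)).card ≤ 4 * (c + 1) := by
      obtain ⟨w, hw⟩ : ∃ w : ℤ, w = 109 * T ^ 2 * X / |e| + 1 := ⟨_, rfl⟩
      obtain ⟨b, hb⟩ : ∃ b : ℤ, b = β / |e| := ⟨_, rfl⟩
      apply sq_count2 _ (2 * e ^ 2 + b) (2 * e ^ 2 - b) (w + 1) c
      · have h1 : ((109 * T ^ 2 * X / |e| : ℤ) : ℝ) ≤ 109 * T ^ 2 * X / (δ * T) := by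
          have h2 : (((109 * T ^ 2 * X / |e| : ℤ)) : ℝ) ≤ ((109 * T ^ 2 * X : ℤ) : ℝ) / ((|e| : ℤ) : ℝ) := by
            rw [le_div_iff₀ (by exact_mod_cast he0)]
            exact_mod_cast Int.ediv_mul_le _ he0.ne'
          refine h2.trans ?_
          push_cast
          apply div_le_div_of_nonneg_left (by positivity) (by positivity)
          have : (c : ℝ) ≤ ((|e| : ℤ) : ℝ) := by exact_mod_cast he
          push_cast at this
          linarith
        have h3 : (109 : ℝ) * T ^ 2 * X / (δ * T) = 109 * T * X / δ := by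
          field_simp
        rw [h3] at h1
        have h4 : ((2 * (w + 1) : ℤ) : ℝ) ≤ (((c : ℤ) ^ 2 : ℤ) : ℝ) := by
          rw [hw]
          push_cast
          push_cast at h1
          have h5 : (δ * T) ^ 2 ≤ (c : ℝ) ^ 2 := by
            apply pow_le_pow_left₀ (by positivity) hc1
          have h6 : 2 * (109 * T * X / δ + 2) ≤ (δ * T) ^ 2 := by
            have h7 : 1000 * X ≤ (T : ℝ) * δ ^ 3 := by
              have : (X : ℝ) * (X * δ ^ 3) ≤ T * δ ^ 3 := by
                rw [← mul_assoc]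
                exact mul_le_mul_of_nonneg_right hTX (by positivity)
              nlinarith
            have h8 : 1000 * X * T / δ ≤ (δ * T) ^ 2 := by
              rw [div_le_iff₀ hδ0]
              have : 1000 * X * T ≤ (T : ℝ) * δ ^ 3 * T := mul_le_mul_of_nonneg_right h7 (by linarith)
              nlinarith
            have h9 : 1 ≤ X * T / δ := by
              rw [le_div_iff₀ hδ0]
              nlinarith
            have e1 : 1000 * X * T / δ = 1000 * (X * T / δ) := by ring
            have e2 : 109 * T * X / δ = 109 * (X * T / δ) := by ring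
            rw [e1] at h8
            rw [e2]
            linarith
          linarith
        exact_mod_cast h4
      · intro N hN
        have h1 := (mem_filter.1 hN).2
        unfold cB at h1
        simp only at h1
        have e1 : |2 * e ^ 3 - N ^ 2 * e| = |e| * |2 * e ^ 2 - N ^ 2| := by
          rw [← abs_mul]
          congr 1
          ring
        rw [e1, abs_le] at h1
        obtain ⟨h2, h3⟩ := h1
        obtain ⟨q, hq⟩ : ∃ q, q = |2 * e ^ 2 - N ^ 2| := ⟨_, rfl⟩
        obtain ⟨g, hg⟩ : ∃ g : ℤ, g = 109 * T ^ 2 * X := ⟨_, rfl⟩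
        rw [← hq, ← hg] at h2 h3
        rw [← hg] at hw
        have m1 : |e| * b ≤ β := by
          rw [hb, mul_comm]
          exact Int.ediv_mul_le _ he0.ne'
        have m2 : β < |e| * (b + 1) := by
          rw [hb, mul_comm]
          exact Int.lt_ediv_add_one_mul_self _ he0
        have m4 : g < |e| * w := by
          rw [hw, mul_comm]
          exact Int.lt_ediv_add_one_mul_self _ he0
        obtain ⟨m5, m6⟩ := row_alg he0 h2 h3 m1 m2 m4
        rcases abs_cases (2 * e ^ 2 - N ^ 2) with ⟨h4, -⟩ | ⟨h4, -⟩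
        · rw [← hq] at h4
          exact Or.inr ⟨by linarith, by linarith⟩
        · rw [← hq] at h4
          exact Or.inl ⟨by linarith, by linarith⟩
    have hsub : R ⊆ R.filter (fun N => |(|cA (e, N)| - α)| ≤ 28 * T * X) ∪
        R.filter (fun N => |(|cB (e, N)| - β)| ≤ 109 * T ^ 2 * X) := by
      intro N hN
      rw [mem_union, mem_filter, mem_filter]
      rcases (hRm N hN).2.2 with h | h
      · exact Or.inl ⟨hN, h⟩
      · exact Or.inr ⟨hN, h⟩
    have h7 := (card_le_card hsub).trans (card_union_le _ _)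
    rw [hRc]
    have h8 : R.card ≤ 8 * (c + 1) := by omega
    calc (R.card : ℝ) ≤ ((8 * (c + 1) : ℕ) : ℝ) := by exact_mod_cast h8
      _ = 8 * ((c + 1 : ℕ) : ℝ) := by push_cast; ring
      _ ≤ _ := by linarith
  -- the rows near zero
  have hsmall : ((S.filter (fun t => |t.1| < (c : ℤ))).card : ℝ) ≤ (2 * c + 1) * (10 * T + 1) := by
    have hsub : S.filter (fun t => |t.1| < (c : ℤ)) ⊆
        Icc (-(c : ℤ)) c ×ˢ Icc (-(5 * T : ℤ)) (5 * T) := by
      intro t ht
      rw [mem_filter] at ht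
      have h1 := hS t ht.1
      rw [mem_product, mem_Icc, mem_Icc]
      have h2 := abs_lt.1 ht.2
      have h3 := abs_le.1 h1.2.1
      exact ⟨⟨h2.1.le, h2.2.le⟩, h3⟩
    have h1 := card_le_card hsub
    rw [card_product, Int.card_Icc, Int.card_Icc] at h1
    have e1 : ((c : ℤ) + 1 - -(c : ℤ)).toNat = 2 * c + 1 := by omega
    have e2 : ((5 * T : ℤ) + 1 - -(5 * T : ℤ)).toNat = 10 * T + 1 := by omega
    rw [e1, e2] at h1
    exact_mod_cast h1
  have hlarge : ((S.filter (fun t => ¬ |t.1| < (c : ℤ))).card : ℝ) ≤ (6 * T + 1) * (8 * (3 * (δ * T))) := by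
    have hmaps : ∀ t ∈ S.filter (fun t => ¬ |t.1| < (c : ℤ)), t.1 ∈ Icc (-(3 * T : ℤ)) (3 * T) := by
      intro t ht
      rw [mem_filter] at ht
      rw [mem_Icc]
      exact abs_le.1 (hS t ht.1).1
    rw [card_eq_sum_card_fiberwise hmaps]
    push_cast
    have hb : ∀ e ∈ Icc (-(3 * T : ℤ)) (3 * T),
        (((S.filter (fun t => ¬ |t.1| < (c : ℤ))).filter (fun t => t.1 = e)).card : ℝ) ≤
        8 * (3 * (δ * T)) := by
      intro e _
      by_cases h : (c : ℤ) ≤ |e|
      · refine le_trans ?_ (hrow e h)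
        have : (S.filter (fun t => ¬ |t.1| < (c : ℤ))).filter (fun t => t.1 = e) ⊆
            S.filter (fun t => t.1 = e) := by
          intro t ht
          rw [mem_filter, mem_filter] at ht
          rw [mem_filter]
          exact ⟨ht.1.1, ht.2⟩
        exact_mod_cast card_le_card this
      · have : (S.filter (fun t => ¬ |t.1| < (c : ℤ))).filter (fun t => t.1 = e) = ∅ := by
          rw [filter_eq_empty_iff]
          intro t ht he
          rw [mem_filter] at ht
          rw [he] at ht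
          exact ht.2 (not_le.1 h)
        rw [this, card_empty]
        simp only [Nat.cast_zero]
        positivity
    refine (sum_le_sum hb).trans ?_
    rw [sum_const, Int.card_Icc, nsmul_eq_mul]
    have e2 : ((3 * T : ℤ) + 1 - -(3 * T : ℤ)).toNat = 6 * T + 1 := by omega
    rw [e2]
    push_cast
    exact le_rfl
  have htot : (S.card : ℝ) = ((S.filter (fun t => |t.1| < (c : ℤ))).card : ℝ) +
      ((S.filter (fun t => ¬ |t.1| < (c : ℤ))).card : ℝ) := by
    rw [← card_filter_add_card_filter_not (s := S) (fun t => |t.1| < (c : ℤ))]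
    push_cast
    rfl
  have hf1 : (2 * (c : ℝ) + 1) * (10 * T + 1) ≤ 5 * (δ * T) * (11 * T) := by
    apply mul_le_mul (by linarith) (by linarith) (by positivity) (by positivity)
  have hf2 : (6 * (T : ℝ) + 1) * (8 * (3 * (δ * T))) ≤ 7 * T * (24 * (δ * T)) := by
    apply mul_le_mul (by linarith) (by linarith) (by positivity) (by positivity)
  rw [htot]
  have hf3 : δ * (T : ℝ) ^ 2 * 200 ≤ η * (T : ℝ) ^ 2 := by
    have h1 : 0 ≤ (T : ℝ) ^ 2 := by positivity
    nlinarith
  have hf4 : 0 ≤ δ * (T : ℝ) ^ 2 := by positivity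
  nlinarith

end Pool.Agent.R421.EK
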