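import Mathlib
import Pool.Agent.R421.EK.LfMain
import Pool.Agent.R421.EK.Shell

/-!
# Project EK: the joint law in the ordering by height
-/

set_option autoImplicit false
set_option linter.all false
set_option maxHeartbeats 1000000

namespace Pool.Agent.R421.EK

open Finset ProbabilityTheory MeasureTheory

open Pool.Agent.TH841.SH.D (Sha)

open Pool.Agent.TH841.LS (WI)

open Pool.Agent.R431.NO (OkS typ1)

open Pool.Agent.Y676.IS (tri)

/-- summing over cells -/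
lemma cells_sum {α ι : Type} [DecidableEq α] [DecidableEq ι] (K M : Finset α) (c : α → ι)
    (bad : ι → Prop) [DecidablePred bad] (hMK : M ⊆ K) (μ ε : ℝ) (h0 : 0 ≤ μ) (h1 : μ ≤ 1)
    (hq : ∀ q, ¬ bad q → (∃ t ∈ K, c t = q) →
      |((M.filter (fun t => c t = q)).card : ℝ) - μ * (K.filter (fun t => c t = q)).card| ≤
        ε * (K.filter (fun t => c t = q)).card) (hε : 0 ≤ ε) :
    |(M.card : ℝ) - μ * K.card| ≤ ε * K.card + (K.filter (fun t => bad (c t))).card := by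
  obtain ⟨I, hI⟩ : ∃ I, I = (K.filter (fun t => ¬ bad (c t))).image c := ⟨_, rfl⟩
  have hKg : ((K.filter (fun t => ¬ bad (c t))).card : ℝ) =
      ∑ q ∈ I, ((K.filter (fun t => c t = q)).card : ℝ) := by
    rw [card_eq_sum_card_fiberwise (f := c) (t := I) (fun t ht => by
      rw [hI]
      exact mem_image_of_mem _ ht)]
    push_cast
    refine sum_congr rfl fun q hq' => ?_
    congr 2
    ext t
    rw [mem_filter, mem_filter, mem_filter]
    constructor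
    · rintro ⟨⟨a1, a2⟩, a3⟩
      exact ⟨a1, a3⟩
    · rintro ⟨a1, a3⟩
      rw [hI, mem_image] at hq'
      obtain ⟨t', ht', e⟩ := hq'
      rw [mem_filter] at ht'
      refine ⟨⟨a1, ?_⟩, a3⟩
      rw [a3, ← e]
      exact ht'.2
  have hMg : ((M.filter (fun t => ¬ bad (c t))).card : ℝ) =
      ∑ q ∈ I, ((M.filter (fun t => c t = q)).card : ℝ) := by
    rw [card_eq_sum_card_fiberwise (f := c) (t := I) (fun t ht => by
      rw [mem_coe, mem_filter] at ht
      rw [hI]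
      exact mem_image_of_mem _ (mem_filter.2 ⟨hMK ht.1, ht.2⟩))]
    push_cast
    refine sum_congr rfl fun q hq' => ?_
    congr 2
    ext t
    rw [mem_filter, mem_filter, mem_filter]
    constructor
    · rintro ⟨⟨a1, a2⟩, a3⟩
      exact ⟨a1, a3⟩
    · rintro ⟨a1, a3⟩
      rw [hI, mem_image] at hq'
      obtain ⟨t', ht', e⟩ := hq'
      rw [mem_filter] at ht'
      refine ⟨⟨a1, ?_⟩, a3⟩
      rw [a3, ← e]
      exact ht'.2
  have hgood : |((M.filter (fun t => ¬ bad (c t))).card : ℝ) -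
      μ * (K.filter (fun t => ¬ bad (c t))).card| ≤
      ε * (K.filter (fun t => ¬ bad (c t))).card := by
    rw [hMg, hKg, mul_sum, mul_sum, ← sum_sub_distrib]
    refine (abs_sum_le_sum_abs _ _).trans (sum_le_sum fun q hq' => ?_)
    rw [hI, mem_image] at hq'
    obtain ⟨t', ht', e⟩ := hq'
    rw [mem_filter] at ht'
    exact hq q (by rw [← e]; exact ht'.2) ⟨t', ht'.1, e⟩
  have eK : (K.card : ℝ) = (K.filter (fun t => bad (c t))).card +
      (K.filter (fun t => ¬ bad (c t))).card := by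
    rw [← card_filter_add_card_filter_not (s := K) (fun t => bad (c t))]
    push_cast
    rfl
  have eM : (M.card : ℝ) = (M.filter (fun t => bad (c t))).card +
      (M.filter (fun t => ¬ bad (c t))).card := by
    rw [← card_filter_add_card_filter_not (s := M) (fun t => bad (c t))]
    push_cast
    rfl
  have hb1 : ((M.filter (fun t => bad (c t))).card : ℝ) ≤ (K.filter (fun t => bad (c t))).card := by
    exact_mod_cast card_le_card (filter_subset_filter _ hMK)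
  have hb0 : (0 : ℝ) ≤ (M.filter (fun t => bad (c t))).card := Nat.cast_nonneg _
  have hk0 : (0 : ℝ) ≤ (K.filter (fun t => bad (c t))).card := Nat.cast_nonneg _
  have hkg0 : (0 : ℝ) ≤ (K.filter (fun t => ¬ bad (c t))).card := Nat.cast_nonneg _
  rw [abs_le] at hgood ⊢
  have m1 : μ * ((K.filter (fun t => bad (c t))).card : ℝ) ≤
      (K.filter (fun t => bad (c t))).card := mul_le_of_le_one_left hk0 h1
  have m2 : 0 ≤ μ * ((K.filter (fun t => bad (c t))).card : ℝ) := mul_nonneg h0 hk0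
  have m3 : 0 ≤ ε * ((K.filter (fun t => bad (c t))).card : ℝ) := mul_nonneg hε hk0
  rw [eM, eK, mul_add, mul_add]
  constructor
  · linarith [hgood.1]
  · linarith [hgood.2]

/-! ### Heights -/

/-- the height is at most `Y` -/
def Hb (c : ℕ × ℕ) (Y : ℕ) (t : ℤ × ℤ) : Prop :=
  (c.1 : ℤ) * |cA t| ^ 3 ≤ Y ∧ (c.2 : ℤ) * cB t ^ 2 ≤ Y

/-- the constants of the height -/
def Cc (c : ℕ × ℕ) : Prop := 1 ≤ c.1 ∧ c.1 ≤ 4 ∧ 1 ≤ c.2 ∧ c.2 ≤ 27

/-- the number of the cell -/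
def cix (X : ℕ) (t : ℤ × ℤ) : ℤ × ℤ := ((t.1 - 1) / X, (t.2 - 1) / X)

lemma cell_iff {X : ℕ} (hX : 0 < X) (a i : ℤ) : (X * i < a ∧ a ≤ X * i + X) ↔ (a - 1) / X = i := by
  have hX' : (0 : ℤ) < X := by exact_mod_cast hX
  constructor
  · rintro ⟨h1, h2⟩
    apply le_antisymm
    · apply Int.lt_add_one_iff.1
      apply Int.ediv_lt_of_lt_mul hX'
      linarith
    · apply Int.le_ediv_of_mul_le hX'
      have : i * (X : ℤ) = X * i := mul_comm _ _
      linarith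
  · rintro rfl
    have h6 := Int.ediv_mul_le (a - 1) hX'.ne'
    have h7 := Int.lt_ediv_add_one_mul_self (a - 1) hX'
    have e1 : (X : ℤ) * ((a - 1) / X) = (a - 1) / X * X := mul_comm _ _
    have e2 : ((a - 1) / X + 1) * (X : ℤ) = (a - 1) / X * X + X := by ring
    constructor <;> linarith

lemma cell_mem {X : ℕ} (hX : 0 < X) (t q : ℤ × ℤ) :
    t ∈ Bx (X * q.1) (X * q.2) X X ↔ cix X t = q := by
  unfold Bx cix
  rw [mem_product, mem_Ioc, mem_Ioc, cell_iff hX, cell_iff hX]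
  constructor
  · rintro ⟨h1, h2⟩
    exact Prod.ext h1 h2
  · rintro rfl
    exact ⟨rfl, rfl⟩

/-- pairs of bounded height are bounded -/
lemma Hb_bd {c : ℕ × ℕ} (hc : Cc c) {Y T : ℕ} (hT : 1 ≤ T) (hY : Y ≤ T ^ 6) {t : ℤ × ℤ}
    (h : Hb c Y t) : |t.1| ≤ 2 * T ∧ |t.2| ≤ 4 * T := by
  obtain ⟨h1', h2'⟩ := h
  obtain ⟨c1, -, c2, -⟩ := hc
  have c1' : (1 : ℤ) ≤ c.1 := by exact_mod_cast c1
  have c2' : (1 : ℤ) ≤ c.2 := by exact_mod_cast c2
  have h1 : |cA t| ^ 3 ≤ Y := by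
    have : 1 * |cA t| ^ 3 ≤ (c.1 : ℤ) * |cA t| ^ 3 :=
      mul_le_mul_of_nonneg_right c1' (by positivity)
    linarith
  have h2 : cB t ^ 2 ≤ Y := by
    have : 1 * cB t ^ 2 ≤ (c.2 : ℤ) * cB t ^ 2 := mul_le_mul_of_nonneg_right c2' (by positivity)
    linarith
  have hT' : (1 : ℤ) ≤ T := by exact_mod_cast hT
  have hY' : (Y : ℤ) ≤ (T : ℤ) ^ 6 := by exact_mod_cast hY
  have hA : |cA t| ≤ (T : ℤ) ^ 2 := by
    by_contra hcon
    rw [not_le] at hcon
    have h3 : ((T : ℤ) ^ 2) ^ 3 < |cA t| ^ 3 := pow_lt_pow_left₀ hcon (by positivity) (by norm_num)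
    have h4 : ((T : ℤ) ^ 2) ^ 3 = (T : ℤ) ^ 6 := by ring
    have h5 : (0 : ℤ) ≤ (T : ℤ) ^ 6 := by positivity
    linarith
  have hB : |cB t| ≤ (T : ℤ) ^ 3 := by
    by_contra hcon
    rw [not_le] at hcon
    have h3 : ((T : ℤ) ^ 3) ^ 2 < |cB t| ^ 2 := pow_lt_pow_left₀ hcon (by positivity) (by norm_num)
    rw [sq_abs] at h3
    have h4 : ((T : ℤ) ^ 3) ^ 2 = (T : ℤ) ^ 6 := by ring
    have h5 : (0 : ℤ) ≤ (T : ℤ) ^ 6 := by positivity
    linarith
  have hroot : t.1 ^ 3 = -(cA t * t.1) - cB t := by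
    unfold cA cB
    ring
  have he : |t.1| ≤ 2 * T := by
    by_contra hcon
    rw [not_le] at hcon
    have h3 : |t.1| ^ 3 ≤ |cA t| * |t.1| + |cB t| := by
      rw [← abs_pow, hroot, ← abs_mul]
      have := abs_add_le (-(cA t * t.1)) (-cB t)
      rw [abs_neg, abs_neg] at this
      exact this
    obtain ⟨a, ha⟩ : ∃ a, a = |t.1| := ⟨_, rfl⟩
    rw [← ha] at h3 hcon
    have ha0 : 0 < a := by linarith
    have h4 : |cA t| * a ≤ (T : ℤ) ^ 2 * a := mul_le_mul_of_nonneg_right hA ha0.le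
    have h5 : 4 * (T : ℤ) ^ 2 ≤ a ^ 2 := by
      have : (2 * (T : ℤ)) ^ 2 ≤ a ^ 2 := pow_le_pow_left₀ (by linarith) hcon.le 2
      linarith
    have h6 : 4 * (T : ℤ) ^ 2 * a ≤ a ^ 2 * a := mul_le_mul_of_nonneg_right h5 ha0.le
    have h7 : (T : ℤ) ^ 2 * (2 * T) < (T : ℤ) ^ 2 * a :=
      mul_lt_mul_of_pos_left hcon (by positivity)
    have e1 : a ^ 3 = a ^ 2 * a := by ring
    have e2 : (T : ℤ) ^ 2 * (2 * T) = 2 * (T : ℤ) ^ 3 := by ring
    have h8 : 0 < (T : ℤ) ^ 3 := by positivity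
    linarith
  refine ⟨he, ?_⟩
  apply abs_le_of_sq_le_sq _ (by linarith)
  have h9 : t.2 ^ 2 = cA t + 3 * t.1 ^ 2 := by unfold cA; ring
  have h10 : t.1 ^ 2 ≤ (2 * (T : ℤ)) ^ 2 := by
    rw [← sq_abs]
    exact pow_le_pow_left₀ (abs_nonneg _) he 2
  have h11 := (abs_le.1 hA).2
  have h12 : 0 ≤ (T : ℤ) ^ 2 := by positivity
  nlinarith

lemma find_A (c Y : ℕ) (hc : 1 ≤ c) : ∃ α : ℤ, ∀ m : ℤ, 0 ≤ m → ((c : ℤ) * m ^ 3 ≤ Y ↔ m ≤ α) := by
  refine ⟨(Nat.findGreatest (fun m => c * m ^ 3 ≤ Y) Y : ℕ), fun m hm => ?_⟩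
  obtain ⟨k, rfl⟩ := Int.eq_ofNat_of_zero_le hm
  have h0 : (fun m => c * m ^ 3 ≤ Y) (Nat.findGreatest (fun m => c * m ^ 3 ≤ Y) Y) :=
    Nat.findGreatest_spec (P := fun m => c * m ^ 3 ≤ Y) (Nat.zero_le Y) (by simp)
  constructor
  · intro h
    have h1 : c * k ^ 3 ≤ Y := by exact_mod_cast h
    have h2 : k ≤ Y := by
      rcases Nat.eq_zero_or_pos k with h3 | h3
      · omega
      · have h4 : k ^ 1 ≤ k ^ 3 := Nat.pow_le_pow_right h3 (by norm_num)
        rw [pow_one] at h4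
        have h5 : 1 * k ^ 3 ≤ c * k ^ 3 := Nat.mul_le_mul_right _ hc
        rw [one_mul] at h5
        exact h4.trans (h5.trans h1)
    exact_mod_cast Nat.le_findGreatest h2 h1
  · intro h
    have h1 : k ≤ Nat.findGreatest (fun m => c * m ^ 3 ≤ Y) Y := by exact_mod_cast h
    have h2 : c * k ^ 3 ≤ Y := (Nat.mul_le_mul_left c (Nat.pow_le_pow_left h1 3)).trans h0
    exact_mod_cast h2

lemma find_B (c Y : ℕ) (hc : 1 ≤ c) : ∃ β : ℤ, ∀ m : ℤ, 0 ≤ m → ((c : ℤ) * m ^ 2 ≤ Y ↔ m ≤ β) := by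
  refine ⟨(Nat.findGreatest (fun m => c * m ^ 2 ≤ Y) Y : ℕ), fun m hm => ?_⟩
  obtain ⟨k, rfl⟩ := Int.eq_ofNat_of_zero_le hm
  have h0 : (fun m => c * m ^ 2 ≤ Y) (Nat.findGreatest (fun m => c * m ^ 2 ≤ Y) Y) :=
    Nat.findGreatest_spec (P := fun m => c * m ^ 2 ≤ Y) (Nat.zero_le Y) (by simp)
  constructor
  · intro h
    have h1 : c * k ^ 2 ≤ Y := by exact_mod_cast h
    have h2 : k ≤ Y := by
      rcases Nat.eq_zero_or_pos k with h3 | h3
      · omega
      · have h4 : k ^ 1 ≤ k ^ 2 := Nat.pow_le_pow_right h3 (by norm_num)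
        rw [pow_one] at h4
        have h5 : 1 * k ^ 2 ≤ c * k ^ 2 := Nat.mul_le_mul_right _ hc
        rw [one_mul] at h5
        exact h4.trans (h5.trans h1)
    exact_mod_cast Nat.le_findGreatest h2 h1
  · intro h
    have h1 : k ≤ Nat.findGreatest (fun m => c * m ^ 2 ≤ Y) Y := by exact_mod_cast h
    have h2 : c * k ^ 2 ≤ Y := (Nat.mul_le_mul_left c (Nat.pow_le_pow_left h1 2)).trans h0
    exact_mod_cast h2

/-- the coefficients of near pairs -/
lemma near_AB {T X : ℕ} (hXT : X ≤ T) {t t' : ℤ × ℤ} (h1 : |t.1| ≤ 2 * T) (h2 : |t.2| ≤ 4 * T)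
    (u1 : |t'.1 - t.1| ≤ X) (u2 : |t'.2 - t.2| ≤ X) :
    |cA t' - cA t| ≤ 28 * T * X ∧ |cB t' - cB t| ≤ 109 * T ^ 2 * X := by
  obtain ⟨e, N⟩ := t
  obtain ⟨e', N'⟩ := t'
  simp only at h1 h2 u1 u2
  obtain ⟨u, hu⟩ : ∃ u, u = e' - e := ⟨_, rfl⟩
  obtain ⟨v, hv⟩ : ∃ v, v = N' - N := ⟨_, rfl⟩
  rw [← hu] at u1
  rw [← hv] at u2
  have he' : e' = e + u := by rw [hu]; ring
  have hN' : N' = N + v := by rw [hv]; ring
  have hXT' : (X : ℤ) ≤ T := by exact_mod_cast hXT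
  have hX0 : (0 : ℤ) ≤ X := Int.natCast_nonneg _
  have hT0 : (0 : ℤ) ≤ T := Int.natCast_nonneg _
  have au := abs_nonneg u
  have av := abs_nonneg v
  have ae := abs_nonneg e
  have aN := abs_nonneg N
  -- the differences of the squares
  have d1 : |v * (2 * N + v)| ≤ 9 * (T : ℤ) * X := by
    rw [abs_mul]
    have h3 : |2 * N + v| ≤ 9 * (T : ℤ) := by
      refine (abs_add_le _ _).trans ?_
      rw [abs_mul]
      norm_num
      linarith
    calc |v| * |2 * N + v| ≤ X * (9 * (T : ℤ)) := mul_le_mul u2 h3 (abs_nonneg _) hX0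
      _ = _ := by ring
  have d2 : |u * (2 * e + u)| ≤ 5 * (T : ℤ) * X := by
    rw [abs_mul]
    have h3 : |2 * e + u| ≤ 5 * (T : ℤ) := by
      refine (abs_add_le _ _).trans ?_
      rw [abs_mul]
      norm_num
      linarith
    calc |u| * |2 * e + u| ≤ X * (5 * (T : ℤ)) := mul_le_mul u1 h3 (abs_nonneg _) hX0
      _ = _ := by ring
  have d3 : |u * (3 * e ^ 2 + 3 * e * u + u ^ 2)| ≤ 19 * (T : ℤ) ^ 2 * X := by
    rw [abs_mul]
    have h3 : |3 * e ^ 2 + 3 * e * u + u ^ 2| ≤ 19 * (T : ℤ) ^ 2 := by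
      have k1 : |3 * e ^ 2| ≤ 12 * (T : ℤ) ^ 2 := by
        rw [abs_of_nonneg (by positivity)]
        have e2 : e ^ 2 ≤ (2 * (T : ℤ)) ^ 2 := by
          rw [← sq_abs]
          exact pow_le_pow_left₀ ae h1 2
        linarith
      have k2 : |3 * e * u| ≤ 6 * (T : ℤ) ^ 2 := by
        rw [abs_mul, abs_mul]
        have : |e| * |u| ≤ 2 * (T : ℤ) * T := mul_le_mul h1 (u1.trans hXT') au (by linarith)
        norm_num
        nlinarith
      have k3 : |u ^ 2| ≤ (T : ℤ) ^ 2 := by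
        rw [abs_pow]
        exact pow_le_pow_left₀ au (u1.trans hXT') 2
      have k4 := abs_add_le (3 * e ^ 2 + 3 * e * u) (u ^ 2)
      have k5 := abs_add_le (3 * e ^ 2) (3 * e * u)
      linarith
    calc |u| * |3 * e ^ 2 + 3 * e * u + u ^ 2| ≤ X * (19 * (T : ℤ) ^ 2) :=
          mul_le_mul u1 h3 (abs_nonneg _) hX0
      _ = _ := by ring
  have d4 : |v * (2 * N + v) * (e + u)| ≤ 27 * (T : ℤ) ^ 2 * X := by
    rw [abs_mul]
    have h3 : |e + u| ≤ 3 * (T : ℤ) := by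
      have := abs_add_le e u
      linarith
    calc |v * (2 * N + v)| * |e + u| ≤ (9 * (T : ℤ) * X) * (3 * T) :=
          mul_le_mul d1 h3 (abs_nonneg _) (by positivity)
      _ = _ := by ring
  have d5 : |N ^ 2 * u| ≤ 16 * (T : ℤ) ^ 2 * X := by
    rw [abs_mul, abs_pow]
    have h3 : |N| ^ 2 ≤ (4 * (T : ℤ)) ^ 2 := pow_le_pow_left₀ aN h2 2
    calc |N| ^ 2 * |u| ≤ (4 * (T : ℤ)) ^ 2 * X := mul_le_mul h3 u1 au (by positivity)
      _ = _ := by ring
  have hTX0 : 0 ≤ (T : ℤ) * X := by positivity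
  have hT2X0 : 0 ≤ (T : ℤ) ^ 2 * X := by positivity
  constructor
  · have e1 : cA (e', N') - cA (e, N) = v * (2 * N + v) - 3 * (u * (2 * e + u)) := by
      unfold cA
      simp only
      rw [he', hN']
      ring
    rw [e1]
    have k1 := abs_le.1 d1
    have k2 := abs_le.1 d2
    rw [abs_le]
    constructor <;> linarith [k1.1, k1.2, k2.1, k2.2]
  · have e1 : cB (e', N') - cB (e, N) = 2 * (u * (3 * e ^ 2 + 3 * e * u + u ^ 2)) -
        (v * (2 * N + v) * (e + u) + N ^ 2 * u) := by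
      unfold cB
      simp only
      rw [he', hN']
      ring
    rw [e1]
    have k1 := abs_le.1 d3
    have k2 := abs_le.1 d4
    have k3 := abs_le.1 d5
    rw [abs_le]
    constructor <;> linarith [k1.1, k1.2, k2.1, k2.2, k3.1, k3.2]

end Pool.Agent.R421.EK
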