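import Mathlib
import Pool.Agent.R421.EK.Cover

/-!
# Project EK: the joint law in the ordering by height, main statement
-/

set_option autoImplicit false
set_option linter.all false
set_option maxHeartbeats 1000000

namespace Pool.Agent.R421.EK

open Finset ProbabilityTheory MeasureTheory

open Pool.Agent.TH841.SH.D (Sha)

open Pool.Agent.TH841.LS (WI)

open Pool.Agent.R431.NO (OkS typ1)

open Pool.Agent.Y676.IS (tri)

/-- the pairs of height at most `Y`, nonsingular curves -/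
def Fht (c : ℕ × ℕ) (Y : ℕ) (t : ℤ × ℤ) : Prop := Hb c Y t ∧ t.2 ≠ 0 ∧ 9 * t.1 ^ 2 ≠ 4 * t.2 ^ 2

/-- the scales -/
lemma scales (W Y : ℕ) (hW : 10 ≤ W) (hY : (W ^ 2) ^ 6 ≤ Y) : ∃ T X : ℕ, W ≤ X ∧ X ^ 2 ≤ T ∧
    T < (X + 1) ^ 2 ∧ Y ≤ T ^ 6 ∧ (T - 1) ^ 6 < Y ∧ 100 ≤ T ∧
    |Real.log (Real.log Y) - Real.log (Real.log X)| ≤ 5 := by
  have hY0 : 0 < Y := lt_of_lt_of_le (by positivity) hY
  have hex : ∃ T, Y ≤ T ^ 6 := ⟨Y, Nat.le_self_pow (by norm_num) Y⟩
  obtain ⟨T, hT⟩ : ∃ T, T = Nat.find hex := ⟨_, rfl⟩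
  have h1 : Y ≤ T ^ 6 := by rw [hT]; exact Nat.find_spec hex
  have hWT : W ^ 2 ≤ T := by
    by_contra hcon
    rw [not_le] at hcon
    have := Nat.pow_lt_pow_left hcon (show 6 ≠ 0 by norm_num)
    omega
  have hW2 : 100 ≤ W ^ 2 := by nlinarith
  have h2 : (T - 1) ^ 6 < Y := by
    have h3 : T - 1 < Nat.find hex := by omega
    have := Nat.find_min hex h3
    omega
  obtain ⟨X, hX⟩ : ∃ X, X = Nat.sqrt T := ⟨_, rfl⟩
  have k1 : X ^ 2 ≤ T := by rw [hX, pow_two]; exact Nat.sqrt_le T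
  have k2 : T < (X + 1) ^ 2 := by rw [hX, pow_two]; exact Nat.lt_succ_sqrt T
  have k3 : W ≤ X := by
    by_contra hcon
    rw [not_le] at hcon
    have : (X + 1) ^ 2 ≤ W ^ 2 := Nat.pow_le_pow_left hcon 2
    omega
  refine ⟨T, X, k3, k1, k2, h1, h2, by omega, ?_⟩
  have hX10 : 10 ≤ X := by omega
  have c1 : X ≤ Y := by
    have e1 : X ≤ T - 1 := by
      have : 10 * X ≤ X ^ 2 := by nlinarith
      omega
    have e2 : T - 1 ≤ (T - 1) ^ 6 := Nat.le_self_pow (by norm_num) _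
    omega
  have c2 : Y ≤ X ^ 18 := by
    have e1 : (X + 1) ^ 2 ≤ X ^ 3 := by
      have : X ^ 3 = X ^ 2 * X := by ring
      rw [this]
      have : (X + 1) ^ 2 ≤ X ^ 2 * 10 := by nlinarith
      exact this.trans (Nat.mul_le_mul_left _ hX10)
    have e2 : T ^ 6 ≤ (X ^ 3) ^ 6 := Nat.pow_le_pow_left (by omega) 6
    rw [← pow_mul] at e2
    exact h1.trans e2
  have hXr : (10 : ℝ) ≤ X := by exact_mod_cast hX10
  have hYr : (X : ℝ) ≤ Y := by exact_mod_cast c1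
  have hYr2 : (Y : ℝ) ≤ (X : ℝ) ^ 18 := by exact_mod_cast c2
  have hlX : 0 < Real.log X := Real.log_pos (by linarith)
  have l1 : Real.log X ≤ Real.log Y := Real.log_le_log (by linarith) hYr
  have l2 : Real.log Y ≤ 18 * Real.log X := by
    have := Real.log_le_log (by linarith) hYr2
    rw [Real.log_pow] at this
    push_cast at this
    exact this
  have m1 : Real.log (Real.log X) ≤ Real.log (Real.log Y) := Real.log_le_log hlX l1
  have m2 : Real.log (Real.log Y) ≤ Real.log 18 + Real.log (Real.log X) := by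
    rw [← Real.log_mul (by norm_num) hlX.ne']
    exact Real.log_le_log (by linarith) l2
  have m3 : Real.log 18 ≤ 5 := by
    rw [Real.log_le_iff_le_exp (by norm_num)]
    have e1 : Real.exp 5 = Real.exp (5 / 4) ^ 4 := by
      rw [← Real.exp_nat_mul]
      norm_num
    have e2 : (9 / 4 : ℝ) ≤ Real.exp (5 / 4) := by
      have := Real.add_one_le_exp (5 / 4 : ℝ)
      linarith
    have e3 : (9 / 4 : ℝ) ^ 4 ≤ Real.exp (5 / 4) ^ 4 := pow_le_pow_left₀ (by norm_num) e2 4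
    rw [e1]
    norm_num at e3 ⊢
    linarith
  rw [abs_le]
  constructor <;> linarith

/-- the number of the pairs -/
lemma Fht_low {c : ℕ × ℕ} (hc : Cc c) {Y T : ℕ} (hT : 100 ≤ T) (hY : (T - 1) ^ 6 < Y) (K : Finset (ℤ × ℤ))
    (hK : ∀ t, t ∈ K ↔ Fht c Y t) : (T : ℝ) ^ 2 ≤ 576 * K.card := by
  obtain ⟨h, hh⟩ : ∃ h, h = (T - 1) / 12 := ⟨_, rfl⟩
  have h1 : T ≤ 24 * h := by omega
  have h2 : 12 * h ≤ T - 1 := by omega
  have hsub : Icc ((h : ℤ) + 1) (2 * h) ×ˢ Icc (1 : ℤ) h ⊆ K := by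
    intro t ht
    rw [mem_product, mem_Icc, mem_Icc] at ht
    obtain ⟨⟨a1, a2⟩, b1, b2⟩ := ht
    obtain ⟨e, N⟩ := t
    simp only at a1 a2 b1 b2
    have hY' : 6912 * (h : ℤ) ^ 6 ≤ Y := by
      have e1 : (12 * h) ^ 6 ≤ (T - 1) ^ 6 := Nat.pow_le_pow_left h2 6
      have e2 : (12 * h) ^ 6 = 2985984 * h ^ 6 := by ring
      have e3 : 6912 * h ^ 6 ≤ Y := by omega
      exact_mod_cast e3
    have hh0 : (0 : ℤ) ≤ h := Int.natCast_nonneg _
    have he2 : e ^ 2 ≤ (2 * h) ^ 2 := pow_le_pow_left₀ (by linarith) a2 2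
    have he3 : e ^ 3 ≤ (2 * h) ^ 3 := pow_le_pow_left₀ (by linarith) a2 3
    have hN2 : N ^ 2 ≤ e ^ 2 := pow_le_pow_left₀ (by linarith) (by linarith) 2
    have hN0 : 0 < N ^ 2 := by positivity
    rw [hK]
    refine ⟨⟨?_, ?_⟩, ?_, ?_⟩
    · have e1 : |cA (e, N)| ≤ 12 * (h : ℤ) ^ 2 := by
        unfold cA
        simp only
        rw [abs_le]
        constructor <;> nlinarith
      have e2 : |cA (e, N)| ^ 3 ≤ (12 * (h : ℤ) ^ 2) ^ 3 := pow_le_pow_left₀ (abs_nonneg _) e1 3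
      have e3 : (12 * (h : ℤ) ^ 2) ^ 3 = 1728 * (h : ℤ) ^ 6 := by ring
      have c1' : (c.1 : ℤ) ≤ 4 := by exact_mod_cast hc.2.1
      have e4 : (c.1 : ℤ) * |cA (e, N)| ^ 3 ≤ 4 * |cA (e, N)| ^ 3 :=
        mul_le_mul_of_nonneg_right c1' (by positivity)
      linarith
    · have e1 : |cB (e, N)| ≤ 16 * (h : ℤ) ^ 3 := by
        unfold cB
        simp only
        have e4 : 2 * e ^ 3 - N ^ 2 * e = e * (2 * e ^ 2 - N ^ 2) := by ring
        have e5 : 0 ≤ e * (2 * e ^ 2 - N ^ 2) := mul_nonneg (by linarith) (by linarith)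
        rw [e4, abs_of_nonneg e5, ← e4]
        have e6 : 0 ≤ N ^ 2 * e := mul_nonneg hN0.le (by linarith)
        linarith
      have e2 : |cB (e, N)| ^ 2 ≤ (16 * (h : ℤ) ^ 3) ^ 2 := pow_le_pow_left₀ (abs_nonneg _) e1 2
      rw [sq_abs] at e2
      have e3 : (16 * (h : ℤ) ^ 3) ^ 2 = 256 * (h : ℤ) ^ 6 := by ring
      have c2' : (c.2 : ℤ) ≤ 27 := by exact_mod_cast hc.2.2.2
      have e4 : (c.2 : ℤ) * cB (e, N) ^ 2 ≤ 27 * cB (e, N) ^ 2 :=
        mul_le_mul_of_nonneg_right c2' (by positivity)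
      linarith
    · simp only
      linarith
    · simp only
      intro hcon
      linarith
  have h3 := card_le_card hsub
  rw [card_product, Int.card_Icc, Int.card_Icc] at h3
  have e1 : ((2 * h : ℤ) + 1 - ((h : ℤ) + 1)).toNat = h := by omega
  have e2 : ((h : ℤ) + 1 - 1).toNat = h := by omega
  rw [e1, e2] at h3
  have h4 : T * T ≤ 576 * K.card := by
    calc T * T ≤ (24 * h) * (24 * h) := Nat.mul_le_mul h1 h1
      _ = 576 * (h * h) := by ring
      _ ≤ _ := Nat.mul_le_mul_left _ h3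
  rw [pow_two]
  exact_mod_cast h4

/-- **the joint law in the ordering by height** -/
theorem ht_main {n : ℕ} (l0 : Fin n) (c : ℕ × ℕ) (hc : Cc c) (d : Fin n → ℤ) (hd : ∀ l, d l ≠ 0)
    (hdd : ∀ l m, l ≠ m → ∀ r : ℤ, r ^ 2 ≠ d l * d m) (Λ : ℤ × ℤ → Fin 3 × Fin n → ℝ)
    (P : ℤ × ℤ → Prop) (hΛ : Stat d Λ P) (x : Fin 3 × Fin n → ℝ) (ε : ℝ) (hε : 0 < ε) :
    ∃ R Y0 : ℕ, ∀ Y : ℕ, Y0 ≤ Y → ∀ K : Finset (ℤ × ℤ), (∀ t, t ∈ K ↔ Fht c Y t) →
      0 < K.card ∧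
      (∀ B : Finset (ℤ × ℤ), B ⊆ K → (∀ t ∈ B, ¬ ∀ k : Fin 3 × Fin n, ∃ S : ℝ, Oks d R t k S) →
        (B.card : ℝ) ≤ ε * K.card) ∧
      ∀ ℓ : ℝ, |ℓ - Real.log (Real.log Y)| ≤ 5 →
      ∀ M : Finset (ℤ × ℤ), (∀ t, t ∈ M ↔ t ∈ K ∧ P t ∧ ∀ k, Lg Λ ℓ t k ≤ x k) →
      |(M.card : ℝ) / K.card - (muT 3 n).real {w | ∀ k, w k ≤ x k}| ≤ ε := by
  classical
  obtain ⟨ε1, p1, p2, p3⟩ : ∃ ε1 : ℝ, 0 < ε1 ∧ ε1 ≤ 1 / 4 ∧ 24 * ε1 ≤ ε := by
    refine ⟨min (1 / 4) (ε / 24), by positivity, min_le_left _ _, ?_⟩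
    have := min_le_right (1 / 4) (ε / 24)
    linarith
  obtain ⟨R, X1, hmain⟩ := lf_main 3 d hd hdd Λ P hΛ x ε1 p1
  obtain ⟨X2, hshell⟩ := shell (ε / 1152) (by positivity)
  refine ⟨R, ((X1 + X2 + 10) ^ 2) ^ 6, fun Y hY K hK => ?_⟩
  obtain ⟨T, X, q1, q2, q3, q4, q5, q6, q7⟩ := scales (X1 + X2 + 10) Y (by omega) hY
  have hX10 : 10 ≤ X := by omega
  have hX0 : 0 < X := by omega
  have hKl := Fht_low hc q6 q5 K hK
  have hT0 : (0 : ℝ) < T := by
    have : 0 < T := by omega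
    exact_mod_cast this
  have hK0 : (0 : ℝ) < K.card := by
    have : 0 < (T : ℝ) ^ 2 := by positivity
    linarith
  have hXT : X ≤ T := by
    have : 10 * X ≤ X ^ 2 := by nlinarith
    omega
  have hX2r : (0 : ℝ) < (X : ℝ) ^ 2 := by
    have : (0 : ℝ) < X := by exact_mod_cast hX0
    positivity
  -- the bad cells
  obtain ⟨bad, hbad⟩ : ∃ bad : ℤ × ℤ → Prop, bad = fun q => ∃ t ∈ Bx (X * q.1) (X * q.2) X X,
      ¬ Hb c Y t := ⟨_, rfl⟩
  have hbadc : ((K.filter (fun t => bad (cix X t))).card : ℝ) ≤ ε / 1152 * (T : ℝ) ^ 2 := by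
    obtain ⟨α, hα⟩ := find_A c.1 Y hc.1
    obtain ⟨β, hβ⟩ := find_B c.2 Y hc.2.2.1
    refine hshell X T (by omega) q2 α β _ fun t ht => ?_
    rw [mem_filter, hbad] at ht
    obtain ⟨h1, t', ht', h2⟩ := ht
    rw [hK] at h1
    obtain ⟨⟨a1, a2⟩, -, -⟩ := h1
    obtain ⟨b1, b2⟩ := Hb_bd hc (by omega) q4 ⟨a1, a2⟩
    have hT0' : (0 : ℤ) ≤ T := Int.natCast_nonneg _
    refine ⟨by linarith, by linarith, ?_⟩
    have ht0 := (cell_mem hX0 t (cix X t)).2 rfl
    unfold Bx at ht0 ht'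
    rw [mem_product, mem_Ioc, mem_Ioc] at ht0 ht'
    have u1 : |t'.1 - t.1| ≤ X := by
      rw [abs_le]
      constructor <;> linarith [ht0.1.1, ht0.1.2, ht'.1.1, ht'.1.2]
    have u2 : |t'.2 - t.2| ≤ X := by
      rw [abs_le]
      constructor <;> linarith [ht0.2.1, ht0.2.2, ht'.2.1, ht'.2.2]
    obtain ⟨c1, c2⟩ := near_AB hXT b1 b2 u1 u2
    unfold Hb at h2
    rw [not_and_or] at h2
    have hA1 : |cA t| ≤ α := (hα _ (abs_nonneg _)).1 a1
    have hB1 : |cB t| ≤ β := (hβ _ (abs_nonneg _)).1 (by rw [sq_abs]; exact a2)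
    have c1' := (abs_abs_sub_abs_le_abs_sub (cA t') (cA t)).trans c1
    have c2' := (abs_abs_sub_abs_le_abs_sub (cB t') (cB t)).trans c2
    rw [abs_le] at c1' c2'
    rcases h2 with h2 | h2
    · left
      rw [hα _ (abs_nonneg _), not_le] at h2
      rw [abs_le]
      constructor <;> linarith [c1'.1, c1'.2]
    · right
      rw [← sq_abs, hβ _ (abs_nonneg _), not_le] at h2
      rw [abs_le]
      constructor <;> linarith [c2'.1, c2'.2]
  have hbadK : ((K.filter (fun t => bad (cix X t))).card : ℝ) ≤ ε / 2 * K.card := by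
    refine hbadc.trans ?_
    have : ε / 1152 * (T : ℝ) ^ 2 ≤ ε / 1152 * (576 * K.card) :=
      mul_le_mul_of_nonneg_left hKl (by positivity)
    linarith
  -- the good cells
  have hgood : ∀ q, ¬ bad q → (∃ t ∈ K, cix X t = q) → ∃ T' : Finset (ℤ × ℤ),
      (T'.card : ℝ) ≤ ε1 * (X : ℝ) ^ 2 ∧
      (∀ t ∈ Bx (X * q.1) (X * q.2) X X, t ∉ T' → t ∈ K ∧ ∀ k : Fin 3 × Fin n, ∃ S : ℝ,
        Oks d R t k S) ∧
      (∀ ℓ : ℝ, |ℓ - Real.log (Real.log Y)| ≤ 5 →
        ∀ M' : Finset (ℤ × ℤ), (∀ t, t ∈ M' ↔ t ∈ Bx (X * q.1) (X * q.2) X X ∧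
        P t ∧ ∀ k, Lg Λ ℓ t k ≤ x k) →
      |(M'.card : ℝ) / (X : ℝ) ^ 2 - (muT 3 n).real {w | ∀ k, w k ≤ x k}| ≤ ε1) ∧
      (X : ℝ) ^ 2 ≤ 2 * ((K.filter (fun t => cix X t = q)).card) ∧
      ((K.filter (fun t => cix X t = q)).card : ℝ) ≤ (X : ℝ) ^ 2 ∧
      (X : ℝ) ^ 2 ≤ (K.filter (fun t => cix X t = q)).card + ε1 * (X : ℝ) ^ 2 := by
    rintro q hq ⟨t0, ht0, rfl⟩
    have hF := (hK t0).1 ht0
    obtain ⟨b1, b2⟩ := Hb_bd hc (by omega) q4 hF.1
    have hm0 := (cell_mem hX0 t0 (cix X t0)).2 rfl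
    have hm0' := hm0
    unfold Bx at hm0'
    rw [mem_product, mem_Ioc, mem_Ioc] at hm0'
    have hX3 : 4 * ((X + 1) ^ 2) + X ≤ X ^ 3 := by
      have : X ^ 3 = X ^ 2 * X := by ring
      rw [this]
      have h1 : 4 * ((X + 1) ^ 2) + X ≤ X ^ 2 * 10 := by nlinarith
      exact h1.trans (Nat.mul_le_mul_left _ hX10)
    have hX3' : 4 * (((X : ℤ) + 1) ^ 2) + X ≤ (X : ℤ) ^ 3 := by exact_mod_cast hX3
    have hTX : (T : ℤ) < ((X : ℤ) + 1) ^ 2 := by exact_mod_cast q3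
    have hT0' : (0 : ℤ) ≤ T := Int.natCast_nonneg _
    have b1' := abs_le.1 b1
    have b2' := abs_le.1 b2
    have n1 : (X * (cix X t0).1 : ℤ).natAbs ≤ X ^ 3 := by
      have : |(X * (cix X t0).1 : ℤ)| ≤ (X : ℤ) ^ 3 := by
        rw [abs_le]
        constructor <;> linarith [hm0'.1.1, hm0'.1.2, b1'.1, b1'.2]
      rw [Int.abs_eq_natAbs] at this
      exact_mod_cast this
    have n2 : (X * (cix X t0).2 : ℤ).natAbs ≤ X ^ 3 := by
      have : |(X * (cix X t0).2 : ℤ)| ≤ (X : ℤ) ^ 3 := by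
        rw [abs_le]
        constructor <;> linarith [hm0'.2.1, hm0'.2.2, b2'.1, b2'.2]
      rw [Int.abs_eq_natAbs] at this
      exact_mod_cast this
    obtain ⟨T', t1, t2, t3⟩ := hmain (X * (cix X t0).1) (X * (cix X t0).2) X (by omega) n1 n2
    have hin : ∀ t ∈ Bx (X * (cix X t0).1) (X * (cix X t0).2) X X, t ∉ T' → t ∈ K := by
      intro t ht hn
      rw [hK]
      refine ⟨?_, ?_⟩
      · by_contra hcon
        exact hq (by rw [hbad]; exact ⟨t, ht, hcon⟩)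
      · have h1 := t2 t ht hn (0, l0)
        obtain ⟨g1, g2, g3, -⟩ := h1
        have g1' : d l0 * (lf t).1 ≠ 0 := g1
        have g2' : d l0 * (lf t).2 ≠ 0 := g2
        have g3' : d l0 * (lf t).1 ≠ d l0 * (lf t).2 := g3
        unfold lf at g1' g2' g3'
        simp only at g1' g2' g3'
        constructor
        · intro h0
          apply g3'
          rw [h0]
          ring
        · intro h0
          have h5 : (3 * t.1 + 2 * t.2) * (3 * t.1 - 2 * t.2) = 0 := by linear_combination h0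
          rcases mul_eq_zero.1 h5 with h6 | h6
          · apply g1'
            rw [h6, mul_zero]
          · apply g2'
            rw [h6, mul_zero]
    have hcellc : ((Bx (X * (cix X t0).1) (X * (cix X t0).2) X X).card : ℝ) = (X : ℝ) ^ 2 := by
      rw [Bx_card]
      ring
    have hs1 : Bx (X * (cix X t0).1) (X * (cix X t0).2) X X ⊆
        K.filter (fun t => cix X t = cix X t0) ∪ T' := by
      intro t ht
      by_cases h : t ∈ T'
      · exact mem_union_right _ h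
      · refine mem_union_left _ (mem_filter.2 ⟨hin t ht h, ?_⟩)
        exact (cell_mem hX0 t _).1 ht
    have hs2 : K.filter (fun t => cix X t = cix X t0) ⊆
        Bx (X * (cix X t0).1) (X * (cix X t0).2) X X := by
      intro t ht
      rw [mem_filter] at ht
      exact (cell_mem hX0 t _).2 ht.2
    have hc1 : (X : ℝ) ^ 2 ≤ (K.filter (fun t => cix X t = cix X t0)).card + T'.card := by
      rw [← hcellc]
      exact_mod_cast (card_le_card hs1).trans (card_union_le _ _)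
    have hc2 : ((K.filter (fun t => cix X t = cix X t0)).card : ℝ) ≤ (X : ℝ) ^ 2 := by
      rw [← hcellc]
      exact_mod_cast card_le_card hs2
    refine ⟨T', t1, fun t ht hn => ⟨hin t ht hn, fun k => ⟨_, t2 t ht hn k⟩⟩, fun ℓ hℓ M' hM' =>
      t3 ℓ (by
        have h1 := abs_add_le (ℓ - Real.log (Real.log Y))
          (Real.log (Real.log Y) - Real.log (Real.log X))
        rw [sub_add_sub_cancel] at h1
        linarith) M' hM', ?_, hc2, by linarith⟩
    nlinarith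
  have hμ0 : 0 ≤ (muT 3 n).real {w | ∀ k, w k ≤ x k} := measureReal_nonneg
  have hμ1 : (muT 3 n).real {w | ∀ k, w k ≤ x k} ≤ 1 := measureReal_le_one
  refine ⟨by exact_mod_cast hK0, fun B hBK hB => ?_, fun ℓ hℓ M hM => ?_⟩
  · have h1 := cells_sum K B (cix X) bad hBK 0 (2 * ε1) le_rfl zero_le_one (fun q hq hex => by
      obtain ⟨T', t1, t2, -, t4, -, -⟩ := hgood q hq hex
      rw [zero_mul, sub_zero, abs_of_nonneg (Nat.cast_nonneg _)]
      have hsub : B.filter (fun t => cix X t = q) ⊆ T' := by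
        intro t ht
        rw [mem_filter] at ht
        by_contra hn
        exact hB t ht.1 (t2 t ((cell_mem hX0 t q).2 ht.2) hn).2
      have : ((B.filter (fun t => cix X t = q)).card : ℝ) ≤ T'.card := by
        exact_mod_cast card_le_card hsub
      refine this.trans (t1.trans ?_)
      nlinarith) (by positivity)
    rw [zero_mul, sub_zero, abs_of_nonneg (Nat.cast_nonneg _)] at h1
    have h2 : 2 * ε1 * (K.card : ℝ) ≤ ε / 2 * K.card :=
      mul_le_mul_of_nonneg_right (by linarith) hK0.le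
    linarith
  · have hMK : M ⊆ K := fun t ht => ((hM t).1 ht).1
    obtain ⟨μ, hμ⟩ : ∃ μ, μ = (muT 3 n).real {w | ∀ k, w k ≤ x k} := ⟨_, rfl⟩
    rw [← hμ] at hμ0 hμ1 ⊢
    have h1 := cells_sum K M (cix X) bad hMK μ (6 * ε1) hμ0 hμ1 (fun q hq hex => by
      obtain ⟨T', t1, t2, t3, t4, t5, t6⟩ := hgood q hq hex
      obtain ⟨M', hM'⟩ : ∃ M' : Finset (ℤ × ℤ), ∀ t, t ∈ M' ↔ t ∈ Bx (X * q.1) (X * q.2) X X ∧
        P t ∧ ∀ k, Lg Λ ℓ t k ≤ x k :=
        ⟨(Bx (X * q.1) (X * q.2) X X).filter (fun t => P t ∧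
        ∀ k, Lg Λ ℓ t k ≤ x k), fun t => by rw [mem_filter]⟩
      have h3 := t3 ℓ hℓ M' hM'
      rw [← hμ] at h3
      have hs1 : M.filter (fun t => cix X t = q) ⊆ M' := by
        intro t ht
        rw [mem_filter, hM] at ht
        rw [hM']
        exact ⟨(cell_mem hX0 t q).2 ht.2, ht.1.2⟩
      have hs2 : M' ⊆ M.filter (fun t => cix X t = q) ∪ T' := by
        intro t ht
        rw [hM'] at ht
        by_cases h : t ∈ T'
        · exact mem_union_right _ h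
        · refine mem_union_left _ (mem_filter.2 ⟨?_, (cell_mem hX0 t q).1 ht.1⟩)
          rw [hM]
          exact ⟨(t2 t ht.1 h).1, ht.2⟩
      have c1 : ((M.filter (fun t => cix X t = q)).card : ℝ) ≤ M'.card := by
        exact_mod_cast card_le_card hs1
      have c2 : (M'.card : ℝ) ≤ (M.filter (fun t => cix X t = q)).card + T'.card := by
        exact_mod_cast (card_le_card hs2).trans (card_union_le _ _)
      have h4 : |(M'.card : ℝ) - μ * (X : ℝ) ^ 2| ≤ ε1 * (X : ℝ) ^ 2 := by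
        have e1 : (M'.card : ℝ) - μ * (X : ℝ) ^ 2 =
            ((M'.card : ℝ) / (X : ℝ) ^ 2 - μ) * (X : ℝ) ^ 2 := by
          field_simp
        rw [e1, abs_mul, abs_of_pos hX2r]
        exact mul_le_mul_of_nonneg_right h3 hX2r.le
      rw [abs_le] at h4 ⊢
      have hk : 0 ≤ (X : ℝ) ^ 2 - (K.filter (fun t => cix X t = q)).card := by linarith
      have m1 : μ * ((X : ℝ) ^ 2 - (K.filter (fun t => cix X t = q)).card) ≤
          (X : ℝ) ^ 2 - (K.filter (fun t => cix X t = q)).card := mul_le_of_le_one_left hk hμ1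
      have m2 : 0 ≤ μ * ((X : ℝ) ^ 2 - (K.filter (fun t => cix X t = q)).card) :=
        mul_nonneg hμ0 hk
      have m3 : 3 * (ε1 * (X : ℝ) ^ 2) ≤ 6 * ε1 * (K.filter (fun t => cix X t = q)).card := by
        have : ε1 * (X : ℝ) ^ 2 ≤ ε1 * (2 * (K.filter (fun t => cix X t = q)).card) :=
          mul_le_mul_of_nonneg_left t4 p1.le
        linarith
      rw [mul_sub] at m1 m2
      have m4 : 0 ≤ ε1 * (X : ℝ) ^ 2 := by positivity
      constructor
      · linarith [h4.1]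
      · linarith [h4.2]) (by positivity)
    have e1 : (M.card : ℝ) / K.card - μ = ((M.card : ℝ) - μ * K.card) / K.card := by
      field_simp
    rw [e1, abs_div, abs_of_pos hK0, div_le_iff₀ hK0]
    have h2 : 6 * ε1 * (K.card : ℝ) ≤ ε / 2 * K.card :=
      mul_le_mul_of_nonneg_right (by linarith) hK0.le
    linarith

end Pool.Agent.R421.EK
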