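import Mathlib

/-!
# Project EK: the exact sequence of the Selmer groups, abstract counting
-/

set_option autoImplicit false
set_option linter.all false

namespace Pool.Agent.R421.EK

lemma crd_rk {A B : Type} [AddCommGroup A] [AddCommGroup B] (f : A →+ B) :
    Nat.card A = Nat.card f.range * Nat.card f.ker := by
  rw [AddSubgroup.card_eq_card_quotient_mul_card_addSubgroup f.ker]
  congr 1
  exact Nat.card_congr (QuotientAddGroup.quotientKerEquivRange f).toEquiv

section

variable {A C : Type} [AddCommGroup A] [AddCommGroup C] (d : A →+ C) (Z S H B : AddSubgroup C)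
  (m : ℕ)

/-- **the exact sequence**: `#(S / H) = #(Z / B)[m] #(ker d / m ker d)` -/
theorem sel_card (hZ : ∀ P, d P ∈ Z) (hB : ∀ f, f ∈ B ↔ ∃ P, f = d P)
    (hS : ∀ f, f ∈ S ↔ f ∈ Z ∧ m • f = 0) (hH : ∀ f, f ∈ H ↔ ∃ P, m • P = 0 ∧ f = d P)
    (hdiv : ∀ P : A, ∃ Q, P = m • Q) :
    Nat.card (S ⧸ H.addSubgroupOf S) = Nat.card {x : Z ⧸ B.addSubgroupOf Z // m • x = 0} *
      Nat.card (d.ker ⧸ (nsmulAddMonoidHom (α := d.ker) m).range) := by
  have hSZ : S ≤ Z := fun f hf => ((hS f).1 hf).1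
  have hHS : ∀ f ∈ H, f ∈ S := by
    intro f hf
    obtain ⟨P, hP, rfl⟩ := (hH f).1 hf
    exact (hS _).2 ⟨hZ P, by rw [← map_nsmul, hP, map_zero]⟩
  have hle : H.addSubgroupOf S ≤ (B.addSubgroupOf Z).comap (AddSubgroup.inclusion hSZ) := by
    intro f hf
    rw [AddSubgroup.mem_addSubgroupOf] at hf
    rw [AddSubgroup.mem_comap, AddSubgroup.mem_addSubgroupOf]
    obtain ⟨P, -, hP⟩ := (hH _).1 hf
    exact (hB _).2 ⟨P, hP⟩
  let ρ : (S ⧸ H.addSubgroupOf S) →+ (Z ⧸ B.addSubgroupOf Z) :=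
    QuotientAddGroup.map _ _ (AddSubgroup.inclusion hSZ) hle
  have hρ : ∀ f : S, ρ (QuotientAddGroup.mk f) = QuotientAddGroup.mk (AddSubgroup.inclusion hSZ f) :=
    fun f => rfl
  rw [crd_rk ρ]
  congr 1
  · refine Nat.card_congr (Equiv.subtypeEquivRight fun x => ?_)
    constructor
    · rintro ⟨y, rfl⟩
      obtain ⟨f, rfl⟩ := QuotientAddGroup.mk_surjective y
      rw [← map_nsmul, ← QuotientAddGroup.mk_nsmul]
      have : m • f = 0 := Subtype.ext ((hS f.1).1 f.2).2
      rw [this, QuotientAddGroup.mk_zero, map_zero]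
    · intro hx
      obtain ⟨f, rfl⟩ := QuotientAddGroup.mk_surjective x
      rw [← QuotientAddGroup.mk_nsmul, QuotientAddGroup.eq_zero_iff,
        AddSubgroup.mem_addSubgroupOf] at hx
      obtain ⟨P, hP⟩ := (hB _).1 hx
      obtain ⟨Q, rfl⟩ := hdiv P
      have hP' : m • f.1 = d (m • Q) := hP
      have hmem : f.1 - d Q ∈ S := by
        rw [hS]
        refine ⟨Z.sub_mem f.2 (hZ Q), ?_⟩
        rw [nsmul_sub, hP', map_nsmul, sub_self]
      refine ⟨QuotientAddGroup.mk ⟨f.1 - d Q, hmem⟩, ?_⟩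
      rw [hρ, QuotientAddGroup.eq, AddSubgroup.mem_addSubgroupOf]
      refine (hB _).2 ⟨Q, ?_⟩
      change -(f.1 - d Q) + f.1 = d Q
      abel
  · choose q hq using hdiv
    have hmem : ∀ (P : d.ker) (Q : A), m • Q = P.1 → d Q ∈ S := by
      intro P Q h
      rw [hS]
      refine ⟨hZ Q, ?_⟩
      rw [← map_nsmul, h]
      exact P.2
    have hind : ∀ (P : d.ker) (Q Q' : A) (h : m • Q = P.1) (h' : m • Q' = P.1),
        (QuotientAddGroup.mk ⟨d Q, hmem P Q h⟩ : S ⧸ H.addSubgroupOf S) =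
          QuotientAddGroup.mk ⟨d Q', hmem P Q' h'⟩ := by
      intro P Q Q' h h'
      rw [QuotientAddGroup.eq, AddSubgroup.mem_addSubgroupOf]
      refine (hH _).2 ⟨Q' - Q, ?_, ?_⟩
      · rw [nsmul_sub, h, h', sub_self]
      · change -d Q + d Q' = d (Q' - Q)
        rw [map_sub]
        abel
    let δ : d.ker →+ (S ⧸ H.addSubgroupOf S) :=
      AddMonoidHom.mk' (fun P => QuotientAddGroup.mk ⟨d (q P.1), hmem P _ (hq P.1).symm⟩)
        (fun P P' => by
          have h1 : m • (q P.1 + q P'.1) = (P + P').1 := by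
            rw [nsmul_add, ← hq, ← hq]
            rfl
          rw [hind (P + P') _ (q P.1 + q P'.1) (hq _).symm h1, ← QuotientAddGroup.mk_add]
          congr 1
          apply Subtype.ext
          change d (q P.1 + q P'.1) = d (q P.1) + d (q P'.1)
          rw [map_add])
    have hδ : ∀ (P : d.ker) (Q : A) (h : m • Q = P.1), δ P = QuotientAddGroup.mk
        ⟨d Q, hmem P Q h⟩ := fun P Q h => hind P _ Q (hq P.1).symm h
    have hran : δ.range = ρ.ker := by
      ext y
      rw [AddMonoidHom.mem_ker]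
      constructor
      · rintro ⟨P, rfl⟩
        rw [hδ P _ (hq P.1).symm, hρ, QuotientAddGroup.eq_zero_iff,
          AddSubgroup.mem_addSubgroupOf]
        exact (hB _).2 ⟨q P.1, rfl⟩
      · intro hy
        obtain ⟨f, rfl⟩ := QuotientAddGroup.mk_surjective y
        rw [hρ, QuotientAddGroup.eq_zero_iff, AddSubgroup.mem_addSubgroupOf] at hy
        obtain ⟨Q, hQ⟩ := (hB _).1 hy
        have hQ' : f.1 = d Q := hQ
        have hk : m • Q ∈ d.ker := by
          rw [AddMonoidHom.mem_ker, map_nsmul, ← hQ']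
          exact ((hS f.1).1 f.2).2
        refine ⟨⟨m • Q, hk⟩, ?_⟩
        rw [hδ ⟨m • Q, hk⟩ Q rfl]
        congr 1
        exact Subtype.ext hQ'.symm
    have hkerδ : δ.ker = (nsmulAddMonoidHom (α := d.ker) m).range := by
      ext P
      rw [AddMonoidHom.mem_ker, hδ P _ (hq P.1).symm, QuotientAddGroup.eq_zero_iff,
        AddSubgroup.mem_addSubgroupOf]
      constructor
      · intro h
        obtain ⟨T, hT, hT'⟩ := (hH _).1 h
        have hT'' : d (q P.1) = d T := hT'
        have hk : q P.1 - T ∈ d.ker := by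
          rw [AddMonoidHom.mem_ker, map_sub, hT'', sub_self]
        refine ⟨⟨q P.1 - T, hk⟩, ?_⟩
        apply Subtype.ext
        change m • (q P.1 - T) = P.1
        rw [nsmul_sub, hT, sub_zero, ← hq]
      · rintro ⟨P', rfl⟩
        refine (hH _).2 ⟨q ((nsmulAddMonoidHom m P' : d.ker) : A) - P'.1, ?_, ?_⟩
        · rw [nsmul_sub, ← hq]
          exact sub_self _
        · change d (q _) = d (q _ - P'.1)
          rw [map_sub]
          have : d P'.1 = 0 := P'.2
          rw [this, sub_zero]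
    rw [← hran, ← hkerδ]
    exact Nat.card_congr (QuotientAddGroup.quotientKerEquivRange δ).toEquiv.symm

/-- the quotient by the multiples of a power -/
lemma quot_pow (G : Type) [AddCommGroup G] (K : ℕ)
    [Finite (G ⧸ (nsmulAddMonoidHom (α := G) 2).range)]
    (h : Nat.card (G ⧸ (nsmulAddMonoidHom (α := G) 2).range) ≤ K) (j : ℕ) :
    Finite (G ⧸ (nsmulAddMonoidHom (α := G) (2 ^ j)).range) ∧
      Nat.card (G ⧸ (nsmulAddMonoidHom (α := G) (2 ^ j)).range) ≤ K ^ j := by
  -- representatives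
  obtain ⟨s, hs⟩ : ∃ s : (G ⧸ (nsmulAddMonoidHom (α := G) 2).range) → G,
      ∀ x, (QuotientAddGroup.mk (s x) : G ⧸ (nsmulAddMonoidHom (α := G) 2).range) = x :=
    ⟨Quotient.out, fun x => Quotient.out_eq' x⟩
  have key : ∀ j : ℕ, ∃ f : (Fin j → (G ⧸ (nsmulAddMonoidHom (α := G) 2).range)) →
      (G ⧸ (nsmulAddMonoidHom (α := G) (2 ^ j)).range), Function.Surjective f := by
    intro j
    refine ⟨fun v => QuotientAddGroup.mk (∑ i : Fin j, (2 ^ (i : ℕ)) • s (v i)), ?_⟩
    intro y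
    obtain ⟨g, rfl⟩ := QuotientAddGroup.mk_surjective y
    suffices H : ∃ v : Fin j → (G ⧸ (nsmulAddMonoidHom (α := G) 2).range), ∃ g' : G,
        g = ∑ i : Fin j, (2 ^ (i : ℕ)) • s (v i) + (2 ^ j) • g' by
      obtain ⟨v, g', hg⟩ := H
      refine ⟨v, ?_⟩
      rw [QuotientAddGroup.eq]
      refine ⟨g', ?_⟩
      rw [nsmulAddMonoidHom_apply]
      rw [hg]
      abel
    clear h
    induction j with
    | zero => exact ⟨fun i => i.elim0, g, by simp⟩
    | succ j ih =>
      obtain ⟨v, g', hg⟩ := ih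
      have h1 := hs (QuotientAddGroup.mk g')
      rw [QuotientAddGroup.eq] at h1
      obtain ⟨g'', hg''⟩ := h1
      rw [nsmulAddMonoidHom_apply] at hg''
      refine ⟨Fin.snoc v (QuotientAddGroup.mk g'), g'', ?_⟩
      rw [Fin.sum_univ_castSucc]
      simp only [Fin.snoc_castSucc, Fin.snoc_last, Fin.val_castSucc, Fin.val_last]
      rw [hg, add_assoc, pow_succ, mul_smul (2 ^ j) 2 g'', hg'']
      congr 1
      rw [smul_add, smul_neg]
      abel
  obtain ⟨f, hf⟩ := key j
  have hfin : Finite (Fin j → (G ⧸ (nsmulAddMonoidHom (α := G) 2).range)) := inferInstance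
  refine ⟨Finite.of_surjective f hf, ?_⟩
  refine (Nat.card_le_card_of_surjective f hf).trans ?_
  rw [Nat.card_fun, Nat.card_eq_fintype_card (α := Fin j), Fintype.card_fin]
  exact Nat.pow_le_pow_left h j

end

end Pool.Agent.R421.EK
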