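import Mathlib
import Pool.Agent.Y655.XT.Shavc
import Pool.Agent.R421.EK.HtMain

/-!
# Project EK: the Tate-Shafarevich group and the rank do not depend on the equation
-/

set_option autoImplicit false
set_option linter.all false

namespace Pool.Agent.R421.EK

open WeierstrassCurve

open Pool.Agent.Y655.XT (Iso isoVR vr_of_smul)

open Pool.Agent.TH841.SH.D

variable {W W' : WeierstrassCurve ℚ}

theorem sha_memQ (I : Iso W W') {f : Coch W'} (hf : f ∈ shaCoc W') : I.coch f ∈ shaCoc W :=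
  ⟨I.coc hf.1, fun p _ => I.loc (hf.2.1 p), I.loc hf.2.2⟩

/-- the isomorphism of the groups of cocycles -/
noncomputable def shaCQ (I : Iso W W') : shaCoc W' ≃+ shaCoc W where
  toFun f := ⟨I.coch f.1, sha_memQ I f.2⟩
  invFun g := ⟨I.symm.coch g.1, sha_memQ I.symm g.2⟩
  left_inv f := Subtype.ext (I.symm_coch f.1)
  right_inv g := Subtype.ext (I.coch_symm g.1)
  map_add' f g := Subtype.ext (I.coch_add f.1 g.1)

theorem map_cobQ (I : Iso W W') : ((cob W').addSubgroupOf (shaCoc W')).map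
    (shaCQ I : shaCoc W' →+ shaCoc W) = (cob W).addSubgroupOf (shaCoc W) := by
  ext g
  rw [AddSubgroup.mem_map, AddSubgroup.mem_addSubgroupOf]
  constructor
  · rintro ⟨f, hf, rfl⟩
    rw [AddSubgroup.mem_addSubgroupOf] at hf
    exact I.cob hf
  · intro hg
    refine ⟨(shaCQ I).symm g, ?_, (shaCQ I).apply_symm_apply g⟩
    rw [AddSubgroup.mem_addSubgroupOf]
    exact I.symm.cob hg

/-- the isomorphism of the Tate-Shafarevich groups -/
noncomputable def shaIQ (I : Iso W W') : Sha W' ≃+ Sha W :=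
  QuotientAddGroup.congr _ _ (shaCQ I) (map_cobQ I)

/-- the torsion -/
theorem tor_iso (e : Sha W' ≃+ Sha W) (m : ℕ) :
    ({x : Sha W' | m • x = 0}.Finite ↔ {x : Sha W | m • x = 0}.Finite) ∧
    {x : Sha W' | m • x = 0}.ncard = {x : Sha W | m • x = 0}.ncard := by
  have h : e '' {x : Sha W' | m • x = 0} = {x : Sha W | m • x = 0} := by
    ext y
    constructor
    · rintro ⟨x, hx, rfl⟩
      have hx' : m • x = 0 := hx
      change m • e x = 0
      rw [← map_nsmul, hx', map_zero]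
    · intro hy
      have hy' : m • y = 0 := hy
      refine ⟨e.symm y, ?_, e.apply_symm_apply y⟩
      change m • e.symm y = 0
      rw [← map_nsmul, hy', map_zero]
  constructor
  · rw [← h, Set.finite_image_iff e.injective.injOn]
  · rw [← h, Set.ncard_image_of_injective _ e.injective]

/-- the short equation -/
def Shq (A B : ℤ) : WeierstrassCurve ℚ := ⟨0, 0, 0, (A : ℚ), (B : ℚ)⟩

/-- the change of variables between the equations -/
theorem vc_short (D e N : ℤ) : ∃ C : VariableChange ℚ, (C.u : ℚ) = 1 / 2 ∧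
    C • Shq (D ^ 2 * (N ^ 2 - 3 * e ^ 2)) (D ^ 3 * (2 * e ^ 3 - N ^ 2 * e)) =
      Pool.Agent.TH841.LS.WI (D * (3 * e + 2 * N)) (D * (3 * e - 2 * N)) := by
  refine ⟨⟨Units.mk0 (1 / 2) (by norm_num), (D * e : ℤ), 0, 0⟩, rfl, ?_⟩
  apply WeierstrassCurve.ext
  · rw [variableChange_a₁]
    simp [Shq, Pool.Agent.TH841.LS.WI]
  · rw [variableChange_a₂]
    simp only [Shq, Pool.Agent.TH841.LS.WI, Units.val_inv_eq_inv_val, Units.val_mk0]
    push_cast
    ring
  · rw [variableChange_a₃]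
    simp [Shq, Pool.Agent.TH841.LS.WI]
  · rw [variableChange_a₄]
    simp only [Shq, Pool.Agent.TH841.LS.WI, Units.val_inv_eq_inv_val, Units.val_mk0]
    push_cast
    ring
  · rw [variableChange_a₆]
    simp only [Shq, Pool.Agent.TH841.LS.WI, Units.val_inv_eq_inv_val, Units.val_mk0]
    push_cast
    ring

open scoped Classical in
/-- the groups of the short equation -/
theorem short_iso {D e N : ℤ}
    (hD : (Pool.Agent.TH841.LS.WI (D * (3 * e + 2 * N)) (D * (3 * e - 2 * N))).Δ ≠ 0) :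
    Nonempty (Sha (Pool.Agent.TH841.LS.WI (D * (3 * e + 2 * N)) (D * (3 * e - 2 * N))) ≃+
      Sha (Shq (D ^ 2 * (N ^ 2 - 3 * e ^ 2)) (D ^ 3 * (2 * e ^ 3 - N ^ 2 * e)))) ∧
    rk (Shq (D ^ 2 * (N ^ 2 - 3 * e ^ 2)) (D ^ 3 * (2 * e ^ 3 - N ^ 2 * e))) =
      rk (Pool.Agent.TH841.LS.WI (D * (3 * e + 2 * N)) (D * (3 * e - 2 * N))) := by
  obtain ⟨C, -, hC⟩ := vc_short D e N
  have hv := vr_of_smul hC
  refine ⟨⟨shaIQ (isoVR hv hD)⟩, ?_⟩
  unfold rk
  have e1 := (hv.equiv hD)
  have e2 := LinearEquiv.finrank_eq e1.toIntLinearEquiv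
  exact e2.symm

end Pool.Agent.R421.EK
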