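import Mathlib
import Pool.Agent.R421.EK.SelAbs
import Pool.Agent.R421.EK.ShaVC
import Pool.Agent.Y214.SX.Rk
import Pool.Agent.Y682.Tors
import Pool.Agent.Y833.SX.Sel

/-!
# Project EK: the Selmer groups and the Tate-Shafarevich group
-/

set_option autoImplicit false
set_option linter.all false

namespace Pool.Agent.R421.EK

open WeierstrassCurve

open Pool.Agent.TH841.SH.D

open Pool.Agent.Y667.SX (Sel2H sel2Coc cob2 IsSel2 IsTwo IsCob2)

open Pool.Agent.Y667.BK (SelInf selInfCoc cobInf IsSelInf IsTor2 IsCobInf)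

open Pool.Agent.Y833.SX (PC cb ga sha_cob)

open Pool.Agent.R431.NO (fr_pt fg_EQ fg_aux)

open Pool.Agent.Y655.XT (Iso)

/-- the coboundary of a point -/
noncomputable def dh (W : WeierstrassCurve ℚ) : PC W →+ Coch W :=
  AddMonoidHom.mk' (fun P => cb W P) (fun P Q => by
    funext σ
    have h : ga W σ (P + Q) = ga W σ P + ga W σ Q := map_add _ _ _
    change ga W σ (P + Q) - (P + Q) = (ga W σ P - P) + (ga W σ Q - Q)
    rw [h]
    abel)

variable {W : WeierstrassCurve ℚ}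

lemma dh_sha (P : PC W) : dh W P ∈ shaCoc W := sha_cob W P

lemma mem_cobW (f : Coch W) : f ∈ cob W ↔ ∃ P, f = dh W P := by
  constructor
  · rintro ⟨P, hP⟩
    exact ⟨P, funext hP⟩
  · rintro ⟨P, rfl⟩
    exact ⟨P, fun _ => rfl⟩

/-- the cocycles killed by `m` -/
def Sm (W : WeierstrassCurve ℚ) (m : ℕ) : AddSubgroup (Coch W) where
  carrier := {f | f ∈ shaCoc W ∧ m • f = 0}
  zero_mem' := ⟨(shaCoc W).zero_mem, smul_zero m⟩
  add_mem' := by
    rintro a b ⟨h1, h2⟩ ⟨h3, h4⟩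
    exact ⟨(shaCoc W).add_mem h1 h3, by rw [smul_add, h2, h4, add_zero]⟩
  neg_mem' := by
    rintro a ⟨h1, h2⟩
    exact ⟨(shaCoc W).neg_mem h1, by rw [smul_neg, h2, neg_zero]⟩

/-- the coboundaries of the points killed by `m` -/
def Hm (W : WeierstrassCurve ℚ) (m : ℕ) : AddSubgroup (Coch W) where
  carrier := {f | ∃ P, m • P = 0 ∧ f = dh W P}
  zero_mem' := ⟨0, smul_zero m, (map_zero _).symm⟩
  add_mem' := by
    rintro a b ⟨P, h1, rfl⟩ ⟨Q, h3, rfl⟩
    exact ⟨P + Q, by rw [smul_add, h1, h3, add_zero], (map_add _ _ _).symm⟩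
  neg_mem' := by
    rintro a ⟨P, h1, rfl⟩
    exact ⟨-P, by rw [smul_neg, h1, neg_zero], (map_neg _ _).symm⟩

lemma two_coch (f : Coch W) : 2 • f = 0 ↔ ∀ σ, f σ + f σ = 0 := by
  rw [two_nsmul]
  constructor
  · intro h σ
    exact congrFun h σ
  · intro h
    funext σ
    exact h σ

lemma Sm_two : Sm W 2 = sel2Coc W := by
  ext f
  change (f ∈ shaCoc W ∧ 2 • f = 0) ↔ (IsShaCoc W f ∧ IsTwo W f)
  rw [two_coch]
  rfl

lemma Hm_two : Hm W 2 = cob2 W := by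
  ext f
  constructor
  · rintro ⟨P, h1, rfl⟩
    exact ⟨P, by rw [← two_nsmul]; exact h1, fun σ => rfl⟩
  · rintro ⟨P, h1, h2⟩
    exact ⟨P, by rw [two_nsmul]; exact h1, funext h2⟩

/-- halving -/
def Hdiv (W : WeierstrassCurve ℚ) : Prop := ∀ P : PC W, ∃ Q, P = Q + Q

lemma div_pow (h : Hdiv W) (j : ℕ) (P : PC W) : ∃ Q, P = (2 ^ j : ℕ) • Q := by
  induction j generalizing P with
  | zero => exact ⟨P, by rw [pow_zero, one_smul]⟩
  | succ j ih =>
    obtain ⟨Q, rfl⟩ := h P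
    obtain ⟨R, rfl⟩ := ih Q
    exact ⟨R, by rw [pow_succ, mul_smul, two_nsmul, smul_add]⟩

theorem card_Sm (h : Hdiv W) (j : ℕ) :
    Nat.card (Sm W (2 ^ j) ⧸ (Hm W (2 ^ j)).addSubgroupOf (Sm W (2 ^ j))) =
      Nat.card {x : Sha W // (2 ^ j) • x = 0} *
        Nat.card ((dh W).ker ⧸ (nsmulAddMonoidHom (α := (dh W).ker) (2 ^ j)).range) :=
  sel_card (dh W) (shaCoc W) (Sm W (2 ^ j)) (Hm W (2 ^ j)) (cob W) (2 ^ j) dh_sha mem_cobW
    (fun f => Iff.rfl) (fun f => Iff.rfl) (div_pow h j)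

/-- change of the name of the type -/
def toPC (W : WeierstrassCurve ℚ) (x : Pool.Agent.W262.SH.Pt W Pool.Agent.W262.SH.QB) : PC W := x

/-- the rational points -/
theorem ker_rat (W : WeierstrassCurve ℚ) : Module.finrank ℤ (dh W).ker = rk W ∧
    (AddGroup.FG W.toAffine.Point → AddGroup.FG (dh W).ker) := by
  have hfx : ∀ P : PC W, P ∈ (dh W).ker ↔ ∀ σ : Gal ℚ, ga W σ P = P := by
    intro P
    rw [AddMonoidHom.mem_ker]
    constructor
    · intro h σ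
      have h' : ga W σ P - P = 0 := congrFun h σ
      exact sub_eq_zero.1 h'
    · intro h
      funext σ
      exact sub_eq_zero.2 (h σ)
  obtain ⟨j0, hinj0, hfix0, hj0⟩ := Pool.Agent.TH841.SH.exists_rat W
  have hadd : ∀ P Q : W.toAffine.Point, toPC W (j0 (P + Q)) =
      toPC W (j0 P) + toPC W (j0 Q) := by
    classical
    exact fun P Q => map_add j0 P Q
  obtain ⟨j, hjd⟩ : ∃ j : W.toAffine.Point →+ PC W, ∀ P, j P = toPC W (j0 P) :=
    ⟨AddMonoidHom.mk' (fun P => toPC W (j0 P)) hadd, fun _ => rfl⟩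
  have hinj : Function.Injective j := fun P Q h => hinj0 (by
    have h' := h
    rw [hjd, hjd] at h'
    exact h')
  have hfix : ∀ (σ : Gal ℚ) (P : W.toAffine.Point), ga W σ (j P) = j P := by
    intro σ P
    rw [hjd]
    exact hfix0 σ P
  have hj : ∀ P : PC W, (∀ σ : Gal ℚ, ga W σ P = P) → ∃ q, j q = P := by
    intro P hP
    obtain ⟨q, hq⟩ := hj0 P hP
    exact ⟨q, by rw [hjd]; exact hq⟩
  have h1 : ∀ P, j P ∈ (dh W).ker := fun P => (hfx _).2 fun σ => hfix σ P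
  have hb : Function.Bijective (j.codRestrict (dh W).ker h1) := by
    refine ⟨fun P Q h => hinj (congrArg Subtype.val h), fun P => ?_⟩
    obtain ⟨q, hq⟩ := hj P.1 ((hfx _).1 P.2)
    exact ⟨q, Subtype.ext hq⟩
  have e := AddEquiv.ofBijective (j.codRestrict (dh W).ker h1) hb
  constructor
  · rw [← LinearEquiv.finrank_eq e.toIntLinearEquiv]
    rfl
  · intro hfg
    exact AddGroup.fg_of_surjective (f := e.toAddMonoidHom) e.surjective

/-- the number of the points of order two is at most four -/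
def Four (W : WeierstrassCurve ℚ) : Prop :=
  Nat.card {T : PC W // T + T = 0} = 4

theorem quot_le (hfg : AddGroup.FG W.toAffine.Point) (h4 : Four W) :
    Finite ((dh W).ker ⧸ (nsmulAddMonoidHom (α := (dh W).ker) 2).range) ∧
    Nat.card ((dh W).ker ⧸ (nsmulAddMonoidHom (α := (dh W).ker) 2).range) ≤ 2 ^ (rk W + 2) := by
  obtain ⟨h2, hfg0⟩ := ker_rat W
  have h1 := Pool.Agent.Y214.SX.card_quot (dh W).ker (hfg0 hfg)
  have hf4 : Finite {T : PC W // T + T = 0} :=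
    Nat.finite_of_card_ne_zero (by rw [h4]; norm_num)
  have hinj : Function.Injective (fun x : {x : (dh W).ker // x + x = 0} =>
      (⟨x.1.1, congrArg Subtype.val x.2⟩ : {T : PC W // T + T = 0})) := by
    intro x y h
    exact Subtype.ext (Subtype.ext (Subtype.mk.inj h))
  have h3 : Nat.card {x : (dh W).ker // x + x = 0} ≤ 4 := by
    rw [← h4]
    exact Nat.card_le_card_of_injective _ hinj
  have hf : Finite {x : (dh W).ker // x + x = 0} := Finite.of_injective _ hinj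
  have hpos : 0 < Nat.card {x : (dh W).ker // x + x = 0} :=
    @Nat.card_pos _ ⟨⟨0, add_zero 0⟩⟩ hf
  rw [h2] at h1
  constructor
  · apply Nat.finite_of_card_ne_zero
    rw [h1]
    positivity
  · rw [h1, pow_add]
    exact Nat.mul_le_mul_left _ h3

/-- **the bounds of the order of the 2-Selmer group** -/
theorem sel2_bd (h : Hdiv W) (hfg : AddGroup.FG W.toAffine.Point) (h4 : Four W)
    (hf : {x : Sha W | (2 ^ 1) • x = 0}.Finite) :
    Finite (Sel2H W) ∧ {x : Sha W | (2 ^ 1) • x = 0}.ncard ≤ Nat.card (Sel2H W) ∧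
      Nat.card (Sel2H W) ≤ {x : Sha W | (2 ^ 1) • x = 0}.ncard * 2 ^ (rk W + 2) := by
  obtain ⟨q1, q2⟩ := quot_le hfg h4
  have h1 := card_Sm h 1
  have e0 : (2 : ℕ) ^ 1 = 2 := pow_one 2
  have e1 : {x : Sha W | (2 ^ 1) • x = 0}.ncard = Nat.card {x : Sha W // (2 ^ 1) • x = 0} :=
    (Nat.card_coe_set_eq _).symm
  have hfin : Finite {x : Sha W // (2 ^ 1) • x = 0} := hf
  have hp1 : 0 < Nat.card {x : Sha W // (2 ^ 1) • x = 0} := @Nat.card_pos _ ⟨⟨0, smul_zero _⟩⟩ hfin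
  have hp2 : 0 < Nat.card ((dh W).ker ⧸ (nsmulAddMonoidHom (α := (dh W).ker) 2).range) :=
    Nat.card_pos
  have h2 : Nat.card (Sel2H W) = Nat.card {x : Sha W // (2 ^ 1) • x = 0} *
      Nat.card ((dh W).ker ⧸ (nsmulAddMonoidHom (α := (dh W).ker) 2).range) := by
    rw [e0] at h1 ⊢
    rw [← h1]
    unfold Sel2H
    rw [← Sm_two, ← Hm_two]
  refine ⟨?_, ?_, ?_⟩
  · apply Nat.finite_of_card_ne_zero
    rw [h2]
    positivity
  · rw [e1, h2]
    exact Nat.le_mul_of_pos_right _ hp2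
  · rw [e1, h2]
    exact Nat.mul_le_mul_left _ q2

lemma pow_coch (f : Coch W) (j : ℕ) (h : (2 ^ j) • f = 0) : ∀ σ, (2 ^ j : ℕ) • f σ = 0 :=
  fun σ => congrFun h σ

lemma Sm_inf (j : ℕ) : Sm W (2 ^ j) ≤ selInfCoc W := by
  rintro f ⟨h1, h2⟩
  exact ⟨h1, fun σ => ⟨j, pow_coch f j h2 σ⟩⟩

lemma dh_inf {P : PC W} (hP : ∃ m : ℕ, (2 ^ m : ℕ) • P = 0) :
    dh W P ∈ cobInf W := ⟨P, hP, fun _ => rfl⟩

/-- **the bounds of the order of the `2 ^ j`-torsion of the `2 ^ ∞`-Selmer group** -/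
theorem selInf_bd (h : Hdiv W) (hfg : AddGroup.FG W.toAffine.Point) (h4 : Four W) (j : ℕ)
    (hf : {x : Sha W | (2 ^ j) • x = 0}.Finite) :
    {x : SelInf W | (2 ^ j) • x = 0}.Finite ∧
      {x : Sha W | (2 ^ j) • x = 0}.ncard ≤ {x : SelInf W | (2 ^ j) • x = 0}.ncard ∧
      {x : SelInf W | (2 ^ j) • x = 0}.ncard ≤
        {x : Sha W | (2 ^ j) • x = 0}.ncard * (2 ^ (rk W + 2)) ^ j := by
  obtain ⟨q1, q2⟩ := quot_le hfg h4
  obtain ⟨q3, q4⟩ := quot_pow (dh W).ker _ q2 j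
  have h1 := card_Sm h j
  have e1 : {x : Sha W | (2 ^ j) • x = 0}.ncard = Nat.card {x : Sha W // (2 ^ j) • x = 0} :=
    (Nat.card_coe_set_eq _).symm
  have e2 : {x : SelInf W | (2 ^ j) • x = 0}.ncard = Nat.card {x : SelInf W // (2 ^ j) • x = 0} :=
    (Nat.card_coe_set_eq _).symm
  have hfin : Finite {x : Sha W // (2 ^ j) • x = 0} := hf
  have hp1 : 0 < Nat.card {x : Sha W // (2 ^ j) • x = 0} := @Nat.card_pos _ ⟨⟨0, smul_zero _⟩⟩ hfin
  have hp2 : 0 < Nat.card ((dh W).ker ⧸ (nsmulAddMonoidHom (α := (dh W).ker) (2 ^ j)).range) :=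
    Nat.card_pos
  have hSf : Finite (Sm W (2 ^ j) ⧸ (Hm W (2 ^ j)).addSubgroupOf (Sm W (2 ^ j))) := by
    apply Nat.finite_of_card_ne_zero
    rw [h1]
    positivity
  -- the map to the `2 ^ ∞`-Selmer group
  have hle : (Hm W (2 ^ j)).addSubgroupOf (Sm W (2 ^ j)) ≤
      ((cobInf W).addSubgroupOf (selInfCoc W)).comap (AddSubgroup.inclusion (Sm_inf j)) := by
    intro f hf
    rw [AddSubgroup.mem_addSubgroupOf] at hf
    rw [AddSubgroup.mem_comap, AddSubgroup.mem_addSubgroupOf]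
    obtain ⟨P, hP, hP'⟩ := hf
    have : (f : Coch W) ∈ cobInf W := by
      rw [hP']
      exact dh_inf ⟨j, hP⟩
    exact this
  let ρ : (Sm W (2 ^ j) ⧸ (Hm W (2 ^ j)).addSubgroupOf (Sm W (2 ^ j))) →+
      (selInfCoc W ⧸ (cobInf W).addSubgroupOf (selInfCoc W)) :=
    QuotientAddGroup.map _ _ (AddSubgroup.inclusion (Sm_inf j)) hle
  have hker : ∀ y : selInfCoc W ⧸ (cobInf W).addSubgroupOf (selInfCoc W), (2 ^ j : ℕ) • y = 0 →
      ∃ z, ρ z = y := by
    intro y hy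
    obtain ⟨f, rfl⟩ := QuotientAddGroup.mk_surjective y
    rw [← QuotientAddGroup.mk_nsmul, QuotientAddGroup.eq_zero_iff,
      AddSubgroup.mem_addSubgroupOf] at hy
    obtain ⟨P, hPm, hP⟩ := hy
    obtain ⟨Q, rfl⟩ := div_pow h j P
    have hP' : (2 ^ j : ℕ) • f.1 = dh W ((2 ^ j : ℕ) • Q) := funext hP
    have hQm : ∃ m : ℕ, (2 ^ m : ℕ) • Q = 0 := by
      obtain ⟨m, hm⟩ := hPm
      exact ⟨m + j, by rw [pow_add, mul_smul]; exact hm⟩
    have hmem : f.1 - dh W Q ∈ Sm W (2 ^ j) := by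
      refine ⟨(shaCoc W).sub_mem f.2.1 (dh_sha Q), ?_⟩
      rw [nsmul_sub, hP', map_nsmul, sub_self]
    refine ⟨QuotientAddGroup.mk ⟨f.1 - dh W Q, hmem⟩, ?_⟩
    change (QuotientAddGroup.mk (AddSubgroup.inclusion (Sm_inf j) ⟨f.1 - dh W Q, hmem⟩) :
      selInfCoc W ⧸ (cobInf W).addSubgroupOf (selInfCoc W)) = QuotientAddGroup.mk f
    rw [QuotientAddGroup.eq, AddSubgroup.mem_addSubgroupOf]
    have e3 : -(f.1 - dh W Q) + f.1 = dh W Q := by abel
    have e4 : ((-(AddSubgroup.inclusion (Sm_inf j) ⟨f.1 - dh W Q, hmem⟩) + f : selInfCoc W) :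
      Coch W) = -(f.1 - dh W Q) + f.1 := rfl
    rw [e4, e3]
    exact dh_inf hQm
  have hfinI : {x : SelInf W | (2 ^ j) • x = 0}.Finite := by
    refine (Set.finite_range ρ).subset ?_
    intro y hy
    exact hker y hy
  have hup : {x : SelInf W | (2 ^ j) • x = 0}.ncard ≤
      Nat.card (Sm W (2 ^ j) ⧸ (Hm W (2 ^ j)).addSubgroupOf (Sm W (2 ^ j))) := by
    have h5 : {x : SelInf W | (2 ^ j) • x = 0} ⊆ Set.range ρ := fun y hy => hker y hy
    refine (Set.ncard_le_ncard h5 (Set.finite_range ρ)).trans ?_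
    rw [← Nat.card_coe_set_eq]
    exact Finite.card_range_le ρ
  -- the map to the Tate-Shafarevich group
  have hle2 : (cobInf W).addSubgroupOf (selInfCoc W) ≤
      ((cob W).addSubgroupOf (shaCoc W)).comap
        (AddSubgroup.inclusion (show selInfCoc W ≤ shaCoc W from fun f hf => hf.1)) := by
    intro f hf
    rw [AddSubgroup.mem_addSubgroupOf] at hf
    rw [AddSubgroup.mem_comap, AddSubgroup.mem_addSubgroupOf]
    obtain ⟨P, hP, hP'⟩ := hf
    exact ⟨P, hP'⟩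
  let τ : (selInfCoc W ⧸ (cobInf W).addSubgroupOf (selInfCoc W)) →+
      (shaCoc W ⧸ (cob W).addSubgroupOf (shaCoc W)) := QuotientAddGroup.map _ _ _ hle2
  have hsur : ∀ x : shaCoc W ⧸ (cob W).addSubgroupOf (shaCoc W), (2 ^ j : ℕ) • x = 0 →
      ∃ y, (2 ^ j : ℕ) • y = 0 ∧ τ y = x := by
    intro x hx
    obtain ⟨f, rfl⟩ := QuotientAddGroup.mk_surjective x
    rw [← QuotientAddGroup.mk_nsmul, QuotientAddGroup.eq_zero_iff,
      AddSubgroup.mem_addSubgroupOf] at hx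
    obtain ⟨P, hP⟩ := hx
    obtain ⟨Q, rfl⟩ := div_pow h j P
    have hP' : (2 ^ j : ℕ) • f.1 = dh W ((2 ^ j : ℕ) • Q) := funext hP
    have hmem : f.1 - dh W Q ∈ Sm W (2 ^ j) := by
      refine ⟨(shaCoc W).sub_mem f.2 (dh_sha Q), ?_⟩
      rw [nsmul_sub, hP', map_nsmul, sub_self]
    refine ⟨QuotientAddGroup.mk ⟨f.1 - dh W Q, Sm_inf j hmem⟩, ?_, ?_⟩
    · rw [← QuotientAddGroup.mk_nsmul]
      have : (2 ^ j : ℕ) • (⟨f.1 - dh W Q, Sm_inf j hmem⟩ : selInfCoc W) = 0 :=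
        Subtype.ext hmem.2
      rw [this, QuotientAddGroup.mk_zero]
    · change (QuotientAddGroup.mk (⟨f.1 - dh W Q, hmem.1⟩ : shaCoc W) :
        shaCoc W ⧸ (cob W).addSubgroupOf (shaCoc W)) = QuotientAddGroup.mk f
      rw [QuotientAddGroup.eq, AddSubgroup.mem_addSubgroupOf]
      have e3 : -(f.1 - dh W Q) + f.1 = dh W Q := by abel
      have e4 : ((-(⟨f.1 - dh W Q, hmem.1⟩ : shaCoc W) + f : shaCoc W) : Coch W) =
        -(f.1 - dh W Q) + f.1 := rfl
      rw [e4, e3, mem_cobW]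
      exact ⟨Q, rfl⟩
  have hlow : {x : Sha W | (2 ^ j) • x = 0}.ncard ≤ {x : SelInf W | (2 ^ j) • x = 0}.ncard := by
    have h5 : {x : Sha W | (2 ^ j) • x = 0} ⊆ τ '' {x : SelInf W | (2 ^ j) • x = 0} := by
      intro x hx
      obtain ⟨y, hy1, hy2⟩ := hsur x hx
      exact ⟨y, hy1, hy2⟩
    exact (Set.ncard_le_ncard h5 (hfinI.image _)).trans (Set.ncard_image_le hfinI)
  refine ⟨hfinI, hlow, hup.trans ?_⟩
  rw [h1, e1]
  exact Nat.mul_le_mul_left _ q4

end Pool.Agent.R421.EK
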