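import Mathlib
import Pool.Agent.R421.EK.SelW

/-!
# Project EK: the Selmer groups of the curves of the family
-/

set_option autoImplicit false
set_option linter.all false

namespace Pool.Agent.R421.EK

open WeierstrassCurve

open Pool.Agent.TH841.SH.D

open Pool.Agent.TH841.LS (WI T0)

open Pool.Agent.TH841.PT (EQ isR_EQ)

open Pool.Agent.Y667.SX (Sel2H)

open Pool.Agent.Y667.BK (SelInf)

open Pool.Agent.Y833.SX (PC cb ga sha_cob)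

open Pool.Agent.Y676.IS (exists_NH bcQ tri)

open Pool.Agent.R431.NO (fr_pt fg_EQ fg_aux OkS typ1)

open Pool.Agent.Y655.XT (Iso isoVR vr_of_smul)

open Pool.Agent.Y682 (IsT)

lemma isT_WI {A B : ℤ} (h : A ≠ B) (hA : A ≠ 0) (hB : B ≠ 0) :
    IsT (WI A B) (2 * ((A : ℚ) + B)) (((A : ℚ) - B) ^ 2) where
  h1 := rfl
  h2 := rfl
  h3 := rfl
  h4 := rfl
  h6 := rfl
  hB := pow_ne_zero 2 (sub_ne_zero.2 (by exact_mod_cast h))
  hD := by
    have e : (2 * ((A : ℚ) + B)) ^ 2 - 4 * (((A : ℚ) - B) ^ 2) = 16 * (A * B) := by ring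
    rw [e]
    exact mul_ne_zero (by norm_num) (mul_ne_zero (by exact_mod_cast hA) (by exact_mod_cast hB))

lemma hdiv_WI {A B : ℤ} (h : A ≠ B) (hA : A ≠ 0) (hB : B ≠ 0) : Hdiv (WI A B) :=
  fun P => Pool.Agent.Y682.exists_half (isT_WI h hA hB) P

lemma four_WI {A B : ℤ} (h : A ≠ B) (hA : A ≠ 0) (hB : B ≠ 0) : Four (WI A B) := by
  obtain ⟨r, s, hR, hrs1, hrs2, hr0, hs0, hrs⟩ :=
    ((isT_WI h hA hB).base (L := AlgebraicClosure ℚ)).roots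
  exact @Pool.Agent.Y833.SX.card_tors _ _ (Classical.decEq _) _ _ _ _ hR two_ne_zero hr0.symm
    hs0.symm hrs

lemma fg_WI {A B : ℤ} (h : A ≠ B) (hA : A ≠ 0) (hB : B ≠ 0) :
    AddGroup.FG (WI A B).toAffine.Point := by
  obtain ⟨ψ, φ, h1, h2, h3⟩ := exists_NH h hA hB
  have hE : AddGroup.FG (Pt (EQ A B) ℚ) := fg_aux _ _ (bcQ (EQ A B)) inferInstance
    (Classical.decEq ℚ) (fg_EQ h hA hB)
  have hEf : Module.Finite ℤ (Pt (EQ A B) ℚ) := Module.Finite.iff_addGroup_fg.2 hE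
  have hEn : IsNoetherian ℤ (Pt (EQ A B) ℚ) := isNoetherian_of_isNoetherianRing_of_finite ℤ _
  have hW : AddGroup.FG (Pt (WI A B) ℚ) := by
    rw [← Module.Finite.iff_addGroup_fg]
    refine ⟨Submodule.fg_of_fg_map_of_fg_inf_ker (ψ.f ℚ).toIntLinearMap
      (IsNoetherian.noetherian _) ?_⟩
    rw [top_inf_eq]
    have hfin : Finite (LinearMap.ker (ψ.f ℚ).toIntLinearMap) := by
      have : (((LinearMap.ker (ψ.f ℚ).toIntLinearMap) : Submodule ℤ (Pt (WI A B) ℚ)) :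
          Set (Pt (WI A B) ℚ)) ⊆ {0, T0 h ℚ} := by
        intro P hP
        have hP' : ψ.f ℚ P = 0 := hP
        exact h3 ℚ P hP'
      exact (Set.toFinite _).subset this
    have : Module.Finite ℤ (LinearMap.ker (ψ.f ℚ).toIntLinearMap) := inferInstance
    exact (Module.Finite.iff_fg).1 this
  exact fg_aux ((WI A B).baseChange ℚ) (WI A B) (bcQ (WI A B)).symm (Classical.decEq ℚ)
    inferInstance hW

lemma del_WI {A B : ℤ} (h : A ≠ B) (hA : A ≠ 0) (hB : B ≠ 0) : (WI A B).Δ ≠ 0 := by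
  have e : (WI A B).Δ = 256 * (A * B) * ((A : ℚ) - B) ^ 4 := by
    unfold WI WeierstrassCurve.Δ WeierstrassCurve.b₂ WeierstrassCurve.b₄ WeierstrassCurve.b₆
      WeierstrassCurve.b₈
    simp only
    ring
  rw [e]
  exact mul_ne_zero (mul_ne_zero (by norm_num) (mul_ne_zero (by exact_mod_cast hA)
    (by exact_mod_cast hB))) (pow_ne_zero 4 (sub_ne_zero.2 (by exact_mod_cast h)))

/-- transport of the hypotheses -/
lemma hdiv_iso {W W' : WeierstrassCurve ℚ} (I : Iso W W') (h : Hdiv W') : Hdiv W := by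
  intro P
  obtain ⟨Q, hQ⟩ := h ((I.e _).symm P)
  refine ⟨I.e _ Q, ?_⟩
  rw [← map_add]
  exact ((I.e _).symm_apply_eq.1 hQ)

lemma four_iso {W W' : WeierstrassCurve ℚ} (I : Iso W W') (h : Four W') : Four W := by
  unfold Four at h ⊢
  rw [← h]
  refine Nat.card_congr (Equiv.subtypeEquiv (I.e _).symm.toEquiv fun T => ?_)
  change T + T = 0 ↔ (I.e _).symm T + (I.e _).symm T = 0
  rw [← map_add, map_eq_zero_iff _ (I.e _).symm.injective]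

/-- **the curve of the family and its Selmer groups** -/
theorem fam_sel {D e N : ℤ} {lo hi : ℝ} {R : ℕ}
    (h : OkS lo hi R (D * (3 * e + 2 * N), D * (3 * e - 2 * N))) :
    rk (Shq (D ^ 2 * (N ^ 2 - 3 * e ^ 2)) (D ^ 3 * (2 * e ^ 3 - N ^ 2 * e))) ≤ R ∧
    (∀ j : ℕ, 1 ≤ j → {x : Sha (Shq (D ^ 2 * (N ^ 2 - 3 * e ^ 2))
        (D ^ 3 * (2 * e ^ 3 - N ^ 2 * e))) | (2 ^ j) • x = 0}.Finite ∧
      lo ≤ Real.logb 2 ({x : Sha (Shq (D ^ 2 * (N ^ 2 - 3 * e ^ 2))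
        (D ^ 3 * (2 * e ^ 3 - N ^ 2 * e))) | (2 ^ j) • x = 0}.ncard) ∧
      Real.logb 2 ({x : Sha (Shq (D ^ 2 * (N ^ 2 - 3 * e ^ 2))
        (D ^ 3 * (2 * e ^ 3 - N ^ 2 * e))) | (2 ^ j) • x = 0}.ncard) ≤
        hi + ((R + 1 : ℕ) : ℝ) * j) ∧
    (Finite (Sel2H (Shq (D ^ 2 * (N ^ 2 - 3 * e ^ 2)) (D ^ 3 * (2 * e ^ 3 - N ^ 2 * e)))) ∧
      lo ≤ Real.logb 2 (Nat.card (Sel2H (Shq (D ^ 2 * (N ^ 2 - 3 * e ^ 2))
        (D ^ 3 * (2 * e ^ 3 - N ^ 2 * e))))) ∧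
      Real.logb 2 (Nat.card (Sel2H (Shq (D ^ 2 * (N ^ 2 - 3 * e ^ 2))
        (D ^ 3 * (2 * e ^ 3 - N ^ 2 * e))))) ≤ hi + ((R + 1 : ℕ) : ℝ) + ((R + 2 : ℕ) : ℝ)) ∧
    (∀ j : ℕ, 1 ≤ j → {x : SelInf (Shq (D ^ 2 * (N ^ 2 - 3 * e ^ 2))
        (D ^ 3 * (2 * e ^ 3 - N ^ 2 * e))) | (2 ^ j) • x = 0}.Finite ∧
      lo ≤ Real.logb 2 ({x : SelInf (Shq (D ^ 2 * (N ^ 2 - 3 * e ^ 2))
        (D ^ 3 * (2 * e ^ 3 - N ^ 2 * e))) | (2 ^ j) • x = 0}.ncard) ∧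
      Real.logb 2 ({x : SelInf (Shq (D ^ 2 * (N ^ 2 - 3 * e ^ 2))
        (D ^ 3 * (2 * e ^ 3 - N ^ 2 * e))) | (2 ^ j) • x = 0}.ncard) ≤
        hi + ((R + 1 : ℕ) : ℝ) * j + ((R + 2 : ℕ) : ℝ) * j) := by
  classical
  obtain ⟨g1, g2, g3, -⟩ := id h
  have g1' : D * (3 * e + 2 * N) ≠ 0 := g1
  have g2' : D * (3 * e - 2 * N) ≠ 0 := g2
  have g3' : D * (3 * e + 2 * N) ≠ D * (3 * e - 2 * N) := g3
  obtain ⟨r1, r2⟩ := typ1 h
  have hD := del_WI g3' g1' g2'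
  obtain ⟨C, -, hC⟩ := vc_short D e N
  have hv := vr_of_smul hC
  have I := isoVR hv hD
  have hS := shaIQ I
  have hdv := hdiv_iso I (hdiv_WI g3' g1' g2')
  have h4 := four_iso I (four_WI g3' g1' g2')
  have hrk := (short_iso hD).2
  have hfg : AddGroup.FG (Shq (D ^ 2 * (N ^ 2 - 3 * e ^ 2))
      (D ^ 3 * (2 * e ^ 3 - N ^ 2 * e))).toAffine.Point := by
    have h0 := fg_WI g3' g1' g2'
    have h0' := fg_aux _ _ rfl _ (fun a b => Classical.propDecidable (a = b)) h0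
    have e1 := (hv.equiv hD)
    exact AddGroup.fg_of_surjective (f := e1.toAddMonoidHom) e1.surjective
  obtain ⟨W, hW⟩ : ∃ W, W = Shq (D ^ 2 * (N ^ 2 - 3 * e ^ 2)) (D ^ 3 * (2 * e ^ 3 - N ^ 2 * e)) :=
    ⟨_, rfl⟩
  rw [← hW] at hS hdv h4 hrk hfg ⊢
  have hr1 : rk W ≤ R := by
    rw [hrk]
    exact r1
  have hsha : ∀ j : ℕ, 1 ≤ j → {x : Sha W | (2 ^ j) • x = 0}.Finite ∧
      lo ≤ Real.logb 2 ({x : Sha W | (2 ^ j) • x = 0}.ncard) ∧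
      Real.logb 2 ({x : Sha W | (2 ^ j) • x = 0}.ncard) ≤ hi + ((R + 1 : ℕ) : ℝ) * j := by
    intro j hj
    obtain ⟨k1, k2, k3, -⟩ := r2 j hj
    obtain ⟨t1, t2⟩ := tor_iso hS (2 ^ j)
    rw [← t2]
    exact ⟨t1.1 k1, k2, k3⟩
  have hlog : ∀ a b K : ℕ, 0 < a → a ≤ b → b ≤ a * 2 ^ K → Real.logb 2 a ≤ Real.logb 2 b ∧
      Real.logb 2 b ≤ Real.logb 2 a + K := by
    intro a b K ha hab hb
    have har : (0 : ℝ) < a := by exact_mod_cast ha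
    have hbr : (0 : ℝ) < b := by exact_mod_cast lt_of_lt_of_le ha hab
    constructor
    · exact Real.logb_le_logb_of_le (by norm_num) har (by exact_mod_cast hab)
    · have h1 : (b : ℝ) ≤ a * 2 ^ K := by exact_mod_cast hb
      have h2 := Real.logb_le_logb_of_le (by norm_num : (1 : ℝ) < 2) hbr h1
      rw [Real.logb_mul har.ne' (by positivity), Real.logb_pow,
        Real.logb_self_eq_one (by norm_num), mul_one] at h2
      exact h2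
  have hpos : ∀ j : ℕ, 1 ≤ j → 0 < {x : Sha W | (2 ^ j) • x = 0}.ncard := by
    intro j hj
    rw [Set.ncard_pos (hsha j hj).1]
    exact ⟨0, smul_zero _⟩
  refine ⟨hr1, hsha, ?_, ?_⟩
  · obtain ⟨s1, s2, s3⟩ := hsha 1 le_rfl
    obtain ⟨b1, b2, b3⟩ := sel2_bd hdv hfg h4 s1
    have b3' : Nat.card (Sel2H W) ≤ {x : Sha W | (2 ^ 1) • x = 0}.ncard * 2 ^ (R + 2) :=
      b3.trans (Nat.mul_le_mul_left _ (Nat.pow_le_pow_right (by norm_num) (by omega)))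
    obtain ⟨l1, l2⟩ := hlog _ _ _ (hpos 1 le_rfl) b2 b3'
    refine ⟨b1, s2.trans l1, ?_⟩
    push_cast at l2 s3 ⊢
    linarith
  · intro j hj
    obtain ⟨s1, s2, s3⟩ := hsha j hj
    obtain ⟨b1, b2, b3⟩ := selInf_bd hdv hfg h4 j s1
    have b3' : {x : SelInf W | (2 ^ j) • x = 0}.ncard ≤
        {x : Sha W | (2 ^ j) • x = 0}.ncard * 2 ^ ((R + 2) * j) := by
      refine b3.trans (Nat.mul_le_mul_left _ ?_)
      rw [pow_mul]
      exact Nat.pow_le_pow_left (Nat.pow_le_pow_right (by norm_num) (by omega)) j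
    obtain ⟨l1, l2⟩ := hlog _ _ _ (hpos j hj) b2 b3'
    refine ⟨b1, s2.trans l1, ?_⟩
    push_cast at l2 s3 ⊢
    linarith

/-- the quotient with full rational 2-torsion -/
theorem full_sel {A B : ℤ} {lo hi : ℝ} {R : ℕ} (h : OkS lo hi R (A, B)) :
    Finite (Sel2H (EQ A B)) ∧ Nat.card (Sel2H (EQ A B)) ≤ 2 ^ (R + 2) ∧ rk (EQ A B) ≤ R ∧
    ∀ j : ℕ, 1 ≤ j → {x : SelInf (EQ A B) | (2 ^ j) • x = 0}.Finite ∧
      {x : SelInf (EQ A B) | (2 ^ j) • x = 0}.ncard ≤ 2 ^ ((R + 2) * j) := by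
  obtain ⟨g1, g2, g3, g4, -⟩ := h
  have g1' : A ≠ 0 := g1
  have g2' : B ≠ 0 := g2
  have g3' : A ≠ B := g3
  have hR := isR_EQ A B
  have q1 : (0 : ℚ) ≠ A := by exact_mod_cast g1'.symm
  have q2 : (0 : ℚ) ≠ B := by exact_mod_cast g2'.symm
  have q3 : (A : ℚ) ≠ B := by exact_mod_cast g3'
  have hdv : Hdiv (EQ A B) := fun P => Pool.Agent.Y833.SX.div2 hR q1 q2 q3 P
  have h4 : Four (EQ A B) := Pool.Agent.Y833.SX.card4 hR q1 q2 q3
  have hfg := fg_EQ g3' g1' g2'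
  obtain ⟨k1, k2⟩ := g4 1 le_rfl
  rw [mul_one, mul_one] at k2
  obtain ⟨b1, b2, b3⟩ := sel2_bd hdv hfg h4 k1
  have hp : 0 < {x : Sha (EQ A B) | (2 ^ 1) • x = 0}.ncard := by
    rw [Set.ncard_pos k1]
    exact ⟨0, smul_zero _⟩
  refine ⟨b1, ?_, ?_, fun j hj => ?_⟩
  · calc Nat.card (Sel2H (EQ A B)) ≤ _ := b3
      _ = (2 ^ rk (EQ A B) * {x : Sha (EQ A B) | (2 ^ 1) • x = 0}.ncard) * 4 := by
        rw [pow_add]
        ring
      _ ≤ 2 ^ R * 4 := Nat.mul_le_mul_right _ k2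
      _ = _ := by rw [pow_add]; norm_num
  · exact (Nat.pow_le_pow_iff_right (by norm_num : 1 < 2)).1
      ((Nat.le_mul_of_pos_right _ hp).trans k2)
  · obtain ⟨m1, m2⟩ := g4 j hj
    obtain ⟨c1, c2, c3⟩ := selInf_bd hdv hfg h4 j m1
    refine ⟨c1, ?_⟩
    calc {x : SelInf (EQ A B) | (2 ^ j) • x = 0}.ncard ≤ _ := c3
      _ = (2 ^ (rk (EQ A B) * j) * {x : Sha (EQ A B) | (2 ^ j) • x = 0}.ncard) * 4 ^ j := by
        rw [pow_add, mul_pow, pow_mul]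
        ring
      _ ≤ 2 ^ (R * j) * 4 ^ j := Nat.mul_le_mul_right _ m2
      _ = _ := by
        rw [show (4 : ℕ) = 2 ^ 2 by norm_num, ← pow_mul, ← pow_add]
        congr 1
        ring

end Pool.Agent.R421.EK
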