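import Mathlib
import Pool.Agent.R421.EK.Hyp

/-!
# Project EK: the law of the curve itself, in the ordering by height
-/

set_option autoImplicit false
set_option linter.all false
set_option maxHeartbeats 1000000

namespace Pool.Agent.R421.EK

open Finset ProbabilityTheory MeasureTheory

open Pool.Agent.TH841.SH.D

open Pool.Agent.R431.NO (OkS typ1)

open Pool.Agent.Y667.SX (Sel2H)

open Pool.Agent.Y667.BK (SelInf)

open Pool.Agent.Y676.IS (tri)

/-- the mass of a large cube -/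
lemma big_cube {κ : Type} [Fintype κ] (μ : Measure (EuclideanSpace ℝ κ)) [IsProbabilityMeasure μ]
    (δ : ℝ) (hδ : 0 < δ) : ∃ m : ℕ, ∀ y : ℝ, (m : ℝ) ≤ y → 1 - δ ≤ μ.real {w | ∀ k, w k ≤ y} := by
  have h1 : Filter.Tendsto (fun m : ℕ => μ {w | ∀ k, w k ≤ (m : ℝ)}) Filter.atTop
      (nhds (μ Set.univ)) := by
    have e : (Set.univ : Set (EuclideanSpace ℝ κ)) = ⋃ m : ℕ, {w | ∀ k, w k ≤ (m : ℝ)} := by
      ext w
      simp only [Set.mem_univ, Set.mem_iUnion, true_iff]
      obtain ⟨m, hm⟩ := exists_nat_ge (∑ k, |w k|)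
      refine ⟨m, fun k => ?_⟩
      have h2 : |w k| ≤ ∑ k, |w k| :=
        single_le_sum (f := fun k => |w k|) (fun _ _ => abs_nonneg _) (mem_univ k)
      exact (le_abs_self _).trans (h2.trans hm)
    rw [e]
    refine tendsto_measure_iUnion_atTop ?_
    intro a b hab w hw k
    have h2 : (a : ℝ) ≤ b := by exact_mod_cast hab
    exact (hw k).trans h2
  have h2 := (ENNReal.tendsto_toReal (measure_ne_top _ _)).comp h1
  rw [measure_univ, ENNReal.toReal_one, Metric.tendsto_atTop] at h2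
  obtain ⟨m, hm⟩ := h2 δ hδ
  refine ⟨m, fun y hy => ?_⟩
  have h3 := hm m le_rfl
  rw [Real.dist_eq] at h3
  have h4 := (abs_lt.1 h3).1
  have h5 : μ.real {w | ∀ k, w k ≤ (m : ℝ)} ≤ μ.real {w | ∀ k, w k ≤ y} :=
    measureReal_mono (fun w hw k => (hw k).trans hy)
  change -δ < μ.real {w | ∀ k, w k ≤ (m : ℝ)} - 1 at h4
  linarith

/-- **the law of the curve itself and of its twists** -/
theorem ht_one {n : ℕ} (l0 : Fin n) (c : ℕ × ℕ) (hc : Cc c) (d : Fin n → ℤ) (hd : ∀ l, d l ≠ 0)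
    (hdd : ∀ l m, l ≠ m → ∀ r : ℤ, r ^ 2 ≠ d l * d m) (Λ : ℤ × ℤ → Fin 3 × Fin n → ℝ)
    (P : ℤ × ℤ → Prop) (hΛ : Stat d Λ P) (x : Fin n → ℝ) (ε : ℝ) (hε : 0 < ε) :
    ∃ R Y0 : ℕ, ∀ Y : ℕ, Y0 ≤ Y → ∀ K : Finset (ℤ × ℤ), (∀ t, t ∈ K ↔ Fht c Y t) →
      0 < K.card ∧
      (∀ B : Finset (ℤ × ℤ), B ⊆ K → (∀ t ∈ B, ¬ ∀ k : Fin 3 × Fin n, ∃ S : ℝ, Oks d R t k S) →
        (B.card : ℝ) ≤ ε * K.card) ∧
      ∀ ℓ : ℝ, |ℓ - Real.log (Real.log Y)| ≤ 5 →
      ∀ M : Finset (ℤ × ℤ), (∀ t, t ∈ M ↔ t ∈ K ∧ P t ∧ ∀ l, Lg Λ ℓ t (0, l) ≤ x l) →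
      |(M.card : ℝ) / K.card - (muT 3 n).real {w | ∀ l, w (0, l) ≤ x l}| ≤ ε := by
  classical
  obtain ⟨m, hm⟩ := big_cube (muT 3 n) (ε / 8) (by positivity)
  obtain ⟨y, hy⟩ : ∃ y : ℝ, y = m + ∑ l, |x l| := ⟨_, rfl⟩
  have hs0 : 0 ≤ ∑ l, |x l| := sum_nonneg fun _ _ => abs_nonneg _
  have hym : (m : ℝ) ≤ y := by rw [hy]; linarith
  have hxy : ∀ l, x l ≤ y := by
    intro l
    have h2 : |x l| ≤ ∑ l, |x l| :=
      single_le_sum (f := fun l => |x l|) (fun _ _ => abs_nonneg _) (mem_univ l)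
    have h3 : (0 : ℝ) ≤ m := Nat.cast_nonneg _
    rw [hy]
    linarith [le_abs_self (x l)]
  obtain ⟨x', hx'⟩ : ∃ x' : Fin 3 × Fin n → ℝ, x' = fun k => if k.1 = 0 then x k.2 else y :=
    ⟨_, rfl⟩
  obtain ⟨R1, Y1, h1⟩ := ht_main l0 c hc d hd hdd Λ P hΛ x' (ε / 4) (by positivity)
  obtain ⟨R2, Y2, h2⟩ := ht_main l0 c hc d hd hdd Λ P hΛ (fun _ => y) (ε / 4) (by positivity)
  refine ⟨R1, Y1 + Y2, fun Y hY K hK => ?_⟩
  obtain ⟨a1, a2, a3⟩ := h1 Y (by omega) K hK
  obtain ⟨-, -, b3⟩ := h2 Y (by omega) K hK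
  have hK0 : (0 : ℝ) < K.card := by exact_mod_cast a1
  refine ⟨a1, fun B hB1 hB2 => (a2 B hB1 hB2).trans (by nlinarith), fun ℓ hℓ M hM => ?_⟩
  obtain ⟨M1, hM1⟩ : ∃ M1, M1 = K.filter (fun t => P t ∧ ∀ k, Lg Λ ℓ t k ≤ x' k) := ⟨_, rfl⟩
  obtain ⟨M2, hM2⟩ : ∃ M2, M2 = K.filter (fun t => P t ∧ ∀ k, Lg Λ ℓ t k ≤ y) := ⟨_, rfl⟩
  have c1 := a3 ℓ hℓ M1 (fun t => by rw [hM1, mem_filter])
  have c2 := b3 ℓ hℓ M2 (fun t => by rw [hM2, mem_filter])
  have s1 : M1 ⊆ M := by
    intro t ht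
    rw [hM1, mem_filter] at ht
    rw [hM]
    refine ⟨ht.1, ht.2.1, fun l => ?_⟩
    have := ht.2.2 (0, l)
    rw [hx'] at this
    simpa using this
  have s2 : M ⊆ M1 ∪ (K \ M2) := by
    intro t ht
    rw [hM] at ht
    rw [mem_union, mem_sdiff]
    by_cases h : t ∈ M2
    · left
      rw [hM2, mem_filter] at h
      rw [hM1, mem_filter]
      refine ⟨ht.1, ht.2.1, fun k => ?_⟩
      rw [hx']
      by_cases hk : k.1 = 0
      · have e : k = (0, k.2) := Prod.ext hk rfl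
        simp only [hk, if_true]
        rw [e]
        exact ht.2.2 k.2
      · simp only [hk, if_false]
        exact h.2.2 k
    · exact Or.inr ⟨ht.1, h⟩
  have hsub2 : M2 ⊆ K := by
    rw [hM2]
    exact filter_subset _ _
  have d1 : (M1.card : ℝ) ≤ M.card := by exact_mod_cast card_le_card s1
  have d2 : (M.card : ℝ) ≤ M1.card + (K.card - M2.card) := by
    have h3 := (card_le_card s2).trans (card_union_le _ _)
    rw [card_sdiff_of_subset hsub2] at h3
    have h4 : M2.card ≤ K.card := card_le_card hsub2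
    have h5 : ((K.card - M2.card : ℕ) : ℝ) = (K.card : ℝ) - M2.card := by
      push_cast [h4]
      ring
    rw [← h5]
    exact_mod_cast h3
  have d1' : (M1.card : ℝ) / K.card ≤ (M.card : ℝ) / K.card :=
    div_le_div_of_nonneg_right d1 hK0.le
  have d2' : (M.card : ℝ) / K.card ≤ (M1.card : ℝ) / K.card + (1 - (M2.card : ℝ) / K.card) := by
    have e : (M1.card : ℝ) / K.card + (1 - (M2.card : ℝ) / K.card) =
        (M1.card + (K.card - M2.card)) / K.card := by
      field_simp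
    rw [e]
    exact div_le_div_of_nonneg_right d2 hK0.le
  have hcube := hm y hym
  have m1 : (muT 3 n).real {w | ∀ k, w k ≤ x' k} ≤ (muT 3 n).real {w | ∀ l, w (0, l) ≤ x l} := by
    refine measureReal_mono (fun w hw l => ?_)
    have := hw (0, l)
    rw [hx'] at this
    simpa using this
  have m2 : (muT 3 n).real {w | ∀ l, w (0, l) ≤ x l} ≤
      (muT 3 n).real {w | ∀ k, w k ≤ x' k} + (1 - (muT 3 n).real {w | ∀ k, w k ≤ y}) := by
    have hmeas : MeasurableSet {w : EuclideanSpace ℝ (Fin 3 × Fin n) | ∀ k, w k ≤ y} := by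
      have : {w : EuclideanSpace ℝ (Fin 3 × Fin n) | ∀ k, w k ≤ y} = ⋂ k, {w | w k ≤ y} := by
        ext w
        simp
      rw [this]
      exact MeasurableSet.iInter fun i => (isClosed_le (by fun_prop) continuous_const).measurableSet
    rw [← probReal_compl_eq_one_sub hmeas]
    refine le_trans (measureReal_mono (s₂ := {w | ∀ k, w k ≤ x' k} ∪ {w | ∀ k, w k ≤ y}ᶜ) ?_)
      (measureReal_union_le _ _)
    intro w hw
    by_cases h : ∀ k, w k ≤ y
    · left
      intro k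
      rw [hx']
      by_cases hk : k.1 = 0
      · have e : k = (0, k.2) := Prod.ext hk rfl
        simp only [hk, if_true]
        rw [e]
        exact hw k.2
      · simp only [hk, if_false]
        exact h k
    · exact Or.inr h
  rw [abs_le] at c1 c2 ⊢
  constructor
  · linarith [c1.1, c2.1]
  · linarith [c1.2, c2.1]

/-! ### One curve -/

/-- the marginal -/
lemma muT_one (x : ℝ) : (muT 3 1).real {w | ∀ l : Fin 1, w (0, l) ≤ x} =
    (gaussianReal 0 (5 / 2)).real (Set.Iic x) := by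
  have hm : Measurable (fun w : EuclideanSpace ℝ (Fin 3 × Fin 1) => w (0, 0)) := by fun_prop
  haveI : IsProbabilityMeasure ((muT 3 1).map (fun w => w (0, 0))) :=
    Measure.isProbabilityMeasure_map hm.aemeasurable
  have h1 : (muT 3 1).map (fun w => w (0, 0)) = gaussianReal 0 (5 / 2) := by
    apply Measure.ext_of_charFun
    funext t
    have h2 : charFun ((muT 3 1).map (fun w => w (0, 0))) t =
        charFun (muT 3 1) (WithLp.toLp 2 (fun k' => if k' = (0, 0) then t else 0)) := by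
      rw [charFun_apply, charFun_apply, integral_map hm.aemeasurable (by fun_prop)]
      refine integral_congr_ae (Filter.Eventually.of_forall fun w => ?_)
      beta_reduce
      congr 3
      rw [PiLp.inner_apply]
      simp only [RCLike.inner_apply, conj_trivial]
      rw [sum_eq_single ((0, 0) : Fin 3 × Fin 1)]
      · simp
      · intro b _ hb
        simp [hb]
      · intro h
        exact absurd (mem_univ _) h
    rw [h2, muT_char, charFun_gaussianReal, Complex.ofReal_exp]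
    congr 1
    have e1 : ∑ i, (∑ l, (if ((i, l) : Fin 3 × Fin 1) = (0, 0) then t else 0)) ^ 2 = t ^ 2 := by
      rw [sum_eq_single (0 : Fin 3)]
      · rw [sum_eq_single (0 : Fin 1)]
        · simp
        · intro b _ hb
          exact absurd (Subsingleton.elim _ _) hb
        · intro h
          exact absurd (mem_univ _) h
      · intro b _ hb
        rw [sum_eq_zero]
        · ring
        · intro l _
          rw [if_neg]
          intro h
          exact hb (congrArg Prod.fst h)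
      · intro h
        exact absurd (mem_univ _) h
    have e2 : ∑ k' : Fin 3 × Fin 1, (if k' = (0, 0) then t else 0) ^ 2 = t ^ 2 := by
      rw [sum_eq_single ((0, 0) : Fin 3 × Fin 1)]
      · simp
      · intro b _ hb
        simp [hb]
      · intro h
        exact absurd (mem_univ _) h
    rw [e1, e2]
    push_cast
    ring
  rw [← h1, map_measureReal_apply hm measurableSet_Iic]
  congr 1
  ext w
  rw [Set.mem_preimage, Set.mem_Iic, Set.mem_ofPred_eq]
  constructor
  · intro h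
    exact h 0
  · intro h l
    rw [Subsingleton.elim l 0]
    exact h

/-- the statistic of the curve itself and of its twists, from bounds for one curve -/
theorem stat_of {n : ℕ} (d : Fin n → ℤ) (F : ℤ → ℤ → ℤ → ℝ) (Q : ℤ → ℤ → ℤ → Prop)
    (hF : ∀ R : ℕ, ∃ C : ℝ, ∀ (D e N : ℤ) (S : ℝ),
      OkS (S - R) (S + R) R (D * (3 * e + 2 * N), D * (3 * e - 2 * N)) → |F D e N - S| ≤ C)
    (hQ : ∀ (R : ℕ) (D e N : ℤ) (S : ℝ),
      OkS (S - R) (S + R) R (D * (3 * e + 2 * N), D * (3 * e - 2 * N)) → Q D e N) :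
    ∃ Λ : ℤ × ℤ → Fin 3 × Fin n → ℝ, (∀ t l, Λ t (0, l) = F (d l) t.1 t.2) ∧
      Stat d Λ (fun t => ∀ l, Q (d l) t.1 t.2) := by
  classical
  have h0 := stat_sha d (fun _ => 1) (fun _ => le_rfl)
  refine ⟨fun t k => if k.1 = 0 then F (d k.2) t.1 t.2 else
    Real.logb 2 (Tw d k 1 (lf t)).ncard, fun t l => by simp, fun R => ?_, fun R t h l => ?_⟩
  · obtain ⟨C1, hC1⟩ := hF R
    obtain ⟨C2, hC2⟩ := h0.1 R
    refine ⟨max C1 C2, fun t k S hS => ?_⟩
    by_cases hk : k.1 = 0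
    · obtain ⟨i, l⟩ := k
      simp only at hk
      subst hk
      simp only [if_true]
      exact (hC1 (d l) t.1 t.2 S hS).trans (le_max_left _ _)
    · simp only [hk, if_false]
      exact (hC2 t k S hS).trans (le_max_right _ _)
  · obtain ⟨S, hS⟩ := h (0, l)
    exact hQ R (d l) t.1 t.2 S hS

end Pool.Agent.R421.EK
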