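import Mathlib
import Pool.Agent.R421.EK.Marg

/-!
# Project EK: limits in the ordering by height
-/

set_option autoImplicit false
set_option linter.all false
set_option maxHeartbeats 1000000

namespace Pool.Agent.R421.EK

open Finset ProbabilityTheory MeasureTheory Filter Topology

open Pool.Agent.TH841.SH.D

open Pool.Agent.R431.NO (OkS typ1)

open Pool.Agent.R421.NR (big_ll)

lemma fht_fin {c : ℕ × ℕ} (hc : Cc c) (Y : ℕ) : {t : ℤ × ℤ | Fht c Y t}.Finite := by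
  refine Set.Finite.subset (Finset.finite_toSet
    (Icc (-(2 * ((Y + 1 : ℕ) : ℤ))) (2 * ((Y + 1 : ℕ) : ℤ)) ×ˢ
      Icc (-(4 * ((Y + 1 : ℕ) : ℤ))) (4 * ((Y + 1 : ℕ) : ℤ)))) ?_
  intro t ht
  have h1 : Y ≤ (Y + 1) ^ 6 := (Nat.le_succ Y).trans (Nat.le_self_pow (by norm_num) _)
  obtain ⟨h2, h3⟩ := Hb_bd hc (Nat.succ_le_succ (Nat.zero_le Y)) h1 ht.1
  rw [mem_coe, mem_product, mem_Icc, mem_Icc]
  exact ⟨abs_le.1 h2, abs_le.1 h3⟩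

/-- the family -/
noncomputable def FS (c : ℕ × ℕ) (Y : ℕ) (S : Set (ℤ × ℤ)) : ℕ := {t : ℤ × ℤ | Fht c Y t ∧ t ∈ S}.ncard

lemma FS_card {c : ℕ × ℕ} (hc : Cc c) (Y : ℕ) (S : Set (ℤ × ℤ)) [DecidablePred (· ∈ S)] :
    FS c Y S = ((fht_fin hc Y).toFinset.filter (fun t => t ∈ S)).card := by
  unfold FS
  rw [← Set.ncard_coe_finset]
  congr 1
  ext t
  simp

/-- **limits** -/
theorem ht_lim {n : ℕ} (l0 : Fin n) (c : ℕ × ℕ) (hc : Cc c) (d : Fin n → ℤ) (hd : ∀ l, d l ≠ 0)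
    (hdd : ∀ l m, l ≠ m → ∀ r : ℤ, r ^ 2 ≠ d l * d m) (Λ : ℤ × ℤ → Fin 3 × Fin n → ℝ)
    (P : ℤ × ℤ → Prop) (hΛ : Stat d Λ P) (x : Fin n → ℝ) :
    Tendsto (fun Y : ℕ => (FS c Y {t | P t ∧ ∀ l, Lg Λ (Real.log (Real.log Y)) t (0, l) ≤ x l} : ℝ) /
      (FS c Y Set.univ : ℝ)) atTop (𝓝 ((muT 3 n).real {w | ∀ l, w (0, l) ≤ x l})) := by
  classical
  rw [Metric.tendsto_atTop]
  intro ε hε
  obtain ⟨R, Y0, h⟩ := ht_one l0 c hc d hd hdd Λ P hΛ x (ε / 2) (by positivity)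
  refine ⟨Y0, fun Y hY => ?_⟩
  obtain ⟨-, -, h3⟩ := h Y hY (fht_fin hc Y).toFinset (fun t => by simp)
  rw [Real.dist_eq, FS_card hc, FS_card hc]
  have h4 := h3 (Real.log (Real.log Y)) (by rw [sub_self, abs_zero]; norm_num)
    ((fht_fin hc Y).toFinset.filter (fun t => t ∈ {t | P t ∧
      ∀ l, Lg Λ (Real.log (Real.log Y)) t (0, l) ≤ x l})) (fun t => by
        rw [mem_filter]
        rfl)
  have e : ((fht_fin hc Y).toFinset.filter (fun t => t ∈ (Set.univ : Set (ℤ × ℤ)))) =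
      (fht_fin hc Y).toFinset := filter_true_of_mem fun t _ => Set.mem_univ t
  rw [e]
  linarith

/-- **tightness** -/
theorem ht_tight {n : ℕ} (l0 : Fin n) (c : ℕ × ℕ) (hc : Cc c) (d : Fin n → ℤ) (hd : ∀ l, d l ≠ 0)
    (hdd : ∀ l m, l ≠ m → ∀ r : ℤ, r ^ 2 ≠ d l * d m) (ε : ℝ) (hε : 0 < ε) :
    ∃ R Y0 : ℕ, ∀ Y : ℕ, Y0 ≤ Y → 0 < FS c Y Set.univ ∧
      ∀ S : Set (ℤ × ℤ), (∀ t, (∀ k : Fin 3 × Fin n, ∃ S : ℝ, Oks d R t k S) → t ∈ S) →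
      (1 - ε) * (FS c Y Set.univ : ℝ) ≤ (FS c Y S : ℝ) := by
  classical
  obtain ⟨R, Y0, h⟩ := ht_one l0 c hc d hd hdd _ _ (stat_sha d (fun _ => 1) (fun _ => le_rfl))
    (fun _ => 0) ε hε
  refine ⟨R, Y0, fun Y hY => ?_⟩
  obtain ⟨h1, h2, -⟩ := h Y hY (fht_fin hc Y).toFinset (fun t => by simp)
  have e : ((fht_fin hc Y).toFinset.filter (fun t => t ∈ (Set.univ : Set (ℤ × ℤ)))) =
      (fht_fin hc Y).toFinset := filter_true_of_mem fun t _ => Set.mem_univ t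
  rw [FS_card hc, e]
  refine ⟨h1, fun S hS => ?_⟩
  rw [FS_card hc]
  have h3 := h2 ((fht_fin hc Y).toFinset.filter (fun t => ¬ t ∈ S)) (filter_subset _ _)
    (fun t ht hcon => (mem_filter.1 ht).2 (hS t hcon))
  have h4 := card_filter_add_card_filter_not (s := (fht_fin hc Y).toFinset) (fun t => t ∈ S)
  have h5 : (((fht_fin hc Y).toFinset.filter (fun t => t ∈ S)).card : ℝ) +
      ((fht_fin hc Y).toFinset.filter (fun t => ¬ t ∈ S)).card = (fht_fin hc Y).toFinset.card := by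
    exact_mod_cast h4
  linarith

/-- **density zero** -/
theorem ht_zero (c : ℕ × ℕ) (hc : Cc c) (d : Fin 1 → ℤ) (hd : ∀ l, d l ≠ 0)
    (Λ : ℤ × ℤ → Fin 3 × Fin 1 → ℝ) (P : ℤ × ℤ → Prop) (hΛ : Stat d Λ P) (s0 : ℝ) :
    Tendsto (fun Y : ℕ => (FS c Y {t | P t ∧ Λ t (0, 0) ≤ s0} : ℝ) / (FS c Y Set.univ : ℝ)) atTop
      (𝓝 0) := by
  classical
  have hdd : ∀ l m : Fin 1, l ≠ m → ∀ r : ℤ, r ^ 2 ≠ d l * d m :=
    fun l m h => absurd (Subsingleton.elim l m) h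
  rw [Metric.tendsto_atTop]
  intro ε hε
  have hcdf := ProbabilityTheory.tendsto_cdf_atBot (gaussianReal 0 (5 / 2))
  rw [Metric.tendsto_nhds] at hcdf
  obtain ⟨x, hx⟩ := (hcdf (ε / 2) (by positivity)).exists
  rw [Real.dist_eq, sub_zero, ProbabilityTheory.cdf_eq_real] at hx
  have hx' := (abs_lt.1 hx).2
  have hl := ht_lim (0 : Fin 1) c hc d hd hdd Λ P hΛ (fun _ => x)
  rw [muT_one, Metric.tendsto_atTop] at hl
  obtain ⟨Y1, hY1⟩ := hl (ε / 2) (by positivity)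
  obtain ⟨Y2, hY2⟩ := big_ll ((|s0| + |x| + 1) ^ 2)
  refine ⟨Y1 + Y2, fun Y hY => ?_⟩
  have h1 := hY1 Y (by omega)
  have h2 := hY2 Y (by omega)
  rw [Real.dist_eq] at h1 ⊢
  have h1' := (abs_lt.1 h1).2
  have hsub : FS c Y {t | P t ∧ Λ t (0, 0) ≤ s0} ≤ FS c Y {t | P t ∧
      ∀ l, Lg Λ (Real.log (Real.log Y)) t (0, l) ≤ x} := by
    refine Set.ncard_le_ncard (fun t ht => ⟨ht.1, ht.2.1, fun l => ?_⟩)
      ((fht_fin hc Y).subset fun t ht => ht.1)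
    have hs := ht.2.2
    rw [Subsingleton.elim l 0]
    unfold Lg
    have a1 := abs_nonneg s0
    have a2 := abs_nonneg x
    have hr : |s0| + |x| + 1 ≤ √(Real.log (Real.log Y)) := Real.le_sqrt_of_sq_le h2
    have hℓ0 : 0 ≤ Real.log (Real.log Y) := le_trans (by positivity) h2
    have hsq := Real.sq_sqrt hℓ0
    obtain ⟨r, hrd⟩ : ∃ r, r = √(Real.log (Real.log Y)) := ⟨_, rfl⟩
    rw [← hrd] at hr hsq ⊢
    rw [div_le_iff₀ (by linarith), ← hsq]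
    have b1 := le_abs_self s0
    have b2 := neg_abs_le x
    have b3 : (|s0| + |x| + 1) * r ≤ r * r := mul_le_mul_of_nonneg_right hr (by linarith)
    have b4 : |s0| * 1 ≤ |s0| * r := mul_le_mul_of_nonneg_left (by linarith) a1
    have b5 : -|x| * r ≤ x * r := mul_le_mul_of_nonneg_right b2 (by linarith)
    nlinarith
  have h3 : (FS c Y {t | P t ∧ Λ t (0, 0) ≤ s0} : ℝ) / (FS c Y Set.univ : ℝ) ≤
      (FS c Y {t | P t ∧ ∀ l, Lg Λ (Real.log (Real.log Y)) t (0, l) ≤ x} : ℝ) /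
        (FS c Y Set.univ : ℝ) :=
    div_le_div_of_nonneg_right (by exact_mod_cast hsub) (Nat.cast_nonneg _)
  have h4 : 0 ≤ (FS c Y {t | P t ∧ Λ t (0, 0) ≤ s0} : ℝ) / (FS c Y Set.univ : ℝ) := by positivity
  rw [sub_zero, abs_of_nonneg h4]
  linarith

/-- the discriminant -/
lemma disc_iff (e N : ℤ) : 4 * (N ^ 2 - 3 * e ^ 2) ^ 3 + 27 * (2 * e ^ 3 - N ^ 2 * e) ^ 2 ≠ 0 ↔
    N ≠ 0 ∧ 9 * e ^ 2 ≠ 4 * N ^ 2 := by
  have h : 4 * (N ^ 2 - 3 * e ^ 2) ^ 3 + 27 * (2 * e ^ 3 - N ^ 2 * e) ^ 2 =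
      N ^ 4 * (4 * N ^ 2 - 9 * e ^ 2) := by ring
  rw [h, mul_ne_zero_iff, pow_ne_zero_iff (by norm_num), sub_ne_zero]
  exact and_congr Iff.rfl ne_comm

end Pool.Agent.R421.EK
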