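import Mathlib
import Pool.Agent.R421.EK.Lim

/-!
# Project EK: minimal models. Moebius inversion and lower bounds
-/

set_option autoImplicit false
set_option linter.all false
set_option maxHeartbeats 1000000

namespace Pool.Agent.R421.EK

open Finset ProbabilityTheory MeasureTheory Filter Topology

open Pool.Agent.R431.NO (OkS typ1)

/-- minimal pairs -/
def Mn (t : ℤ × ℤ) : Prop := ∀ p : ℕ, p.Prime → ¬ ((p : ℤ) ^ 2 ∣ t.1 ∧ (p : ℤ) ^ 2 ∣ t.2)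

/-- divisibility by the square -/
def Dv (m : ℕ) (t : ℤ × ℤ) : Prop := (m : ℤ) ^ 2 ∣ t.1 ∧ (m : ℤ) ^ 2 ∣ t.2

lemma sq_dvd_iff {m a b : ℕ} (hb : Squarefree b) (ha : 0 < a) : m ^ 2 ∣ a ^ 2 * b ↔ m ∣ a := by
  constructor
  · intro h
    obtain ⟨m', a', hc, hm, ha'⟩ := Nat.exists_coprime m a
    have hg : 0 < Nat.gcd m a := Nat.gcd_pos_of_pos_right _ ha
    obtain ⟨g, hgd⟩ : ∃ g, g = Nat.gcd m a := ⟨_, rfl⟩
    rw [← hgd] at hm ha' hg
    have h1 : g ^ 2 * m' ^ 2 ∣ g ^ 2 * (a' ^ 2 * b) := by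
      have e1 : g ^ 2 * m' ^ 2 = m ^ 2 := by rw [hm]; ring
      have e2 : g ^ 2 * (a' ^ 2 * b) = a ^ 2 * b := by rw [ha']; ring
      rw [e1, e2]
      exact h
    have h2 : m' ^ 2 ∣ a' ^ 2 * b := Nat.dvd_of_mul_dvd_mul_left (by positivity) h1
    have h3 : m' ^ 2 ∣ b := (Nat.Coprime.pow 2 2 hc).dvd_of_dvd_mul_left h2
    rw [pow_two] at h3
    have h4 := Nat.isUnit_iff.1 (hb m' h3)
    rw [h4, one_mul] at hm
    rw [hm, hgd]
    exact Nat.gcd_dvd_right _ _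
  · intro h
    exact Dvd.dvd.mul_right (pow_dvd_pow_of_dvd h 2) b

lemma mob_sum {g n : ℕ} (hg : 0 < g) (hn : g ≤ n) :
    ∑ m ∈ (Icc 1 n).filter (fun m => m ^ 2 ∣ g), ArithmeticFunction.moebius m =
      if Squarefree g then 1 else 0 := by
  classical
  obtain ⟨b, a, hab, hb⟩ := Nat.sq_mul_squarefree g
  have ha : 0 < a := by
    rcases Nat.eq_zero_or_pos a with h | h
    · rw [h] at hab
      simp at hab
      omega
    · exact h
  have e1 : (Icc 1 n).filter (fun m => m ^ 2 ∣ g) = a.divisors := by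
    ext m
    rw [mem_filter, mem_Icc, Nat.mem_divisors, ← hab, sq_dvd_iff hb ha]
    constructor
    · rintro ⟨-, h⟩
      exact ⟨h, ha.ne'⟩
    · rintro ⟨h, -⟩
      refine ⟨⟨Nat.pos_of_dvd_of_pos h ha, ?_⟩, h⟩
      have h1 := Nat.le_of_dvd ha h
      have h2 : 0 < b := Nat.pos_of_ne_zero hb.ne_zero
      have h3 : a ≤ a ^ 2 * b := by
        calc a = a * 1 * 1 := by ring
          _ ≤ a * a * b := Nat.mul_le_mul (Nat.mul_le_mul_left _ ha) h2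
          _ = _ := by ring
      omega
  have e2 : Squarefree g ↔ a = 1 := by
    constructor
    · intro h
      refine Nat.isUnit_iff.1 (h a ?_)
      rw [← hab, pow_two]
      exact dvd_mul_right _ _
    · rintro rfl
      rw [one_pow, one_mul] at hab
      rw [← hab]
      exact hb
  rw [e1]
  have h := congrArg (fun f : ArithmeticFunction ℤ => f a) ArithmeticFunction.moebius_mul_coe_zeta
  beta_reduce at h
  rw [ArithmeticFunction.coe_mul_zeta_apply, ArithmeticFunction.one_apply] at h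
  rw [h]
  by_cases ha1 : a = 1
  · rw [if_pos ha1, if_pos (e2.2 ha1)]
  · rw [if_neg ha1, if_neg (fun h => ha1 (e2.1 h))]

lemma dv_iff (m : ℕ) (t : ℤ × ℤ) : Dv m t ↔ m ^ 2 ∣ Int.gcd t.1 t.2 := by
  unfold Dv
  constructor
  · rintro ⟨h1, h2⟩
    have h3 := Int.dvd_coe_gcd h1 h2
    exact_mod_cast h3
  · intro h
    have h3 : ((m ^ 2 : ℕ) : ℤ) ∣ (Int.gcd t.1 t.2 : ℤ) := by exact_mod_cast h
    push_cast at h3
    exact ⟨h3.trans (Int.gcd_dvd_left _ _), h3.trans (Int.gcd_dvd_right _ _)⟩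

lemma mn_iff (t : ℤ × ℤ) : Mn t ↔ Squarefree (Int.gcd t.1 t.2) := by
  rw [Nat.squarefree_iff_prime_squarefree]
  unfold Mn
  constructor
  · intro h p hp hd
    rw [← pow_two] at hd
    exact h p hp ((dv_iff p t).2 hd)
  · intro h p hp hd
    have := (dv_iff p t).1 hd
    rw [pow_two] at this
    exact h p hp this

/-- the Moebius inversion -/
lemma mob_card (K : Finset (ℤ × ℤ)) (n : ℕ) (hK : ∀ t ∈ K, t.2 ≠ 0 ∧ |t.2| ≤ n) (P : ℤ × ℤ → Prop)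
    [DecidablePred P] [DecidablePred Mn] [∀ m, DecidablePred (Dv m)] :
    ((K.filter (fun t => Mn t ∧ P t)).card : ℤ) =
      ∑ m ∈ Icc 1 n, ArithmeticFunction.moebius m * ((K.filter (fun t => P t ∧ Dv m t)).card : ℤ) := by
  have h1 : ((K.filter (fun t => Mn t ∧ P t)).card : ℤ) =
      ∑ t ∈ K, if P t then (if Mn t then 1 else 0 : ℤ) else 0 := by
    rw [card_filter]
    push_cast
    refine sum_congr rfl fun t _ => ?_
    by_cases a : Mn t <;> by_cases b : P t <;> simp [a, b]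
  rw [h1]
  have h2 : ∀ t ∈ K, (if P t then (if Mn t then 1 else 0 : ℤ) else 0) =
      ∑ m ∈ Icc 1 n, if P t ∧ Dv m t then ArithmeticFunction.moebius m else 0 := by
    intro t ht
    obtain ⟨k1, k2⟩ := hK t ht
    by_cases b : P t
    · simp only [b, if_true, true_and]
      have hg : 0 < Int.gcd t.1 t.2 := Int.gcd_pos_of_ne_zero_right _ k1
      have hgn : Int.gcd t.1 t.2 ≤ n := by
        have a1 : (Int.gcd t.1 t.2 : ℤ) ∣ |t.2| := (dvd_abs _ _).2 (Int.gcd_dvd_right _ _)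
        have a2 := Int.le_of_dvd (abs_pos.2 k1) a1
        exact_mod_cast a2.trans k2
      have h3 := mob_sum hg hgn
      rw [sum_filter] at h3
      have h4 : (if Mn t then (1 : ℤ) else 0) = if Squarefree (Int.gcd t.1 t.2) then 1 else 0 := by
        by_cases a : Mn t
        · rw [if_pos a, if_pos ((mn_iff t).1 a)]
        · rw [if_neg a, if_neg (fun h => a ((mn_iff t).2 h))]
      rw [h4, ← h3]
      refine sum_congr rfl fun m _ => ?_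
      by_cases a : Dv m t
      · rw [if_pos a, if_pos ((dv_iff m t).1 a)]
      · rw [if_neg a, if_neg (fun h => a ((dv_iff m t).2 h))]
    · simp [b]
  rw [sum_congr rfl h2, sum_comm]
  refine sum_congr rfl fun m _ => ?_
  rw [card_filter]
  push_cast
  rw [mul_sum]
  refine sum_congr rfl fun t _ => ?_
  split_ifs <;> simp

/-- scaling -/
lemma fht_scale (c : ℕ × ℕ) (Y m : ℕ) (hm : 1 ≤ m) (t : ℤ × ℤ) :
    Fht c Y ((m : ℤ) ^ 2 * t.1, (m : ℤ) ^ 2 * t.2) ↔ Fht c (Y / m ^ 12) t := by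
  have hm' : (0 : ℤ) < m := by exact_mod_cast hm
  have hm2 : ((m : ℤ) ^ 2) ≠ 0 := by positivity
  have hmp : (0 : ℤ) < (m : ℤ) ^ 12 := by positivity
  have key : ∀ z : ℤ, 0 ≤ z → ((m : ℤ) ^ 12 * z ≤ Y ↔ z ≤ ((Y / m ^ 12 : ℕ) : ℤ)) := by
    intro z hz
    obtain ⟨k, rfl⟩ := Int.eq_ofNat_of_zero_le hz
    have e1 : ((m : ℤ) ^ 12 * (k : ℤ) ≤ Y) ↔ m ^ 12 * k ≤ Y := by exact_mod_cast Iff.rfl
    have e2 : ((k : ℤ) ≤ ((Y / m ^ 12 : ℕ) : ℤ)) ↔ k ≤ Y / m ^ 12 := Nat.cast_le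
    rw [Nat.le_div_iff_mul_le (by positivity), mul_comm] at e2
    exact e1.trans e2.symm
  unfold Fht Hb cA cB
  simp only
  have e1 : (c.1 : ℤ) * |((m : ℤ) ^ 2 * t.2) ^ 2 - 3 * ((m : ℤ) ^ 2 * t.1) ^ 2| ^ 3 =
      (m : ℤ) ^ 12 * ((c.1 : ℤ) * |t.2 ^ 2 - 3 * t.1 ^ 2| ^ 3) := by
    have : ((m : ℤ) ^ 2 * t.2) ^ 2 - 3 * ((m : ℤ) ^ 2 * t.1) ^ 2 =
        (m : ℤ) ^ 4 * (t.2 ^ 2 - 3 * t.1 ^ 2) := by ring
    rw [this, abs_mul, abs_of_pos (by positivity : (0 : ℤ) < (m : ℤ) ^ 4)]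
    ring
  have e2 : (c.2 : ℤ) * (2 * ((m : ℤ) ^ 2 * t.1) ^ 3 - ((m : ℤ) ^ 2 * t.2) ^ 2 * ((m : ℤ) ^ 2 * t.1)) ^ 2 =
      (m : ℤ) ^ 12 * ((c.2 : ℤ) * (2 * t.1 ^ 3 - t.2 ^ 2 * t.1) ^ 2) := by ring
  have e3 : 9 * ((m : ℤ) ^ 2 * t.1) ^ 2 ≠ 4 * ((m : ℤ) ^ 2 * t.2) ^ 2 ↔ 9 * t.1 ^ 2 ≠ 4 * t.2 ^ 2 := by
    have a1 : 9 * ((m : ℤ) ^ 2 * t.1) ^ 2 = (m : ℤ) ^ 4 * (9 * t.1 ^ 2) := by ring
    have a2 : 4 * ((m : ℤ) ^ 2 * t.2) ^ 2 = (m : ℤ) ^ 4 * (4 * t.2 ^ 2) := by ring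
    rw [a1, a2, Ne, mul_right_inj' (by positivity)]
  rw [e1, e2, e3, key _ (by positivity), key _ (by positivity), mul_ne_zero_iff]
  constructor
  · rintro ⟨h1, ⟨-, h2⟩, h3⟩
    exact ⟨h1, h2, h3⟩
  · rintro ⟨h1, h2, h3⟩
    exact ⟨h1, ⟨hm2, h2⟩, h3⟩

lemma scale_card (c : ℕ × ℕ) (Y m : ℕ) (hm : 1 ≤ m) (K K' : Finset (ℤ × ℤ))
    (hK : ∀ t, t ∈ K ↔ Fht c Y t) (hK' : ∀ t, t ∈ K' ↔ Fht c (Y / m ^ 12) t) (P : ℤ × ℤ → Prop)
    [DecidablePred P] [∀ m, DecidablePred (Dv m)] :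
    (K.filter (fun t => P t ∧ Dv m t)).card =
      (K'.filter (fun t => P ((m : ℤ) ^ 2 * t.1, (m : ℤ) ^ 2 * t.2))).card := by
  have hm2 : ((m : ℤ) ^ 2) ≠ 0 := by
    have : (0 : ℤ) < m := by exact_mod_cast hm
    positivity
  symm
  refine card_bij (fun t _ => ((m : ℤ) ^ 2 * t.1, (m : ℤ) ^ 2 * t.2)) ?_ ?_ ?_
  · intro t ht
    rw [mem_filter, hK'] at ht
    rw [mem_filter, hK]
    exact ⟨(fht_scale c Y m hm t).2 ht.1, ht.2, dvd_mul_right _ _, dvd_mul_right _ _⟩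
  · intro t _ t' _ h
    rw [Prod.mk.injEq] at h
    exact Prod.ext (mul_left_cancel₀ hm2 h.1) (mul_left_cancel₀ hm2 h.2)
  · intro t ht
    rw [mem_filter, hK] at ht
    obtain ⟨h1, h2, ⟨u, hu⟩, ⟨v, hv⟩⟩ := ht
    have e : t = ((m : ℤ) ^ 2 * u, (m : ℤ) ^ 2 * v) := Prod.ext hu hv
    rw [e] at h1 h2
    refine ⟨(u, v), ?_, e.symm⟩
    rw [mem_filter, hK']
    exact ⟨(fht_scale c Y m hm (u, v)).1 h1, h2⟩

/-- multiples -/
lemma mult_card (r a : ℕ) (hr : 1 ≤ r) (s : Finset ℤ) (hs : ∀ x ∈ s, |x| ≤ a ∧ (r : ℤ) ∣ x) :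
    (s.card : ℝ) ≤ 2 * ((a : ℝ) / r) + 1 := by
  have hr' : (0 : ℤ) < r := by exact_mod_cast hr
  have hsub : s ⊆ (Icc (-((a / r : ℕ) : ℤ)) ((a / r : ℕ) : ℤ)).image (fun y => (r : ℤ) * y) := by
    intro x hx
    obtain ⟨h1, y, rfl⟩ := hs x hx
    rw [mem_image]
    refine ⟨y, ?_, rfl⟩
    rw [mem_Icc, ← abs_le]
    rw [abs_mul, abs_of_pos hr'] at h1
    push_cast
    rw [Int.le_ediv_iff_mul_le hr', mul_comm]
    exact h1
  have h1 := (card_le_card hsub).trans card_image_le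
  rw [Int.card_Icc] at h1
  have h2 : (((a / r : ℕ) : ℤ) + 1 - -((a / r : ℕ) : ℤ)).toNat = 2 * (a / r) + 1 := by omega
  rw [h2] at h1
  have h3 : ((a / r : ℕ) : ℝ) ≤ (a : ℝ) / r := Nat.cast_div_le
  have h4 : (s.card : ℝ) ≤ 2 * ((a / r : ℕ) : ℝ) + 1 := by exact_mod_cast h1
  linarith

/-- multiples in the family -/
lemma dv_card {c : ℕ × ℕ} (hc : Cc c) {Y T m : ℕ} (hT : 1 ≤ T) (hY : Y ≤ T ^ 6) (hm : 1 ≤ m)
    (s : Finset (ℤ × ℤ)) (hs : ∀ t ∈ s, Fht c Y t ∧ Dv m t) :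
    (s.card : ℝ) ≤ 96 * (T : ℝ) ^ 2 * (((m : ℝ) ^ 2)⁻¹) ^ 2 := by
  have hr : 1 ≤ m ^ 2 := Nat.one_le_pow _ _ hm
  have hm' : (1 : ℝ) ≤ m := by exact_mod_cast hm
  have hT' : (1 : ℝ) ≤ T := by exact_mod_cast hT
  rcases s.eq_empty_or_nonempty with h | ⟨t0, ht0⟩
  · rw [h]
    simp
    positivity
  · have hbig : m ^ 2 ≤ 4 * T := by
      obtain ⟨h1, -, h2⟩ := hs t0 ht0
      obtain ⟨-, h3⟩ := Hb_bd hc hT hY h1.1
      have h4 : (m : ℤ) ^ 2 ≤ |t0.2| := Int.le_of_dvd (abs_pos.2 h1.2.1) ((dvd_abs _ _).2 h2)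
      have h5 := h4.trans h3
      exact_mod_cast h5
    have hsub : s ⊆ (s.image Prod.fst) ×ˢ (s.image Prod.snd) := subset_product
    have h1 := card_le_card hsub
    rw [card_product] at h1
    have a1 := mult_card (m ^ 2) (2 * T) hr (s.image Prod.fst) (fun x hx => by
      rw [mem_image] at hx
      obtain ⟨t, ht, rfl⟩ := hx
      obtain ⟨k1, k2, k3⟩ := hs t ht
      refine ⟨?_, ?_⟩
      · have := (Hb_bd hc hT hY k1.1).1
        push_cast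
        exact this
      · push_cast
        exact k2)
    have a2 := mult_card (m ^ 2) (4 * T) hr (s.image Prod.snd) (fun x hx => by
      rw [mem_image] at hx
      obtain ⟨t, ht, rfl⟩ := hx
      obtain ⟨k1, k2, k3⟩ := hs t ht
      refine ⟨?_, ?_⟩
      · have := (Hb_bd hc hT hY k1.1).2
        push_cast
        exact this
      · push_cast
        exact k3)
    have hbr : (m : ℝ) ^ 2 ≤ 4 * T := by exact_mod_cast hbig
    have hu : 1 ≤ 4 * (T : ℝ) * ((m : ℝ) ^ 2)⁻¹ := by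
      rw [← div_eq_mul_inv, le_div_iff₀ (by positivity)]
      linarith
    push_cast at a1 a2
    rw [div_eq_mul_inv] at a1 a2
    obtain ⟨u, hud⟩ : ∃ u, u = ((m : ℝ) ^ 2)⁻¹ := ⟨_, rfl⟩
    rw [← hud] at a1 a2 hu ⊢
    have b1 : ((s.image Prod.fst).card : ℝ) ≤ 8 * (T * u) := by linarith
    have b2 : ((s.image Prod.snd).card : ℝ) ≤ 12 * (T * u) := by linarith
    have b3 : (s.card : ℝ) ≤ (s.image Prod.fst).card * (s.image Prod.snd).card := by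
      exact_mod_cast h1
    have b4 : ((s.image Prod.fst).card : ℝ) * (s.image Prod.snd).card ≤ 8 * (T * u) * (12 * (T * u)) :=
      mul_le_mul b1 b2 (Nat.cast_nonneg _) (by linarith [Nat.cast_nonneg (α := ℝ) (s.image Prod.fst).card])
    calc (s.card : ℝ) ≤ _ := b3
      _ ≤ _ := b4
      _ = _ := by ring

/-- the sum of the inverse fourth powers -/
lemma inv4 (M n : ℕ) (hM : 1 ≤ M) : ∑ m ∈ Ioc M n, (((m : ℝ) ^ 2)⁻¹) ^ 2 ≤
    (((M : ℝ) + 1) ^ 2)⁻¹ * (M : ℝ)⁻¹ := by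
  have hM' : (1 : ℝ) ≤ M := by exact_mod_cast hM
  by_cases h : M ≤ n
  · have h1 := sum_Ioc_inv_sq_le_sub (α := ℝ) (k := M) (n := n) (by omega) h
    have h2 : ∑ m ∈ Ioc M n, (((m : ℝ) ^ 2)⁻¹) ^ 2 ≤
        ∑ m ∈ Ioc M n, (((M : ℝ) + 1) ^ 2)⁻¹ * ((m : ℝ) ^ 2)⁻¹ := by
      refine sum_le_sum fun m hm => ?_
      rw [mem_Ioc] at hm
      have h3 : (M : ℝ) + 1 ≤ m := by exact_mod_cast hm.1
      have h4 : ((m : ℝ) ^ 2)⁻¹ ≤ (((M : ℝ) + 1) ^ 2)⁻¹ :=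
        inv_anti₀ (by positivity) (pow_le_pow_left₀ (by positivity) h3 2)
      rw [pow_two]
      exact mul_le_mul_of_nonneg_right h4 (by positivity)
    rw [← mul_sum] at h2
    refine h2.trans (mul_le_mul_of_nonneg_left ?_ (by positivity))
    have h5 : 0 ≤ (n : ℝ)⁻¹ := by positivity
    linarith
  · rw [Ioc_eq_empty (by omega), sum_empty]
    positivity

end Pool.Agent.R421.EK
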