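import Mathlib
import Pool.Agent.R421.EK.Mob

/-!
# Project EK: minimal models, limits
-/

set_option autoImplicit false
set_option linter.all false
set_option maxHeartbeats 1000000

namespace Pool.Agent.R421.EK

open Finset ProbabilityTheory MeasureTheory Filter Topology

open Pool.Agent.R431.NO (OkS typ1)

open Pool.Agent.R421.NR (big_ll)

lemma dvd_cnt (a b r : ℤ) (hr : 0 < r) (hab : a ≤ b) :
    (((Ioc a b).filter (fun x => r ∣ x)).card : ℝ) ≤ ((b : ℝ) - a) / r + 1 := by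
  have h := Int.Ioc_filter_dvd_card a b hr
  have hrq : (0 : ℚ) < r := by exact_mod_cast hr
  have h1 : ((⌊(b : ℚ) / (r : ℚ)⌋ - ⌊(a : ℚ) / (r : ℚ)⌋ : ℤ) : ℚ) ≤ ((b : ℚ) - a) / r + 1 := by
    have a1 := Int.floor_le ((b : ℚ) / (r : ℚ))
    have a2 := Int.lt_floor_add_one ((a : ℚ) / (r : ℚ))
    push_cast
    have e : ((b : ℚ) - a) / r = (b : ℚ) / r - (a : ℚ) / r := sub_div _ _ _
    rw [e]
    linarith
  have h2 : (0 : ℚ) ≤ ((b : ℚ) - a) / r + 1 := by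
    have : (a : ℚ) ≤ b := by exact_mod_cast hab
    have : (0 : ℚ) ≤ ((b : ℚ) - a) / r := div_nonneg (by linarith) hrq.le
    linarith
  have h3 : ((((Ioc a b).filter (fun x => r ∣ x)).card : ℤ) : ℚ) ≤ ((b : ℚ) - a) / r + 1 := by
    rw [h]
    rcases le_total (⌊(b : ℚ) / (r : ℚ)⌋ - ⌊(a : ℚ) / (r : ℚ)⌋) 0 with h4 | h4
    · rw [max_eq_right h4]
      exact_mod_cast h2
    · rw [max_eq_left h4]
      exact h1
  have h4 : (((((Ioc a b).filter (fun x => r ∣ x)).card : ℤ) : ℚ) : ℝ) ≤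
      ((((b : ℚ) - a) / r + 1 : ℚ) : ℝ) := Rat.cast_le.2 h3
  push_cast at h4
  exact h4

lemma dvd_cnt0 (h r : ℕ) (hr : 0 < r) :
    (((Ioc (0 : ℤ) h).filter (fun x => (r : ℤ) ∣ x)).card : ℝ) ≤ (h : ℝ) / r := by
  have hr' : (0 : ℤ) < r := by exact_mod_cast hr
  have h1 := Int.Ioc_filter_dvd_card (0 : ℤ) (h : ℤ) hr'
  have hrq : (0 : ℚ) < r := by exact_mod_cast hr
  have h3 : ((((Ioc (0 : ℤ) h).filter (fun x => (r : ℤ) ∣ x)).card : ℤ) : ℚ) ≤ (h : ℚ) / r := by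
    have e0 : ⌊((0 : ℤ) : ℚ) / ((r : ℤ) : ℚ)⌋ = 0 := by simp
    have e1 : (0 : ℤ) ≤ ⌊((h : ℤ) : ℚ) / ((r : ℤ) : ℚ)⌋ := Int.floor_nonneg.2 (by positivity)
    rw [h1, e0, sub_zero, max_eq_left e1]
    have e2 := Int.floor_le (((h : ℤ) : ℚ) / ((r : ℤ) : ℚ))
    push_cast at e2 ⊢
    exact e2
  have h4 : (((((Ioc (0 : ℤ) h).filter (fun x => (r : ℤ) ∣ x)).card : ℤ) : ℚ) : ℝ) ≤
      (((h : ℚ) / r : ℚ) : ℝ) := Rat.cast_le.2 h3
  push_cast at h4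
  exact h4

/-- the box is in the family -/
lemma box_fht {c : ℕ × ℕ} (hc : Cc c) {Y T h : ℕ} (h2 : 12 * h ≤ T - 1) (hY : (T - 1) ^ 6 < Y)
    (t : ℤ × ℤ) (ht : t ∈ Ioc (h : ℤ) (2 * h) ×ˢ Ioc (0 : ℤ) h) : Fht c Y t := by
  rw [mem_product, mem_Ioc, mem_Ioc] at ht
  obtain ⟨⟨a1, a2⟩, b1, b2⟩ := ht
  obtain ⟨e, N⟩ := t
  simp only at a1 a2 b1 b2
  have hY' : 6912 * (h : ℤ) ^ 6 ≤ Y := by
    have e1 : (12 * h) ^ 6 ≤ (T - 1) ^ 6 := Nat.pow_le_pow_left h2 6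
    have e2 : (12 * h) ^ 6 = 2985984 * h ^ 6 := by ring
    have e3 : 6912 * h ^ 6 ≤ Y := by omega
    exact_mod_cast e3
  have hh0 : (0 : ℤ) ≤ h := Int.natCast_nonneg _
  have he2 : e ^ 2 ≤ (2 * h) ^ 2 := pow_le_pow_left₀ (by linarith) a2 2
  have he3 : e ^ 3 ≤ (2 * h) ^ 3 := pow_le_pow_left₀ (by linarith) a2 3
  have hN2 : N ^ 2 ≤ e ^ 2 := pow_le_pow_left₀ (by linarith) (by linarith) 2
  have hN0 : 0 < N ^ 2 := by positivity
  refine ⟨⟨?_, ?_⟩, ?_, ?_⟩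
  · have e1 : |cA (e, N)| ≤ 12 * (h : ℤ) ^ 2 := by
      unfold cA
      simp only
      rw [abs_le]
      constructor <;> nlinarith
    have e2 : |cA (e, N)| ^ 3 ≤ (12 * (h : ℤ) ^ 2) ^ 3 := pow_le_pow_left₀ (abs_nonneg _) e1 3
    have e3 : (12 * (h : ℤ) ^ 2) ^ 3 = 1728 * (h : ℤ) ^ 6 := by ring
    have c1' : (c.1 : ℤ) ≤ 4 := by exact_mod_cast hc.2.1
    have e4 : (c.1 : ℤ) * |cA (e, N)| ^ 3 ≤ 4 * |cA (e, N)| ^ 3 :=
      mul_le_mul_of_nonneg_right c1' (by positivity)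
    linarith
  · have e1 : |cB (e, N)| ≤ 16 * (h : ℤ) ^ 3 := by
      unfold cB
      simp only
      have e4 : 2 * e ^ 3 - N ^ 2 * e = e * (2 * e ^ 2 - N ^ 2) := by ring
      have e5 : 0 ≤ e * (2 * e ^ 2 - N ^ 2) := mul_nonneg (by linarith) (by linarith)
      rw [e4, abs_of_nonneg e5, ← e4]
      have e6 : 0 ≤ N ^ 2 * e := mul_nonneg hN0.le (by linarith)
      linarith
    have e2 : |cB (e, N)| ^ 2 ≤ (16 * (h : ℤ) ^ 3) ^ 2 := pow_le_pow_left₀ (abs_nonneg _) e1 2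
    rw [sq_abs] at e2
    have e3 : (16 * (h : ℤ) ^ 3) ^ 2 = 256 * (h : ℤ) ^ 6 := by ring
    have c2' : (c.2 : ℤ) ≤ 27 := by exact_mod_cast hc.2.2.2
    have e4 : (c.2 : ℤ) * cB (e, N) ^ 2 ≤ 27 * cB (e, N) ^ 2 :=
      mul_le_mul_of_nonneg_right c2' (by positivity)
    linarith
  · simp only
    linarith
  · simp only
    intro hcon
    nlinarith

/-- lower bound for the number of the minimal pairs -/
lemma mn_low {c : ℕ × ℕ} (hc : Cc c) {Y T : ℕ} (hT : 100 ≤ T) (hY : (T - 1) ^ 6 < Y)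
    (K : Finset (ℤ × ℤ)) (hK : ∀ t, t ∈ K ↔ Fht c Y t ∧ Mn t) : (T : ℝ) ^ 2 ≤ 1152 * K.card := by
  classical
  obtain ⟨h, hh⟩ : ∃ h, h = (T - 1) / 12 := ⟨_, rfl⟩
  have h1 : T ≤ 24 * h := by omega
  have h2 : 12 * h ≤ T - 1 := by omega
  obtain ⟨Bx, hBx⟩ : ∃ Bx, Bx = Ioc (h : ℤ) (2 * h) ×ˢ Ioc (0 : ℤ) h := ⟨_, rfl⟩
  have hcard : Bx.card = h * h := by
    rw [hBx, card_product, Int.card_Ioc, Int.card_Ioc]
    congr 1 <;> omega
  have hbad : Bx.filter (fun t => ¬ Mn t) ⊆ (Ioc 1 h).biUnion (fun m => Bx.filter (Dv m)) := by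
    intro t ht
    rw [mem_filter] at ht
    obtain ⟨k1, k2⟩ := ht
    unfold Mn at k2
    push Not at k2
    obtain ⟨p, hp, hd⟩ := k2
    rw [mem_biUnion]
    refine ⟨p, ?_, mem_filter.2 ⟨k1, hd⟩⟩
    rw [hBx, mem_product, mem_Ioc, mem_Ioc] at k1
    have h3 : (p : ℤ) ^ 2 ≤ t.2 := Int.le_of_dvd k1.2.1 hd.2
    have h4 : (p : ℤ) ^ 2 ≤ h := h3.trans k1.2.2
    have h5 : p ^ 2 ≤ h := by exact_mod_cast h4
    have h6 : p ≤ p ^ 2 := Nat.le_self_pow (by norm_num) p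
    exact mem_Ioc.2 ⟨hp.one_lt, h6.trans h5⟩
  have hone : ∀ m ∈ Ioc 1 h, ((Bx.filter (Dv m)).card : ℝ) ≤ 2 * (h : ℝ) ^ 2 * (((m : ℝ) ^ 2)⁻¹) ^ 2 := by
    intro m hm
    rw [mem_Ioc] at hm
    have hr : 0 < m ^ 2 := by
      have : 0 < m := by omega
      positivity
    have e : Bx.filter (Dv m) = ((Ioc (h : ℤ) (2 * h)).filter (fun x => ((m ^ 2 : ℕ) : ℤ) ∣ x)) ×ˢ
        ((Ioc (0 : ℤ) h).filter (fun x => ((m ^ 2 : ℕ) : ℤ) ∣ x)) := by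
      ext t
      rw [hBx, mem_filter, mem_product, mem_product, mem_filter, mem_filter]
      unfold Dv
      push_cast
      tauto
    rw [e, card_product]
    push_cast
    have a1 := dvd_cnt (h : ℤ) (2 * h) ((m ^ 2 : ℕ) : ℤ) (by exact_mod_cast hr) (by linarith [Int.natCast_nonneg h])
    have a2 := dvd_cnt0 h (m ^ 2) hr
    push_cast at a1 a2
    have hmr : (0 : ℝ) < (m : ℝ) ^ 2 := by exact_mod_cast hr
    have a3 : (2 * (h : ℝ) - h) / (m : ℝ) ^ 2 = (h : ℝ) * ((m : ℝ) ^ 2)⁻¹ := by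
      rw [div_eq_mul_inv]
      ring
    rw [a3] at a1
    rw [div_eq_mul_inv] at a2
    obtain ⟨u, hu⟩ : ∃ u, u = (h : ℝ) * ((m : ℝ) ^ 2)⁻¹ := ⟨_, rfl⟩
    have e2 : 2 * (h : ℝ) ^ 2 * (((m : ℝ) ^ 2)⁻¹) ^ 2 = 2 * u * u := by rw [hu]; ring
    rw [e2]
    rw [← hu] at a1 a2
    rcases Nat.eq_zero_or_pos ((Ioc (0 : ℤ) h).filter (fun x => ((m : ℤ) ^ 2) ∣ x)).card with h0 | h0
    · rw [h0]
      have : 0 ≤ u := by rw [hu]; positivity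
      push_cast
      rw [mul_zero]
      positivity
    · have h0' : (1 : ℝ) ≤ ((Ioc (0 : ℤ) h).filter (fun x => ((m : ℤ) ^ 2) ∣ x)).card := by
        exact_mod_cast h0
      have hu1 : 1 ≤ u := h0'.trans a2
      exact mul_le_mul (by linarith) a2 (Nat.cast_nonneg _) (by linarith)
  have hsum : ((Bx.filter (fun t => ¬ Mn t)).card : ℝ) ≤ (h : ℝ) ^ 2 / 2 := by
    have k1 := (card_le_card hbad).trans card_biUnion_le
    have k2 : ((Bx.filter (fun t => ¬ Mn t)).card : ℝ) ≤ ∑ m ∈ Ioc 1 h, ((Bx.filter (Dv m)).card : ℝ) := by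
      exact_mod_cast k1
    have k3 := k2.trans (sum_le_sum hone)
    rw [← mul_sum] at k3
    have k4 := inv4 1 h le_rfl
    have k5 : (((1 : ℕ) : ℝ) + 1) ^ 2 = 4 := by norm_num
    rw [k5] at k4
    have k6 : ∑ m ∈ Ioc 1 h, (((m : ℝ) ^ 2)⁻¹) ^ 2 ≤ 1 / 4 := by
      refine k4.trans ?_
      norm_num
    have k7 : 2 * (h : ℝ) ^ 2 * ∑ m ∈ Ioc 1 h, (((m : ℝ) ^ 2)⁻¹) ^ 2 ≤ 2 * (h : ℝ) ^ 2 * (1 / 4) :=
      mul_le_mul_of_nonneg_left k6 (by positivity)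
    linarith
  have hgood : Bx.filter Mn ⊆ K := by
    intro t ht
    rw [mem_filter] at ht
    rw [hK]
    rw [hBx] at ht
    exact ⟨box_fht hc h2 hY t ht.1, ht.2⟩
  have hsplit := card_filter_add_card_filter_not (s := Bx) Mn
  rw [hcard] at hsplit
  have hs' : ((Bx.filter Mn).card : ℝ) + ((Bx.filter (fun t => ¬ Mn t)).card : ℝ) = (h : ℝ) * h := by
    exact_mod_cast hsplit
  have h5 : ((Bx.filter Mn).card : ℝ) ≤ K.card := by exact_mod_cast card_le_card hgood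
  have h6 : (T : ℝ) ≤ 24 * h := by exact_mod_cast h1
  have h7 : (T : ℝ) ^ 2 ≤ (24 * h) ^ 2 := pow_le_pow_left₀ (Nat.cast_nonneg _) h6 2
  nlinarith

/-- upper bound for the number of the pairs -/
lemma fht_up {c : ℕ × ℕ} (hc : Cc c) {Y T : ℕ} (hT : 1 ≤ T) (hY : Y ≤ T ^ 6)
    (K : Finset (ℤ × ℤ)) (hK : ∀ t ∈ K, Fht c Y t) : (K.card : ℝ) ≤ 45 * (T : ℝ) ^ 2 := by
  have hsub : K ⊆ Icc (-(2 * (T : ℤ))) (2 * T) ×ˢ Icc (-(4 * (T : ℤ))) (4 * T) := by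
    intro t ht
    obtain ⟨h2, h3⟩ := Hb_bd hc hT hY (hK t ht).1
    rw [mem_product, mem_Icc, mem_Icc]
    exact ⟨abs_le.1 h2, abs_le.1 h3⟩
  have h1 := card_le_card hsub
  rw [card_product, Int.card_Icc, Int.card_Icc] at h1
  have e1 : (2 * (T : ℤ) + 1 - -(2 * (T : ℤ))).toNat = 4 * T + 1 := by omega
  have e2 : (4 * (T : ℤ) + 1 - -(4 * (T : ℤ))).toNat = 8 * T + 1 := by omega
  rw [e1, e2] at h1
  have h2 : (4 * T + 1) * (8 * T + 1) ≤ 45 * T ^ 2 := by nlinarith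
  exact_mod_cast h1.trans h2

/-- the statistic, general form -/
theorem stat_of2 {n : ℕ} (d : Fin n → ℤ) (F : Fin n → ℤ → ℤ → ℝ) (Q : Fin n → ℤ → ℤ → Prop)
    (hF : ∀ R : ℕ, ∃ C : ℝ, ∀ (l : Fin n) (e N : ℤ) (S : ℝ),
      OkS (S - R) (S + R) R (d l * (3 * e + 2 * N), d l * (3 * e - 2 * N)) → |F l e N - S| ≤ C)
    (hQ : ∀ (R : ℕ) (l : Fin n) (e N : ℤ) (S : ℝ),
      OkS (S - R) (S + R) R (d l * (3 * e + 2 * N), d l * (3 * e - 2 * N)) → Q l e N) :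
    ∃ Λ : ℤ × ℤ → Fin 3 × Fin n → ℝ, (∀ t l, Λ t (0, l) = F l t.1 t.2) ∧
      Stat d Λ (fun t => ∀ l, Q l t.1 t.2) := by
  classical
  have h0 := stat_sha d (fun _ => 1) (fun _ => le_rfl)
  refine ⟨fun t k => if k.1 = 0 then F k.2 t.1 t.2 else
    Real.logb 2 (Tw d k 1 (lf t)).ncard, fun t l => by simp, fun R => ?_, fun R t h l => ?_⟩
  · obtain ⟨C1, hC1⟩ := hF R
    obtain ⟨C2, hC2⟩ := h0.1 R
    refine ⟨max C1 C2, fun t k S hS => ?_⟩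
    by_cases hk : k.1 = 0
    · obtain ⟨i, l⟩ := k
      simp only at hk
      subst hk
      simp only [if_true]
      exact (hC1 l t.1 t.2 S hS).trans (le_max_left _ _)
    · simp only [hk, if_false]
      exact (hC2 t k S hS).trans (le_max_right _ _)
  · obtain ⟨S, hS⟩ := h (0, l)
    exact hQ R l t.1 t.2 S hS

/-- the scales of the smaller families -/
lemma loglog_div (Y m : ℕ) (hm : 1 ≤ m) (hY : 2 * m ^ 12 * m ^ 12 + 2 * m ^ 12 ≤ Y) :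
    |Real.log (Real.log Y) - Real.log (Real.log ((Y / m ^ 12 : ℕ) : ℝ))| ≤ 5 := by
  obtain ⟨q, hq⟩ : ∃ q, q = m ^ 12 := ⟨_, rfl⟩
  have hq1 : 1 ≤ q := by rw [hq]; exact Nat.one_le_pow _ _ hm
  rw [← hq] at hY ⊢
  obtain ⟨Z, hZ⟩ : ∃ Z, Z = Y / q := ⟨_, rfl⟩
  have h1 : 2 * q ≤ Z := by
    rw [hZ, Nat.le_div_iff_mul_le hq1]
    omega
  have h2 : Y < q * (Z + 1) := by
    rw [hZ]
    exact Nat.lt_mul_div_succ Y hq1
  have h3 : Z ≤ Y := by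
    rw [hZ]
    exact Nat.div_le_self _ _
  have h4 : Y ≤ Z ^ 2 := by nlinarith
  rw [← hZ]
  have hZ2 : (2 : ℝ) ≤ Z := by
    have : 2 ≤ Z := by omega
    exact_mod_cast this
  have hZr : (Z : ℝ) ≤ Y := by exact_mod_cast h3
  have hYr : (Y : ℝ) ≤ (Z : ℝ) ^ 2 := by exact_mod_cast h4
  have hlZ : 0 < Real.log Z := Real.log_pos (by linarith)
  have l1 : Real.log Z ≤ Real.log Y := Real.log_le_log (by linarith) hZr
  have l2 : Real.log Y ≤ 2 * Real.log Z := by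
    have := Real.log_le_log (by linarith) hYr
    rw [Real.log_pow] at this
    push_cast at this
    exact this
  have m1 : Real.log (Real.log Z) ≤ Real.log (Real.log Y) := Real.log_le_log hlZ l1
  have m2 : Real.log (Real.log Y) ≤ Real.log 2 + Real.log (Real.log Z) := by
    rw [← Real.log_mul (by norm_num) hlZ.ne']
    exact Real.log_le_log (by linarith) l2
  have m3 : Real.log 2 ≤ 1 := by
    have := Real.log_two_lt_d9
    linarith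
  rw [abs_le]
  constructor <;> linarith

end Pool.Agent.R421.EK
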