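import Mathlib
import Pool.Agent.R421.EK.Mob2

/-!
# Project EK: minimal models, the limit theorem
-/

set_option autoImplicit false
set_option linter.all false
set_option maxHeartbeats 1000000

namespace Pool.Agent.R421.EK

open Finset ProbabilityTheory MeasureTheory Filter Topology

open Pool.Agent.R431.NO (OkS typ1)

open Pool.Agent.R421.NR (big_ll)

/-- the number of the minimal pairs of the family in `S` -/
noncomputable def FM (c : ℕ × ℕ) (Y : ℕ) (S : Set (ℤ × ℤ)) : ℕ :=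
  {t : ℤ × ℤ | (Fht c Y t ∧ Mn t) ∧ t ∈ S}.ncard

lemma FM_card {c : ℕ × ℕ} (hc : Cc c) (Y : ℕ) (S : Set (ℤ × ℤ)) [DecidablePred (· ∈ S)]
    [DecidablePred Mn] :
    FM c Y S = ((fht_fin hc Y).toFinset.filter (fun t => Mn t ∧ t ∈ S)).card := by
  unfold FM
  rw [← Set.ncard_coe_finset]
  congr 1
  ext t
  simp [and_assoc]

/-- one divisor -/
lemma mob_one {n : ℕ} (l0 : Fin n) (c : ℕ × ℕ) (hc : Cc c) (d : Fin n → ℤ) (hd : ∀ l, d l ≠ 0)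
    (hdd : ∀ l m, l ≠ m → ∀ r : ℤ, r ^ 2 ≠ d l * d m) (F : Fin n → ℤ → ℤ → ℝ) (Q : Fin n → ℤ → ℤ → Prop)
    (hF : ∀ R : ℕ, ∃ C : ℝ, ∀ (l : Fin n) (e N : ℤ) (S : ℝ),
      OkS (S - R) (S + R) R (d l * (3 * e + 2 * N), d l * (3 * e - 2 * N)) → |F l e N - S| ≤ C)
    (hQ : ∀ (R : ℕ) (l : Fin n) (e N : ℤ) (S : ℝ),
      OkS (S - R) (S + R) R (d l * (3 * e + 2 * N), d l * (3 * e - 2 * N)) → Q l e N)
    (x : Fin n → ℝ) (m : ℕ) (hm : 1 ≤ m) (ε : ℝ) (hε : 0 < ε) :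
    ∃ Y0 : ℕ, ∀ Y : ℕ, Y0 ≤ Y → ∀ K A B : Finset (ℤ × ℤ), (∀ t, t ∈ K ↔ Fht c Y t) →
      (∀ t, t ∈ A ↔ (t ∈ K ∧ Dv m t)) →
      (∀ t, t ∈ B ↔ (t ∈ A ∧ (∀ l, Q l t.1 t.2) ∧ ∀ l, (F l t.1 t.2 -
        3 / 2 * Real.log (Real.log Y)) / √(Real.log (Real.log Y)) ≤ x l)) →
      |(B.card : ℝ) - (muT 3 n).real {w | ∀ l, w (0, l) ≤ x l} * A.card| ≤ ε * A.card := by
  classical
  have hm0 : (m : ℤ) ≠ 0 := by
    have : (0 : ℤ) < m := by exact_mod_cast hm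
    exact this.ne'
  have hm2 : ((m : ℤ) ^ 2) ≠ 0 := pow_ne_zero 2 hm0
  obtain ⟨Λ, h1, h2⟩ := stat_of2 (n := n) (fun l => (m : ℤ) ^ 2 * d l)
    (fun l e N => F l ((m : ℤ) ^ 2 * e) ((m : ℤ) ^ 2 * N))
    (fun l e N => Q l ((m : ℤ) ^ 2 * e) ((m : ℤ) ^ 2 * N))
    (fun R => by
      obtain ⟨C, hC⟩ := hF R
      refine ⟨C, fun l e N S h => hC l _ _ _ ?_⟩
      have e1 : (m : ℤ) ^ 2 * d l * (3 * e + 2 * N) =
          d l * (3 * ((m : ℤ) ^ 2 * e) + 2 * ((m : ℤ) ^ 2 * N)) := by ring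
      have e2 : (m : ℤ) ^ 2 * d l * (3 * e - 2 * N) =
          d l * (3 * ((m : ℤ) ^ 2 * e) - 2 * ((m : ℤ) ^ 2 * N)) := by ring
      rw [← e1, ← e2]
      exact h)
    (fun R l e N S h => by
      refine hQ R l _ _ S ?_
      have e1 : (m : ℤ) ^ 2 * d l * (3 * e + 2 * N) =
          d l * (3 * ((m : ℤ) ^ 2 * e) + 2 * ((m : ℤ) ^ 2 * N)) := by ring
      have e2 : (m : ℤ) ^ 2 * d l * (3 * e - 2 * N) =
          d l * (3 * ((m : ℤ) ^ 2 * e) - 2 * ((m : ℤ) ^ 2 * N)) := by ring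
      rw [← e1, ← e2]
      exact h)
  obtain ⟨R, Y1, h3⟩ := ht_one l0 c hc (fun l => (m : ℤ) ^ 2 * d l)
    (fun l => mul_ne_zero hm2 (hd l)) (fun l l' hl r hr => by
      have e1 : r ^ 2 = ((m : ℤ) ^ 2) ^ 2 * (d l * d l') := by rw [hr]; ring
      have e2 : ((m : ℤ) ^ 2) ^ 2 ∣ r ^ 2 := ⟨_, e1⟩
      have e3 : (m : ℤ) ^ 2 ∣ r := (Int.pow_dvd_pow_iff (by norm_num)).1 e2
      obtain ⟨s, rfl⟩ := e3
      rw [mul_pow] at e1
      exact hdd l l' hl s (mul_left_cancel₀ (pow_ne_zero 2 hm2) e1)) Λ _ h2 x ε hε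
  refine ⟨Y1 * m ^ 12 + (2 * m ^ 12 * m ^ 12 + 2 * m ^ 12), fun Y hY K A B hK hA hB => ?_⟩
  have hYm : Y1 ≤ Y / m ^ 12 := by
    rw [Nat.le_div_iff_mul_le (by positivity)]
    omega
  obtain ⟨K', hK'⟩ : ∃ K' : Finset (ℤ × ℤ), ∀ t, t ∈ K' ↔ Fht c (Y / m ^ 12) t :=
    ⟨(fht_fin hc (Y / m ^ 12)).toFinset, fun t => by simp⟩
  obtain ⟨a1, -, a3⟩ := h3 (Y / m ^ 12) hYm K' hK'
  have a4 := a3 (Real.log (Real.log Y)) (loglog_div Y m hm (by omega))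
    (K'.filter (fun t => (∀ l, Q l ((m : ℤ) ^ 2 * t.1) ((m : ℤ) ^ 2 * t.2)) ∧
      ∀ l, Lg Λ (Real.log (Real.log Y)) t (0, l) ≤ x l)) (fun t => by rw [mem_filter])
  have e1 : A.card = K'.card := by
    have := scale_card c Y m hm K K' hK hK' (fun _ => True)
    rw [filter_true_of_mem (fun _ _ => trivial)] at this
    rw [← this]
    congr 1
    ext t
    rw [hA, mem_filter]
    tauto
  have e2 : B.card = (K'.filter (fun t => (∀ l, Q l ((m : ℤ) ^ 2 * t.1) ((m : ℤ) ^ 2 * t.2)) ∧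
      ∀ l, Lg Λ (Real.log (Real.log Y)) t (0, l) ≤ x l)).card := by
    have := scale_card c Y m hm K K' hK hK' (fun t => (∀ l, Q l t.1 t.2) ∧
      ∀ l, (F l t.1 t.2 - 3 / 2 * Real.log (Real.log Y)) / √(Real.log (Real.log Y)) ≤ x l)
    have e3 : B = K.filter (fun t => ((∀ l, Q l t.1 t.2) ∧
      ∀ l, (F l t.1 t.2 - 3 / 2 * Real.log (Real.log Y)) / √(Real.log (Real.log Y)) ≤ x l) ∧
        Dv m t) := by
      ext t
      rw [hB, hA, mem_filter]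
      tauto
    rw [e3, this]
    congr 1
    ext t
    rw [mem_filter, mem_filter]
    refine and_congr Iff.rfl (and_congr Iff.rfl (forall_congr' fun l => ?_))
    unfold Lg
    rw [h1]
  have hK0 : (0 : ℝ) < K'.card := by exact_mod_cast a1
  rw [e1, e2]
  have h5 : ∀ (a k μ : ℝ), 0 < k → |a / k - μ| ≤ ε → |a - μ * k| ≤ ε * k := by
    intro a k μ hk h
    have : a - μ * k = (a / k - μ) * k := by field_simp
    rw [this, abs_mul, abs_of_pos hk]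
    exact mul_le_mul_of_nonneg_right h hk.le
  exact h5 _ _ _ hK0 a4

/-- **the limit theorem for the minimal pairs** -/
theorem mn_lim {n : ℕ} (l0 : Fin n) (c : ℕ × ℕ) (hc : Cc c) (d : Fin n → ℤ) (hd : ∀ l, d l ≠ 0)
    (hdd : ∀ l m, l ≠ m → ∀ r : ℤ, r ^ 2 ≠ d l * d m) (F : Fin n → ℤ → ℤ → ℝ) (Q : Fin n → ℤ → ℤ → Prop)
    (hF : ∀ R : ℕ, ∃ C : ℝ, ∀ (l : Fin n) (e N : ℤ) (S : ℝ),
      OkS (S - R) (S + R) R (d l * (3 * e + 2 * N), d l * (3 * e - 2 * N)) → |F l e N - S| ≤ C)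
    (hQ : ∀ (R : ℕ) (l : Fin n) (e N : ℤ) (S : ℝ),
      OkS (S - R) (S + R) R (d l * (3 * e + 2 * N), d l * (3 * e - 2 * N)) → Q l e N)
    (x : Fin n → ℝ) :
    Tendsto (fun Y : ℕ => (FM c Y {t | (∀ l, Q l t.1 t.2) ∧ ∀ l, (F l t.1 t.2 -
        3 / 2 * Real.log (Real.log Y)) / √(Real.log (Real.log Y)) ≤ x l} : ℝ) /
      (FM c Y Set.univ : ℝ)) atTop (𝓝 ((muT 3 n).real {w | ∀ l, w (0, l) ≤ x l})) := by
  classical
  rw [Metric.tendsto_atTop]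
  intro ε hε
  obtain ⟨μ, hμ⟩ : ∃ μ, μ = (muT 3 n).real {w | ∀ l, w (0, l) ≤ x l} := ⟨_, rfl⟩
  have hμ0 : 0 ≤ μ := by rw [hμ]; exact measureReal_nonneg
  have hμ1 : μ ≤ 1 := by rw [hμ]; exact measureReal_le_one
  rw [← hμ]
  -- the truncation
  obtain ⟨M, hM1, hM2⟩ : ∃ M : ℕ, 1 ≤ M ∧ 1152 * 96 * (M : ℝ)⁻¹ ≤ ε / 4 := by
    obtain ⟨M, hM⟩ := exists_nat_ge (1152 * 96 * 4 / ε + 1)
    have h0 : 0 ≤ 1152 * 96 * 4 / ε := by positivity
    have h1 : (1 : ℝ) ≤ M := by linarith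
    refine ⟨M, by exact_mod_cast h1, ?_⟩
    have h2 : 1152 * 96 * 4 / ε ≤ M := by linarith
    rw [div_le_iff₀ hε] at h2
    rw [← div_eq_mul_inv, div_le_iff₀ (by linarith)]
    linarith
  have hM0 : (1 : ℝ) ≤ M := by exact_mod_cast hM1
  obtain ⟨δ, hδ⟩ : ∃ δ : ℝ, δ = ε / (4 * 1152 * 45 * M) := ⟨_, rfl⟩
  have hδ0 : 0 < δ := by rw [hδ]; positivity
  have hall : ∀ m : ℕ, ∃ Y0 : ℕ, 1 ≤ m → ∀ Y : ℕ, Y0 ≤ Y → ∀ K A B : Finset (ℤ × ℤ),
      (∀ t, t ∈ K ↔ Fht c Y t) → (∀ t, t ∈ A ↔ (t ∈ K ∧ Dv m t)) →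
      (∀ t, t ∈ B ↔ (t ∈ A ∧ (∀ l, Q l t.1 t.2) ∧ ∀ l, (F l t.1 t.2 -
        3 / 2 * Real.log (Real.log Y)) / √(Real.log (Real.log Y)) ≤ x l)) →
      |(B.card : ℝ) - μ * A.card| ≤ δ * A.card := by
    intro m
    by_cases hm : 1 ≤ m
    · obtain ⟨Y0, h⟩ := mob_one l0 c hc d hd hdd F Q hF hQ x m hm δ hδ0
      exact ⟨Y0, fun _ Y hY K A B h1 h2 h3 => by
        rw [hμ]
        exact h Y hY K A B h1 h2 h3⟩
    · exact ⟨0, fun h => absurd h hm⟩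
  choose Ym hYm using hall
  obtain ⟨Y1, hY1⟩ : ∃ Y1, Y1 = (∑ m ∈ Icc 1 M, Ym m) + ((M + 10) ^ 2) ^ 6 := ⟨_, rfl⟩
  refine ⟨Y1, fun Y hY => ?_⟩
  obtain ⟨T, X, s1, s2, s3, s4, s5, s6, -⟩ := scales (M + 10) Y (by omega) (by omega)
  have hT1 : 1 ≤ T := by omega
  have hTr : (1 : ℝ) ≤ T := by exact_mod_cast hT1
  have hMT : M ≤ 4 * T := by
    have : X ≤ X ^ 2 := Nat.le_self_pow (by norm_num) X
    omega
  obtain ⟨P, hP⟩ : ∃ P : ℤ × ℤ → Prop, P = fun t => (∀ l, Q l t.1 t.2) ∧ ∀ l, (F l t.1 t.2 -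
        3 / 2 * Real.log (Real.log Y)) / √(Real.log (Real.log Y)) ≤ x l := ⟨_, rfl⟩
  have hset : {t : ℤ × ℤ | (∀ l, Q l t.1 t.2) ∧ ∀ l, (F l t.1 t.2 -
        3 / 2 * Real.log (Real.log Y)) / √(Real.log (Real.log Y)) ≤ x l} = {t | P t} := by
    rw [hP]
  rw [hset, FM_card hc, FM_card hc]
  obtain ⟨K, hKd⟩ : ∃ K, K = (fht_fin hc Y).toFinset := ⟨_, rfl⟩
  have hK : ∀ t, t ∈ K ↔ Fht c Y t := fun t => by rw [hKd]; simp
  rw [← hKd]
  have hKn : ∀ t ∈ K, t.2 ≠ 0 ∧ |t.2| ≤ ((4 * T : ℕ) : ℤ) := by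
    intro t ht
    rw [hK] at ht
    refine ⟨ht.2.1, ?_⟩
    have := (Hb_bd hc hT1 s4 ht.1).2
    push_cast
    exact this
  have m1 := mob_card K (4 * T) hKn P
  have m2 := mob_card K (4 * T) hKn (fun _ => True)
  obtain ⟨Nn, hNn⟩ : ∃ Nn : ℝ, Nn = ((K.filter (fun t => Mn t ∧ t ∈ {t | P t})).card : ℝ) := ⟨_, rfl⟩
  obtain ⟨Kn, hKn'⟩ : ∃ Kn : ℝ, Kn = ((K.filter (fun t => Mn t ∧ t ∈ (Set.univ : Set (ℤ × ℤ)))).card : ℝ) :=
    ⟨_, rfl⟩
  rw [← hNn, ← hKn', Real.dist_eq]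
  have n1 : Nn = ∑ m ∈ Icc 1 (4 * T), (ArithmeticFunction.moebius m : ℝ) *
      ((K.filter (fun t => P t ∧ Dv m t)).card : ℝ) := by
    rw [hNn]
    have : K.filter (fun t => Mn t ∧ t ∈ {t | P t}) = K.filter (fun t => Mn t ∧ P t) := rfl
    rw [this]
    exact_mod_cast m1
  have n2 : Kn = ∑ m ∈ Icc 1 (4 * T), (ArithmeticFunction.moebius m : ℝ) *
      ((K.filter (fun t => True ∧ Dv m t)).card : ℝ) := by
    rw [hKn']
    have : K.filter (fun t => Mn t ∧ t ∈ (Set.univ : Set (ℤ × ℤ))) = K.filter (fun t => Mn t ∧ True) := rfl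
    rw [this]
    exact_mod_cast m2
  have n3 : Nn - μ * Kn = ∑ m ∈ Icc 1 (4 * T), (ArithmeticFunction.moebius m : ℝ) *
      (((K.filter (fun t => P t ∧ Dv m t)).card : ℝ) - μ * ((K.filter (fun t => True ∧ Dv m t)).card : ℝ)) := by
    rw [n1, n2, mul_sum, ← sum_sub_distrib]
    refine sum_congr rfl fun m _ => ?_
    ring
  have habs : |Nn - μ * Kn| ≤ ∑ m ∈ Icc 1 (4 * T),
      |((K.filter (fun t => P t ∧ Dv m t)).card : ℝ) - μ * ((K.filter (fun t => True ∧ Dv m t)).card : ℝ)| := by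
    rw [n3]
    refine (abs_sum_le_sum_abs _ _).trans (sum_le_sum fun m _ => ?_)
    rw [abs_mul]
    have h1 : |(ArithmeticFunction.moebius m : ℝ)| ≤ 1 := by
      have := ArithmeticFunction.abs_moebius_le_one (n := m)
      exact_mod_cast this
    calc |(ArithmeticFunction.moebius m : ℝ)| * _ ≤ 1 * _ :=
          mul_le_mul_of_nonneg_right h1 (abs_nonneg _)
      _ = _ := one_mul _
  have hsplit : Icc 1 (4 * T) = Icc 1 M ∪ Ioc M (4 * T) := by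
    ext m
    simp only [mem_union, mem_Icc, mem_Ioc]
    omega
  have hdisj : Disjoint (Icc 1 M) (Ioc M (4 * T)) := by
    rw [disjoint_left]
    intro m h1 h2
    rw [mem_Icc] at h1
    rw [mem_Ioc] at h2
    omega
  rw [hsplit, sum_union hdisj] at habs
  have hup := fht_up hc hT1 s4 K (fun t ht => (hK t).1 ht)
  have hsm : ∑ m ∈ Icc 1 M, |((K.filter (fun t => P t ∧ Dv m t)).card : ℝ) -
      μ * ((K.filter (fun t => True ∧ Dv m t)).card : ℝ)| ≤ M * (δ * (45 * (T : ℝ) ^ 2)) := by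
    have h1 : ∀ m ∈ Icc 1 M, |((K.filter (fun t => P t ∧ Dv m t)).card : ℝ) -
      μ * ((K.filter (fun t => True ∧ Dv m t)).card : ℝ)| ≤ δ * (45 * (T : ℝ) ^ 2) := by
      intro m hm
      have hm' := (mem_Icc.1 hm).1
      have hle : Ym m ≤ Y := by
        have := single_le_sum (f := Ym) (fun _ _ => Nat.zero_le _) hm
        omega
      have h2 := hYm m hm' Y hle K (K.filter (fun t => True ∧ Dv m t)) (K.filter (fun t => P t ∧ Dv m t))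
        hK (fun t => by rw [mem_filter]; tauto) (fun t => by
          rw [mem_filter, mem_filter, hP]
          tauto)
      refine h2.trans (mul_le_mul_of_nonneg_left ?_ hδ0.le)
      have h3 : ((K.filter (fun t => True ∧ Dv m t)).card : ℝ) ≤ K.card := by
        exact_mod_cast card_filter_le _ _
      exact h3.trans hup
    refine (sum_le_sum h1).trans ?_
    rw [sum_const, Nat.card_Icc, nsmul_eq_mul]
    simp
  have hlg : ∑ m ∈ Ioc M (4 * T), |((K.filter (fun t => P t ∧ Dv m t)).card : ℝ) -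
      μ * ((K.filter (fun t => True ∧ Dv m t)).card : ℝ)| ≤ 96 * (T : ℝ) ^ 2 * (M : ℝ)⁻¹ := by
    have h1 : ∀ m ∈ Ioc M (4 * T), |((K.filter (fun t => P t ∧ Dv m t)).card : ℝ) -
      μ * ((K.filter (fun t => True ∧ Dv m t)).card : ℝ)| ≤
        96 * (T : ℝ) ^ 2 * (((m : ℝ) ^ 2)⁻¹) ^ 2 := by
      intro m hm
      rw [mem_Ioc] at hm
      have h2 := dv_card hc hT1 s4 (show 1 ≤ m by omega) (K.filter (fun t => True ∧ Dv m t))
        (fun t ht => by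
          rw [mem_filter] at ht
          exact ⟨(hK t).1 ht.1, ht.2.2⟩)
      have h3 : ((K.filter (fun t => P t ∧ Dv m t)).card : ℝ) ≤
          ((K.filter (fun t => True ∧ Dv m t)).card : ℝ) := by
        have : K.filter (fun t => P t ∧ Dv m t) ⊆ K.filter (fun t => True ∧ Dv m t) := by
          intro t ht
          rw [mem_filter] at ht ⊢
          exact ⟨ht.1, trivial, ht.2.2⟩
        exact_mod_cast card_le_card this
      have h4 : (0 : ℝ) ≤ ((K.filter (fun t => P t ∧ Dv m t)).card : ℝ) := Nat.cast_nonneg _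
      obtain ⟨a, ha⟩ : ∃ a : ℝ, a = ((K.filter (fun t => P t ∧ Dv m t)).card : ℝ) := ⟨_, rfl⟩
      obtain ⟨b, hb⟩ : ∃ b : ℝ, b = ((K.filter (fun t => True ∧ Dv m t)).card : ℝ) := ⟨_, rfl⟩
      rw [← ha, ← hb] at h3 ⊢
      rw [← ha] at h4
      rw [← hb] at h2
      have h5 : 0 ≤ μ * b := mul_nonneg hμ0 (h4.trans h3)
      have h6 : μ * b ≤ 1 * b := mul_le_mul_of_nonneg_right hμ1 (h4.trans h3)
      rw [abs_le]
      constructor <;> linarith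
    refine (sum_le_sum h1).trans ?_
    rw [← mul_sum]
    refine mul_le_mul_of_nonneg_left ?_ (by positivity)
    refine (inv4 M (4 * T) hM1).trans ?_
    have h2 : (((M : ℝ) + 1) ^ 2)⁻¹ ≤ 1 := inv_le_one_of_one_le₀ (by nlinarith)
    calc (((M : ℝ) + 1) ^ 2)⁻¹ * (M : ℝ)⁻¹ ≤ 1 * (M : ℝ)⁻¹ :=
          mul_le_mul_of_nonneg_right h2 (by positivity)
      _ = _ := one_mul _
  have hlow := mn_low hc s6 s5 (K.filter (fun t => Mn t ∧ t ∈ (Set.univ : Set (ℤ × ℤ)))) (fun t => by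
    rw [mem_filter, hK]
    simp)
  rw [← hKn'] at hlow
  have hKpos : 0 < Kn := by nlinarith
  have hfin : |Nn - μ * Kn| ≤ (ε / 2) * Kn := by
    refine habs.trans ((add_le_add hsm hlg).trans ?_)
    have a1 : (M : ℝ) * (δ * (45 * (T : ℝ) ^ 2)) = ε / (4 * 1152) * (T : ℝ) ^ 2 := by
      rw [hδ]
      field_simp
    have a2 : 96 * (T : ℝ) ^ 2 * (M : ℝ)⁻¹ ≤ ε / (4 * 1152) * (T : ℝ) ^ 2 := by
      have : 96 * (M : ℝ)⁻¹ ≤ ε / (4 * 1152) := by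
        rw [le_div_iff₀ (by norm_num)]
        linarith
      calc 96 * (T : ℝ) ^ 2 * (M : ℝ)⁻¹ = (96 * (M : ℝ)⁻¹) * (T : ℝ) ^ 2 := by ring
        _ ≤ _ := mul_le_mul_of_nonneg_right this (by positivity)
    have a3 : ε / (4 * 1152) * (T : ℝ) ^ 2 ≤ ε / (4 * 1152) * (1152 * Kn) :=
      mul_le_mul_of_nonneg_left hlow (by positivity)
    have a4 : ε / (4 * 1152) * (1152 * Kn) = ε / 4 * Kn := by ring
    linarith
  have e : Nn / Kn - μ = (Nn - μ * Kn) / Kn := by field_simp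
  rw [e, abs_div, abs_of_pos hKpos, div_lt_iff₀ hKpos]
  nlinarith

/-- **tightness for the minimal pairs** -/
theorem mn_tight {n : ℕ} (l0 : Fin n) (c : ℕ × ℕ) (hc : Cc c) (d : Fin n → ℤ) (hd : ∀ l, d l ≠ 0)
    (hdd : ∀ l m, l ≠ m → ∀ r : ℤ, r ^ 2 ≠ d l * d m) (ε : ℝ) (hε : 0 < ε) :
    ∃ R Y0 : ℕ, ∀ Y : ℕ, Y0 ≤ Y → 0 < FM c Y Set.univ ∧
      ∀ S : Set (ℤ × ℤ), (∀ t, (∀ k : Fin 3 × Fin n, ∃ S : ℝ, Oks d R t k S) → t ∈ S) →
      (1 - ε) * (FM c Y Set.univ : ℝ) ≤ (FM c Y S : ℝ) := by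
  classical
  obtain ⟨R, Y0, h⟩ := ht_one l0 c hc d hd hdd _ _ (stat_sha d (fun _ => 1) (fun _ => le_rfl))
    (fun _ => 0) (ε / (45 * 1152)) (by positivity)
  refine ⟨R, Y0 + (10 ^ 2) ^ 6, fun Y hY => ?_⟩
  obtain ⟨T, X, s1, s2, s3, s4, s5, s6, -⟩ := scales 10 Y (by omega) (by omega)
  have hT1 : 1 ≤ T := by omega
  have hTr : (1 : ℝ) ≤ T := by exact_mod_cast hT1
  obtain ⟨K, hKd⟩ : ∃ K, K = (fht_fin hc Y).toFinset := ⟨_, rfl⟩
  have hK : ∀ t, t ∈ K ↔ Fht c Y t := fun t => by rw [hKd]; simp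
  obtain ⟨h1, h2, -⟩ := h Y (by omega) K hK
  have hup := fht_up hc hT1 s4 K (fun t ht => (hK t).1 ht)
  have hlow := mn_low hc s6 s5 (K.filter (fun t => Mn t ∧ t ∈ (Set.univ : Set (ℤ × ℤ)))) (fun t => by
    rw [mem_filter, hK]
    simp)
  have e0 : (FM c Y Set.univ : ℝ) =
      ((K.filter (fun t => Mn t ∧ t ∈ (Set.univ : Set (ℤ × ℤ)))).card : ℝ) := by
    rw [FM_card hc, ← hKd]
  rw [← e0] at hlow
  have hpos : (0 : ℝ) < FM c Y Set.univ := by nlinarith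
  refine ⟨by exact_mod_cast hpos, fun S hS => ?_⟩
  have h3 := h2 (K.filter (fun t => ¬ t ∈ S)) (filter_subset _ _)
    (fun t ht hcon => (mem_filter.1 ht).2 (hS t hcon))
  have h4 : ((K.filter (fun t => ¬ t ∈ S)).card : ℝ) ≤ ε * FM c Y Set.univ := by
    refine h3.trans ?_
    have a1 : ε / (45 * 1152) * (K.card : ℝ) ≤ ε / (45 * 1152) * (45 * (1152 * FM c Y Set.univ)) := by
      refine mul_le_mul_of_nonneg_left ?_ (by positivity)
      linarith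
    refine a1.trans (le_of_eq ?_)
    ring
  have h5 : (FM c Y Set.univ : ℝ) ≤ (FM c Y S : ℝ) + ((K.filter (fun t => ¬ t ∈ S)).card : ℝ) := by
    rw [e0, FM_card hc, ← hKd]
    have : K.filter (fun t => Mn t ∧ t ∈ (Set.univ : Set (ℤ × ℤ))) ⊆
        K.filter (fun t => Mn t ∧ t ∈ S) ∪ K.filter (fun t => ¬ t ∈ S) := by
      intro t ht
      rw [mem_filter] at ht
      rw [mem_union, mem_filter, mem_filter]
      by_cases hs : t ∈ S
      · exact Or.inl ⟨ht.1, ht.2.1, hs⟩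
      · exact Or.inr ⟨ht.1, hs⟩
    have := (card_le_card this).trans (card_union_le _ _)
    exact_mod_cast this
  linarith

end Pool.Agent.R421.EK
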