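import Mathlib
import Pool.Agent.R421.EK.Mob3

/-!
# Project EK: minimal models, density zero, the marginal law, minimality of the model
-/

set_option autoImplicit false
set_option linter.all false
set_option maxHeartbeats 1000000

namespace Pool.Agent.R421.EK

open Finset ProbabilityTheory MeasureTheory Filter Topology

open Pool.Agent.R431.NO (OkS typ1)

open Pool.Agent.R421.NR (big_ll)

/-- **density zero** -/
theorem mn_zero (c : ℕ × ℕ) (hc : Cc c) (D : ℤ) (hD : D ≠ 0) (F : ℤ → ℤ → ℝ) (Q : ℤ → ℤ → Prop)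
    (hF : ∀ R : ℕ, ∃ C : ℝ, ∀ (e N : ℤ) (S : ℝ),
      OkS (S - R) (S + R) R (D * (3 * e + 2 * N), D * (3 * e - 2 * N)) → |F e N - S| ≤ C)
    (hQ : ∀ (R : ℕ) (e N : ℤ) (S : ℝ),
      OkS (S - R) (S + R) R (D * (3 * e + 2 * N), D * (3 * e - 2 * N)) → Q e N) (s0 : ℝ) :
    Tendsto (fun Y : ℕ => (FM c Y {t | Q t.1 t.2 ∧ F t.1 t.2 ≤ s0} : ℝ) / (FM c Y Set.univ : ℝ)) atTop
      (𝓝 0) := by
  classical
  rw [Metric.tendsto_atTop]
  intro ε hε
  have hcdf := ProbabilityTheory.tendsto_cdf_atBot (gaussianReal 0 (5 / 2))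
  rw [Metric.tendsto_nhds] at hcdf
  obtain ⟨x, hx⟩ := (hcdf (ε / 2) (by positivity)).exists
  rw [Real.dist_eq, sub_zero, ProbabilityTheory.cdf_eq_real] at hx
  have hx' := (abs_lt.1 hx).2
  have hl := mn_lim (n := 1) 0 c hc (fun _ => D) (fun _ => hD)
    (fun l m h => absurd (Subsingleton.elim l m) h) (fun _ => F) (fun _ => Q)
    (fun R => by
      obtain ⟨C, hC⟩ := hF R
      exact ⟨C, fun _ => hC⟩) (fun R _ => hQ R) (fun _ => x)
  rw [muT_one, Metric.tendsto_atTop] at hl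
  obtain ⟨Y1, hY1⟩ := hl (ε / 2) (by positivity)
  obtain ⟨Y2, hY2⟩ := big_ll ((|s0| + |x| + 1) ^ 2)
  refine ⟨Y1 + Y2, fun Y hY => ?_⟩
  have h1 := hY1 Y (by omega)
  have h2 := hY2 Y (by omega)
  rw [Real.dist_eq] at h1 ⊢
  have h1' := (abs_lt.1 h1).2
  have hsub : FM c Y {t | Q t.1 t.2 ∧ F t.1 t.2 ≤ s0} ≤ FM c Y {t | (∀ l : Fin 1, Q t.1 t.2) ∧
      ∀ l : Fin 1, (F t.1 t.2 - 3 / 2 * Real.log (Real.log Y)) / √(Real.log (Real.log Y)) ≤ x} := by
    refine Set.ncard_le_ncard (fun t ht => ⟨ht.1, fun _ => ht.2.1, fun l => ?_⟩)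
      ((fht_fin hc Y).subset fun t ht => ht.1.1)
    have hs := ht.2.2
    have a1 := abs_nonneg s0
    have a2 := abs_nonneg x
    have hr : |s0| + |x| + 1 ≤ √(Real.log (Real.log Y)) := Real.le_sqrt_of_sq_le h2
    have hℓ0 : 0 ≤ Real.log (Real.log Y) := le_trans (by positivity) h2
    have hsq := Real.sq_sqrt hℓ0
    obtain ⟨r, hrd⟩ : ∃ r, r = √(Real.log (Real.log Y)) := ⟨_, rfl⟩
    rw [← hrd] at hr hsq ⊢
    rw [div_le_iff₀ (by linarith), ← hsq]
    have b1 := le_abs_self s0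
    have b2 := neg_abs_le x
    have b3 : (|s0| + |x| + 1) * r ≤ r * r := mul_le_mul_of_nonneg_right hr (by linarith)
    have b4 : |s0| * 1 ≤ |s0| * r := mul_le_mul_of_nonneg_left (by linarith) a1
    have b5 : -|x| * r ≤ x * r := mul_le_mul_of_nonneg_right b2 (by linarith)
    nlinarith
  have h3 : (FM c Y {t | Q t.1 t.2 ∧ F t.1 t.2 ≤ s0} : ℝ) / (FM c Y Set.univ : ℝ) ≤
      (FM c Y {t | (∀ l : Fin 1, Q t.1 t.2) ∧
      ∀ l : Fin 1, (F t.1 t.2 - 3 / 2 * Real.log (Real.log Y)) / √(Real.log (Real.log Y)) ≤ x} : ℝ) /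
        (FM c Y Set.univ : ℝ) :=
    div_le_div_of_nonneg_right (by exact_mod_cast hsub) (Nat.cast_nonneg _)
  have h4 : 0 ≤ (FM c Y {t | Q t.1 t.2 ∧ F t.1 t.2 ≤ s0} : ℝ) / (FM c Y Set.univ : ℝ) := by positivity
  rw [sub_zero, abs_of_nonneg h4]
  linarith

/-- the projection -/
noncomputable def Pr (n : ℕ) (w : Gs 3 n) : EuclideanSpace ℝ (Option (Fin n)) :=
  WithLp.toLp 2 (fun o => Option.elim o (w (Sum.inl 0)) (fun l => w (Sum.inr (0, l))))

lemma Pr_meas (n : ℕ) : Measurable (Pr n) := by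
  unfold Pr
  refine (WithLp.measurable_toLp 2 _).comp (measurable_pi_lambda _ fun o => ?_)
  cases o with
  | none =>
    change Measurable fun w : Gs 3 n => w (Sum.inl 0)
    fun_prop
  | some l =>
    change Measurable fun w : Gs 3 n => w (Sum.inr (0, l))
    fun_prop

lemma Pr_map (n : ℕ) : (stdGaussian (Gs 3 n)).map (Pr n) =
    stdGaussian (EuclideanSpace ℝ (Option (Fin n))) := by
  haveI : IsProbabilityMeasure ((stdGaussian (Gs 3 n)).map (Pr n)) :=
    Measure.isProbabilityMeasure_map (Pr_meas n).aemeasurable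
  apply Measure.ext_of_charFun
  funext t
  obtain ⟨θ', hθ'⟩ : ∃ θ' : Gs 3 n, θ' = WithLp.toLp 2 (Sum.elim
    (fun i => if i = 0 then t none else 0) (fun k => if k.1 = 0 then t (some k.2) else 0)) :=
    ⟨_, rfl⟩
  have h1 : charFun ((stdGaussian (Gs 3 n)).map (Pr n)) t = charFun (stdGaussian (Gs 3 n)) θ' := by
    rw [charFun_apply, charFun_apply, integral_map (Pr_meas n).aemeasurable (by fun_prop)]
    refine integral_congr_ae (Filter.Eventually.of_forall fun w => ?_)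
    beta_reduce
    congr 3
    rw [PiLp.inner_apply, PiLp.inner_apply, hθ']
    unfold Pr
    simp only [Fintype.sum_sum_type, Sum.elim_inl, Sum.elim_inr, RCLike.inner_apply,
      conj_trivial, Fintype.sum_prod_type, Fintype.sum_option, Option.elim_none, Option.elim_some]
    rw [Fin.sum_univ_three, Fin.sum_univ_three]
    simp
  rw [h1, charFun_stdGaussian, charFun_stdGaussian]
  congr 3
  rw [← Complex.ofReal_pow, ← Complex.ofReal_pow, EuclideanSpace.real_norm_sq_eq,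
    EuclideanSpace.real_norm_sq_eq, hθ']
  simp only [Fintype.sum_sum_type, Sum.elim_inl, Sum.elim_inr, Fintype.sum_prod_type,
    Fintype.sum_option]
  rw [Fin.sum_univ_three, Fin.sum_univ_three]
  simp

/-- the marginal law of the twists of the curve itself -/
lemma marg {n : ℕ} (x : Fin n → ℝ) : (muT 3 n).real {w | ∀ l, w (0, l) ≤ x l} =
    (stdGaussian (EuclideanSpace ℝ (Option (Fin n)))).real
      {w | ∀ l, 3 / 2 * w none + 1 / 2 * w (some l) ≤ x l} := by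
  have hm : MeasurableSet {w : EuclideanSpace ℝ (Fin 3 × Fin n) | ∀ l, w (0, l) ≤ x l} := by
    have : {w : EuclideanSpace ℝ (Fin 3 × Fin n) | ∀ l, w (0, l) ≤ x l} =
        ⋂ l, {w | w (0, l) ≤ x l} := by
      ext w
      simp
    rw [this]
    exact MeasurableSet.iInter fun i => (isClosed_le (by fun_prop) continuous_const).measurableSet
  have hm2 : MeasurableSet {w : EuclideanSpace ℝ (Option (Fin n)) |
      ∀ l, 3 / 2 * w none + 1 / 2 * w (some l) ≤ x l} := by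
    have : {w : EuclideanSpace ℝ (Option (Fin n)) |
        ∀ l, 3 / 2 * w none + 1 / 2 * w (some l) ≤ x l} =
        ⋂ l, {w | 3 / 2 * w none + 1 / 2 * w (some l) ≤ x l} := by
      ext w
      simp
    rw [this]
    exact MeasurableSet.iInter fun i => (isClosed_le (by fun_prop) continuous_const).measurableSet
  unfold muT
  rw [map_measureReal_apply (Lm_meas 3 n) hm, ← Pr_map, map_measureReal_apply (Pr_meas n) hm2]
  rfl

/-- minimality of the model -/
lemma mn_minimal (t : ℤ × ℤ) : Mn t ↔ ∀ p : ℕ, p.Prime → ¬ ((p : ℤ) ^ 4 ∣ cA t ∧ (p : ℤ) ^ 6 ∣ cB t) := by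
  unfold Mn
  refine forall_congr' fun p => forall_congr' fun hp => not_congr ?_
  have hp' : Prime (p : ℤ) := Nat.prime_iff_prime_int.1 hp
  unfold cA cB
  constructor
  · rintro ⟨⟨u, hu⟩, ⟨v, hv⟩⟩
    rw [hu, hv]
    exact ⟨⟨v ^ 2 - 3 * u ^ 2, by ring⟩, ⟨2 * u ^ 3 - v ^ 2 * u, by ring⟩⟩
  · rintro ⟨h1, h2⟩
    have h3 : (p : ℤ) ^ 4 ∣ t.1 ^ 3 := by
      have e : t.1 ^ 3 = -((2 * t.1 ^ 3 - t.2 ^ 2 * t.1) + (t.2 ^ 2 - 3 * t.1 ^ 2) * t.1) := by ring
      rw [e, dvd_neg]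
      refine dvd_add ((pow_dvd_pow _ (by norm_num)).trans h2) (Dvd.dvd.mul_right h1 _)
    have h4 : (p : ℤ) ∣ t.1 := hp'.dvd_of_dvd_pow ((dvd_pow_self _ (by norm_num)).trans h3)
    obtain ⟨u, hu⟩ := h4
    have h5 : (p : ℤ) ∣ u ^ 3 := by
      have e : t.1 ^ 3 = (p : ℤ) ^ 3 * u ^ 3 := by rw [hu]; ring
      rw [e] at h3
      have e2 : (p : ℤ) ^ 4 = (p : ℤ) ^ 3 * p := by ring
      rw [e2] at h3
      exact (mul_dvd_mul_iff_left (pow_ne_zero 3 hp'.ne_zero)).1 h3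
    have h6 : (p : ℤ) ∣ u := hp'.dvd_of_dvd_pow h5
    have h7 : (p : ℤ) ^ 2 ∣ t.1 := by
      rw [hu, pow_two]
      exact mul_dvd_mul_left _ h6
    refine ⟨h7, ?_⟩
    have h8 : (p : ℤ) ^ 4 ∣ t.2 ^ 2 := by
      have e : t.2 ^ 2 = (t.2 ^ 2 - 3 * t.1 ^ 2) + 3 * t.1 ^ 2 := by ring
      rw [e]
      refine dvd_add h1 (Dvd.dvd.mul_left ?_ _)
      have := pow_dvd_pow_of_dvd h7 2
      rw [← pow_mul] at this
      exact this
    have e3 : (p : ℤ) ^ 4 = ((p : ℤ) ^ 2) ^ 2 := by ring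
    rw [e3] at h8
    exact (Int.pow_dvd_pow_iff (by norm_num)).1 h8

end Pool.Agent.R421.EK
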