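import Mathlib
import Pool.Agent.R421.EK.Mob4
import Pool.Agent.W307.AT.Ht
import Pool.Agent.Y667.RZ.Fin2
import Pool.Agent.Y676.IS.One

/-!
# Project EK: the ranks of the curves of the family
-/

set_option autoImplicit false
set_option linter.all false
set_option maxHeartbeats 1000000

namespace Pool.Agent.R421.EK

open Finset Filter Topology

open Pool.Agent.TH841.SH.D (rk Sha)

open Pool.Agent.TH841.LS (WI T0)

open Pool.Agent.TH841.PT (EQ isR_EQ bd_EQ)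

open Pool.Agent.W307.SE (Sel SN)

open Pool.Agent.W307.AT (GD GD_nonneg box_GD)

open Pool.Agent.Y667.RZ (GoodV GoodW goodW_of mainv)

/-- the curve of the family -/
lemma ne_fam {D e N : ℤ} (hD : D ≠ 0) (hN : N ≠ 0) (h9 : 9 * e ^ 2 ≠ 4 * N ^ 2) :
    D * (3 * e + 2 * N) ≠ 0 ∧ D * (3 * e - 2 * N) ≠ 0 ∧
      D * (3 * e + 2 * N) ≠ D * (3 * e - 2 * N) := by
  refine ⟨mul_ne_zero hD fun h => h9 ?_, mul_ne_zero hD fun h => h9 ?_, fun h => hN ?_⟩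
  · have : 9 * e ^ 2 - 4 * N ^ 2 = (3 * e + 2 * N) * (3 * e - 2 * N) := by ring
    rw [h, zero_mul] at this
    linarith
  · have : 9 * e ^ 2 - 4 * N ^ 2 = (3 * e + 2 * N) * (3 * e - 2 * N) := by ring
    rw [h, mul_zero] at this
    linarith
  · have := mul_left_cancel₀ hD h
    linarith

open scoped Classical in
/-- the rank and the Selmer group of the quotient -/
lemma rk_fam {D e N : ℤ} (hD : D ≠ 0) (hN : N ≠ 0) (h9 : 9 * e ^ 2 ≠ 4 * N ^ 2) :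
    (2 : ℝ) ^ rk (Shq (D ^ 2 * (N ^ 2 - 3 * e ^ 2)) (D ^ 3 * (2 * e ^ 3 - N ^ 2 * e))) ≤
      ((Sel (D * (3 * e + 2 * N)) (D * (3 * e - 2 * N))).ncard : ℝ) := by
  obtain ⟨g1, g2, g3⟩ := ne_fam hD hN h9
  rw [(short_iso (del_WI g3 g1 g2)).2]
  have h1 := Pool.Agent.R431.NO.rk_WI_le g3 g1 g2
  obtain ⟨h2, h3⟩ := bd_EQ g1 g2 g3
  refine (pow_le_pow_right₀ (by norm_num) h1).trans (le_trans ?_ h3)
  refine le_mul_of_one_le_right (by positivity) ?_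
  haveI := h2
  haveI : Nonempty {x : Pool.Agent.W262.SH.Sha (EQ (D * (3 * e + 2 * N))
      (D * (3 * e - 2 * N))) // x + x = 0} := ⟨⟨0, add_zero _⟩⟩
  exact_mod_cast Nat.card_pos

/-- **the average of `4 ^ rank`, uniformly in the twist** -/
theorem fam_avg : ∃ C : ℝ, 0 ≤ C ∧ ∀ c : ℕ × ℕ, Cc c → ∀ D : ℤ, D ≠ 0 → ∀ Y : ℕ,
    (10 ^ 2) ^ 6 ≤ Y → ∀ K : Finset (ℤ × ℤ), (∀ t, t ∈ K ↔ Fht c Y t ∧ Mn t) →
    ∑ t ∈ K, (4 : ℝ) ^ rk (Shq (D ^ 2 * (t.2 ^ 2 - 3 * t.1 ^ 2))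
      (D ^ 3 * (2 * t.1 ^ 3 - t.2 ^ 2 * t.1))) ≤ C * 128 ^ D.natAbs.primeFactors.card * K.card := by
  classical
  obtain ⟨C, hC, h⟩ := box_GD (Pool.Agent.W307.FK.avgn_of Pool.Agent.W307.FK.expf)
    Pool.Agent.W334.FK.som
  refine ⟨C * 196 * 1152, by positivity, fun c hc D hD Y hY K hK => ?_⟩
  obtain ⟨T, X, s1, s2, s3, s4, s5, s6, -⟩ := scales 10 Y (by omega) hY
  have hT1 : 1 ≤ T := by omega
  have hlow := mn_low hc s6 s5 K hK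
  have hpow : ∀ n : ℕ, (4 : ℝ) ^ n = (2 ^ n) ^ 2 := fun n => by
    rw [← pow_mul, mul_comm, pow_mul]
    norm_num
  have hinj : Set.InjOn lf (K : Set (ℤ × ℤ)) := by
    rintro ⟨a, b⟩ _ ⟨a', b'⟩ _ hab
    unfold lf at hab
    rw [Prod.mk.injEq] at hab
    obtain ⟨e1, e2⟩ := hab
    simp only at e1 e2
    rw [Prod.mk.injEq]
    constructor <;> omega
  have h1 : ∑ t ∈ K, (4 : ℝ) ^ rk (Shq (D ^ 2 * (t.2 ^ 2 - 3 * t.1 ^ 2))
      (D ^ 3 * (2 * t.1 ^ 3 - t.2 ^ 2 * t.1))) ≤ ∑ t ∈ K, GD D (lf t) := by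
    refine sum_le_sum fun t ht => ?_
    obtain ⟨k1, -⟩ := (hK t).1 ht
    obtain ⟨-, k2, k3⟩ := k1
    have k4 := rk_fam hD k2 k3
    obtain ⟨g1, g2, g3⟩ := ne_fam (one_ne_zero : (1 : ℤ) ≠ 0) k2 k3
    rw [one_mul] at g1 g2 g3
    rw [one_mul] at g3
    unfold GD lf
    simp only
    rw [if_pos ⟨g1, g2, g3⟩]
    have e4 : (4 : ℝ) ^ rk (Shq (D ^ 2 * (t.2 ^ 2 - 3 * t.1 ^ 2))
        (D ^ 3 * (2 * t.1 ^ 3 - t.2 ^ 2 * t.1))) = (2 ^ rk (Shq (D ^ 2 * (t.2 ^ 2 - 3 * t.1 ^ 2))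
        (D ^ 3 * (2 * t.1 ^ 3 - t.2 ^ 2 * t.1)))) ^ 2 := hpow _
    rw [e4]
    exact pow_le_pow_left₀ (by positivity) k4 2
  have h2 : ∑ t ∈ K, GD D (lf t) = ∑ s ∈ K.image lf, GD D s := (sum_image hinj).symm
  have h3 : ∑ s ∈ K.image lf, GD D s ≤ ∑ s ∈ Pool.Agent.W307.RT.Box (14 * T), GD D s := by
    refine sum_le_sum_of_subset_of_nonneg ?_ fun s _ _ => GD_nonneg D s
    intro s hs
    rw [mem_image] at hs
    obtain ⟨t, ht, rfl⟩ := hs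
    obtain ⟨k1, -⟩ := (hK t).1 ht
    obtain ⟨b1, b2⟩ := Hb_bd hc hT1 s4 k1.1
    rw [abs_le] at b1 b2
    rw [Pool.Agent.W307.RT.mem_Box]
    unfold lf
    simp only
    constructor <;> omega
  have h4 := h D hD (14 * T) (by omega)
  have hq : (0 : ℝ) ≤ 128 ^ D.natAbs.primeFactors.card := by positivity
  calc _ ≤ _ := h1
    _ = _ := h2
    _ ≤ _ := h3
    _ ≤ _ := h4
    _ = C * 196 * 128 ^ D.natAbs.primeFactors.card * (T : ℝ) ^ 2 := by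
      push_cast
      ring
    _ ≤ C * 196 * 128 ^ D.natAbs.primeFactors.card * (1152 * K.card) :=
      mul_le_mul_of_nonneg_left hlow (by positivity)
    _ = _ := by ring

/-- a box of the family -/
lemma hb_box {c : ℕ × ℕ} (hc : Cc c) {Y T X : ℕ} (hX : 14 * X ≤ T - 1) (hY : (T - 1) ^ 6 < Y)
    {e N : ℤ} (he : |e| ≤ 6 * X) (hN : |N| ≤ 6 * X) : Hb c Y (e, N) := by
  have hY' : 5038848 * (X : ℤ) ^ 6 ≤ Y := by
    have e1 : (14 * X) ^ 6 ≤ (T - 1) ^ 6 := Nat.pow_le_pow_left hX 6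
    have e2 : (14 * X) ^ 6 = 7529536 * X ^ 6 := by ring
    have e3 : 5038848 * X ^ 6 ≤ Y := by omega
    exact_mod_cast e3
  have hX0 : (0 : ℤ) ≤ X := Int.natCast_nonneg _
  have he2 : e ^ 2 ≤ 36 * (X : ℤ) ^ 2 := by
    have := pow_le_pow_left₀ (abs_nonneg e) he 2
    rw [sq_abs] at this
    linarith
  have hN2 : N ^ 2 ≤ 36 * (X : ℤ) ^ 2 := by
    have := pow_le_pow_left₀ (abs_nonneg N) hN 2
    rw [sq_abs] at this
    linarith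
  have e0 := sq_nonneg e
  have N0 := sq_nonneg N
  constructor
  · have e1 : |cA (e, N)| ≤ 108 * (X : ℤ) ^ 2 := by
      unfold cA
      simp only
      rw [abs_le]
      constructor <;> linarith
    have e2 : |cA (e, N)| ^ 3 ≤ (108 * (X : ℤ) ^ 2) ^ 3 := pow_le_pow_left₀ (abs_nonneg _) e1 3
    have e3 : (108 * (X : ℤ) ^ 2) ^ 3 = 1259712 * (X : ℤ) ^ 6 := by ring
    have c1' : (c.1 : ℤ) ≤ 4 := by exact_mod_cast hc.2.1
    have e4 : (c.1 : ℤ) * |cA (e, N)| ^ 3 ≤ 4 * |cA (e, N)| ^ 3 :=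
      mul_le_mul_of_nonneg_right c1' (by positivity)
    linarith
  · have e1 : |cB (e, N)| ≤ 432 * (X : ℤ) ^ 3 := by
      unfold cB
      simp only
      have e4 : 2 * e ^ 3 - N ^ 2 * e = e * (2 * e ^ 2 - N ^ 2) := by ring
      rw [e4, abs_mul]
      have e5 : |2 * e ^ 2 - N ^ 2| ≤ 72 * (X : ℤ) ^ 2 := by
        rw [abs_le]
        constructor <;> linarith
      calc |e| * |2 * e ^ 2 - N ^ 2| ≤ (6 * X) * (72 * (X : ℤ) ^ 2) :=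
            mul_le_mul he e5 (abs_nonneg _) (by linarith)
        _ = _ := by ring
    have e2 : |cB (e, N)| ^ 2 ≤ (432 * (X : ℤ) ^ 3) ^ 2 := pow_le_pow_left₀ (abs_nonneg _) e1 2
    rw [sq_abs] at e2
    have e3 : (432 * (X : ℤ) ^ 3) ^ 2 = 186624 * (X : ℤ) ^ 6 := by ring
    have c2' : (c.2 : ℤ) ≤ 27 := by exact_mod_cast hc.2.2.2
    have e4 : (c.2 : ℤ) * cB (e, N) ^ 2 ≤ 27 * cB (e, N) ^ 2 :=
      mul_le_mul_of_nonneg_right c2' (by positivity)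
    linarith

/-- the abscissa of the point of order two -/
def e0 (κ : ℤ) (t : ℕ × ℕ) : ℤ × ℤ := (κ * (((t.1 : ℤ) + t.2) / 6), κ * (((t.1 : ℤ) - t.2) / 4))

lemma e0_facts {X : ℕ} {t : ℕ × ℕ} (ht1 : t ∈ Icc 1 X ×ˢ Icc 1 X) (ht : GoodV X t) {κ : ℤ}
    (hκ : κ = 1 ∨ κ = 17) :
    3 * (e0 κ t).1 + 2 * (e0 κ t).2 = κ * t.1 ∧ 3 * (e0 κ t).1 - 2 * (e0 κ t).2 = κ * t.2 ∧
    |(e0 κ t).1| ≤ 6 * X ∧ |(e0 κ t).2| ≤ 6 * X ∧ (e0 κ t).2 ≠ 0 ∧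
      9 * (e0 κ t).1 ^ 2 ≠ 4 * (e0 κ t).2 ^ 2 ∧ Mn (e0 κ t) := by
  rw [mem_product, mem_Icc, mem_Icc] at ht1
  obtain ⟨g1, g2⟩ := ht1
  obtain ⟨h1, h2, h3, h4, h5, h6, h7, s, q0, q1, -, -, -, q2, q3, q4, -⟩ := ht
  have q2' : (t.1 : ℤ) - t.2 = 32 * s 2 := by rw [← q0, ← q1]; exact q2
  have u1 : 6 * (((t.1 : ℤ) + t.2) / 6) = (t.1 : ℤ) + t.2 := by omega
  have u2 : 4 * (((t.1 : ℤ) - t.2) / 4) = (t.1 : ℤ) - t.2 := by omega
  obtain ⟨e, he⟩ : ∃ e, e = ((t.1 : ℤ) + t.2) / 6 := ⟨_, rfl⟩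
  obtain ⟨N, hN⟩ : ∃ N, N = ((t.1 : ℤ) - t.2) / 4 := ⟨_, rfl⟩
  rw [← he] at u1
  rw [← hN] at u2
  unfold e0
  simp only
  rw [← he, ← hN]
  have v1 : 3 * (κ * e) + 2 * (κ * N) = κ * t.1 := by
    have : 3 * e + 2 * N = t.1 := by linarith
    rw [← this]
    ring
  have v2 : 3 * (κ * e) - 2 * (κ * N) = κ * t.2 := by
    have : 3 * e - 2 * N = t.2 := by linarith
    rw [← this]
    ring
  have hκ0 : κ ≠ 0 := by rcases hκ with h | h <;> rw [h] <;> norm_num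
  have hab : (t.1 : ℤ) * t.2 ≠ 0 := by
    have : 0 < (t.1 : ℤ) * t.2 := by
      have a1 : (0 : ℤ) < t.1 := by omega
      have a2 : (0 : ℤ) < t.2 := by omega
      positivity
    exact this.ne'
  refine ⟨v1, v2, ?_, ?_, ?_, ?_, ?_⟩
  · rw [abs_le]
    rcases hκ with h | h <;> rw [h] <;> constructor <;> omega
  · rw [abs_le]
    rcases hκ with h | h <;> rw [h] <;> constructor <;> omega
  · refine mul_ne_zero hκ0 fun h => ?_
    rw [h] at u2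
    omega
  · intro h
    have e1 : 9 * (κ * e) ^ 2 - 4 * (κ * N) ^ 2 = (3 * (κ * e) + 2 * (κ * N)) *
      (3 * (κ * e) - 2 * (κ * N)) := by ring
    rw [v1, v2, h, sub_self] at e1
    have e2 : κ * (t.1 : ℤ) * (κ * t.2) = κ ^ 2 * (t.1 * t.2) := by ring
    rw [e2] at e1
    exact mul_ne_zero (pow_ne_zero 2 hκ0) hab e1.symm
  · intro p hp hd
    obtain ⟨d1, d2⟩ := hd
    simp only at d1 d2
    have w1 : (p : ℤ) ^ 2 ∣ κ * t.1 := by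
      rw [← v1]
      exact dvd_add (Dvd.dvd.mul_left d1 _) (Dvd.dvd.mul_left d2 _)
    have w2 : (p : ℤ) ^ 2 ∣ κ * t.2 := by
      rw [← v2]
      exact dvd_sub (Dvd.dvd.mul_left d1 _) (Dvd.dvd.mul_left d2 _)
    have hc : IsCoprime (t.1 : ℤ) (t.2 : ℤ) := Nat.isCoprime_iff_coprime.2 h7
    obtain ⟨u, v, huv⟩ := hc
    have w3 : (p : ℤ) ^ 2 ∣ κ := by
      have : κ = u * (κ * t.1) + v * (κ * t.2) := by
        calc κ = κ * (u * t.1 + v * t.2) := by rw [huv, mul_one]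
          _ = _ := by ring
      rw [this]
      exact dvd_add (Dvd.dvd.mul_left w1 _) (Dvd.dvd.mul_left w2 _)
    have w4 : (p ^ 2 : ℕ) ∣ κ.natAbs := by
      have := Int.natAbs_dvd_natAbs.2 w3
      rw [Int.natAbs_pow, Int.natAbs_natCast] at this
      exact this
    have hp2 := hp.two_le
    rcases hκ with h | h
    · rw [h] at w4
      have := Nat.le_of_dvd (by norm_num) w4
      simp at this
      nlinarith
    · rw [h] at w4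
      have h17 : (17 : ℤ).natAbs = 17 := rfl
      rw [h17] at w4
      have h5 := Nat.le_of_dvd (by norm_num) w4
      have h6 : p ≤ 4 := by nlinarith
      interval_cases p <;> omega

/-- **many curves of the family with a small Selmer group of the quotient** -/
theorem fam_zero : ∃ δ : ℝ, 0 < δ ∧ ∃ Y0 : ℕ, ∀ c : ℕ × ℕ, Cc c → ∀ Y : ℕ, Y0 ≤ Y →
    ∀ K Z : Finset (ℤ × ℤ), (∀ t, t ∈ K ↔ Fht c Y t ∧ Mn t) →
    (∀ t, t ∈ Z ↔ t ∈ K ∧ (Sel (3 * t.1 + 2 * t.2) (3 * t.1 - 2 * t.2)).ncard ≤ 4) →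
    δ * (K.card : ℝ) ≤ Z.card := by
  classical
  obtain ⟨C, hC, X0, h⟩ := mainv
  refine ⟨C / 70560, by positivity, ((14 * X0 + 30) ^ 2) ^ 6, fun c hc Y hY K Z hK hZ => ?_⟩
  obtain ⟨T, X', s1, s2, s3, s4, s5, s6, -⟩ := scales (14 * X0 + 30) Y (by omega) hY
  have hT : 14 * X0 + 30 ≤ T := by
    have : X' ≤ X' ^ 2 := Nat.le_self_pow (by norm_num) X'
    omega
  obtain ⟨X, hX⟩ : ∃ X, X = (T - 1) / 14 := ⟨_, rfl⟩
  have hX1 : 14 * X ≤ T - 1 := by omega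
  have hX2 : X0 ≤ X := by omega
  have hX3 : T ≤ 28 * X := by omega
  have hmain := h X hX2
  obtain ⟨G, hG⟩ : ∃ G, G = (Icc 1 X ×ˢ Icc 1 X).filter (GoodV X) := ⟨_, rfl⟩
  have hG' : G = (Icc 1 X ×ˢ Icc 1 X).filter (GoodV X) := hG
  have hmain' : C * (X : ℝ) ^ 2 ≤ G.card := by
    rw [hG]
    convert hmain
  have hinj : ∀ κ : ℤ, κ = 1 ∨ κ = 17 → ∀ S ⊆ G,
      (∀ t ∈ S, (Sel (κ * t.1) (κ * t.2)).ncard ≤ 4) → S.card ≤ Z.card := by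
    intro κ hκ S hS h4
    refine card_le_card_of_injOn (e0 κ) (fun t ht => ?_) (fun t ht t' ht' htt => ?_)
    · have k1 := hS ht
      rw [hG, mem_filter] at k1
      obtain ⟨f1, f2, f3, f4, f5, f6, f7⟩ := e0_facts k1.1 k1.2 hκ
      rw [mem_coe, hZ, hK, f1, f2]
      exact ⟨⟨⟨hb_box hc hX1 s5 f3 f4, f5, f6⟩, f7⟩, h4 t ht⟩
    · have k1 := hS ht
      have k1' := hS ht'
      rw [hG, mem_filter] at k1 k1'
      obtain ⟨f1, f2, -⟩ := e0_facts k1.1 k1.2 hκ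
      obtain ⟨f1', f2', -⟩ := e0_facts k1'.1 k1'.2 hκ
      rw [htt] at f1 f2
      have hκ0 : κ ≠ 0 := by rcases hκ with h | h <;> rw [h] <;> norm_num
      have g1 : (t.1 : ℤ) = t'.1 := mul_left_cancel₀ hκ0 (f1.symm.trans f1')
      have g2 : (t.2 : ℤ) = t'.2 := mul_left_cancel₀ hκ0 (f2.symm.trans f2')
      exact Prod.ext (by exact_mod_cast g1) (by exact_mod_cast g2)
  have h1 := hinj 1 (Or.inl rfl) (G.filter (fun t => (Sel (t.1 : ℤ) (t.2 : ℤ)).ncard ≤ 4))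
    (filter_subset _ _) (fun t ht => by
      rw [one_mul, one_mul]
      exact (mem_filter.1 ht).2)
  have h2 := hinj 17 (Or.inr rfl) (G.filter (fun t => (Sel (17 * (t.1 : ℤ)) (17 * (t.2 : ℤ))).ncard ≤ 4))
    (filter_subset _ _) (fun t ht => (mem_filter.1 ht).2)
  have h3 : G ⊆ G.filter (fun t => (Sel (t.1 : ℤ) (t.2 : ℤ)).ncard ≤ 4) ∪
      G.filter (fun t => (Sel (17 * (t.1 : ℤ)) (17 * (t.2 : ℤ))).ncard ≤ 4) := by
    intro t ht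
    have ht' := ht
    rw [hG', mem_filter] at ht'
    obtain ⟨-, -, -, -, -, -, -, -, -, -, -, hor⟩ := goodW_of ht'.2
    rw [mem_union, mem_filter, mem_filter]
    rcases hor with h | h
    · exact Or.inl ⟨ht, h.1.le⟩
    · exact Or.inr ⟨ht, h.2.le⟩
  have h4 : (G.card : ℝ) ≤ 2 * Z.card := by
    have := (card_le_card h3).trans (card_union_le _ _)
    have h5 : G.card ≤ 2 * Z.card := by omega
    exact_mod_cast h5
  have hup : (K.card : ℝ) ≤ 45 * (T : ℝ) ^ 2 := fht_up hc (by omega) s4 K (fun t ht => ((hK t).1 ht).1)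
  have h6 : (T : ℝ) ≤ 28 * X := by exact_mod_cast hX3
  have h7 : (T : ℝ) ^ 2 ≤ (28 * X) ^ 2 := pow_le_pow_left₀ (Nat.cast_nonneg _) h6 2
  have h8 : (K.card : ℝ) ≤ 35280 * (X : ℝ) ^ 2 := by linarith
  calc C / 70560 * (K.card : ℝ) ≤ C / 70560 * (35280 * (X : ℝ) ^ 2) :=
        mul_le_mul_of_nonneg_left h8 (by positivity)
    _ = C * (X : ℝ) ^ 2 / 2 := by ring
    _ ≤ G.card / 2 := by linarith
    _ ≤ _ := by linarith

/-- transport of the structure -/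
lemma transp {W W' : WeierstrassCurve ℚ} (I : Sha W ≃+ Sha W') {k : ℕ}
    (φ : (Fin k → ZMod 2) →+ Sha W) (h1 : Function.Injective φ)
    (h2 : ∀ x, x ∈ Set.range φ ↔ ∃ j : ℕ, (2 ^ j) • x = 0) :
    ∃ φ' : (Fin k → ZMod 2) →+ Sha W', Function.Injective φ' ∧
      ∀ x, x ∈ Set.range φ' ↔ ∃ j : ℕ, (2 ^ j) • x = 0 := by
  refine ⟨I.toAddMonoidHom.comp φ, I.injective.comp h1, fun x => ?_⟩
  have h7 : x ∈ Set.range (I.toAddMonoidHom.comp φ) ↔ I.symm x ∈ Set.range φ := by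
    constructor
    · rintro ⟨y, rfl⟩
      exact ⟨y, (I.symm_apply_apply (φ y)).symm⟩
    · rintro ⟨y, hy⟩
      refine ⟨y, ?_⟩
      change I (φ y) = x
      rw [hy, I.apply_symm_apply]
  rw [h7]
  refine (h2 (I.symm x)).trans (exists_congr fun j => ?_)
  rw [← map_nsmul, map_eq_zero_iff _ I.symm.injective]

/-- the structure of the Tate-Shafarevich group, the isogenous curve -/
theorem wi_struct {A B : ℤ} (g1 : A ≠ 0) (g2 : B ≠ 0) (g3 : A ≠ B) (h4 : (Sel A B).ncard ≤ 4) :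
    rk (WI A B) = 0 ∧ ∃ k : ℕ, ∃ φ : (Fin k → ZMod 2) →+ Sha (WI A B),
      Function.Injective φ ∧ ∀ x, x ∈ Set.range φ ↔ ∃ j : ℕ, (2 ^ j) • x = 0 := by
  obtain ⟨-, -, h1⟩ := Pool.Agent.Y676.IS.one Pool.Agent.Y497.IS.lcb Pool.Agent.Y500.IS.lqu
    Pool.Agent.Y500.IS.sqf g1 g2 g3 h4
  have h2 := h1 0
  have e0 : WI (Pool.Agent.Y676.IS.tri 0 A B).1 (Pool.Agent.Y676.IS.tri 0 A B).2 = WI A B := rfl
  rw [e0] at h2
  obtain ⟨-, k, -, φ, hφ1, hφ2⟩ := h2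
  have h5 := (Pool.Agent.Y676.IS.sel4_EQ g1 g2 g3 h4).1
  have h6 := Pool.Agent.R431.NO.rk_WI_le g3 g1 g2
  exact ⟨Nat.le_zero.1 (h6.trans h5.le), k, φ, hφ1, hφ2⟩

/-- the structure of the Tate-Shafarevich group -/
theorem fam_struct {e N : ℤ} (hN : N ≠ 0) (h9 : 9 * e ^ 2 ≠ 4 * N ^ 2)
    (h4 : (Sel (3 * e + 2 * N) (3 * e - 2 * N)).ncard ≤ 4) :
    rk (Shq ((1 : ℤ) ^ 2 * (N ^ 2 - 3 * e ^ 2)) ((1 : ℤ) ^ 3 * (2 * e ^ 3 - N ^ 2 * e))) = 0 ∧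
    ∃ k : ℕ, ∃ φ : (Fin k → ZMod 2) →+ Sha (Shq ((1 : ℤ) ^ 2 * (N ^ 2 - 3 * e ^ 2))
        ((1 : ℤ) ^ 3 * (2 * e ^ 3 - N ^ 2 * e))),
      Function.Injective φ ∧ ∀ x, x ∈ Set.range φ ↔ ∃ j : ℕ, (2 ^ j) • x = 0 := by
  obtain ⟨g1, g2, g3⟩ := ne_fam (one_ne_zero : (1 : ℤ) ≠ 0) hN h9
  have h4' : (Sel (1 * (3 * e + 2 * N)) (1 * (3 * e - 2 * N))).ncard ≤ 4 := by
    rw [one_mul, one_mul]
    exact h4
  obtain ⟨⟨I⟩, hr⟩ := short_iso (del_WI g3 g1 g2)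
  obtain ⟨h0, k, φ, hφ1, hφ2⟩ := wi_struct g1 g2 g3 h4'
  obtain ⟨φ', h7, h8⟩ := transp I φ hφ1 hφ2
  exact ⟨hr.trans h0, k, φ', h7, h8⟩

end Pool.Agent.R421.EK
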