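import Mathlib
import Pool.Agent.R421.EK.Rk4

/-!
# Project EK: minimal models, density one
-/

set_option autoImplicit false
set_option linter.all false
set_option maxHeartbeats 1000000

namespace Pool.Agent.R421.EK

open Finset Filter Topology

open Pool.Agent.R431.NO (OkS typ1)

lemma FM_le {c : ℕ × ℕ} (hc : Cc c) (Y : ℕ) {S S' : Set (ℤ × ℤ)} (h : S ⊆ S') :
    FM c Y S ≤ FM c Y S' :=
  Set.ncard_le_ncard (fun t ht => ⟨ht.1, h ht.2⟩) ((fht_fin hc Y).subset fun t ht => ht.1.1)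

lemma FM_union {c : ℕ × ℕ} (hc : Cc c) (Y : ℕ) (S S' : Set (ℤ × ℤ)) :
    FM c Y (S ∪ S') ≤ FM c Y S + FM c Y S' := by
  unfold FM
  have e : {t : ℤ × ℤ | (Fht c Y t ∧ Mn t) ∧ t ∈ S ∪ S'} =
      {t : ℤ × ℤ | (Fht c Y t ∧ Mn t) ∧ t ∈ S} ∪ {t : ℤ × ℤ | (Fht c Y t ∧ Mn t) ∧ t ∈ S'} := by
    ext t
    simp only [Set.mem_union, Set.mem_setOf_eq]
    tauto
  rw [e]
  exact Set.ncard_union_le _ _

/-- **density one** -/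
theorem mn_big (c : ℕ × ℕ) (hc : Cc c) (D : ℤ) (hD : D ≠ 0) (F : ℤ → ℤ → ℝ) (Q : ℤ → ℤ → Prop)
    (hF : ∀ R : ℕ, ∃ C : ℝ, ∀ (e N : ℤ) (S : ℝ),
      OkS (S - R) (S + R) R (D * (3 * e + 2 * N), D * (3 * e - 2 * N)) → |F e N - S| ≤ C)
    (hQ : ∀ (R : ℕ) (e N : ℤ) (S : ℝ),
      OkS (S - R) (S + R) R (D * (3 * e + 2 * N), D * (3 * e - 2 * N)) → Q e N) (s0 : ℝ) :
    Tendsto (fun Y : ℕ => (FM c Y {t | Q t.1 t.2 ∧ s0 < F t.1 t.2} : ℝ) / (FM c Y Set.univ : ℝ)) atTop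
      (𝓝 1) := by
  classical
  have h0 := mn_zero c hc D hD F Q hF hQ s0
  rw [Metric.tendsto_atTop] at h0 ⊢
  intro ε hε
  obtain ⟨Y1, h1⟩ := h0 (ε / 2) (by positivity)
  obtain ⟨R, Y2, h2⟩ := mn_tight (n := 1) 0 c hc (fun _ => D) (fun _ => hD)
    (fun l m h => absurd (Subsingleton.elim l m) h) (ε / 4) (by positivity)
  refine ⟨Y1 + Y2, fun Y hY => ?_⟩
  have h3 := h1 Y (by omega)
  obtain ⟨h4, h5⟩ := h2 Y (by omega)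
  have h6 := h5 {t | Q t.1 t.2} (fun t ht => by
    obtain ⟨S, hS⟩ := ht (0, 0)
    exact hQ R t.1 t.2 S hS)
  have h7 : FM c Y {t | Q t.1 t.2} ≤ FM c Y {t | Q t.1 t.2 ∧ s0 < F t.1 t.2} +
      FM c Y {t | Q t.1 t.2 ∧ F t.1 t.2 ≤ s0} := by
    refine (FM_le hc Y ?_).trans (FM_union hc Y _ _)
    intro t ht
    rcases le_or_gt (F t.1 t.2) s0 with h | h
    · exact Or.inr ⟨ht, h⟩
    · exact Or.inl ⟨ht, h⟩
  have h8 : FM c Y {t | Q t.1 t.2 ∧ s0 < F t.1 t.2} ≤ FM c Y Set.univ :=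
    FM_le hc Y (Set.subset_univ _)
  have hpos : (0 : ℝ) < FM c Y Set.univ := by exact_mod_cast h4
  rw [Real.dist_eq, sub_zero] at h3
  have h3' := (abs_lt.1 h3).2
  rw [div_lt_iff₀ hpos] at h3'
  have h7' : (FM c Y {t | Q t.1 t.2} : ℝ) ≤ (FM c Y {t | Q t.1 t.2 ∧ s0 < F t.1 t.2} : ℝ) +
      (FM c Y {t | Q t.1 t.2 ∧ F t.1 t.2 ≤ s0} : ℝ) := by exact_mod_cast h7
  have h8' : (FM c Y {t | Q t.1 t.2 ∧ s0 < F t.1 t.2} : ℝ) ≤ (FM c Y Set.univ : ℝ) := by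
    exact_mod_cast h8
  rw [Real.dist_eq]
  obtain ⟨u, hu⟩ : ∃ u : ℝ, u = (FM c Y {t | Q t.1 t.2 ∧ s0 < F t.1 t.2} : ℝ) := ⟨_, rfl⟩
  obtain ⟨v, hv⟩ : ∃ v : ℝ, v = (FM c Y Set.univ : ℝ) := ⟨_, rfl⟩
  rw [← hu, ← hv] at h8' ⊢
  rw [← hu] at h7'
  rw [← hv] at h6 h3' hpos
  have e : u / v - 1 = -((v - u) / v) := by field_simp; ring
  rw [e, abs_neg, abs_of_nonneg (div_nonneg (by linarith) hpos.le), div_lt_iff₀ hpos]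
  nlinarith

end Pool.Agent.R421.EK
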